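import Pool.Agent.DBar74.Basic2

open MeasureTheory Complex Filter Topology
open scoped ContDiff ComplexConjugate

namespace Pool.Agent.DBar74

variable {n : ℕ}

section radial

lemma line_ibp {R R' : (Fin n → ℂ) → ℝ} {g : (Fin n → ℂ) → ℂ} {d : Fin n → ℂ}
    (hRc : Continuous R) (hR'c : Continuous R')
    (hR : ∀ x ∈ tsupport g, HasLineDerivAt ℝ R (R' x) x d) (hg : ContDiff ℝ ∞ g)
    (hgc : HasCompactSupport g) :
    ∫ x, (R x : ℂ) * fderiv ℝ g x d = - ∫ x, (R' x : ℂ) * g x := by
  have hcd : Continuous (fun x => fderiv ℝ g x d) := (contDiff_fderiv_apply hg d).continuous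
  have hdc : HasCompactSupport (fun x => fderiv ℝ g x d) := hgc.fderiv_apply ℝ d
  have h1 : Continuous (fun x => (R x : ℂ)) := Complex.continuous_ofReal.comp hRc
  have h2 : Continuous (fun x => (R' x : ℂ)) := Complex.continuous_ofReal.comp hR'c
  have h := integral_bilinear_hasLineDerivAt_right_eq_neg_left_of_integrable (μ := volume)
    (f := fun x => (R x : ℂ)) (f' := fun x => (R' x : ℂ)) (g := g)
    (g' := fun x => fderiv ℝ g x d) (v := d)
    (B := ContinuousLinearMap.mul ℝ ℂ)
    (by
      simp only [ContinuousLinearMap.mul_apply']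
      exact (h2.mul hg.continuous).integrable_of_hasCompactSupport hgc.mul_left)
    (by
      simp only [ContinuousLinearMap.mul_apply']
      exact (h1.mul hcd).integrable_of_hasCompactSupport hdc.mul_left)
    (by
      simp only [ContinuousLinearMap.mul_apply']
      exact (h1.mul hg.continuous).integrable_of_hasCompactSupport hgc.mul_left)
    (fun x hx => (hR x hx).ofReal_comp)
    (fun x _ => (differentiable_of_smooth hg x).hasFDerivAt.hasLineDerivAt d)
  simpa using h

variable {R om gg : (Fin n → ℂ) → ℝ} {v : (Fin n → ℂ) → ℂ} {e : Fin n}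

/-- hypothesis package for the radial primitive -/
def RadPrim (e : Fin n) (K : Set (Fin n → ℂ)) (R om : (Fin n → ℂ) → ℝ) : Prop :=
  Continuous R ∧ ∀ x ∈ K, HasLineDerivAt ℝ R (-2 * (x e).re * om x) x (Pi.single e 1) ∧
    HasLineDerivAt ℝ R (-2 * (x e).im * om x) x (Pi.single e I)

lemma radial_dzb {K : Set (Fin n → ℂ)} (hR : RadPrim e K R om) (hom : Continuous om)
    {g : (Fin n → ℂ) → ℂ} (hg : ContDiff ℝ ∞ g) (hgc : HasCompactSupport g) (hK : tsupport g ⊆ K) :
    ∫ x, (R x : ℂ) * dzb e g x = ∫ x, x e * om x * g x := by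
  obtain ⟨hRc, hRd⟩ := hR
  have h1 : Continuous (fun x => (R x : ℂ)) := Complex.continuous_ofReal.comp hRc
  have hre : Continuous (fun x : Fin n → ℂ => (x e).re) :=
    Complex.continuous_re.comp (continuous_apply e)
  have him : Continuous (fun x : Fin n → ℂ => (x e).im) :=
    Complex.continuous_im.comp (continuous_apply e)
  have a1 := line_ibp (R := R) (R' := fun x => -2 * (x e).re * om x) (g := g) hRc
    ((continuous_const.mul hre).mul hom) (fun x hx => (hRd x (hK hx)).1) hg hgc
  have a2 := line_ibp (R := R) (R' := fun x => -2 * (x e).im * om x) (g := g) hRc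
    ((continuous_const.mul him).mul hom) (fun x hx => (hRd x (hK hx)).2) hg hgc
  have i1 : ∀ d : Fin n → ℂ, Integrable (fun x => (R x : ℂ) * fderiv ℝ g x d) := fun d =>
    (h1.mul (contDiff_fderiv_apply hg d).continuous).integrable_of_hasCompactSupport
      (hgc.fderiv_apply ℝ d).mul_left
  have e1 : ∫ x, (R x : ℂ) * dzb e g x
      = (1 / 2) * (∫ x, (R x : ℂ) * fderiv ℝ g x (Pi.single e 1))
        + (1 / 2) * (I * ∫ x, (R x : ℂ) * fderiv ℝ g x (Pi.single e I)) := by
    rw [← integral_const_mul, ← integral_const_mul, ← integral_const_mul, ← integral_add]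
    · congr 1; ext x; unfold dzb; ring
    · exact (i1 _).const_mul _
    · exact ((i1 _).const_mul _).const_mul _
  rw [e1, a1, a2]
  have j1 : ∀ c : (Fin n → ℂ) → ℝ, Continuous c → Integrable (fun x => ((c x : ℝ) : ℂ) * g x) :=
    fun c hc => ((Complex.continuous_ofReal.comp hc).mul
      hg.continuous).integrable_of_hasCompactSupport hgc.mul_left
  rw [← integral_neg, ← integral_neg, ← integral_const_mul, ← integral_const_mul,
    ← integral_const_mul, ← integral_add]
  · congr 1; ext x
    push_cast
    conv_rhs => rw [← Complex.re_add_im (x e)]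
    ring
  · exact ((j1 _ ((continuous_const.mul hre).mul hom)).neg).const_mul _
  · exact (((j1 _ ((continuous_const.mul him).mul hom)).neg).const_mul _).const_mul _

lemma radial_dz {K : Set (Fin n → ℂ)} (hR : RadPrim e K R om) (hom : Continuous om)
    {g : (Fin n → ℂ) → ℂ} (hg : ContDiff ℝ ∞ g) (hgc : HasCompactSupport g) (hK : tsupport g ⊆ K) :
    ∫ x, (R x : ℂ) * dz e g x = ∫ x, conj (x e) * om x * g x := by
  have hcg : ContDiff ℝ ∞ (fun x => conj (g x)) := contDiff_conj_comp hg
  have hcs : HasCompactSupport (fun x => conj (g x)) :=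
    hgc.comp_left (g := fun z : ℂ => conj z) (by simp)
  have hts : tsupport (fun x => conj (g x)) ⊆ K := by
    refine Set.Subset.trans ?_ hK
    exact closure_mono (fun x hx => by
      simp only [Function.mem_support, ne_eq] at hx ⊢
      intro h; apply hx; rw [h]; simp)
  have h := congrArg conj (radial_dzb (K := K) hR hom hcg hcs hts)
  rw [← integral_conj, ← integral_conj] at h
  simp only [map_mul, conj_ofReal, Complex.conj_conj] at h
  rw [← h]
  congr 1; ext x
  rw [dzb_conj (differentiable_of_smooth hg x), Complex.conj_conj]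

lemma fderiv_coord (e : Fin n) (x d : Fin n → ℂ) :
    fderiv ℝ (fun y : Fin n → ℂ => y e) x d = d e := by
  have : HasFDerivAt (fun y : Fin n → ℂ => y e) (ContinuousLinearMap.proj (R := ℝ) e) x :=
    (ContinuousLinearMap.proj (R := ℝ) (φ := fun _ : Fin n => ℂ) e).hasFDerivAt
  rw [this.fderiv]; rfl

lemma contDiff_coord (e : Fin n) : ContDiff ℝ ∞ (fun y : Fin n → ℂ => y e) :=
  (ContinuousLinearMap.proj (R := ℝ) (φ := fun _ : Fin n => ℂ) e).contDiff

lemma dz_coord (e : Fin n) (x : Fin n → ℂ) : dz e (fun y : Fin n → ℂ => y e) x = 1 := by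
  unfold dz
  rw [fderiv_coord, fderiv_coord]
  simp only [Pi.single_eq_same]
  rw [I_mul_I]; norm_num

lemma coord_mul_dz (hom : ContDiff ℝ ∞ om) (x : Fin n → ℂ)
    (hrad : fderiv ℝ om x (Pi.single e (I * x e)) = 0) :
    x e * dz e (cx om) x = (((1 / 2) * fderiv ℝ om x (Pi.single e (x e)) : ℝ) : ℂ) := by
  have h := sum_mul_dz (cx om) x (Pi.single e (x e))
  have hs : I • (Pi.single e (x e) : Fin n → ℂ) = Pi.single e (I * x e) := by
    ext i
    by_cases hi : i = e
    · subst hi; simp
    · simp [Pi.single_eq_of_ne hi]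
  rw [Finset.sum_eq_single e] at h
  · rw [Pi.single_eq_same] at h
    rw [h, fderiv_cx ((hom.differentiable (by simp)) x), fderiv_cx ((hom.differentiable (by simp)) x),
      hs, hrad]
    push_cast; ring
  · intro b _ hb; rw [Pi.single_eq_of_ne hb]; simp
  · simp

theorem radial_estimate {K : Set (Fin n → ℂ)} {eta : ℝ} (hR : RadPrim e K R om)
    (hom : ContDiff ℝ ∞ om)
    (hv : ContDiff ℝ ∞ v) (hvc : HasCompactSupport v) (hK : tsupport v ⊆ K)
    (hrad : ∀ x ∈ tsupport v, fderiv ℝ om x (Pi.single e (I * x e)) = 0)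
    (hom0 : ∀ x ∈ tsupport v, 0 ≤ om x) (hR0 : ∀ x ∈ tsupport v, 0 ≤ R x)
    (hRom : ∀ x ∈ tsupport v, R x ≤ eta ^ 2 * om x)
    (homz : ∀ x ∈ tsupport v, om x * ‖x e‖ ^ 2 ≤ eta ^ 2 * om x) :
    (1 / 2) * ∫ x, om x * ‖v x‖ ^ 2 ≤
      (∫ x, (-(1 / 2) * fderiv ℝ om x (Pi.single e (x e))) * ‖v x‖ ^ 2)
        + 3 * eta ^ 2 * ∫ x, om x * ‖dzb e v x‖ ^ 2 := by
  have hRc : Continuous R := hR.1
  have hv' := contDiff_conj_comp hv
  have hcom : ContDiff ℝ ∞ (cx om) := contDiff_ofReal_comp hom
  have hdv := contDiff_dz hv e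
  have hdbv := contDiff_dzb hv e
  have hvc' : HasCompactSupport (fun x => conj (v x)) :=
    hvc.comp_left (g := fun z : ℂ => conj z) (by simp)
  -- the three integrations by parts
  have b1 : ∫ x, dz e (fun y => y e * (cx om y * (v y * conj (v y)))) x = 0 := by
    apply integral_dz_eq_zero
    · exact ((contDiff_coord e).mul (hcom.mul (hv.mul hv'))).of_le (by simp)
    · exact ((hvc.mul_right).mul_left).mul_left
  have t1 : tsupport (fun x => dz e v x * conj (v x)) ⊆ K :=
    (tsupport_mul_subset_left.trans tsupport_dz_subset).trans hK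
  have t2 : tsupport (fun x => dzb e v x * conj (v x)) ⊆ K :=
    (tsupport_mul_subset_left.trans tsupport_dzb_subset).trans hK
  have b2 := radial_dzb hR hom.continuous (hdv.mul hv') (HasCompactSupport.dz hvc e).mul_right t1
  have b3 := radial_dz hR hom.continuous (hdbv.mul hv') (HasCompactSupport.dzb hvc e).mul_right t2
  have i1 : Integrable (fun x => dz e (fun y => y e * (cx om y * (v y * conj (v y)))) x) := by
    apply Continuous.integrable_of_hasCompactSupport
    · exact (contDiff_dz ((contDiff_coord e).mul (hcom.mul (hv.mul hv'))) e).continuous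
    · exact HasCompactSupport.dz ((hvc.mul_right).mul_left).mul_left e
  have hRcc : Continuous (fun x => (R x : ℂ)) := Complex.continuous_ofReal.comp hRc
  have hoc : Continuous (fun x => (om x : ℂ)) := Complex.continuous_ofReal.comp hom.continuous
  have hxe : Continuous (fun x : Fin n → ℂ => x e) := continuous_apply e
  have hxe' : Continuous (fun x : Fin n → ℂ => conj (x e)) := Complex.continuous_conj.comp hxe
  have i2 : Integrable (fun x => (R x : ℂ) * dzb e (fun y => dz e v y * conj (v y)) x) := by
    apply Continuous.integrable_of_hasCompactSupport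
    · exact hRcc.mul (contDiff_dzb (hdv.mul hv') e).continuous
    · exact (HasCompactSupport.dzb (HasCompactSupport.dz hvc e).mul_right e).mul_left
  have i3 : Integrable (fun x => (R x : ℂ) * dz e (fun y => dzb e v y * conj (v y)) x) := by
    apply Continuous.integrable_of_hasCompactSupport
    · exact hRcc.mul (contDiff_dz (hdbv.mul hv') e).continuous
    · exact (HasCompactSupport.dz (HasCompactSupport.dzb hvc e).mul_right e).mul_left
  have i4 : Integrable (fun x => x e * om x * (dz e v x * conj (v x))) := by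
    apply Continuous.integrable_of_hasCompactSupport
    · exact (hxe.mul hoc).mul (hdv.mul hv').continuous
    · exact ((HasCompactSupport.dz hvc e).mul_right).mul_left
  have i5 : Integrable (fun x => conj (x e) * om x * (dzb e v x * conj (v x))) := by
    apply Continuous.integrable_of_hasCompactSupport
    · exact (hxe'.mul hoc).mul (hdbv.mul hv').continuous
    · exact ((HasCompactSupport.dzb hvc e).mul_right).mul_left
  have hfo : Continuous (fun x => fderiv ℝ om x (Pi.single e (x e))) := by
    have h1 : Continuous (fderiv ℝ om) := hom.continuous_fderiv (by simp)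
    refine h1.clm_apply ?_
    exact (continuous_single (A := fun _ : Fin n => ℂ) e).comp hxe
  -- the total integrand
  have tot : ∫ x, (dz e (fun y => y e * (cx om y * (v y * conj (v y)))) x
      + ((R x : ℂ) * dzb e (fun y => dz e v y * conj (v y)) x - x e * om x * (dz e v x * conj (v x)))
      - ((R x : ℂ) * dz e (fun y => dzb e v y * conj (v y)) x
        - conj (x e) * om x * (dzb e v x * conj (v x)))) = 0 := by
    have h : (∫ x, dz e (fun y => y e * (cx om y * (v y * conj (v y)))) x)
      + ((∫ x, (R x : ℂ) * dzb e (fun y => dz e v y * conj (v y)) x)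
        - ∫ x, x e * om x * (dz e v x * conj (v x)))
      - ((∫ x, (R x : ℂ) * dz e (fun y => dzb e v y * conj (v y)) x)
        - ∫ x, conj (x e) * om x * (dzb e v x * conj (v x))) = 0 := by
      rw [b1, b2, b3]; ring
    rw [← integral_sub i2 i4, ← integral_sub i3 i5] at h
    erw [← integral_add i1 (i2.sub i4)] at h
    erw [← integral_sub (i1.add (i2.sub i4)) (i3.sub i5)] at h
    exact h
  have hn : ∀ z : ℂ, z * conj z = ((‖z‖ ^ 2 : ℝ) : ℂ) := by
    intro z; rw [Complex.mul_conj, Complex.normSq_eq_norm_sq]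
  have pt : ∀ x, (dz e (fun y => y e * (cx om y * (v y * conj (v y)))) x
      + ((R x : ℂ) * dzb e (fun y => dz e v y * conj (v y)) x - x e * om x * (dz e v x * conj (v x)))
      - ((R x : ℂ) * dz e (fun y => dzb e v y * conj (v y)) x
        - conj (x e) * om x * (dzb e v x * conj (v x))))
      = ((om x * ‖v x‖ ^ 2 + (1 / 2) * fderiv ℝ om x (Pi.single e (x e)) * ‖v x‖ ^ 2
        + R x * ‖dz e v x‖ ^ 2 - R x * ‖dzb e v x‖ ^ 2
        + 2 * (conj (x e) * om x * (dzb e v x * conj (v x))).re : ℝ) : ℂ) := by
    intro x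
    by_cases hx : x ∈ tsupport v
    · have d1 : dz e (fun y => y e * (cx om y * (v y * conj (v y)))) x
          = om x * (v x * conj (v x)) + (x e * dz e (cx om) x) * (v x * conj (v x))
            + x e * om x * (dz e v x * conj (v x)) + x e * om x * (v x * conj (dzb e v x)) := by
        rw [dz_mul (differentiable_of_smooth (contDiff_coord e) x)
          (differentiable_of_smooth (hcom.mul (hv.mul hv')) x),
          dz_mul (differentiable_of_smooth hcom x) (differentiable_of_smooth (hv.mul hv') x),
          dz_mul (differentiable_of_smooth hv x) (differentiable_of_smooth hv' x),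
          dz_conj (differentiable_of_smooth hv x), dz_coord]
        simp only [cx]; ring
      have d2 : dzb e (fun y => dz e v y * conj (v y)) x
          = dzb e (dz e v) x * conj (v x) + dz e v x * conj (dz e v x) := by
        rw [dzb_mul (differentiable_of_smooth hdv x) (differentiable_of_smooth hv' x),
          dzb_conj (differentiable_of_smooth hv x)]
      have d3 : dz e (fun y => dzb e v y * conj (v y)) x
          = dz e (dzb e v) x * conj (v x) + dzb e v x * conj (dzb e v x) := by
        rw [dz_mul (differentiable_of_smooth hdbv x) (differentiable_of_smooth hv' x),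
          dz_conj (differentiable_of_smooth hv x)]
      rw [d1, d2, d3, coord_mul_dz hom x (hrad x hx), dz_dzb_comm hv]
      have hre : ∀ z : ℂ, ((2 * z.re : ℝ) : ℂ) = z + conj z := by
        intro z; rw [Complex.add_conj]
      have e5 : ((2 * (conj (x e) * om x * (dzb e v x * conj (v x))).re : ℝ) : ℂ)
          = conj (x e) * om x * (dzb e v x * conj (v x))
            + x e * om x * (v x * conj (dzb e v x)) := by
        rw [hre]; simp only [map_mul, Complex.conj_conj, conj_ofReal]; ring
      rw [Complex.ofReal_add, e5]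
      have e6 := hn (v x)
      have e7 := hn (dz e v x)
      have e8 := hn (dzb e v x)
      simp only [Complex.ofReal_add, Complex.ofReal_sub, Complex.ofReal_mul, ← e6, ← e7, ← e8]
      ring
    · have h0 := eq_zero_nhds hx
      have h1 : dz e v x = 0 := dz_zero_of h0.2
      have h2 : dzb e v x = 0 := dzb_zero_of h0.2
      have z1 : dz e (fun y => y e * (cx om y * (v y * conj (v y)))) x = 0 := by
        by_contra hne
        have : x ∈ tsupport (fun y => y e * (cx om y * (v y * conj (v y)))) := support_dz_subset hne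
        apply hx
        exact (tsupport_mul_subset_left (f := v) (g := fun y => conj (v y)))
          (tsupport_mul_subset_right (f := cx om) (g := fun y => v y * conj (v y))
            (tsupport_mul_subset_right (f := fun y : Fin n → ℂ => y e)
              (g := fun y => cx om y * (v y * conj (v y))) this))
      have z2 : dzb e (fun y => dz e v y * conj (v y)) x = 0 := by
        by_contra hne
        have := support_dzb_subset hne
        exact hx (tsupport_dz_subset (tsupport_mul_subset_left (f := dz e v)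
          (g := fun y => conj (v y)) this))
      have z3 : dz e (fun y => dzb e v y * conj (v y)) x = 0 := by
        by_contra hne
        have := support_dz_subset hne
        exact hx (tsupport_dzb_subset (tsupport_mul_subset_left (f := dzb e v)
          (g := fun y => conj (v y)) this))
      rw [z1, z2, z3, h1, h2, h0.1]; simp
  simp_rw [pt] at tot
  rw [integral_complex_ofReal] at tot
  have tot' := Complex.ofReal_eq_zero.1 tot
  have hvn : Continuous (fun x => ‖v x‖ ^ 2) := (hv.continuous.norm).pow 2
  have hvnc : HasCompactSupport (fun x => ‖v x‖ ^ 2) :=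
    (hvc.norm).comp_left (g := fun t : ℝ => t ^ 2) (by simp)
  have j1 : Integrable (fun x => om x * ‖v x‖ ^ 2) :=
    (hom.continuous.mul hvn).integrable_of_hasCompactSupport hvnc.mul_left
  have j2 : Integrable (fun x => (-(1 / 2) * fderiv ℝ om x (Pi.single e (x e))) * ‖v x‖ ^ 2) :=
    ((continuous_const.mul hfo).mul hvn).integrable_of_hasCompactSupport hvnc.mul_left
  have hbn : Continuous (fun x => ‖dzb e v x‖ ^ 2) := (hdbv.continuous.norm).pow 2
  have hbnc : HasCompactSupport (fun x => ‖dzb e v x‖ ^ 2) :=
    ((HasCompactSupport.dzb hvc e).norm).comp_left (g := fun t : ℝ => t ^ 2) (by simp)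
  have j3 : Integrable (fun x => om x * ‖dzb e v x‖ ^ 2) :=
    (hom.continuous.mul hbn).integrable_of_hasCompactSupport hbnc.mul_left
  have jt : Integrable (fun x => om x * ‖v x‖ ^ 2
        + (1 / 2) * fderiv ℝ om x (Pi.single e (x e)) * ‖v x‖ ^ 2
        + R x * ‖dz e v x‖ ^ 2 - R x * ‖dzb e v x‖ ^ 2
        + 2 * (conj (x e) * om x * (dzb e v x * conj (v x))).re) := by
    have hi := ((i1.add (i2.sub i4)).sub (i3.sub i5))
    have hi' : Integrable (fun x => ((om x * ‖v x‖ ^ 2
        + (1 / 2) * fderiv ℝ om x (Pi.single e (x e)) * ‖v x‖ ^ 2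
        + R x * ‖dz e v x‖ ^ 2 - R x * ‖dzb e v x‖ ^ 2
        + 2 * (conj (x e) * om x * (dzb e v x * conj (v x))).re : ℝ) : ℂ)) := by
      refine hi.congr (Eventually.of_forall fun x => ?_)
      exact pt x
    have hr := hi'.re
    simpa only [RCLike.re_to_complex, Complex.ofReal_re] using hr
  have key : ∀ x, (1 / 2) * (om x * ‖v x‖ ^ 2)
      - (-(1 / 2) * fderiv ℝ om x (Pi.single e (x e))) * ‖v x‖ ^ 2
      - 3 * eta ^ 2 * (om x * ‖dzb e v x‖ ^ 2) ≤ om x * ‖v x‖ ^ 2
        + (1 / 2) * fderiv ℝ om x (Pi.single e (x e)) * ‖v x‖ ^ 2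
        + R x * ‖dz e v x‖ ^ 2 - R x * ‖dzb e v x‖ ^ 2
        + 2 * (conj (x e) * om x * (dzb e v x * conj (v x))).re := by
    intro x
    by_cases hx : x ∈ tsupport v
    · have a1 := hom0 x hx
      have a2 := hR0 x hx
      have a3 := hRom x hx
      have a4 := homz x hx
      have c1 : |(conj (x e) * om x * (dzb e v x * conj (v x))).re|
          ≤ ‖x e‖ * om x * (‖dzb e v x‖ * ‖v x‖) := by
        refine (Complex.abs_re_le_norm _).trans ?_
        rw [norm_mul, norm_mul, norm_mul, RCLike.norm_conj, RCLike.norm_conj, Complex.norm_real,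
          Real.norm_eq_abs, abs_of_nonneg a1]
      have c2 := neg_abs_le (conj (x e) * om x * (dzb e v x * conj (v x))).re
      have n1 := norm_nonneg (x e)
      have n2 := norm_nonneg (dzb e v x)
      have n3 := norm_nonneg (v x)
      have n4 : 0 ≤ R x * ‖dz e v x‖ ^ 2 := by positivity
      have n5 : R x * ‖dzb e v x‖ ^ 2 ≤ eta ^ 2 * om x * ‖dzb e v x‖ ^ 2 :=
        mul_le_mul_of_nonneg_right a3 (by positivity)
      have n6 : om x * ‖x e‖ ^ 2 * ‖dzb e v x‖ ^ 2 ≤ eta ^ 2 * om x * ‖dzb e v x‖ ^ 2 :=
        mul_le_mul_of_nonneg_right a4 (by positivity)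
      -- 2 a b ≤ a²/2 + 2 b²
      have n7 : 2 * (‖x e‖ * om x * (‖dzb e v x‖ * ‖v x‖))
          ≤ (1 / 2) * (om x * ‖v x‖ ^ 2) + 2 * (om x * ‖x e‖ ^ 2 * ‖dzb e v x‖ ^ 2) := by
        have := mul_nonneg a1 (sq_nonneg (‖v x‖ - 2 * (‖x e‖ * ‖dzb e v x‖)))
        nlinarith [this]
      nlinarith [c1, c2, n4, n5, n6, n7]
    · have h0 := eq_zero_nhds hx
      have h1 : dz e v x = 0 := dz_zero_of h0.2
      have h2 : dzb e v x = 0 := dzb_zero_of h0.2
      rw [h1, h2, h0.1]; simp
  have hm := integral_mono ((j1.const_mul (1/2)).sub j2 |>.sub (j3.const_mul (3 * eta ^ 2))) jt key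
  rw [tot'] at hm
  simp only [Pi.sub_apply] at hm
  erw [integral_sub ((j1.const_mul (1/2)).sub j2) (j3.const_mul (3 * eta ^ 2))] at hm
  erw [integral_sub (j1.const_mul (1/2)) j2] at hm
  rw [integral_const_mul, integral_const_mul] at hm
  linarith

end radial

end Pool.Agent.DBar74
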