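import Pool.Agent.DBar74.Calc

open MeasureTheory Complex Filter Topology
open scoped ContDiff ComplexConjugate

namespace Pool.Agent.DBar74

variable {n : ℕ}

/-- `e^{ψ}` times the weighted adjoint in the three weight setting -/
noncomputable def Dop (φ ψ : (Fin n → ℂ) → ℝ) (F : Fin n → (Fin n → ℂ) → ℂ) (x : Fin n → ℂ) : ℂ :=
  ∑ j, dl φ j (F j) x - ∑ j, dz j (cx ψ) x * F j x

/-- the squared length of the conjugate exterior derivative -/
noncomputable def Sop (F : Fin n → (Fin n → ℂ) → ℂ) (x : Fin n → ℂ) : ℝ :=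
  (1 / 2) * ∑ j, ∑ k, ‖dzb j (F k) x - dzb k (F j) x‖ ^ 2

/-- the full conjugate gradient -/
noncomputable def Grd (F : Fin n → (Fin n → ℂ) → ℂ) (x : Fin n → ℂ) : ℝ :=
  ∑ j, ∑ k, ‖dzb k (F j) x‖ ^ 2

lemma Sop_nonneg (F : Fin n → (Fin n → ℂ) → ℂ) (x : Fin n → ℂ) : 0 ≤ Sop F x := by
  unfold Sop; positivity

lemma Grd_nonneg (F : Fin n → (Fin n → ℂ) → ℂ) (x : Fin n → ℂ) : 0 ≤ Grd F x := by
  unfold Grd; positivity

lemma two_le_infty : (2 : WithTop ℕ∞) ≤ ∞ := WithTop.coe_le_coe.2 le_top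

lemma contDiffAt_two {k : (Fin n → ℂ) → ℝ} (hk : ContDiff ℝ ∞ k) (x : Fin n → ℂ) :
    ContDiffAt ℝ 2 k x := (hk.contDiffAt (x := x)).of_le two_le_infty

section est

variable {φ ψ lam : (Fin n → ℂ) → ℝ} {F : Fin n → (Fin n → ℂ) → ℂ}

lemma eq_zero_nhds {f : (Fin n → ℂ) → ℂ} {x : Fin n → ℂ} (h : x ∉ tsupport f) :
    f x = 0 ∧ fderiv ℝ f x = 0 := by
  constructor
  · by_contra h'; exact h (subset_tsupport _ h')
  · by_contra h'; exact h (support_fderiv_subset ℝ h')

/-- a function built pointwise from the values and first derivatives of `F` has compact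
support -/
lemma hasCompactSupport_of_local {V : Type*} [Zero V] (hc : ∀ j, HasCompactSupport (F j))
    {g : (Fin n → ℂ) → V}
    (hg : ∀ x, (∀ j, F j x = 0) → (∀ j, fderiv ℝ (F j) x = 0) → g x = 0) :
    HasCompactSupport g := by
  have hK : IsCompact (⋃ j, tsupport (F j)) := isCompact_iUnion hc
  apply HasCompactSupport.intro hK
  intro x hx
  have h : ∀ j, x ∉ tsupport (F j) := fun j hj => hx (Set.mem_iUnion.2 ⟨j, hj⟩)
  exact hg x (fun j => (eq_zero_nhds (h j)).1) (fun j => (eq_zero_nhds (h j)).2)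

lemma continuous_Dop (hφ : ContDiff ℝ ∞ φ) (hψ : ContDiff ℝ ∞ ψ) (hF : ∀ j, ContDiff ℝ ∞ (F j)) :
    Continuous (Dop φ ψ F) := by
  unfold Dop
  refine Continuous.sub ?_ ?_
  · exact continuous_finsetSum _ fun j _ => (contDiff_dl hφ (hF j) j).continuous
  · exact continuous_finsetSum _ fun j _ =>
      ((contDiff_dz (contDiff_ofReal_comp hψ) j).mul (hF j)).continuous

lemma continuous_Sop (hF : ∀ j, ContDiff ℝ ∞ (F j)) : Continuous (Sop F) := by
  unfold Sop
  refine continuous_const.mul ?_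
  refine continuous_finsetSum _ fun j _ => continuous_finsetSum _ fun k _ => ?_
  exact ((((contDiff_dzb (hF k) j).sub (contDiff_dzb (hF j) k)).continuous).norm).pow 2

lemma continuous_Grd (hF : ∀ j, ContDiff ℝ ∞ (F j)) : Continuous (Grd F) := by
  unfold Grd
  refine continuous_finsetSum _ fun j _ => continuous_finsetSum _ fun k _ => ?_
  exact (((contDiff_dzb (hF j) k).continuous).norm).pow 2

lemma dz_zero_of {f : (Fin n → ℂ) → ℂ} {x : Fin n → ℂ} {j : Fin n} (h : fderiv ℝ f x = 0) :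
    dz j f x = 0 := by simp [dz, h]

lemma dzb_zero_of {f : (Fin n → ℂ) → ℂ} {x : Fin n → ℂ} {j : Fin n} (h : fderiv ℝ f x = 0) :
    dzb j f x = 0 := by simp [dzb, h]

lemma Dop_zero_of {x : Fin n → ℂ} (h : ∀ j, F j x = 0) (h' : ∀ j, fderiv ℝ (F j) x = 0) :
    Dop φ ψ F x = 0 := by
  unfold Dop dl
  simp [h, dz_zero_of (h' _)]

lemma Sop_zero_of {x : Fin n → ℂ} (h' : ∀ j, fderiv ℝ (F j) x = 0) : Sop F x = 0 := by
  unfold Sop
  simp [dzb_zero_of (h' _)]

lemma Grd_zero_of {x : Fin n → ℂ} (h' : ∀ j, fderiv ℝ (F j) x = 0) : Grd F x = 0 := by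
  unfold Grd
  simp [dzb_zero_of (h' _)]

lemma Lev_zero_of {k : (Fin n → ℂ) → ℝ} {x : Fin n → ℂ} (h : ∀ j, F j x = 0) :
    Lev k x (fun j => F j x) = 0 := by
  have : (fun j => F j x) = 0 := by ext j; exact h j
  rw [this, Lev_zero]

lemma Gam_zero_of {k : (Fin n → ℂ) → ℝ} {x : Fin n → ℂ} (h : ∀ j, F j x = 0) :
    Gam k x (fun j => F j x) = 0 := by
  have : (fun j => F j x) = 0 := by ext j; exact h j
  rw [this, Gam_zero]

lemma dl_add_weight (hφ : ContDiff ℝ ∞ φ) (hlam : ContDiff ℝ ∞ lam) (j : Fin n)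
    (f : (Fin n → ℂ) → ℂ) (x : Fin n → ℂ) :
    dl (fun y => φ y + lam y) j f x = dl φ j f x + dz j (cx lam) x * f x := by
  have h : cx (fun y => φ y + lam y) = fun y => cx φ y + cx lam y := by
    ext y; simp [cx]
  unfold dl
  rw [h, dz_add (differentiable_of_smooth (contDiff_ofReal_comp hφ) x)
    (differentiable_of_smooth (contDiff_ofReal_comp hlam) x)]
  ring

lemma norm_sq_add_three_le (a b c : ℂ) : ‖a + b + c‖ ^ 2 ≤ 3 * ‖a‖ ^ 2 + 3 * ‖b‖ ^ 2 + 3 * ‖c‖ ^ 2 := by
  have h1 : ‖a + b + c‖ ≤ ‖a‖ + ‖b‖ + ‖c‖ := norm_add₃_le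
  have h0 := norm_nonneg (a + b + c)
  nlinarith [sq_nonneg (‖a‖ - ‖b‖), sq_nonneg (‖a‖ - ‖c‖), sq_nonneg (‖b‖ - ‖c‖)]

theorem basic_estimate (hφ : ContDiff ℝ ∞ φ) (hψ : ContDiff ℝ ∞ ψ) (hlam : ContDiff ℝ ∞ lam)
    (hF : ∀ j, ContDiff ℝ ∞ (F j)) (hc : ∀ j, HasCompactSupport (F j))
    {P : (Fin n → ℂ) → ℝ} (hPc : Continuous P) (hP0 : ∀ x, 0 ≤ P x)
    (hP : ∀ x, P x ≤ Lev φ x (fun j => F j x) - 3 * Gam ψ x (fun j => F j x))
    (hlam1 : ∀ x, 6 * Gam lam x (fun j => F j x) ≤ Lev lam x (fun j => F j x))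
    (hlam2 : ∀ x, (∃ j, x ∈ tsupport (F j)) → 0 ≤ lam x ∧ lam x ≤ 1 / 2) :
    ∫ x, (Grd F x + (1 / 4) * P x + (1 / 8) * Lev lam x (fun j => F j x)) * Real.exp (-φ x)
      ≤ 6 * ∫ x, (‖Dop φ ψ F x‖ ^ 2 + Sop F x) * Real.exp (-φ x) := by
  have hΦ : ContDiff ℝ ∞ (fun y => φ y + lam y) := hφ.add hlam
  have hk := kmh hΦ hF hc
  have hFc : ∀ j, Continuous (F j) := fun j => (hF j).continuous
  have hexp : Continuous (fun x => Real.exp (-φ x)) := (Real.continuous_exp.comp hφ.continuous.neg)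
  have hexp' : Continuous (fun x => Real.exp (-(φ x + lam x))) :=
    (Real.continuous_exp.comp hΦ.continuous.neg)
  have cs := fun (g : (Fin n → ℂ) → ℝ) (hg) => hasCompactSupport_of_local (F := F) (g := g) hc hg
  have hPz : ∀ x, (∀ j, F j x = 0) → P x = 0 := by
    intro x h
    have := hP x
    rw [Lev_zero_of h, Gam_zero_of h] at this
    linarith [hP0 x]
  -- integrability
  have iX : Integrable (fun x => (Grd F x + (1 / 4) * P x
      + (1 / 8) * Lev lam x (fun j => F j x)) * Real.exp (-φ x)) := by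
    apply Continuous.integrable_of_hasCompactSupport
    · exact (((continuous_Grd hF).add (continuous_const.mul hPc)).add
        (continuous_const.mul (continuous_Lev hlam hFc))).mul hexp
    · apply cs
      intro x h h'
      rw [Grd_zero_of h', hPz x h, Lev_zero_of h]; simp
  have iY : Integrable (fun x => (‖Dop φ ψ F x‖ ^ 2 + Sop F x) * Real.exp (-φ x)) := by
    apply Continuous.integrable_of_hasCompactSupport
    · exact ((((continuous_Dop hφ hψ hF).norm).pow 2).add (continuous_Sop hF)).mul hexp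
    · apply cs
      intro x h h'
      rw [Dop_zero_of h h', Sop_zero_of h']; simp
  have iA : Integrable (fun x => (Grd F x + (1 / 4) * Lev (fun y => φ y + lam y) x (fun j => F j x))
      * Real.exp (-(φ x + lam x))) := by
    apply Continuous.integrable_of_hasCompactSupport
    · exact ((continuous_Grd hF).add (continuous_const.mul (continuous_Lev hΦ hFc))).mul hexp'
    · apply cs
      intro x h h'
      rw [Grd_zero_of h', Lev_zero_of h]; simp
  have iB : Integrable (fun x => (‖∑ j, dl (fun y => φ y + lam y) j (F j) x‖ ^ 2 + Sop F x)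
      * Real.exp (-(φ x + lam x))) := by
    apply Continuous.integrable_of_hasCompactSupport
    · refine Continuous.mul (Continuous.add ?_ (continuous_Sop hF)) hexp'
      exact ((continuous_finsetSum _ fun j _ => (contDiff_dl hΦ (hF j) j).continuous).norm).pow 2
    · apply cs
      intro x h h'
      rw [Sop_zero_of h']
      simp [dl, h, dz_zero_of (h' _)]
  have key : ∀ x, (1 / 2) * ((Grd F x + (1 / 4) * P x
      + (1 / 8) * Lev lam x (fun j => F j x)) * Real.exp (-φ x))
      - 3 * ((‖Dop φ ψ F x‖ ^ 2 + Sop F x) * Real.exp (-φ x))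
      ≤ (Grd F x + (1 / 4) * Lev (fun y => φ y + lam y) x (fun j => F j x))
      * Real.exp (-(φ x + lam x))
      - (‖∑ j, dl (fun y => φ y + lam y) j (F j) x‖ ^ 2 + Sop F x) * Real.exp (-(φ x + lam x)) := by
    intro x
    by_cases hx : ∃ j, x ∈ tsupport (F j)
    · obtain ⟨hl0, hl1⟩ := hlam2 x hx
      have e0 : Real.exp (-(φ x + lam x)) = Real.exp (-φ x) * Real.exp (-lam x) := by
        rw [← Real.exp_add]; ring_nf
      have e1 : Real.exp (-lam x) ≤ 1 := Real.exp_le_one_iff.2 (by linarith)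
      have e2 : 1 / 2 ≤ Real.exp (-lam x) := by
        have := Real.add_one_le_exp (-lam x); linarith
      have hE := Real.exp_pos (-φ x)
      have hLa := Lev_add (x := x) ((hφ.contDiffAt (x := x)).of_le (m := 2) two_le_infty)
        ((hlam.contDiffAt (x := x)).of_le (m := 2) two_le_infty) (fun j => F j x)
      have hD : ∑ j, dl (fun y => φ y + lam y) j (F j) x
          = Dop φ ψ F x + ∑ j, dz j (cx ψ) x * F j x + ∑ j, dz j (cx lam) x * F j x := by
        simp_rw [dl_add_weight hφ hlam, Finset.sum_add_distrib]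
        unfold Dop; ring
      have hψd : DifferentiableAt ℝ ψ x := (hψ.differentiable (by simp)) x
      have hld : DifferentiableAt ℝ lam x := (hlam.differentiable (by simp)) x
      have hN := norm_sq_add_three_le (Dop φ ψ F x) (∑ j, dz j (cx ψ) x * F j x)
        (∑ j, dz j (cx lam) x * F j x)
      rw [← hD, normSq_sum_dz_cx hψd, normSq_sum_dz_cx hld] at hN
      rw [hLa, e0]
      have hS := Sop_nonneg F x
      have hG := Grd_nonneg F x
      have h1 := hP x
      have h2 := hlam1 x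
      have h0 := hP0 x
      have hGl := Gam_nonneg lam x (fun j => F j x)
      set L1 := Lev φ x (fun j => F j x)
      set L2 := Lev lam x (fun j => F j x)
      set G1 := Gam ψ x (fun j => F j x)
      set G2 := Gam lam x (fun j => F j x)
      set NN := ‖∑ j, dl (fun y => φ y + lam y) j (F j) x‖ ^ 2
      set DD := ‖Dop φ ψ F x‖ ^ 2
      have hDD : 0 ≤ DD := by positivity
      set E := Real.exp (-φ x)
      set e := Real.exp (-lam x)
      -- A - B ≥ X - 3 Y
      have hAB : (Grd F x + (1 / 4) * P x + (1 / 8) * L2) - 3 * (DD + Sop F x)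
          ≤ (Grd F x + (1 / 4) * (L1 + L2)) - (NN + Sop F x) := by
        linarith
      have hX : 0 ≤ Grd F x + (1 / 4) * P x + (1 / 8) * L2 := by linarith
      have hY : 0 ≤ 3 * (DD + Sop F x) := by linarith
      have s1 : ((Grd F x + (1 / 4) * P x + (1 / 8) * L2) - 3 * (DD + Sop F x)) * (E * e)
          ≤ ((Grd F x + (1 / 4) * (L1 + L2)) - (NN + Sop F x)) * (E * e) :=
        mul_le_mul_of_nonneg_right hAB (by positivity)
      have s2 : (1 / 2) * ((Grd F x + (1 / 4) * P x + (1 / 8) * L2) * E)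
          ≤ (Grd F x + (1 / 4) * P x + (1 / 8) * L2) * (E * e) := by
        have := mul_le_mul_of_nonneg_left e2 (mul_nonneg hX hE.le)
        nlinarith [this]
      have s3 : 3 * (DD + Sop F x) * (E * e) ≤ 3 * ((DD + Sop F x) * E) := by
        have := mul_le_mul_of_nonneg_left e1 (mul_nonneg hY hE.le)
        nlinarith [this]
      nlinarith [s1, s2, s3]
    · push Not at hx
      have h : ∀ j, F j x = 0 := fun j => (eq_zero_nhds (hx j)).1
      have h' : ∀ j, fderiv ℝ (F j) x = 0 := fun j => (eq_zero_nhds (hx j)).2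
      rw [Grd_zero_of h', hPz x h, Lev_zero_of h, Dop_zero_of h h', Sop_zero_of h', Lev_zero_of h]
      simp [dl, h, dz_zero_of (h' _)]
  have hmono := integral_mono ((iX.const_mul (1/2)).sub (iY.const_mul 3)) (iA.sub iB) key
  simp only [Pi.sub_apply] at hmono
  rw [integral_sub (iX.const_mul _) (iY.const_mul _), integral_sub iA iB, integral_const_mul,
    integral_const_mul] at hmono
  have hk' : ∫ x, (Grd F x + (1 / 4) * Lev (fun y => φ y + lam y) x (fun j => F j x))
      * Real.exp (-(φ x + lam x)) = ∫ x, (‖∑ j, dl (fun y => φ y + lam y) j (F j) x‖ ^ 2 + Sop F x)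
      * Real.exp (-(φ x + lam x)) := hk
  rw [hk'] at hmono
  linarith

end est

end Pool.Agent.DBar74
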