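import Pool.Agent.DBar74.Cutoff
import Pool.Agent.DBar74.Basic2

open MeasureTheory Filter Topology Complex
open scoped ENNReal ContDiff ComplexConjugate InnerProductSpace

namespace Pool.Agent.DBar74

variable {n : ℕ}

section rellich

variable {G : (Fin n → ℂ) → ℂ}

lemma fderiv_eq_sum (x y : Fin n → ℂ) :
    fderiv ℝ G x y = ∑ j, (y j * dz j G x + conj (y j) * dzb j G x) := by
  rw [Finset.sum_add_distrib, sum_mul_dz, sum_conj_mul_dzb]; ring

/-- the real gradient is controlled by the Wirtinger derivatives -/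
lemma norm_fderiv_sq_le (x y : Fin n → ℂ) :
    ‖fderiv ℝ G x y‖ ^ 2 ≤ ‖y‖ ^ 2 * (2 * n * ∑ j, (‖dz j G x‖ ^ 2 + ‖dzb j G x‖ ^ 2)) := by
  have h1 : ‖fderiv ℝ G x y‖ ≤ ‖y‖ * ∑ j, (‖dz j G x‖ + ‖dzb j G x‖) := by
    rw [fderiv_eq_sum, Finset.mul_sum]
    refine (norm_sum_le _ _).trans (Finset.sum_le_sum fun j _ => ?_)
    refine (norm_add_le _ _).trans ?_
    rw [norm_mul, norm_mul, RCLike.norm_conj, mul_add]
    have := norm_le_pi_norm y j
    gcongr
  have h2 : (∑ j, (‖dz j G x‖ + ‖dzb j G x‖)) ^ 2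
      ≤ 2 * n * ∑ j, (‖dz j G x‖ ^ 2 + ‖dzb j G x‖ ^ 2) := by
    have h3 := sq_sum_le_card_mul_sum_sq (s := Finset.univ) (f := fun j => ‖dz j G x‖ + ‖dzb j G x‖)
    simp only [Finset.card_univ, Fintype.card_fin] at h3
    refine h3.trans ?_
    rw [mul_assoc, mul_left_comm, ← mul_assoc, mul_comm (n:ℝ) 2, mul_assoc, mul_left_comm]
    refine mul_le_mul_of_nonneg_left ?_ (Nat.cast_nonneg n)
    rw [Finset.mul_sum]
    refine Finset.sum_le_sum fun j _ => ?_
    nlinarith [sq_nonneg (‖dz j G x‖ - ‖dzb j G x‖)]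
  calc ‖fderiv ℝ G x y‖ ^ 2 ≤ (‖y‖ * ∑ j, (‖dz j G x‖ + ‖dzb j G x‖)) ^ 2 :=
        pow_le_pow_left₀ (norm_nonneg _) h1 2
    _ = ‖y‖ ^ 2 * (∑ j, (‖dz j G x‖ + ‖dzb j G x‖)) ^ 2 := by ring
    _ ≤ _ := mul_le_mul_of_nonneg_left h2 (by positivity)

lemma integrable_sq_of {g : (Fin n → ℂ) → ℂ} (hg : Continuous g) (hc : HasCompactSupport g) :
    Integrable (fun x => ‖g x‖ ^ 2) := by
  apply Continuous.integrable_of_hasCompactSupport
  · exact (hg.norm).pow 2
  · exact hc.norm.comp_left (g := fun t : ℝ => t ^ 2) (by simp)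

/-- both Wirtinger derivatives of a compactly supported function have the same energy -/
lemma energy_eq (hG : ContDiff ℝ ∞ G) (hc : HasCompactSupport G) (j : Fin n) :
    ∫ x, ‖dz j G x‖ ^ 2 = ∫ x, ‖dzb j G x‖ ^ 2 := by
  have h := pair_identity (Φ := fun _ => 0) (j := j) (k := j) contDiff_const hG hG hc hc
  have hcx : cx (fun _ : Fin n → ℂ => (0:ℝ)) = fun _ => 0 := by ext x; simp [cx]
  have h0 : ∀ x, dz j (cx (fun _ : Fin n → ℂ => (0:ℝ))) x = 0 := by
    intro x; rw [hcx]; exact dz_const 0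
  have h00 : ∀ x, dz j (dzb j (cx (fun _ : Fin n → ℂ => (0:ℝ)))) x = 0 := by
    intro x
    have : dzb j (cx (fun _ : Fin n → ℂ => (0:ℝ))) = fun _ => 0 := by
      rw [hcx]; ext y; exact dzb_const 0
    rw [this]; exact dz_const 0
  have hn : ∀ z : ℂ, z * conj z = ((‖z‖ ^ 2 : ℝ) : ℂ) := by
    intro z; rw [Complex.mul_conj, Complex.normSq_eq_norm_sq]
  have e1 : ∀ x, dl (fun _ => 0) j G x * conj (dl (fun _ => 0) j G x) * wt (fun _ => 0) x
      = ((‖dz j G x‖ ^ 2 : ℝ) : ℂ) := by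
    intro x
    rw [hn]
    simp [dl, h0, wt]
  have e2 : ∀ x, (dzb j G x * conj (dzb j G x) * wt (fun _ => 0) x
        + G x * conj (dz j (dzb j (cx (fun _ => 0))) x * G x) * wt (fun _ => 0) x)
      = ((‖dzb j G x‖ ^ 2 : ℝ) : ℂ) := by
    intro x
    rw [hn, h00]
    simp [wt]
  simp_rw [e1, e2] at h
  rw [integral_complex_ofReal, integral_complex_ofReal] at h
  exact Complex.ofReal_injective h

/-- translation estimate -/
lemma translation_le (hG : ContDiff ℝ ∞ G) (y : Fin n → ℂ) :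
    ∫⁻ x, ‖G (x - y) - G x‖ₑ ^ 2 ≤ ∫⁻ x, ‖fderiv ℝ G x y‖ₑ ^ 2 := by
  have hd := differentiable_of_smooth hG
  have hcd : Continuous (fun p : (Fin n → ℂ) × ℝ => fderiv ℝ G (p.1 - p.2 • y) y) := by
    have h1 : Continuous (fderiv ℝ G) := hG.continuous_fderiv (by simp)
    exact (h1.comp (by fun_prop)).clm_apply continuous_const
  have hcd' : ∀ x, Continuous (fun t : ℝ => fderiv ℝ G (x - t • y) y) := fun x =>
    hcd.comp (by fun_prop : Continuous fun t : ℝ => (x, t))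
  have hpt : ∀ x, ‖G (x - y) - G x‖ₑ ^ 2
      ≤ ∫⁻ t in Set.Icc (0:ℝ) 1, ‖fderiv ℝ G (x - t • y) y‖ₑ ^ 2 := by
    intro x
    have hderiv : ∀ t ∈ Set.uIcc (0:ℝ) 1, HasDerivAt (fun t : ℝ => G (x - t • y))
        (-(fderiv ℝ G (x - t • y) y)) t := by
      intro t _
      have h1 : HasDerivAt (fun t : ℝ => x - t • y) (-y) t := by
        simpa using ((hasDerivAt_id t).smul_const y).const_sub x
      have h2 := (hd (x - t • y)).hasFDerivAt.comp_hasDerivAt t h1
      rw [map_neg] at h2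
      exact h2
    have hint := intervalIntegral.integral_eq_sub_of_hasDerivAt hderiv
      (((hcd' x).neg).intervalIntegrable 0 1)
    have hval : G (x - y) - G x = ∫ t in (0:ℝ)..1, -(fderiv ℝ G (x - t • y) y) := by
      rw [hint]; simp
    rw [hval, intervalIntegral.integral_of_le (by norm_num), ← integral_Icc_eq_integral_Ioc]
    calc ‖∫ t in Set.Icc (0:ℝ) 1, -(fderiv ℝ G (x - t • y) y)‖ₑ ^ 2
        ≤ (∫⁻ t in Set.Icc (0:ℝ) 1, ‖-(fderiv ℝ G (x - t • y) y)‖ₑ) ^ 2 := by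
          gcongr; exact enorm_integral_le_lintegral_enorm _
      _ = (∫⁻ t in Set.Icc (0:ℝ) 1, 1 * ‖fderiv ℝ G (x - t • y) y‖ₑ) ^ 2 := by
          simp only [enorm_neg, one_mul]
      _ ≤ ∫⁻ t in Set.Icc (0:ℝ) 1, 1 * ‖fderiv ℝ G (x - t • y) y‖ₑ ^ 2 := by
          apply cs_lintegral aemeasurable_const
          · exact (hcd' x).enorm.measurable.aemeasurable
          · simp
      _ = _ := by simp only [one_mul]
  calc ∫⁻ x, ‖G (x - y) - G x‖ₑ ^ 2
      ≤ ∫⁻ x, ∫⁻ t in Set.Icc (0:ℝ) 1, ‖fderiv ℝ G (x - t • y) y‖ₑ ^ 2 := lintegral_mono hpt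
    _ = ∫⁻ t in Set.Icc (0:ℝ) 1, ∫⁻ x, ‖fderiv ℝ G (x - t • y) y‖ₑ ^ 2 := by
        apply lintegral_lintegral_swap
        exact (hcd.enorm.measurable.pow_const 2).aemeasurable
    _ = ∫⁻ t in Set.Icc (0:ℝ) 1, ∫⁻ x, ‖fderiv ℝ G x y‖ₑ ^ 2 := by
        congr 1; ext t
        exact lintegral_sub_right_eq_self (fun x => ‖fderiv ℝ G x y‖ₑ ^ 2) (t • y)
    _ = _ := by simp

/-- the energy -/
noncomputable def En (G : (Fin n → ℂ) → ℂ) : ℝ := ∑ j, ∫ x, ‖dzb j G x‖ ^ 2

lemma En_nonneg (G : (Fin n → ℂ) → ℂ) : 0 ≤ En G :=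
  Finset.sum_nonneg fun _ _ => integral_nonneg fun _ => by positivity

lemma lintegral_eq_ofReal {g : (Fin n → ℂ) → ℂ} (hg : Continuous g) (hc : HasCompactSupport g) :
    ∫⁻ x, ‖g x‖ₑ ^ 2 = ENNReal.ofReal (∫ x, ‖g x‖ ^ 2) := by
  rw [ofReal_integral_eq_lintegral_ofReal (integrable_sq_of hg hc)
    (Eventually.of_forall fun x => by positivity)]
  congr 1; ext x
  rw [← ofReal_norm, ← ENNReal.ofReal_pow (norm_nonneg _)]

lemma translation_energy (hG : ContDiff ℝ ∞ G) (hc : HasCompactSupport G) (y : Fin n → ℂ) :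
    ∫⁻ x, ‖G (x - y) - G x‖ₑ ^ 2 ≤ ENNReal.ofReal (‖y‖ ^ 2 * (4 * n * En G)) := by
  refine (translation_le hG y).trans ?_
  have hcd : Continuous (fun x => fderiv ℝ G x y) := (contDiff_fderiv_apply hG y).continuous
  have hcs : HasCompactSupport (fun x => fderiv ℝ G x y) := hc.fderiv_apply ℝ y
  rw [lintegral_eq_ofReal hcd hcs]
  apply ENNReal.ofReal_le_ofReal
  have hi1 : ∀ j, Integrable (fun x => ‖dz j G x‖ ^ 2) := fun j =>
    integrable_sq_of (contDiff_dz hG j).continuous (HasCompactSupport.dz hc j)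
  have hi2 : ∀ j, Integrable (fun x => ‖dzb j G x‖ ^ 2) := fun j =>
    integrable_sq_of (contDiff_dzb hG j).continuous (HasCompactSupport.dzb hc j)
  have hi12 : ∀ j, Integrable (fun x => ‖dz j G x‖ ^ 2 + ‖dzb j G x‖ ^ 2) := fun j =>
    (hi1 j).add (hi2 j)
  have hi : Integrable (fun x => ∑ j, (‖dz j G x‖ ^ 2 + ‖dzb j G x‖ ^ 2)) :=
    integrable_finsetSum _ fun j _ => hi12 j
  have hmono : ∫ x, ‖fderiv ℝ G x y‖ ^ 2
      ≤ ∫ x, ‖y‖ ^ 2 * (2 * n * ∑ j, (‖dz j G x‖ ^ 2 + ‖dzb j G x‖ ^ 2)) := by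
    refine integral_mono (integrable_sq_of hcd hcs) ((hi.const_mul _).const_mul _) fun x => ?_
    exact norm_fderiv_sq_le x y
  refine hmono.trans (le_of_eq ?_)
  rw [integral_const_mul, integral_const_mul, integral_finsetSum _ (fun j _ => hi12 j)]
  have : ∀ j, ∫ x, (‖dz j G x‖ ^ 2 + ‖dzb j G x‖ ^ 2) = 2 * ∫ x, ‖dzb j G x‖ ^ 2 := by
    intro j
    rw [integral_add (hi1 j) (hi2 j), energy_eq hG hc j]; ring
  simp_rw [this]
  unfold En
  rw [← Finset.mul_sum]; ring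

lemma mconv_energy (hG : ContDiff ℝ ∞ G) (hc : HasCompactSupport G) (k : ℕ) :
    ∫ x, ‖mconv (rho k) G x - G x‖ ^ 2 ≤ (1 / (k + 1)) ^ 2 * (4 * n * En G) := by
  have hG2 : MemLp G 2 volume := hG.continuous.memLp_of_hasCompactSupport hc
  have hGl : LocallyIntegrable G volume := hG.continuous.locallyIntegrable
  set θ : ℝ := (1 / (k + 1)) ^ 2 * (4 * n * En G) with hθ
  have hθ0 : 0 ≤ θ := by
    have := En_nonneg G
    positivity
  have h1 := mconv_sub_le (rho_contDiff k).continuous (rho_compact k) (rho_nonneg k)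
    (rho_integral k) hG2 (ε := (ENNReal.ofReal θ) ^ (1 / 2 : ℝ)) (by
      intro y hy
      have h2 : eLpNorm (fun x => G (x - y) - G x) 2 volume ^ 2 ≤ ENNReal.ofReal θ := by
        rw [eLpNorm_two_sq]
        refine (translation_energy hG hc y).trans (ENNReal.ofReal_le_ofReal ?_)
        have h3 := (rho_support k hy).le
        have h4 : ‖y‖ ^ 2 ≤ (1 / ((k:ℝ) + 1)) ^ 2 := pow_le_pow_left₀ (norm_nonneg _) h3 2
        have := En_nonneg G
        exact mul_le_mul_of_nonneg_right h4 (by positivity)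
      calc eLpNorm (fun x => G (x - y) - G x) 2 volume
          = (eLpNorm (fun x => G (x - y) - G x) 2 volume ^ 2) ^ (1 / 2 : ℝ) := by
            rw [← ENNReal.rpow_natCast, ← ENNReal.rpow_mul]; norm_num
        _ ≤ _ := ENNReal.rpow_le_rpow h2 (by norm_num))
  have hcont : Continuous (fun x => mconv (rho k) G x - G x) :=
    (mconv_contDiff (rho_contDiff k) (rho_compact k) hGl).continuous.sub hG.continuous
  have hcs : HasCompactSupport (fun x => mconv (rho k) G x - G x) := by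
    apply HasCompactSupport.sub
    · refine HasCompactSupport.of_support_subset_isCompact
        (hc.isCompact.cthickening (r := 1 / (k + 1))) ?_
      intro x hx
      by_contra hx2
      apply hx
      refine mconv_zero_outside (K := tsupport G) (fun x hx => (eq_zero_nhds hx).1) ?_
      exact fun h => hx2 (Metric.thickening_subset_cthickening _ _ h)
    · exact hc
  have h5 : eLpNorm (fun x => mconv (rho k) G x - G x) 2 volume ^ 2 ≤ ENNReal.ofReal θ := by
    calc eLpNorm (fun x => mconv (rho k) G x - G x) 2 volume ^ 2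
        ≤ ((ENNReal.ofReal θ) ^ (1 / 2 : ℝ)) ^ 2 := by gcongr
      _ = _ := by rw [← ENNReal.rpow_natCast, ← ENNReal.rpow_mul]; norm_num
  rw [eLpNorm_two_sq, lintegral_eq_ofReal hcont hcs] at h5
  exact (ENNReal.ofReal_le_ofReal_iff hθ0).1 h5

lemma sq_integral_norm_le {K : Set (Fin n → ℂ)} (hK : IsCompact K) (hG : Continuous G)
    (hGK : ∀ x ∉ K, G x = 0) : (∫ x, ‖G x‖) ^ 2 ≤ volume.real K * ∫ x, ‖G x‖ ^ 2 := by
  have hm : MeasurableSet K := hK.measurableSet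
  have hs1 : ∫ x in K, ‖G x‖ = ∫ x, ‖G x‖ :=
    setIntegral_eq_integral_of_forall_compl_eq_zero fun x hx => by rw [hGK x hx, norm_zero]
  have hs2 : ∫ x in K, ‖G x‖ ^ 2 = ∫ x, ‖G x‖ ^ 2 :=
    setIntegral_eq_integral_of_forall_compl_eq_zero fun x hx => by rw [hGK x hx, norm_zero]; ring
  have hi1 : IntegrableOn (fun x => ‖G x‖) K := hG.norm.continuousOn.integrableOn_compact hK
  have hi2 : IntegrableOn (fun x => ‖G x‖ ^ 2) K := (hG.norm.pow 2).continuousOn.integrableOn_compact hK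
  have hi3 : ∀ c : ℝ, IntegrableOn (fun _ : Fin n → ℂ => c) K := fun c =>
    integrableOn_const hK.measure_lt_top.ne
  have hc : ∀ c : ℝ, 0 ≤ (∫ x, ‖G x‖ ^ 2) - 2 * c * (∫ x, ‖G x‖) + c ^ 2 * volume.real K := by
    intro c
    have h0 : 0 ≤ ∫ x in K, (‖G x‖ - c) ^ 2 := integral_nonneg fun x => by positivity
    have h1 : ∫ x in K, (‖G x‖ - c) ^ 2
        = (∫ x, ‖G x‖ ^ 2) - 2 * c * (∫ x, ‖G x‖) + c ^ 2 * volume.real K := by
      have e : ∀ x, (‖G x‖ - c) ^ 2 = ‖G x‖ ^ 2 - 2 * c * ‖G x‖ + c ^ 2 := fun x => by ring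
      simp_rw [e]
      have hi4 : IntegrableOn (fun x => ‖G x‖ ^ 2 - 2 * c * ‖G x‖) K :=
        Integrable.sub hi2 (Integrable.const_mul hi1 _)
      rw [integral_add hi4 (hi3 _), integral_sub hi2 (Integrable.const_mul hi1 _),
        integral_const_mul, hs1, hs2, setIntegral_const, smul_eq_mul]
      ring
    rwa [h1] at h0
  set V := volume.real K with hV
  have hV0 : 0 ≤ V := measureReal_nonneg
  by_cases h : V = 0
  · have hK0 : volume K = 0 := by
      rw [hV, measureReal_def, ENNReal.toReal_eq_zero_iff] at h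
      rcases h with h | h
      · exact h
      · exact absurd h hK.measure_lt_top.ne
    have : ∫ x, ‖G x‖ = 0 := by
      rw [← hs1, setIntegral_measure_zero _ hK0]
    rw [this, h]; simp
  · have hVp : 0 < V := lt_of_le_of_ne hV0 (Ne.symm h)
    have h1 := hc ((∫ x, ‖G x‖) / V)
    have h2 : 2 * ((∫ x, ‖G x‖) / V) * (∫ x, ‖G x‖) = 2 * ((∫ x, ‖G x‖) ^ 2 / V) := by ring
    have h3 : ((∫ x, ‖G x‖) / V) ^ 2 * V = (∫ x, ‖G x‖) ^ 2 / V := by field_simp
    rw [h2, h3] at h1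
    have h4 : (∫ x, ‖G x‖) ^ 2 / V ≤ ∫ x, ‖G x‖ ^ 2 := by linarith
    rw [div_le_iff₀ hVp] at h4
    linarith

/-- **Rellich type estimate** with finitely many functionals. -/
theorem rellich {K : Set (Fin n → ℂ)} (hK : IsCompact K) {δ : ℝ} (hδ : 0 < δ) :
    ∃ (k : ℕ) (s : Finset (Fin n → ℂ)) (A : ℝ), 0 ≤ A ∧
      ∀ G : (Fin n → ℂ) → ℂ, ContDiff ℝ ∞ G → tsupport G ⊆ K →
        ∫ x, ‖G x‖ ^ 2 ≤ δ * En G + A * ∑ p ∈ s, ‖mconv (rho k) G p‖ ^ 2 := by
  -- choose the mollification scale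
  obtain ⟨k, hk⟩ : ∃ k : ℕ, (1 / ((k:ℝ) + 1)) ^ 2 * (4 * n) * 4 ≤ δ := by
    obtain ⟨k, hk⟩ := exists_nat_one_div_lt (show (0:ℝ) < δ / (16 * (n + 1)) by positivity)
    refine ⟨k, ?_⟩
    have h1 : (1 / ((k:ℝ) + 1)) ^ 2 ≤ 1 / ((k:ℝ) + 1) := by
      have : (1 / ((k:ℝ) + 1)) ≤ 1 := by
        rw [div_le_one (by positivity)]; linarith [(Nat.cast_nonneg k : (0:ℝ) ≤ k)]
      have h0 : 0 ≤ (1 / ((k:ℝ) + 1)) := by positivity
      nlinarith
    have h2 : (1 / ((k:ℝ) + 1)) ^ 2 ≤ δ / (16 * (n + 1)) := h1.trans hk.le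
    rw [le_div_iff₀ (by positivity)] at h2
    have h3 : 0 ≤ (1 / ((k:ℝ) + 1)) ^ 2 := by positivity
    nlinarith
  -- Lipschitz constant of the kernel
  obtain ⟨Lp, hLp⟩ : ∃ C, LipschitzWith C (rho (n := n) k) :=
    (rho_contDiff k).lipschitzWith_of_hasCompactSupport (rho_compact k) (by simp)
  set L : Set (Fin n → ℂ) := Metric.cthickening 1 K with hL
  have hLc : IsCompact L := hK.cthickening
  set VL := volume.real L with hVL
  set VK := volume.real K with hVK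
  have hVL0 : 0 ≤ VL := measureReal_nonneg
  have hVK0 : 0 ≤ VK := measureReal_nonneg
  set κ : ℝ := 1 / (4 * (VL + 1) * ((Lp:ℝ) + 1) * (VK + 1)) with hκ
  have hκ0 : 0 < κ := by positivity
  obtain ⟨t, hts, htf, htc⟩ := hLc.finite_cover_balls hκ0
  refine ⟨k, htf.toFinset, 8 * VL, by positivity, ?_⟩
  intro G hG hGK
  have hc : HasCompactSupport G := HasCompactSupport.of_support_subset_isCompact hK
    ((subset_tsupport G).trans hGK)
  have hG0 : ∀ x ∉ K, G x = 0 := fun x hx => (eq_zero_nhds fun h => hx (hGK h)).1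
  have hGl : LocallyIntegrable G volume := hG.continuous.locallyIntegrable
  set m := mconv (rho k) G with hm
  have hmc : Continuous m := (mconv_contDiff (rho_contDiff k) (rho_compact k) hGl).continuous
  have hk1 : (1:ℝ) / (k + 1) ≤ 1 := by
    rw [div_le_one (by positivity)]; linarith [(Nat.cast_nonneg k : (0:ℝ) ≤ k)]
  have hmL : ∀ x ∉ L, m x = 0 := by
    intro x hx
    refine mconv_zero_outside hG0 fun h => hx ?_
    exact Metric.thickening_subset_cthickening _ _ (Metric.thickening_mono hk1 K h)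
  have hmcs : HasCompactSupport m := HasCompactSupport.intro hLc hmL
  set I1 := ∫ x, ‖G x‖ with hI1
  set I2 := ∫ x, ‖G x‖ ^ 2 with hI2
  have hI20 : 0 ≤ I2 := integral_nonneg fun x => by positivity
  have hI10 : 0 ≤ I1 := integral_nonneg fun x => norm_nonneg _
  have hcs := sq_integral_norm_le hK hG.continuous hG0
  set Sg := ∑ p ∈ htf.toFinset, ‖m p‖ ^ 2 with hSg
  -- Lipschitz estimate for the mollified function
  have hlip : ∀ x p, ‖m x - m p‖ ≤ Lp * ‖x - p‖ * I1 := by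
    intro x p
    have hint : ∀ x, Integrable (fun y => ((rho k (x - y) : ℝ) : ℂ) * G y) := by
      intro x
      apply Continuous.integrable_of_hasCompactSupport
      · exact (Complex.continuous_ofReal.comp
          ((rho_contDiff k).continuous.comp (continuous_const.sub continuous_id))).mul hG.continuous
      · exact hc.mul_left
    have e1 : m x - m p = ∫ y, (((rho k (x - y) : ℝ) : ℂ) * G y - ((rho k (p - y) : ℝ) : ℂ) * G y) := by
      rw [hm, mconv_apply', mconv_apply', integral_sub (hint x) (hint p)]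
    rw [e1]
    have hGi : Integrable (fun y => ‖G y‖) :=
      hG.continuous.norm.integrable_of_hasCompactSupport hc.norm
    calc ‖∫ y, (((rho k (x - y) : ℝ) : ℂ) * G y - ((rho k (p - y) : ℝ) : ℂ) * G y)‖
        ≤ ∫ y, ‖((rho k (x - y) : ℝ) : ℂ) * G y - ((rho k (p - y) : ℝ) : ℂ) * G y‖ :=
          norm_integral_le_integral_norm _
      _ ≤ ∫ y, Lp * ‖x - p‖ * ‖G y‖ := by
          refine integral_mono ((hint x).sub (hint p)).norm (hGi.const_mul _) fun y => ?_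
          simp only
          rw [← sub_mul, norm_mul]
          refine mul_le_mul_of_nonneg_right ?_ (norm_nonneg _)
          have := hLp.dist_le_mul (x - y) (p - y)
          rw [dist_eq_norm, dist_eq_norm] at this
          rw [← Complex.ofReal_sub, Complex.norm_real]
          refine this.trans (le_of_eq ?_)
          congr 2; abel
      _ = Lp * ‖x - p‖ * I1 := by rw [integral_const_mul]
  have hptL : ∀ x ∈ L, ‖m x‖ ^ 2 ≤ 2 * Sg + 2 * (Lp * κ * I1) ^ 2 := by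
    intro x hx
    have hx2 := htc hx
    simp only [Set.mem_iUnion] at hx2
    obtain ⟨p, hp, hxp⟩ := hx2
    rw [Metric.mem_ball, dist_eq_norm] at hxp
    have h1 : ‖m p‖ ^ 2 ≤ Sg := by
      refine Finset.single_le_sum (f := fun p => ‖m p‖ ^ 2) (fun p _ => by positivity) ?_
      exact htf.mem_toFinset.2 hp
    have h2 : ‖m x - m p‖ ≤ Lp * κ * I1 := by
      refine (hlip x p).trans ?_
      have : (Lp:ℝ) * ‖x - p‖ ≤ Lp * κ := mul_le_mul_of_nonneg_left hxp.le Lp.coe_nonneg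
      exact mul_le_mul_of_nonneg_right this hI10
    have h3 : ‖m x‖ ≤ ‖m p‖ + ‖m x - m p‖ := by
      have := norm_add_le (m p) (m x - m p)
      simpa using this
    have h4 := norm_nonneg (m x - m p)
    have h5 := norm_nonneg (m p)
    have h6 : ‖m x‖ ^ 2 ≤ (‖m p‖ + ‖m x - m p‖) ^ 2 := pow_le_pow_left₀ (norm_nonneg _) h3 2
    have h7 : ‖m x - m p‖ ^ 2 ≤ (Lp * κ * I1) ^ 2 := pow_le_pow_left₀ h4 h2 2
    nlinarith [sq_nonneg (‖m p‖ - ‖m x - m p‖)]
  have hmint : ∫ x, ‖m x‖ ^ 2 ≤ VL * (2 * Sg + 2 * (Lp * κ * I1) ^ 2) := by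
    have h1 : ∫ x in L, ‖m x‖ ^ 2 = ∫ x, ‖m x‖ ^ 2 :=
      setIntegral_eq_integral_of_forall_compl_eq_zero fun x hx => by rw [hmL x hx, norm_zero]; ring
    rw [← h1]
    have h2 : ∫ x in L, ‖m x‖ ^ 2 ≤ ∫ _x in L, (2 * Sg + 2 * (Lp * κ * I1) ^ 2) := by
      refine setIntegral_mono_on ?_ ?_ hLc.measurableSet hptL
      · exact (hmc.norm.pow 2).continuousOn.integrableOn_compact hLc
      · exact integrableOn_const hLc.measure_lt_top.ne
    refine h2.trans (le_of_eq ?_)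
    rw [setIntegral_const, smul_eq_mul]
  have hsmall : VL * (2 * (Lp * κ * I1) ^ 2) ≤ (1 / 4) * I2 := by
    have h1 : (Lp * κ * I1) ^ 2 ≤ (Lp * κ) ^ 2 * (VK * I2) := by
      rw [mul_pow]; exact mul_le_mul_of_nonneg_left hcs (by positivity)
    have h2 : VL * (2 * ((Lp * κ) ^ 2 * VK)) ≤ 1 / 4 := by
      have hLp0 : (0:ℝ) ≤ Lp := Lp.coe_nonneg
      have ha : (Lp:ℝ) * κ * (4 * (VL + 1) * (VK + 1)) ≤ 1 := by
        have : κ * (4 * (VL + 1) * ((Lp:ℝ) + 1) * (VK + 1)) = 1 := by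
          rw [hκ]; field_simp
        have h0 : 0 ≤ κ * (4 * (VL + 1) * (VK + 1)) := by positivity
        nlinarith
      have hb : 0 ≤ (Lp:ℝ) * κ := by positivity
      have hc1 : (Lp:ℝ) * κ * (4 * VL) ≤ 1 := by
        refine le_trans ?_ ha
        apply mul_le_mul_of_nonneg_left _ hb
        nlinarith [mul_nonneg hVL0 hVK0]
      have hc2 : (Lp:ℝ) * κ * (4 * VK) ≤ 1 := by
        refine le_trans ?_ ha
        apply mul_le_mul_of_nonneg_left _ hb
        nlinarith [mul_nonneg hVL0 hVK0]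
      have h3 : ((Lp:ℝ) * κ * (4 * VL)) * ((Lp:ℝ) * κ * (4 * VK)) ≤ 1 * 1 :=
        mul_le_mul hc1 hc2 (by positivity) (by norm_num)
      nlinarith
    calc VL * (2 * (Lp * κ * I1) ^ 2) ≤ VL * (2 * ((Lp * κ) ^ 2 * (VK * I2))) := by gcongr
      _ = (VL * (2 * ((Lp * κ) ^ 2 * VK))) * I2 := by ring
      _ ≤ (1 / 4) * I2 := mul_le_mul_of_nonneg_right h2 hI20
  have hen := mconv_energy hG hc k
  have htri : I2 ≤ 2 * (∫ x, ‖m x - G x‖ ^ 2) + 2 * ∫ x, ‖m x‖ ^ 2 := by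
    have hi1 : Integrable (fun x => ‖m x - G x‖ ^ 2) :=
      integrable_sq_of (hmc.sub hG.continuous) (hmcs.sub hc)
    have hi2 : Integrable (fun x => ‖m x‖ ^ 2) := integrable_sq_of hmc hmcs
    rw [← integral_const_mul, ← integral_const_mul, ← integral_add (hi1.const_mul 2) (hi2.const_mul 2)]
    refine integral_mono (integrable_sq_of hG.continuous hc)
      ((hi1.const_mul 2).add (hi2.const_mul 2)) fun x => ?_
    simp only [Pi.add_apply]
    have h1 : ‖G x‖ ≤ ‖m x - G x‖ + ‖m x‖ := by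
      have := norm_sub_le (m x) (m x - G x)
      rw [sub_sub_cancel] at this
      linarith
    have h2 : ‖G x‖ ^ 2 ≤ (‖m x - G x‖ + ‖m x‖) ^ 2 := pow_le_pow_left₀ (norm_nonneg _) h1 2
    nlinarith [sq_nonneg (‖m x - G x‖ - ‖m x‖)]
  have hEn := En_nonneg G
  have h9 : (1 / ((k:ℝ) + 1)) ^ 2 * (4 * n * En G) * 4 ≤ δ * En G := by
    have := mul_le_mul_of_nonneg_right hk hEn
    nlinarith
  nlinarith

end rellich

end Pool.Agent.DBar74
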