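import Pool.Agent.DBar74.Setup2
import Pool.Agent.DBar74.Radial
import Pool.Agent.DBar74.Rellich

open MeasureTheory Filter Topology Complex
open scoped ENNReal ContDiff ComplexConjugate

namespace Pool.Agent.DBar74

variable {n : ℕ}

section apriori

variable {r : (Fin n → ℂ) → ℝ} {e : Fin n} {C1 : ℝ} {k : ℕ} {F : Fin n → (Fin n → ℂ) → ℂ}

/-- union of the supports -/
def KF (F : Fin n → (Fin n → ℂ) → ℂ) : Set (Fin n → ℂ) := ⋃ j, tsupport (F j)

lemma isCompact_KF {Ω : Set (Fin n → ℂ)} (hF : ∀ j, IsTest Ω (F j)) : IsCompact (KF F) :=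
  isCompact_iUnion fun j => (hF j).2.1

lemma KF_subset {Ω : Set (Fin n → ℂ)} (hF : ∀ j, IsTest Ω (F j)) : KF F ⊆ Ω :=
  Set.iUnion_subset fun j => (hF j).2.2

lemma notMem_KF {x : Fin n → ℂ} (hx : x ∉ KF F) (j : Fin n) : x ∉ tsupport (F j) :=
  fun h => hx (Set.mem_iUnion.2 ⟨j, h⟩)

lemma zero_of_notMem_KF {x : Fin n → ℂ} (hx : x ∉ KF F) : ∀ j, F j x = 0 := fun j =>
  (eq_zero_nhds (notMem_KF hx j)).1

lemma fderiv_zero_of_notMem_KF {x : Fin n → ℂ} (hx : x ∉ KF F) : ∀ j, fderiv ℝ (F j) x = 0 :=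
  fun j => (eq_zero_nhds (notMem_KF hx j)).2

/-- a global smooth function which agrees with `sF` near the support -/
lemma GoodDef.exists_st (h : GoodDef r e) (hF : ∀ j, IsTest (Om r) (F j)) :
    ∃ st : (Fin n → ℂ) → ℝ, ContDiff ℝ ∞ st ∧ ∀ x ∈ KF F, st =ᶠ[𝓝 x] sF r := by
  obtain ⟨ζ, hζ1, hζ2, hζ3, hζ4⟩ := exists_cutoff h.isOpen (isCompact_KF hF) (KF_subset hF)
  refine ⟨fun x => ζ x * sF r x, ?_, ?_⟩
  · rw [contDiff_iff_contDiffAt]
    intro x
    by_cases hx : x ∈ Om r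
    · exact (hζ2.contDiffAt).mul (h.sF_smooth.contDiffAt (h.isOpen.mem_nhds hx))
    · have hx2 : x ∉ tsupport (cx ζ) := fun h' => hx (hζ1.2.2 h')
      rw [notMem_tsupport_iff_eventuallyEq] at hx2
      have hev : (fun x => ζ x * sF r x) =ᶠ[𝓝 x] fun _ => 0 := by
        filter_upwards [hx2] with y hy
        have : ζ y = 0 := by simpa [cx] using hy
        rw [this, zero_mul]
      exact (contDiffAt_const (c := (0:ℝ))).congr_of_eventuallyEq hev
  · intro x hx
    have : ∀ᶠ y in 𝓝 x, ζ y = 1 := hζ3.filter_mono (nhds_le_nhdsSet hx)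
    filter_upwards [this] with y hy
    rw [hy, one_mul]

/-- the weight functions attached to a global function -/
noncomputable def phF (st : (Fin n → ℂ) → ℝ) (C1 : ℝ) (k : ℕ) (z : Fin n → ℂ) : ℝ :=
  Kk C1 k * th (st z - k)
noncomputable def psF (st : (Fin n → ℂ) → ℝ) (C1 : ℝ) (k : ℕ) (z : Fin n → ℂ) : ℝ :=
  Real.log (1 + Ak C1 k * th (st z - k))

variable {st : (Fin n → ℂ) → ℝ}

lemma phF_smooth (hst : ContDiff ℝ ∞ st) : ContDiff ℝ ∞ (phF st C1 k) :=
  contDiff_const.mul (th_contDiff.comp (hst.sub contDiff_const))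

lemma psF_smooth (hC : 0 < C1) (hst : ContDiff ℝ ∞ st) : ContDiff ℝ ∞ (psF st C1 k) :=
  (contDiff_const.add (contDiff_const.mul (th_contDiff.comp (hst.sub contDiff_const)))).log
    fun _ => (one_add_pos hC _).ne'

lemma hasDerivAt_th_shift (k : ℕ) (t : ℝ) : HasDerivAt (fun t : ℝ => th (t - k)) (th1 (t - k)) t := by
  have h := (th_hasDerivAt (t - k)).comp t ((hasDerivAt_id t).sub_const (k:ℝ))
  simpa [Function.comp_def] using h

lemma hasDerivAt_th1_shift (k : ℕ) (t : ℝ) :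
    HasDerivAt (fun t : ℝ => th1 (t - k)) (th2 (t - k)) t := by
  have h := (th1_hasDerivAt (t - k)).comp t ((hasDerivAt_id t).sub_const (k:ℝ))
  simpa [Function.comp_def] using h

lemma Lev_phF (hst : ContDiff ℝ ∞ st) (x w : Fin n → ℂ) :
    Lev (phF st C1 k) x w = Kk C1 k * th2 (st x - k) * Gam st x w
      + Kk C1 k * th1 (st x - k) * Lev st x w := by
  have h := Lev_comp (k := st) (h := fun t => Kk C1 k * th (t - k))
    (h1 := fun t => Kk C1 k * th1 (t - k)) (h2 := Kk C1 k * th2 (st x - k)) (x := x)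
    (contDiffAt_two hst x) (Eventually.of_forall fun t => (hasDerivAt_th_shift k t).const_mul _)
    ((hasDerivAt_th1_shift k (st x)).const_mul _) w
  exact h

lemma Gam_psF (hC : 0 < C1) (hst : ContDiff ℝ ∞ st) (x w : Fin n → ℂ) :
    Gam (psF st C1 k) x w
      = (Ak C1 k * th1 (st x - k) / (1 + Ak C1 k * th (st x - k))) ^ 2 * Gam st x w := by
  have h0 : (1 + Ak C1 k * th (st x - k)) ≠ 0 := (one_add_pos hC _).ne'
  have h1 : HasDerivAt (fun t => Real.log (1 + Ak C1 k * th (t - k)))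
      (Ak C1 k * th1 (st x - k) / (1 + Ak C1 k * th (st x - k))) (st x) :=
    (((hasDerivAt_th_shift k (st x)).const_mul (Ak C1 k)).const_add 1).log h0
  exact Gam_comp (k := st) ((hst.differentiable (by simp)) x) h1 w

/-- the crucial relation between the weights -/
lemma weight_ineq (hC : 0 < C1) (t : ℝ) :
    3 * (Ak C1 k * th1 t / (1 + Ak C1 k * th t)) ^ 2 ≤ Kk C1 k * th2 t := by
  have hA := Ak_pos (k := k) hC
  have h0 := th_nonneg t
  have h2 := th2_nonneg t
  have h3 := th1_sq_le t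
  have hp := one_add_pos (k := k) hC t
  set A := Ak C1 k
  have hAt : 0 ≤ A * th t := by positivity
  rw [div_pow, ← mul_div_assoc, div_le_iff₀ (by positivity)]
  have h4 : 3 * (A * th1 t) ^ 2 ≤ 6 * A * (A * th t) * th2 t := by
    have : (A * th1 t) ^ 2 = A ^ 2 * th1 t ^ 2 := by ring
    rw [this]
    have := mul_le_mul_of_nonneg_left h3 (by positivity : 0 ≤ 3 * A ^ 2)
    nlinarith
  have h5 : 4 * (A * th t) ≤ (1 + A * th t) ^ 2 := by nlinarith [sq_nonneg (1 - A * th t)]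
  have h6 : 6 * A * (A * th t) * th2 t ≤ 2 * A * th2 t * (1 + A * th t) ^ 2 := by
    have := mul_le_mul_of_nonneg_left h5 (by positivity : 0 ≤ A * th2 t)
    have h7 : 0 ≤ A * th2 t * (1 + A * th t) ^ 2 := by positivity
    nlinarith
  have h8 : 2 * A * th2 t * (1 + A * th t) ^ 2 ≤ Kk C1 k * th2 t * (1 + A * th t) ^ 2 := by
    have h9 : 2 * A ≤ Kk C1 k := by
      unfold Kk
      have : (0:ℝ) ≤ k := Nat.cast_nonneg k
      have : 0 ≤ (k:ℝ) * A := by positivity
      change 2 * A ≤ 2 * ((k:ℝ) + 1) * A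
      nlinarith
    gcongr
  linarith

/-- the positive curvature term -/
noncomputable def PF (st : (Fin n → ℂ) → ℝ) (C1 : ℝ) (k : ℕ) (F : Fin n → (Fin n → ℂ) → ℂ)
    (x : Fin n → ℂ) : ℝ := Kk C1 k * th1 (st x - k) * Lev st x (fun j => F j x)

/-- the quadratic form -/
noncomputable def QF (st : (Fin n → ℂ) → ℝ) (C1 : ℝ) (k : ℕ) (F : Fin n → (Fin n → ℂ) → ℂ) : ℝ :=
  ∫ x, (‖Dop (phF st C1 k) (psF st C1 k) F x‖ ^ 2 + Sop F x) * Real.exp (-phF st C1 k x)

lemma th1_continuous : Continuous th1 := by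
  have : Differentiable ℝ th1 := fun x => (th1_hasDerivAt x).differentiableAt
  exact this.continuous

theorem GoodDef.main_est (h : GoodDef r e) (hC : 0 < C1) (hF : ∀ j, IsTest (Om r) (F j))
    (hst : ContDiff ℝ ∞ st) (hst2 : ∀ x ∈ KF F, st =ᶠ[𝓝 x] sF r)
    {lam : (Fin n → ℂ) → ℝ} (hlam : ContDiff ℝ ∞ lam)
    (hlam1 : ∀ x ∈ Om r, ∀ w, 6 * Gam lam x w ≤ Lev lam x w)
    (hlam2 : ∀ x ∈ Om r, 0 ≤ lam x ∧ lam x ≤ 1 / 2) :
    ∫ x, (Grd F x + (1 / 4) * PF st C1 k F x + (1 / 8) * Lev lam x (fun j => F j x))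
      * Real.exp (-phF st C1 k x) ≤ 6 * QF st C1 k F := by
  have hF1 : ∀ j, ContDiff ℝ ∞ (F j) := fun j => (hF j).1
  refine basic_estimate (φ := phF st C1 k) (ψ := psF st C1 k) (phF_smooth hst) (psF_smooth hC hst)
    hlam hF1 (fun j => (hF j).2.1) (P := PF st C1 k F) ?_ ?_ ?_ ?_ ?_
  · unfold PF
    exact (continuous_const.mul (th1_continuous.comp (hst.continuous.sub continuous_const))).mul
      (continuous_Lev hst fun j => (hF1 j).continuous)
  · intro x
    unfold PF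
    by_cases hx : x ∈ KF F
    · have h1 : Lev st x (fun j => F j x) = Lev (sF r) x (fun j => F j x) := Lev_congr (hst2 x hx) _
      rw [h1]
      have h2 := h.Lev_sF_nonneg (KF_subset hF hx) (fun j => F j x)
      have h3 := th1_nonneg (st x - k)
      have h4 := Kk_pos (k := k) hC
      positivity
    · rw [Lev_zero_of (zero_of_notMem_KF hx)]; simp
  · intro x
    rw [Lev_phF hst, Gam_psF hC hst]
    unfold PF
    have h1 := weight_ineq (k := k) hC (st x - k)
    have h2 := Gam_nonneg st x (fun j => F j x)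
    have h3 := mul_le_mul_of_nonneg_right h1 h2
    nlinarith
  · intro x
    by_cases hx : x ∈ KF F
    · exact hlam1 x (KF_subset hF hx) _
    · rw [Lev_zero_of (zero_of_notMem_KF hx), Gam_zero_of (zero_of_notMem_KF hx)]; simp
  · rintro x ⟨j, hj⟩
    exact hlam2 x ((hF j).2.2 hj)

end apriori

end Pool.Agent.DBar74
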