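import Mathlib

open MeasureTheory Complex
open scoped ContDiff

namespace Pool.Agent.DBar74

variable {n : ℕ}

/-- The Wirtinger derivative with respect to the `j`-th variable. -/
noncomputable def dz (j : Fin n) (f : (Fin n → ℂ) → ℂ) (x : Fin n → ℂ) : ℂ :=
  (1 / 2) * (fderiv ℝ f x (Pi.single j 1) - I * fderiv ℝ f x (Pi.single j I))

/-- The conjugate Wirtinger derivative with respect to the `j`-th variable. -/
noncomputable def dzb (j : Fin n) (f : (Fin n → ℂ) → ℂ) (x : Fin n → ℂ) : ℂ :=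
  (1 / 2) * (fderiv ℝ f x (Pi.single j 1) + I * fderiv ℝ f x (Pi.single j I))

/-- A smooth function with compact support inside `Ω`. -/
def IsTest (Ω : Set (Fin n → ℂ)) (f : (Fin n → ℂ) → ℂ) : Prop :=
  ContDiff ℝ ∞ f ∧ HasCompactSupport f ∧ tsupport f ⊆ Ω

section algebra

variable {f g : (Fin n → ℂ) → ℂ} {x : Fin n → ℂ} {j k : Fin n}

lemma dz_add (hf : DifferentiableAt ℝ f x) (hg : DifferentiableAt ℝ g x) :
    dz j (fun y => f y + g y) x = dz j f x + dz j g x := by
  have h : fderiv ℝ (fun y => f y + g y) x = fderiv ℝ f x + fderiv ℝ g x :=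
    (hf.hasFDerivAt.add hg.hasFDerivAt).fderiv
  simp only [dz, h, ContinuousLinearMap.add_apply]; ring

lemma dzb_add (hf : DifferentiableAt ℝ f x) (hg : DifferentiableAt ℝ g x) :
    dzb j (fun y => f y + g y) x = dzb j f x + dzb j g x := by
  have h : fderiv ℝ (fun y => f y + g y) x = fderiv ℝ f x + fderiv ℝ g x :=
    (hf.hasFDerivAt.add hg.hasFDerivAt).fderiv
  simp only [dzb, h, ContinuousLinearMap.add_apply]; ring

lemma dz_sub (hf : DifferentiableAt ℝ f x) (hg : DifferentiableAt ℝ g x) :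
    dz j (fun y => f y - g y) x = dz j f x - dz j g x := by
  have h : fderiv ℝ (fun y => f y - g y) x = fderiv ℝ f x - fderiv ℝ g x :=
    (hf.hasFDerivAt.sub hg.hasFDerivAt).fderiv
  simp only [dz, h, ContinuousLinearMap.sub_apply]; ring

lemma dzb_sub (hf : DifferentiableAt ℝ f x) (hg : DifferentiableAt ℝ g x) :
    dzb j (fun y => f y - g y) x = dzb j f x - dzb j g x := by
  have h : fderiv ℝ (fun y => f y - g y) x = fderiv ℝ f x - fderiv ℝ g x :=
    (hf.hasFDerivAt.sub hg.hasFDerivAt).fderiv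
  simp only [dzb, h, ContinuousLinearMap.sub_apply]; ring

lemma dz_mul (hf : DifferentiableAt ℝ f x) (hg : DifferentiableAt ℝ g x) :
    dz j (fun y => f y * g y) x = dz j f x * g x + f x * dz j g x := by
  have h : fderiv ℝ (fun y => f y * g y) x = f x • fderiv ℝ g x + g x • fderiv ℝ f x :=
    (hf.hasFDerivAt.mul hg.hasFDerivAt).fderiv
  simp only [dz, h, ContinuousLinearMap.add_apply, ContinuousLinearMap.smul_apply, smul_eq_mul]
  ring

lemma dzb_mul (hf : DifferentiableAt ℝ f x) (hg : DifferentiableAt ℝ g x) :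
    dzb j (fun y => f y * g y) x = dzb j f x * g x + f x * dzb j g x := by
  have h : fderiv ℝ (fun y => f y * g y) x = f x • fderiv ℝ g x + g x • fderiv ℝ f x :=
    (hf.hasFDerivAt.mul hg.hasFDerivAt).fderiv
  simp only [dzb, h, ContinuousLinearMap.add_apply, ContinuousLinearMap.smul_apply, smul_eq_mul]
  ring

lemma dz_const (c : ℂ) : dz j (fun _ => c) x = 0 := by
  simp [dz]

lemma dzb_const (c : ℂ) : dzb j (fun _ => c) x = 0 := by
  simp [dzb]

lemma dz_const_mul (c : ℂ) (hf : DifferentiableAt ℝ f x) :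
    dz j (fun y => c * f y) x = c * dz j f x := by
  rw [dz_mul (differentiableAt_const c) hf, dz_const]; ring

lemma dzb_const_mul (c : ℂ) (hf : DifferentiableAt ℝ f x) :
    dzb j (fun y => c * f y) x = c * dzb j f x := by
  rw [dzb_mul (differentiableAt_const c) hf, dzb_const]; ring

lemma dz_sum {ι : Type*} (s : Finset ι) {F : ι → (Fin n → ℂ) → ℂ}
    (hf : ∀ i ∈ s, DifferentiableAt ℝ (F i) x) :
    dz j (fun y => ∑ i ∈ s, F i y) x = ∑ i ∈ s, dz j (F i) x := by
  have h : fderiv ℝ (fun y => ∑ i ∈ s, F i y) x = ∑ i ∈ s, fderiv ℝ (F i) x :=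
    fderiv_fun_sum hf
  simp only [dz, h, ContinuousLinearMap.sum_apply, Finset.mul_sum, ← Finset.sum_sub_distrib]

lemma dzb_sum {ι : Type*} (s : Finset ι) {F : ι → (Fin n → ℂ) → ℂ}
    (hf : ∀ i ∈ s, DifferentiableAt ℝ (F i) x) :
    dzb j (fun y => ∑ i ∈ s, F i y) x = ∑ i ∈ s, dzb j (F i) x := by
  have h : fderiv ℝ (fun y => ∑ i ∈ s, F i y) x = ∑ i ∈ s, fderiv ℝ (F i) x :=
    fderiv_fun_sum hf
  simp only [dzb, h, ContinuousLinearMap.sum_apply, Finset.mul_sum, ← Finset.sum_add_distrib]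

lemma fderiv_conj_comp (hf : DifferentiableAt ℝ f x) (v : Fin n → ℂ) :
    fderiv ℝ (fun y => (starRingEnd ℂ) (f y)) x v = (starRingEnd ℂ) (fderiv ℝ f x v) := by
  have h : HasFDerivAt (fun y => (starRingEnd ℂ) (f y))
      ((Complex.conjCLE.toContinuousLinearMap).comp (fderiv ℝ f x)) x :=
    (Complex.conjCLE.toContinuousLinearMap.hasFDerivAt).comp x hf.hasFDerivAt
  rw [h.fderiv]; simp

lemma dz_conj (hf : DifferentiableAt ℝ f x) :
    dz j (fun y => (starRingEnd ℂ) (f y)) x = (starRingEnd ℂ) (dzb j f x) := by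
  simp only [dz, dzb, fderiv_conj_comp hf, map_mul, map_add, map_div₀, map_one, map_ofNat, conj_I]
  ring

lemma dzb_conj (hf : DifferentiableAt ℝ f x) :
    dzb j (fun y => (starRingEnd ℂ) (f y)) x = (starRingEnd ℂ) (dz j f x) := by
  simp only [dz, dzb, fderiv_conj_comp hf, map_mul, map_sub, map_div₀, map_one, map_ofNat, conj_I]
  ring

lemma fderiv_ofReal_comp {k : (Fin n → ℂ) → ℝ} (hk : DifferentiableAt ℝ k x) (v : Fin n → ℂ) :
    fderiv ℝ (fun y => ((k y : ℝ) : ℂ)) x v = ((fderiv ℝ k x v : ℝ) : ℂ) := by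
  have h : HasFDerivAt (fun y => ((k y : ℝ) : ℂ))
      ((Complex.ofRealCLM).comp (fderiv ℝ k x)) x :=
    (Complex.ofRealCLM.hasFDerivAt).comp x hk.hasFDerivAt
  rw [h.fderiv]; simp

lemma dzb_ofReal {k : (Fin n → ℂ) → ℝ} (hk : DifferentiableAt ℝ k x) :
    dzb j (fun y => ((k y : ℝ) : ℂ)) x = (starRingEnd ℂ) (dz j (fun y => ((k y : ℝ) : ℂ)) x) := by
  simp only [dz, dzb, fderiv_ofReal_comp hk, map_mul, map_sub, map_div₀, map_one, map_ofNat, conj_I,
    conj_ofReal]
  ring

lemma dz_comp_real {h : ℝ → ℝ} {h' : ℝ} {k : (Fin n → ℂ) → ℝ} (hk : DifferentiableAt ℝ k x)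
    (hh : HasDerivAt h h' (k x)) :
    dz j (fun y => ((h (k y) : ℝ) : ℂ)) x = (h' : ℂ) * dz j (fun y => ((k y : ℝ) : ℂ)) x := by
  have h1 : HasFDerivAt (fun y => h (k y)) (h' • fderiv ℝ k x) x :=
    hh.comp_hasFDerivAt x hk.hasFDerivAt
  simp only [dz, fderiv_ofReal_comp hk, fderiv_ofReal_comp h1.differentiableAt, h1.fderiv,
    ContinuousLinearMap.smul_apply, smul_eq_mul, ofReal_mul]
  ring

end algebra

section smooth

variable {f g : (Fin n → ℂ) → ℂ} {x : Fin n → ℂ} {j k : Fin n}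

lemma contDiff_fderiv_apply {f : (Fin n → ℂ) → ℂ} (hf : ContDiff ℝ ∞ f) (v : Fin n → ℂ) :
    ContDiff ℝ ∞ (fun x => fderiv ℝ f x v) :=
  (hf.fderiv_right (m := ∞) (by simp)).clm_apply contDiff_const

lemma contDiff_dz (hf : ContDiff ℝ ∞ f) (j : Fin n) : ContDiff ℝ ∞ (dz j f) := by
  unfold dz
  exact contDiff_const.mul ((contDiff_fderiv_apply hf _).sub
    (contDiff_const.mul (contDiff_fderiv_apply hf _)))

lemma contDiff_dzb (hf : ContDiff ℝ ∞ f) (j : Fin n) : ContDiff ℝ ∞ (dzb j f) := by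
  unfold dzb
  exact contDiff_const.mul ((contDiff_fderiv_apply hf _).add
    (contDiff_const.mul (contDiff_fderiv_apply hf _)))

lemma support_dz_subset : Function.support (dz j f) ⊆ tsupport f := by
  intro x hx
  by_contra h
  apply hx
  have : fderiv ℝ f x = 0 := by
    have := support_fderiv_subset ℝ (f := f)
    by_contra h'
    exact h (this h')
  simp [dz, this]

lemma support_dzb_subset : Function.support (dzb j f) ⊆ tsupport f := by
  intro x hx
  by_contra h
  apply hx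
  have : fderiv ℝ f x = 0 := by
    have := support_fderiv_subset ℝ (f := f)
    by_contra h'
    exact h (this h')
  simp [dzb, this]

lemma tsupport_dz_subset : tsupport (dz j f) ⊆ tsupport f :=
  closure_minimal support_dz_subset (isClosed_tsupport f)

lemma tsupport_dzb_subset : tsupport (dzb j f) ⊆ tsupport f :=
  closure_minimal support_dzb_subset (isClosed_tsupport f)

lemma HasCompactSupport.dz (hf : HasCompactSupport f) (j : Fin n) :
    HasCompactSupport (dz j f) :=
  HasCompactSupport.of_support_subset_isCompact hf support_dz_subset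

lemma HasCompactSupport.dzb (hf : HasCompactSupport f) (j : Fin n) :
    HasCompactSupport (dzb j f) :=
  HasCompactSupport.of_support_subset_isCompact hf support_dzb_subset

lemma IsTest.dz {Ω : Set (Fin n → ℂ)} (hf : IsTest Ω f) (j : Fin n) : IsTest Ω (dz j f) :=
  ⟨contDiff_dz hf.1 j, HasCompactSupport.dz hf.2.1 j, tsupport_dz_subset.trans hf.2.2⟩

lemma IsTest.dzb {Ω : Set (Fin n → ℂ)} (hf : IsTest Ω f) (j : Fin n) : IsTest Ω (dzb j f) :=
  ⟨contDiff_dzb hf.1 j, HasCompactSupport.dzb hf.2.1 j, tsupport_dzb_subset.trans hf.2.2⟩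

/-- second derivatives commute -/
lemma fderiv_fderiv_apply (hf : ContDiff ℝ ∞ f) (v w : Fin n → ℂ) :
    fderiv ℝ (fun y => fderiv ℝ f y v) x w = fderiv ℝ (fderiv ℝ f) x w v := by
  have h : DifferentiableAt ℝ (fderiv ℝ f) x :=
    ((hf.fderiv_right (m := ∞) (by simp)).differentiable (by simp)) x
  have h2 := h.hasFDerivAt.clm_apply (hasFDerivAt_const v x)
  rw [h2.fderiv]; simp

lemma second_symm (hf : ContDiff ℝ ∞ f) (v w : Fin n → ℂ) :
    fderiv ℝ (fderiv ℝ f) x w v = fderiv ℝ (fderiv ℝ f) x v w := by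
  have h : IsSymmSndFDerivAt ℝ f x := by
    apply (hf.contDiffAt (x := x)).isSymmSndFDerivAt
    simp only [minSmoothness_of_isRCLikeNormedField]
    exact WithTop.coe_le_coe.2 le_top
  exact h w v

end smooth

end Pool.Agent.DBar74
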