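import Pool.Agent.DBar74.KMH2

open MeasureTheory Complex Filter Topology
open scoped ContDiff ComplexConjugate

namespace Pool.Agent.DBar74

variable {n : ℕ}

section levcalc

variable {k m : (Fin n → ℂ) → ℝ} {x : Fin n → ℂ}

/-- polarized version of `Gam` -/
noncomputable def Gam2 (k m : (Fin n → ℂ) → ℝ) (x w : Fin n → ℂ) : ℝ :=
  fderiv ℝ k x w * fderiv ℝ m x w + fderiv ℝ k x (I • w) * fderiv ℝ m x (I • w)

lemma Gam_nonneg (k : (Fin n → ℂ) → ℝ) (x w : Fin n → ℂ) : 0 ≤ Gam k x w := by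
  unfold Gam; positivity

lemma Gam2_self (k : (Fin n → ℂ) → ℝ) (x w : Fin n → ℂ) : Gam2 k k x w = Gam k x w := by
  unfold Gam Gam2; ring

lemma Lev_congr (h : k =ᶠ[𝓝 x] m) (w : Fin n → ℂ) : Lev k x w = Lev m x w := by
  unfold Lev; rw [h.fderiv.fderiv_eq]

lemma Gam_congr (h : k =ᶠ[𝓝 x] m) (w : Fin n → ℂ) : Gam k x w = Gam m x w := by
  unfold Gam; rw [h.fderiv_eq]

lemma diffAt_of (hk : ContDiffAt ℝ 2 k x) : DifferentiableAt ℝ k x :=
  hk.differentiableAt (by simp)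

lemma evDiff_of (hk : ContDiffAt ℝ 2 k x) : ∀ᶠ y in 𝓝 x, DifferentiableAt ℝ k y := by
  have := hk.eventually (by simp)
  filter_upwards [this] with y hy
  exact hy.differentiableAt (by simp)

lemma diffAt_fderiv_of (hk : ContDiffAt ℝ 2 k x) : DifferentiableAt ℝ (fderiv ℝ k) x := by
  have h := hk.fderiv_right (m := 1) (by norm_num)
  exact h.differentiableAt (by simp)

lemma Lev_add (hk : ContDiffAt ℝ 2 k x) (hm : ContDiffAt ℝ 2 m x) (w : Fin n → ℂ) :
    Lev (fun y => k y + m y) x w = Lev k x w + Lev m x w := by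
  have h1 : fderiv ℝ (fun y => k y + m y) =ᶠ[𝓝 x] fun y => fderiv ℝ k y + fderiv ℝ m y := by
    filter_upwards [evDiff_of hk, evDiff_of hm] with y h1 h2
    exact (h1.hasFDerivAt.add h2.hasFDerivAt).fderiv
  have h2 : fderiv ℝ (fderiv ℝ (fun y => k y + m y)) x
      = fderiv ℝ (fderiv ℝ k) x + fderiv ℝ (fderiv ℝ m) x := by
    rw [h1.fderiv_eq]
    exact ((diffAt_fderiv_of hk).hasFDerivAt.add (diffAt_fderiv_of hm).hasFDerivAt).fderiv
  unfold Lev; rw [h2]; simp only [add_apply]; ring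

lemma Gam_add_le (hk : DifferentiableAt ℝ k x) (hm : DifferentiableAt ℝ m x) (w : Fin n → ℂ) :
    Gam (fun y => k y + m y) x w ≤ 2 * Gam k x w + 2 * Gam m x w := by
  have h1 : fderiv ℝ (fun y => k y + m y) x = fderiv ℝ k x + fderiv ℝ m x :=
    (hk.hasFDerivAt.add hm.hasFDerivAt).fderiv
  unfold Gam; rw [h1]; simp only [add_apply]
  nlinarith [sq_nonneg (fderiv ℝ k x w - fderiv ℝ m x w),
    sq_nonneg (fderiv ℝ k x (I • w) - fderiv ℝ m x (I • w))]

lemma fderiv_comp_real {h : ℝ → ℝ} {h' : ℝ} (hk : DifferentiableAt ℝ k x)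
    (hh : HasDerivAt h h' (k x)) : fderiv ℝ (fun y => h (k y)) x = h' • fderiv ℝ k x :=
  (hh.comp_hasFDerivAt x hk.hasFDerivAt).fderiv

lemma Gam_comp {h : ℝ → ℝ} {h' : ℝ} (hk : DifferentiableAt ℝ k x)
    (hh : HasDerivAt h h' (k x)) (w : Fin n → ℂ) :
    Gam (fun y => h (k y)) x w = h' ^ 2 * Gam k x w := by
  unfold Gam; rw [fderiv_comp_real hk hh]; simp only [smul_apply, smul_eq_mul]; ring

lemma fderiv2_comp {h h1 : ℝ → ℝ} {h2 : ℝ} (hk : ContDiffAt ℝ 2 k x)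
    (hh : ∀ᶠ t in 𝓝 (k x), HasDerivAt h (h1 t) t) (hh1 : HasDerivAt h1 h2 (k x))
    (v w : Fin n → ℂ) :
    fderiv ℝ (fderiv ℝ (fun y => h (k y))) x v w
      = h2 * fderiv ℝ k x v * fderiv ℝ k x w + h1 (k x) * fderiv ℝ (fderiv ℝ k) x v w := by
  have e1 : fderiv ℝ (fun y => h (k y)) =ᶠ[𝓝 x] fun y => h1 (k y) • fderiv ℝ k y := by
    have hc : ContinuousAt k x := hk.continuousAt
    filter_upwards [evDiff_of hk, hc.eventually hh] with y hy1 hy2
    exact fderiv_comp_real hy1 hy2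
  rw [e1.fderiv_eq]
  have e2 : HasFDerivAt (fun y => h1 (k y)) (h2 • fderiv ℝ k x) x :=
    hh1.comp_hasFDerivAt x (diffAt_of hk).hasFDerivAt
  have e3 := e2.smul (diffAt_fderiv_of hk).hasFDerivAt
  rw [HasFDerivAt.fderiv (by exact e3)]
  simp [ContinuousLinearMap.smulRight_apply]
  ring

lemma Lev_comp {h h1 : ℝ → ℝ} {h2 : ℝ} (hk : ContDiffAt ℝ 2 k x)
    (hh : ∀ᶠ t in 𝓝 (k x), HasDerivAt h (h1 t) t) (hh1 : HasDerivAt h1 h2 (k x))
    (w : Fin n → ℂ) :
    Lev (fun y => h (k y)) x w = h2 * Gam k x w + h1 (k x) * Lev k x w := by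
  unfold Lev Gam
  rw [fderiv2_comp hk hh hh1, fderiv2_comp hk hh hh1]; ring

lemma fderiv2_mul (hk : ContDiffAt ℝ 2 k x) (hm : ContDiffAt ℝ 2 m x) (v w : Fin n → ℂ) :
    fderiv ℝ (fderiv ℝ (fun y => k y * m y)) x v w
      = k x * fderiv ℝ (fderiv ℝ m) x v w + m x * fderiv ℝ (fderiv ℝ k) x v w
        + fderiv ℝ k x v * fderiv ℝ m x w + fderiv ℝ m x v * fderiv ℝ k x w := by
  have e1 : fderiv ℝ (fun y => k y * m y) =ᶠ[𝓝 x]
      fun y => k y • fderiv ℝ m y + m y • fderiv ℝ k y := by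
    filter_upwards [evDiff_of hk, evDiff_of hm] with y hy1 hy2
    exact (hy1.hasFDerivAt.mul hy2.hasFDerivAt).fderiv
  rw [e1.fderiv_eq]
  have e3 := ((diffAt_of hk).hasFDerivAt.smul (diffAt_fderiv_of hm).hasFDerivAt).add
    ((diffAt_of hm).hasFDerivAt.smul (diffAt_fderiv_of hk).hasFDerivAt)
  rw [HasFDerivAt.fderiv (by exact e3)]
  simp [ContinuousLinearMap.smulRight_apply]
  ring

lemma Lev_mul (hk : ContDiffAt ℝ 2 k x) (hm : ContDiffAt ℝ 2 m x) (w : Fin n → ℂ) :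
    Lev (fun y => k y * m y) x w = k x * Lev m x w + m x * Lev k x w + 2 * Gam2 k m x w := by
  unfold Lev Gam2
  rw [fderiv2_mul hk hm, fderiv2_mul hk hm]; ring

lemma Lev_const (c : ℝ) (w : Fin n → ℂ) : Lev (fun _ : Fin n → ℂ => c) x w = 0 := by
  unfold Lev
  have : fderiv ℝ (fun _ : Fin n → ℂ => c) = fun _ => 0 := by ext y; simp
  rw [this]; simp

lemma Lev_const_mul (c : ℝ) (hk : ContDiffAt ℝ 2 k x) (w : Fin n → ℂ) :
    Lev (fun y => c * k y) x w = c * Lev k x w := by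
  rw [Lev_mul contDiffAt_const hk, Lev_const]
  unfold Gam2; simp

lemma Gam_const_mul (c : ℝ) (hk : DifferentiableAt ℝ k x) (w : Fin n → ℂ) :
    Gam (fun y => c * k y) x w = c ^ 2 * Gam k x w := by
  have := Gam_comp (h := fun t => c * t) (h' := c) hk (by simpa using (hasDerivAt_id (k x)).const_mul c) w
  simpa using this

lemma Lev_zero (k : (Fin n → ℂ) → ℝ) (x : Fin n → ℂ) : Lev k x 0 = 0 := by
  unfold Lev; simp

lemma Gam_zero (k : (Fin n → ℂ) → ℝ) (x : Fin n → ℂ) : Gam k x 0 = 0 := by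
  unfold Gam; simp

lemma continuous_Lev {F : Fin n → (Fin n → ℂ) → ℂ} (hk : ContDiff ℝ ∞ k)
    (hF : ∀ j, Continuous (F j)) : Continuous (fun x => Lev k x (fun j => F j x)) := by
  have h2 : Continuous (fderiv ℝ (fderiv ℝ k)) := by
    have h1 : ContDiff ℝ ∞ (fderiv ℝ k) := hk.fderiv_right (m := ∞) (by simp)
    exact h1.continuous_fderiv (by simp)
  have hw : Continuous (fun x => (fun j => F j x : Fin n → ℂ)) := continuous_pi hF
  unfold Lev
  exact ((h2.clm_apply hw).clm_apply hw).add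
    ((h2.clm_apply (hw.const_smul I)).clm_apply (hw.const_smul I))

lemma continuous_Gam {F : Fin n → (Fin n → ℂ) → ℂ} (hk : ContDiff ℝ ∞ k)
    (hF : ∀ j, Continuous (F j)) : Continuous (fun x => Gam k x (fun j => F j x)) := by
  have h1 : Continuous (fderiv ℝ k) := hk.continuous_fderiv (by simp)
  have hw : Continuous (fun x => (fun j => F j x : Fin n → ℂ)) := continuous_pi hF
  unfold Gam
  exact ((h1.clm_apply hw).pow 2).add ((h1.clm_apply (hw.const_smul I)).pow 2)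

end levcalc

end Pool.Agent.DBar74
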