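import Pool.Agent.DBar74.Near2

open MeasureTheory Filter Topology Complex
open scoped ENNReal ContDiff ComplexConjugate

namespace Pool.Agent.DBar74

variable {n : ℕ}

section compact

variable {r : (Fin n → ℂ) → ℝ} {e : Fin n} {C1 : ℝ} {k : ℕ} {F : Fin n → (Fin n → ℂ) → ℂ}
  {st : (Fin n → ℂ) → ℝ}

lemma IW_const_mul (c : ℝ) (g : (Fin n → ℂ) → ℝ) :
    IW st C1 k (fun x => c * g x) = c * IW st C1 k g := by
  unfold IW
  rw [← integral_const_mul]
  congr 1; ext x; ring

lemma IW_add (hF : ∀ j, IsTest (Om r) (F j)) (hst : ContDiff ℝ ∞ st)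
    {g g' : (Fin n → ℂ) → ℝ} (hg : Continuous g)
    (hg0 : ∀ x, (∀ j, F j x = 0) → (∀ j, fderiv ℝ (F j) x = 0) → g x = 0) (hg' : Continuous g')
    (hg0' : ∀ x, (∀ j, F j x = 0) → (∀ j, fderiv ℝ (F j) x = 0) → g' x = 0) :
    IW st C1 k (fun x => g x + g' x) = IW st C1 k g + IW st C1 k g' := by
  unfold IW
  rw [← integral_add (integrable_IW hF hst hg hg0) (integrable_IW hF hst hg' hg0')]
  congr 1; ext x; ring

theorem GoodDef.away_est (h : GoodDef r e) (hC : 0 < C1) (hF : ∀ j, IsTest (Om r) (F j))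
    (hst : ContDiff ℝ ∞ st) (hst2 : ∀ x ∈ KF F, st =ᶠ[𝓝 x] sF r) {m : ℝ} (hm : 0 < m) :
    IW st C1 k (fun x => Real.exp (m * r x) * Lev r x (fun j => F j x)) ≤ 288 / m * QF st C1 k F := by
  have hF1 : ∀ j, ContDiff ℝ ∞ (F j) := fun j => (hF j).1
  have hlam : ContDiff ℝ ∞ (fun z : Fin n → ℂ => (1 / 6) * Real.exp (m * r z)) :=
    contDiff_const.mul (Real.contDiff_exp.comp (contDiff_const.mul h.smooth))
  have hLev : ∀ x w, Lev (fun z : Fin n → ℂ => (1 / 6) * Real.exp (m * r z)) x w
      = (1 / 6) * (m ^ 2 * Real.exp (m * r x) * Gam r x w + m * Real.exp (m * r x) * Lev r x w) := by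
    intro x w
    have h1 : ContDiff ℝ ∞ (fun z : Fin n → ℂ => Real.exp (m * r z)) :=
      Real.contDiff_exp.comp (contDiff_const.mul h.smooth)
    rw [Lev_const_mul (1 / 6) (contDiffAt_two h1 x)]
    congr 1
    have hd : ∀ t : ℝ, HasDerivAt (fun t : ℝ => Real.exp (m * t)) (m * Real.exp (m * t)) t := by
      intro t
      have := ((hasDerivAt_id t).const_mul m).exp
      simp only [id, mul_one] at this
      rwa [mul_comm] at this
    have := Lev_comp (k := r) (h := fun t => Real.exp (m * t)) (h1 := fun t => m * Real.exp (m * t))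
      (h2 := m ^ 2 * Real.exp (m * r x)) (x := x) (contDiffAt_two h.smooth x)
      (Eventually.of_forall hd) (by
        have := (hd (r x)).const_mul m
        refine this.congr_deriv ?_
        ring) w
    exact this
  have hGam : ∀ x w, Gam (fun z : Fin n → ℂ => (1 / 6) * Real.exp (m * r z)) x w
      = (1 / 36) * (m ^ 2 * Real.exp (m * r x) ^ 2 * Gam r x w) := by
    intro x w
    have hd : HasDerivAt (fun t : ℝ => (1 / 6) * Real.exp (m * t))
        ((1 / 6) * (m * Real.exp (m * r x))) (r x) := by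
      have := ((hasDerivAt_id (r x)).const_mul m).exp
      simp only [id, mul_one] at this
      rw [mul_comm m]
      exact this.const_mul _
    rw [Gam_comp ((h.smooth.differentiable (by simp)) x) hd w]
    ring
  have hmain := h.main_est (k := k) hC hF hst hst2 hlam ?_ ?_
  · have hle : IW st C1 k (fun x => (m / 48) * (Real.exp (m * r x) * Lev r x (fun j => F j x)))
        ≤ 6 * QF st C1 k F := by
      refine le_trans ?_ hmain
      refine IW_mono (g' := fun x => Grd F x + (1 / 4) * PF st C1 k F x + (1 / 8) *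
        Lev (fun z : Fin n → ℂ => (1 / 6) * Real.exp (m * r z)) x (fun j => F j x)) hF hst ?_ ?_ ?_ ?_ ?_
      · exact continuous_const.mul ((Real.continuous_exp.comp
          (continuous_const.mul h.smooth.continuous)).mul
            (continuous_Lev h.smooth fun j => (hF1 j).continuous))
      · intro x h1 _
        rw [Lev_zero_of h1]; simp
      · exact ((continuous_Grd hF1).add (continuous_const.mul (continuous_PF hF1 hst))).add
          (continuous_const.mul (continuous_Lev hlam fun j => (hF1 j).continuous))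
      · intro x h1 h2
        rw [Grd_zero_of h2, PF_zero_of h1, Lev_zero_of h1]; simp
      · intro x hx
        rw [hLev]
        have hG := Grd_nonneg F x
        have hP : 0 ≤ PF st C1 k F x := by
          refine le_trans ?_ (h.PF_ge' hC hF hst2 hx)
          have h3' := th_nonneg (st x - k)
          have h4 := Ak_pos (k := k) hC
          have h5 := nsq_nonneg (fun j => F j x)
          positivity
        have hGm := Gam_nonneg r x (fun j => F j x)
        have : 0 ≤ m ^ 2 * Real.exp (m * r x) * Gam r x (fun j => F j x) := by positivity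
        linarith
    rw [IW_const_mul] at hle
    rw [div_mul_eq_mul_div, le_div_iff₀ hm]
    linarith
  · intro x hx w
    rw [hLev, hGam]
    have h0 : r x < 0 := hx
    have hL := h.psh x h0 w
    have hG := Gam_nonneg r x w
    have he1 : Real.exp (m * r x) ≤ 1 := Real.exp_le_one_iff.2 (by nlinarith)
    have he0 := Real.exp_pos (m * r x)
    have h1 : 0 ≤ m * Real.exp (m * r x) * Lev r x w := by positivity
    have h2 : m ^ 2 * Real.exp (m * r x) ^ 2 * Gam r x w ≤ m ^ 2 * Real.exp (m * r x) * Gam r x w := by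
      have : Real.exp (m * r x) ^ 2 ≤ Real.exp (m * r x) := by nlinarith
      gcongr
    linarith
  · intro x hx
    have h0 : r x < 0 := hx
    have he1 : Real.exp (m * r x) ≤ 1 := Real.exp_le_one_iff.2 (by nlinarith)
    have he0 := Real.exp_pos (m * r x)
    constructor <;> linarith

/-- **The compactness estimate**, reduced to a compact subset of the domain. -/
theorem GoodDef.small_est (h : GoodDef r e) (hC : 0 < C1) {ε : ℝ} (hε : 0 < ε) :
    ∃ (ζ : (Fin n → ℂ) → ℝ) (D : ℝ), 0 ≤ D ∧ IsTest (Om r) (cx ζ) ∧ ContDiff ℝ ∞ ζ ∧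
      (∀ x, 0 ≤ ζ x ∧ ζ x ≤ 1) ∧
      ∀ (k : ℕ) (F : Fin n → (Fin n → ℂ) → ℂ) (st : (Fin n → ℂ) → ℝ), (∀ j, IsTest (Om r) (F j)) →
        ContDiff ℝ ∞ st → (∀ x ∈ KF F, st =ᶠ[𝓝 x] sF r) →
        IW st C1 k (fun x => nsq (fun j => F j x))
          ≤ ε * QF st C1 k F + D * IW st C1 k (fun x => ζ x ^ 2 * nsq (fun j => F j x)) := by
  obtain ⟨C', hC'0, hC'⟩ := kap_deriv
  set B : ℝ := ε / 400 with hBdef
  have hB : 0 < B := by positivity
  set M : ℝ := 1 / (2 * B) with hMdef
  have hM : 0 < M := by positivity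
  obtain ⟨η0, hη0, hnear0⟩ := h.near M hM
  set η : ℝ := min η0 (Real.sqrt B) with hηdef
  have hη : 0 < η := lt_min hη0 (Real.sqrt_pos.2 hB)
  have hηB : η ^ 2 ≤ B := by
    have h1 : η ≤ Real.sqrt B := min_le_right _ _
    have h2 := pow_le_pow_left₀ hη.le h1 2
    rwa [Real.sq_sqrt hB.le] at h2
  have hnear : ∀ z, r z < 0 → ‖z e‖ < η → ∀ w,
      M * fderiv ℝ r z (Pi.single e (z e)) * nsq w ≤ Lev r z w := fun z hz hze w =>
    hnear0 z hz (lt_of_lt_of_le hze (min_le_left _ _)) w
  obtain ⟨c, hc, haway⟩ := h.away (η / 2) (by positivity)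
  set m : ℝ := (2 * C' + 1) * 864 * 2 / (c * ε) with hmdef
  have hm : 0 < m := by positivity
  have hKm : IsCompact {z | r z ≤ -(1 / m)} := h.isCompact_sub (by positivity)
  have hKmΩ : {z | r z ≤ -(1 / m)} ⊆ Om r := by
    intro z hz
    have h1 : r z ≤ -(1 / m) := hz
    have : 0 < 1 / m := by positivity
    change r z < 0
    linarith
  obtain ⟨ζ, hζ1, hζ2, hζ3, hζ4⟩ := exists_cutoff h.isOpen hKm hKmΩ
  refine ⟨ζ, 2 * C' + 1, by positivity, hζ1, hζ2, fun x => hζ4 x, ?_⟩
  intro k F st hF hst hst2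
  have hF1 : ∀ j, ContDiff ℝ ∞ (F j) := fun j => (hF j).1
  have hFc : ∀ j, Continuous (F j) := fun j => (hF1 j).continuous
  -- the auxiliary function
  set a : (Fin n → ℂ) → ℝ := fun x => (3 / c) * (Real.exp (m * r x) * Lev r x (fun j => F j x))
    + ζ x ^ 2 * nsq (fun j => F j x) with ha
  have ca1 : Continuous (fun x => Real.exp (m * r x) * Lev r x (fun j => F j x)) :=
    (Real.continuous_exp.comp (continuous_const.mul h.smooth.continuous)).mul
      (continuous_Lev h.smooth hFc)
  have ca2 : Continuous (fun x => ζ x ^ 2 * nsq (fun j => F j x)) :=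
    (hζ2.continuous.pow 2).mul (continuous_nsqF hF1)
  have ca : Continuous a := (continuous_const.mul ca1).add ca2
  have za : ∀ x, (∀ j, F j x = 0) → (∀ j, fderiv ℝ (F j) x = 0) → a x = 0 := by
    intro x h1 _
    simp only [ha]
    rw [Lev_zero_of h1, nsq_zero_of h1]; simp
  have hIa : IW st C1 k a ≤ (3 / c) * (288 / m * QF st C1 k F)
      + IW st C1 k (fun x => ζ x ^ 2 * nsq (fun j => F j x)) := by
    have h1 : IW st C1 k a = IW st C1 k (fun x => (3 / c) * (Real.exp (m * r x)
        * Lev r x (fun j => F j x))) + IW st C1 k (fun x => ζ x ^ 2 * nsq (fun j => F j x)) := by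
      refine IW_add hF hst (continuous_const.mul ca1) ?_ ca2 ?_
      · intro x h1 _; rw [Lev_zero_of h1]; simp
      · intro x h1 _; rw [nsq_zero_of h1]; simp
    rw [h1, IW_const_mul]
    have h2 := h.away_est (k := k) hC hF hst hst2 hm
    have h3 : 0 ≤ 3 / c := by positivity
    have := mul_le_mul_of_nonneg_left h2 h3
    linarith
  have ha0 : ∀ x ∈ KF F, 0 ≤ a x := by
    intro x hx
    have h0 : r x < 0 := KF_subset hF hx
    have hL := h.psh x h0 (fun j => F j x)
    have hN := nsq_nonneg (fun j => F j x)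
    simp only [ha]; positivity
  have hpt : ∀ x ∈ KF F, η / 2 ≤ ‖x e‖ → nsq (fun j => F j x) ≤ a x := by
    intro x hx hxe
    have h0 : r x < 0 := KF_subset hF hx
    have hL := h.psh x h0 (fun j => F j x)
    have hN := nsq_nonneg (fun j => F j x)
    have haw := haway x h0 hxe (fun j => F j x)
    simp only [ha]
    by_cases hr : r x ≤ -(1 / m)
    · have hz : ζ x = 1 := hζ3.self_of_nhdsSet x hr
      rw [hz]
      have : 0 ≤ (3 / c) * (Real.exp (m * r x) * Lev r x (fun j => F j x)) := by positivity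
      linarith
    · push Not at hr
      have h1 : -1 ≤ m * r x := by
        have : m * (-(1 / m)) < m * r x := mul_lt_mul_of_pos_left hr hm
        have h2 : m * (-(1 / m)) = -1 := by field_simp
        linarith
      have h2 : (1 / 3 : ℝ) ≤ Real.exp (m * r x) := by
        have h3 : Real.exp (-1) ≤ Real.exp (m * r x) := Real.exp_le_exp.2 h1
        have h4 : (1 / 3 : ℝ) ≤ Real.exp (-1) := by
          rw [Real.exp_neg, one_div]
          apply inv_anti₀ (Real.exp_pos 1)
          have := Real.exp_one_lt_d9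
          linarith
        linarith
      have h3 : 0 ≤ ζ x ^ 2 * nsq (fun j => F j x) := by positivity
      have h4 : nsq (fun j => F j x) ≤ (3 / c) * (Real.exp (m * r x) * Lev r x (fun j => F j x)) := by
        have h5 : (1 / 3 : ℝ) * (c * nsq (fun j => F j x))
            ≤ Real.exp (m * r x) * Lev r x (fun j => F j x) :=
          mul_le_mul h2 haw (by positivity) (Real.exp_pos _).le
        calc nsq (fun j => F j x) = (3 / c) * ((1 / 3 : ℝ) * (c * nsq (fun j => F j x))) := by
              field_simp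
          _ ≤ _ := mul_le_mul_of_nonneg_left h5 (by positivity)
      linarith
  have hkc : Continuous (fun x : Fin n → ℂ => kap η (‖x e‖ ^ 2)) :=
    (kap_contDiff η).continuous.comp (((continuous_apply e).norm).pow 2)
  have hkd : Continuous (fun x : Fin n → ℂ => deriv (kap η) (‖x e‖ ^ 2)) :=
    ((kap_contDiff η).continuous_deriv (by simp)).comp (((continuous_apply e).norm).pow 2)
  have cN := continuous_nsqF hF1
  -- the away part
  have p1 : IW st C1 k (fun x => (1 - kap η (‖x e‖ ^ 2)) * nsq (fun j => F j x)) ≤ IW st C1 k a := by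
    refine IW_mono hF hst ((continuous_const.sub hkc).mul cN) ?_ ca za ?_
    · intro x h1 _; rw [nsq_zero_of h1]; simp
    · intro x hx
      have hN := nsq_nonneg (fun j => F j x)
      by_cases hxe : η / 2 ≤ ‖x e‖
      · have h1 := hpt x hx hxe
        have h2 := kap_mem η (‖x e‖ ^ 2)
        nlinarith
      · have h1 : ‖x e‖ ^ 2 ≤ η ^ 2 / 4 := by
          have := pow_le_pow_left₀ (norm_nonneg _) (not_le.1 hxe).le 2
          have e1 : (η / 2) ^ 2 = η ^ 2 / 4 := by ring
          linarith
        rw [kap_one hη h1]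
        have := ha0 x hx
        linarith
  have p2 : IW st C1 k (fun x => B * PF st C1 k F x
        + (-(deriv (kap η) (‖x e‖ ^ 2) * ‖x e‖ ^ 2)) * nsq (fun j => F j x))
      ≤ B * IW st C1 k (PF st C1 k F) + C' * IW st C1 k a := by
    have h1 : IW st C1 k (fun x => B * PF st C1 k F x + C' * a x)
        = B * IW st C1 k (PF st C1 k F) + C' * IW st C1 k a := by
      rw [← IW_const_mul, ← IW_const_mul]
      refine IW_add hF hst (continuous_const.mul (continuous_PF hF1 hst)) ?_ (continuous_const.mul ca) ?_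
      · intro x h1 _; rw [PF_zero_of h1]; simp
      · intro x h1 h2; rw [za x h1 h2]; simp
    rw [← h1]
    refine IW_mono hF hst ?_ ?_ ?_ ?_ ?_
    · exact (continuous_const.mul (continuous_PF hF1 hst)).add
        ((hkd.mul (((continuous_apply e).norm).pow 2)).neg.mul cN)
    · intro x h1 _; rw [PF_zero_of h1, nsq_zero_of h1]; simp
    · exact (continuous_const.mul (continuous_PF hF1 hst)).add (continuous_const.mul ca)
    · intro x h1 h2; rw [PF_zero_of h1, za x h1 h2]; simp
    · intro x hx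
      have hN := nsq_nonneg (fun j => F j x)
      have hd := hC' η hη (‖x e‖ ^ 2) (by positivity)
      have ha0x := ha0 x hx
      have : (-(deriv (kap η) (‖x e‖ ^ 2) * ‖x e‖ ^ 2)) * nsq (fun j => F j x) ≤ C' * a x := by
        by_cases hxe : η / 2 ≤ ‖x e‖
        · have h1 := hpt x hx hxe
          have h2 : -(deriv (kap η) (‖x e‖ ^ 2) * ‖x e‖ ^ 2) ≤ C' :=
            (neg_le_abs _).trans hd.2
          calc (-(deriv (kap η) (‖x e‖ ^ 2) * ‖x e‖ ^ 2)) * nsq (fun j => F j x)
              ≤ C' * nsq (fun j => F j x) := mul_le_mul_of_nonneg_right h2 hN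
            _ ≤ C' * a x := mul_le_mul_of_nonneg_left h1 hC'0
        · have h1 : ‖x e‖ ^ 2 < η ^ 2 / 4 := by
            have := pow_lt_pow_left₀ (not_le.1 hxe) (norm_nonneg _) two_ne_zero
            have e1 : (η / 2) ^ 2 = η ^ 2 / 4 := by ring
            linarith
          rw [hd.1 h1]
          have : 0 ≤ C' * a x := by positivity
          simpa using this
      linarith
  have hB1 : 1 / (2 * M) ≤ B := by
    rw [hMdef]
    have : 1 / (2 * (1 / (2 * B))) = B := by field_simp
    rw [this]
  have p3 := h.near_est (k := k) hC hF hst hst2 hη hM hB1 (by linarith) hnear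
  obtain ⟨q1, _, _, q4⟩ := h.apriori_cor (k := k) hC hF hst hst2
  have hQ := QF_nonneg (st := st) (C1 := C1) (k := k) (F := F)
  have p4 : IW st C1 k (fun x => nsq (fun j => F j x))
      = IW st C1 k (fun x => kap η (‖x e‖ ^ 2) * nsq (fun j => F j x))
        + IW st C1 k (fun x => (1 - kap η (‖x e‖ ^ 2)) * nsq (fun j => F j x)) := by
    have hadd : IW st C1 k (fun x => kap η (‖x e‖ ^ 2) * nsq (fun j => F j x)
          + (1 - kap η (‖x e‖ ^ 2)) * nsq (fun j => F j x))
        = IW st C1 k (fun x => kap η (‖x e‖ ^ 2) * nsq (fun j => F j x))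
          + IW st C1 k (fun x => (1 - kap η (‖x e‖ ^ 2)) * nsq (fun j => F j x)) := by
      refine IW_add hF hst (hkc.mul cN) ?_ ((continuous_const.sub hkc).mul cN) ?_
      · intro x h1 _; rw [nsq_zero_of h1]; simp
      · intro x h1 _; rw [nsq_zero_of h1]; simp
    rw [← hadd]
    congr 1; ext x; ring
  rw [p4]
  set I1 := IW st C1 k (fun x => kap η (‖x e‖ ^ 2) * nsq (fun j => F j x))
  set I2 := IW st C1 k (fun x => (1 - kap η (‖x e‖ ^ 2)) * nsq (fun j => F j x))
  set Ia := IW st C1 k a
  set Iz := IW st C1 k (fun x => ζ x ^ 2 * nsq (fun j => F j x))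
  set Q := QF st C1 k F
  set G := IW st C1 k (Grd F)
  set P := IW st C1 k (PF st C1 k F)
  have s1 : I1 ≤ 2 * (B * P + C' * Ia) + 6 * η ^ 2 * G := by linarith
  have s2 : B * P ≤ B * (24 * Q) := mul_le_mul_of_nonneg_left q4 hB.le
  have s3 : 6 * η ^ 2 * G ≤ 6 * B * (6 * Q) := by
    have h1 : 6 * η ^ 2 * G ≤ 6 * η ^ 2 * (6 * Q) := mul_le_mul_of_nonneg_left q1 (by positivity)
    have h2 : 6 * η ^ 2 * (6 * Q) ≤ 6 * B * (6 * Q) :=
      mul_le_mul_of_nonneg_right (by linarith) (by positivity)
    linarith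
  have s4 : (2 * C' + 1) * Ia ≤ (2 * C' + 1) * ((3 / c) * (288 / m * Q) + Iz) :=
    mul_le_mul_of_nonneg_left hIa (by positivity)
  have s5 : (2 * C' + 1) * ((3 / c) * (288 / m * Q)) = ε / 2 * Q := by
    rw [hmdef]
    field_simp
    ring
  have s6 : I1 + I2 ≤ 48 * B * Q + 36 * B * Q + (2 * C' + 1) * Ia := by
    nlinarith
  have s7 : 48 * B * Q + 36 * B * Q ≤ ε / 2 * Q := by
    rw [hBdef]
    nlinarith
  have s8 : (2 * C' + 1) * ((3 / c) * (288 / m * Q) + Iz)
      = (2 * C' + 1) * ((3 / c) * (288 / m * Q)) + (2 * C' + 1) * Iz := by ring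
  rw [s8, s5] at s4
  linarith

end compact

end Pool.Agent.DBar74
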