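import Pool.Agent.DBar74.Spaces

open MeasureTheory Filter Topology Complex
open scoped ENNReal ContDiff ComplexConjugate InnerProductSpace Manifold

namespace Pool.Agent.DBar74

variable {n : ℕ}

lemma exists_cutoff {Ω K : Set (Fin n → ℂ)} (hΩ : IsOpen Ω) (hK : IsCompact K) (hKΩ : K ⊆ Ω) :
    ∃ ζ : (Fin n → ℂ) → ℝ, IsTest Ω (cx ζ) ∧ ContDiff ℝ ∞ ζ ∧ (∀ᶠ x in 𝓝ˢ K, ζ x = 1) ∧
      (∀ x, 0 ≤ ζ x ∧ ζ x ≤ 1) := by
  obtain ⟨L, hL, hKL, hLΩ⟩ := exists_compact_between hK hΩ hKΩ
  obtain ⟨f, h1, h0, h01⟩ := exists_contMDiffMap_one_nhds_of_subset_interior (n := ⊤)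
    𝓘(ℝ, Fin n → ℂ) hK.isClosed hKL
  have hf : ContDiff ℝ ∞ (fun x => f x) := f.contMDiff.contDiff
  have hsupp : Function.support (cx (fun x => f x)) ⊆ L := by
    intro x hx
    by_contra hxL
    apply hx
    simp [cx, h0 x hxL]
  refine ⟨fun x => f x, ⟨contDiff_ofReal_comp hf, ?_, ?_⟩, hf, h1, fun x => ⟨(h01 x).1, (h01 x).2⟩⟩
  · exact HasCompactSupport.of_support_subset_isCompact hL hsupp
  · exact (closure_minimal hsupp hL.isClosed).trans hLΩ

/-- support of a mollified function -/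
lemma mconv_zero_outside {K : Set (Fin n → ℂ)} {H : (Fin n → ℂ) → ℂ} (hH : ∀ x ∉ K, H x = 0)
    {k : ℕ} {x : Fin n → ℂ} (hx : x ∉ Metric.thickening (1 / (k + 1)) K) :
    mconv (rho k) H x = 0 := by
  rw [mconv_apply]
  have : ∀ y, rho k y • H (x - y) = 0 := by
    intro y
    by_cases hy : rho k y = 0
    · rw [hy, zero_smul]
    · have h1 := rho_support k hy
      rw [hH, smul_zero]
      intro hK
      apply hx
      rw [Metric.mem_thickening_iff]
      refine ⟨x - y, hK, ?_⟩
      rw [dist_eq_norm]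
      simpa using h1
  simp_rw [this]
  simp

lemma mconv_test_eventually {Ω K : Set (Fin n → ℂ)} (hΩ : IsOpen Ω) (hK : IsCompact K)
    (hKΩ : K ⊆ Ω) {H : (Fin n → ℂ) → ℂ} (hH : ∀ x ∉ K, H x = 0) (hHl : LocallyIntegrable H volume) :
    ∀ᶠ k in atTop, IsTest Ω (mconv (rho k) H) := by
  obtain ⟨L, hL, hKL, hLΩ⟩ := exists_compact_between hK hΩ hKΩ
  obtain ⟨δ, hδ, hδL⟩ := hK.exists_thickening_subset_open isOpen_interior hKL
  obtain ⟨N, hN⟩ := exists_nat_one_div_lt hδ
  filter_upwards [eventually_ge_atTop N] with k hk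
  have hk' : (1 : ℝ) / (k + 1) ≤ δ := by
    refine le_trans ?_ hN.le
    apply one_div_le_one_div_of_le (by positivity)
    have : (N:ℝ) ≤ k := by exact_mod_cast hk
    linarith
  have hz : Function.support (mconv (rho k) H) ⊆ L := by
    intro x hx
    by_contra hxL
    apply hx
    apply mconv_zero_outside hH
    intro hx2
    exact hxL (interior_subset (hδL (Metric.thickening_mono hk' K hx2)))
  refine ⟨mconv_contDiff (rho_contDiff k) (rho_compact k) hHl,
    HasCompactSupport.of_support_subset_isCompact hL hz,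
    (closure_minimal hz hL.isClosed).trans hLΩ⟩

/-- bounded multiplication of a mollified function converges -/
lemma mconv_mul_tendsto {Ω K : Set (Fin n → ℂ)} (hΩ : IsOpen Ω) (hK : IsCompact K) (hKΩ : K ⊆ Ω)
    {H : (Fin n → ℂ) → ℂ} (hH : ∀ x ∉ K, H x = 0) (hH2 : MemLp H 2 volume)
    {c : (Fin n → ℂ) → ℂ} (hc : ContDiffOn ℝ ∞ c Ω) :
    Tendsto (fun k => eLpNorm (fun x => c x * mconv (rho k) H x - c x * H x) 2
      (volume.restrict Ω)) atTop (𝓝 0) := by
  obtain ⟨L, hL, hKL, hLΩ⟩ := exists_compact_between hK hΩ hKΩ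
  obtain ⟨ζ, hζ1, hζ2, hζ3, hζ4⟩ := exists_cutoff hΩ hL hLΩ
  have hζL : ∀ x ∈ L, ζ x = 1 := fun x hx => hζ3.self_of_nhdsSet x hx
  -- thickening
  obtain ⟨δ, hδ, hδL⟩ := hK.exists_thickening_subset_open isOpen_interior hKL
  obtain ⟨N, hN⟩ := exists_nat_one_div_lt hδ
  have ht : IsTest Ω (fun x => c x * cx ζ x) := hζ1.smul_left hΩ hc
  obtain ⟨M, hM⟩ := ht.1.continuous.bounded_above_of_compact_support ht.2.1
  have hM0 : 0 ≤ M := (norm_nonneg _).trans (hM 0)
  have hev : ∀ᶠ k in atTop, eLpNorm (fun x => c x * mconv (rho k) H x - c x * H x) 2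
      (volume.restrict Ω) ≤ ENNReal.ofReal M
        * eLpNorm (fun x => mconv (rho k) H x - H x) 2 volume := by
    filter_upwards [eventually_ge_atTop N] with k hk
    have hk' : (1 : ℝ) / (k + 1) ≤ δ := by
      refine le_trans ?_ hN.le
      apply one_div_le_one_div_of_le (by positivity)
      have : (N:ℝ) ≤ k := by exact_mod_cast hk
      linarith
    have hz : ∀ x ∉ L, mconv (rho k) H x = 0 := by
      intro x hx
      apply mconv_zero_outside hH
      intro hx2
      exact hx (interior_subset (hδL (Metric.thickening_mono hk' K hx2)))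
    have hz' : ∀ x ∉ L, H x = 0 := fun x hx => hH x fun h => hx (interior_subset (hKL h))
    have h1 : eLpNorm (fun x => c x * mconv (rho k) H x - c x * H x) 2 (volume.restrict Ω)
        ≤ eLpNorm (fun x => c x * mconv (rho k) H x - c x * H x) 2 volume :=
      eLpNorm_mono_measure _ Measure.restrict_le_self
    refine h1.trans ?_
    apply eLpNorm_le_mul_eLpNorm_of_ae_le_mul
    refine Eventually.of_forall fun x => ?_
    by_cases hx : x ∈ L
    · have h2 := hM x
      have h3 : cx ζ x = 1 := by simp [cx, hζL x hx]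
      rw [h3, mul_one] at h2
      rw [← mul_sub, norm_mul]
      exact mul_le_mul_of_nonneg_right h2 (norm_nonneg _)
    · rw [hz x hx, hz' x hx]; simp
  have hlim : Tendsto (fun k => ENNReal.ofReal M
      * eLpNorm (fun x => mconv (rho k) H x - H x) 2 volume) atTop (𝓝 0) := by
    have := ENNReal.Tendsto.const_mul (a := ENNReal.ofReal M) (mconv_tendsto hH2) (by simp)
    simpa using this
  exact tendsto_of_tendsto_of_tendsto_of_le_of_le' tendsto_const_nhds hlim
    (Eventually.of_forall fun _ => zero_le) hev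

end Pool.Agent.DBar74
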