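import Pool.Agent.DBar74.Weak

open MeasureTheory Filter Topology Complex
open scoped ENNReal ContDiff ComplexConjugate InnerProductSpace

namespace Pool.Agent.DBar74

variable {n : ℕ}

section density

variable {Ω : Set (Fin n → ℂ)} {b1 b2 b3 : (Fin n → ℂ) → ℝ}

/-- hypothesis on a conjugating factor -/
def IsFac (Ω : Set (Fin n → ℂ)) (b : (Fin n → ℂ) → ℝ) : Prop :=
  ContDiffOn ℝ ∞ b Ω ∧ ∀ x ∈ Ω, 0 < b x

lemma IsFac.test (hΩ : IsOpen Ω) (hb : IsFac Ω b1) {χ : (Fin n → ℂ) → ℂ} (h : IsTest Ω χ) :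
    IsTest Ω (fun x => (b1 x : ℂ) * χ x) := h.smul_left hΩ (contDiffOn_cx hb.1)

lemma IsFac.test_inv (hΩ : IsOpen Ω) (hb : IsFac Ω b1) {χ : (Fin n → ℂ) → ℂ} (h : IsTest Ω χ) :
    IsTest Ω (fun x => (b1 x : ℂ)⁻¹ * χ x) := h.smul_left hΩ (contDiffOn_inv_cx hb.1 hb.2)

lemma IsFac.ne_zero (hb : IsFac Ω b1) {x : Fin n → ℂ} (hx : x ∈ Ω) : (b1 x : ℂ) ≠ 0 := by
  exact_mod_cast (hb.2 x hx).ne'

lemma IsTest.memLpr {χ : (Fin n → ℂ) → ℂ} (h : IsTest Ω χ) : MemLp χ 2 (volume.restrict Ω) :=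
  h.memLp _ _

/-- the test element of the relation `T` -/
lemma test_mem_TRel (hΩ : IsOpen Ω) (h1 : IsFac Ω b1) (h2 : IsFac Ω b2) {χ : (Fin n → ℂ) → ℂ}
    (hχ : IsTest Ω χ) :
    (tl Ω (fun x => (b1 x : ℂ) * χ x),
      (WithLp.toLp 2 (fun j => tl Ω (fun x => (b2 x : ℂ) * dzb j χ x)) : Form1 Ω)) ∈ TRel Ω b1 b2 := by
  rw [mem_TRel]
  intro ξ hξ j
  simp only
  rw [pr_tl (h1.test hΩ hχ).memLpr (h1.test_inv hΩ (hξ.dzb j)).memLpr,
    pr_tl (h2.test hΩ (hχ.dzb j)).memLpr (h2.test_inv hΩ hξ).memLpr]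
  have e1 : ∫ x in Ω, (b1 x : ℂ) * χ x * ((b1 x : ℂ)⁻¹ * dzb j ξ x) = ∫ x in Ω, χ x * dzb j ξ x := by
    apply setIntegral_congr_fun hΩ.measurableSet
    intro x hx
    have := h1.ne_zero hx
    simp only; field_simp
  have e2 : ∫ x in Ω, (b2 x : ℂ) * dzb j χ x * ((b2 x : ℂ)⁻¹ * ξ x) = ∫ x in Ω, dzb j χ x * ξ x := by
    apply setIntegral_congr_fun hΩ.measurableSet
    intro x hx
    have := h2.ne_zero hx
    simp only; field_simp
  rw [e1, e2, setIntegral_test (hξ.dzb j), setIntegral_test hξ, integral_dzb_mul hχ.1 hξ.1 hξ.2.1]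
  ring

/-- weak form of the adjoint relation -/
lemma adj_weak (hΩ : IsOpen Ω) (h1 : IsFac Ω b1) (h2 : IsFac Ω b2) {f : Form1 Ω} {u : L2 Ω}
    (h : (f, u) ∈ AdjRel (TRel Ω b1 b2)) {χ : (Fin n → ℂ) → ℂ} (hχ : IsTest Ω χ) :
    ∑ j, ∫ x in Ω, f j x * ((b2 x : ℂ) * dz j χ x) = ∫ x in Ω, u x * ((b1 x : ℂ) * χ x) := by
  have hm := h _ (test_mem_TRel hΩ h1 h2 hχ.conj)
  simp only [PiLp.inner_apply] at hm
  rw [inner_eq_integral] at hm
  simp_rw [inner_eq_integral] at hm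
  have e1 : ∫ x in Ω, (tl Ω (fun x => (b1 x : ℂ) * conj (χ x))) x * conj (u x)
      = conj (∫ x in Ω, u x * ((b1 x : ℂ) * χ x)) := by
    rw [← integral_conj]
    apply integral_congr_ae
    filter_upwards [tl_coe (h1.test hΩ hχ.conj).memLpr] with x hx
    rw [hx]
    simp only [map_mul, conj_ofReal]; ring
  have e2 : ∀ j, ∫ x in Ω, (tl Ω (fun x => (b2 x : ℂ) * dzb j (fun y => conj (χ y)) x)) x * conj (f j x)
      = conj (∫ x in Ω, f j x * ((b2 x : ℂ) * dz j χ x)) := by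
    intro j
    rw [← integral_conj]
    apply integral_congr_ae
    filter_upwards [tl_coe (h2.test hΩ (hχ.conj.dzb j)).memLpr] with x hx
    rw [hx, dzb_conj (differentiable_of_smooth hχ.1 x)]
    simp only [map_mul, conj_ofReal]; ring
  rw [e1] at hm
  simp_rw [e2] at hm
  rw [← map_sum] at hm
  have := congrArg conj hm
  simp only [Complex.conj_conj] at this
  exact this.symm

lemma integrable_L2_test (v : L2 Ω) {t : (Fin n → ℂ) → ℂ} (ht : IsTest Ω t) :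
    Integrable (fun x => v x * t x) (volume.restrict Ω) :=
  MemLp.integrable_mul (Lp.memLp v) ht.memLpr

lemma integrable_L2_test_univ (v : L2 Ω) {t : (Fin n → ℂ) → ℂ} (ht : IsTest Ω t)
    (hΩ : MeasurableSet Ω) : Integrable (fun x => v x * t x) volume := by
  have h1 := integrable_L2_test v ht
  rw [← IntegrableOn, ← integrable_indicator_iff hΩ] at h1
  refine h1.congr (Eventually.of_forall fun x => ?_)
  by_cases hx : x ∈ Ω
  · simp [hx]
  · simp [hx, ht.zero_outside hx]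

/-- weak divergence equation after cutting off -/
lemma cut_div (hΩ : IsOpen Ω) (h1 : IsFac Ω b1) (h2 : IsFac Ω b2) {f : Form1 Ω} {u : L2 Ω}
    (hw : ∀ χ, IsTest Ω χ →
      ∑ j, ∫ x in Ω, f j x * ((b2 x : ℂ) * dz j χ x) = ∫ x in Ω, u x * ((b1 x : ℂ) * χ x))
    {t2 : (Fin n → ℂ) → ℂ} (ht : IsTest Ω t2) {χ : (Fin n → ℂ) → ℂ} (hχ : IsTest Set.univ χ) :
    ∑ j, ∫ x, (f j x * ((b2 x : ℂ) * t2 x)) * dz j χ x
      = - ∫ x, (- (u x * ((b1 x : ℂ) * t2 x)) + ∑ j, f j x * ((b2 x : ℂ) * dz j t2 x)) * χ x := by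
  have hm := hΩ.measurableSet
  have hw1 := hw _ (ht.mul_right_smooth hχ.1)
  have tA : ∀ j, IsTest Ω (fun x => ((b2 x : ℂ) * t2 x) * dz j χ x) := fun j =>
    (h2.test hΩ ht).mul_right_smooth (contDiff_dz hχ.1 j)
  have tB : ∀ j, IsTest Ω (fun x => ((b2 x : ℂ) * dz j t2 x) * χ x) := fun j =>
    (h2.test hΩ (ht.dz j)).mul_right_smooth hχ.1
  have tC : IsTest Ω (fun x => ((b1 x : ℂ) * t2 x) * χ x) := (h1.test hΩ ht).mul_right_smooth hχ.1
  have s1 : ∀ j, ∫ x in Ω, f j x * ((b2 x : ℂ) * dz j (fun x => t2 x * χ x) x)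
      = (∫ x, f j x * (((b2 x : ℂ) * t2 x) * dz j χ x))
        + ∫ x, f j x * (((b2 x : ℂ) * dz j t2 x) * χ x) := by
    intro j
    rw [← setIntegral_test (tA j), ← setIntegral_test (tB j),
      ← integral_add (integrable_L2_test _ (tA j)) (integrable_L2_test _ (tB j))]
    congr 1; ext x
    rw [dz_mul (differentiable_of_smooth ht.1 x) (differentiable_of_smooth hχ.1 x)]
    ring
  simp_rw [s1] at hw1
  rw [Finset.sum_add_distrib] at hw1
  have s2 : ∫ x in Ω, u x * ((b1 x : ℂ) * (t2 x * χ x))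
      = ∫ x, u x * (((b1 x : ℂ) * t2 x) * χ x) := by
    rw [← setIntegral_test tC]
    congr 1; ext x; ring
  rw [s2] at hw1
  have s3 : ∫ x, (- (u x * ((b1 x : ℂ) * t2 x)) + ∑ j, f j x * ((b2 x : ℂ) * dz j t2 x)) * χ x
      = - (∫ x, u x * (((b1 x : ℂ) * t2 x) * χ x))
        + ∑ j, ∫ x, f j x * (((b2 x : ℂ) * dz j t2 x) * χ x) := by
    have hneg : Integrable (fun x => - (u x * (((b1 x : ℂ) * t2 x) * χ x))) volume :=
      (integrable_L2_test_univ u tC hm).neg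
    rw [← integral_finsetSum _ (fun j _ => integrable_L2_test_univ (f j) (tB j) hm), ← integral_neg,
      ← integral_add hneg
        (integrable_finsetSum _ fun j _ => integrable_L2_test_univ (f j) (tB j) hm)]
    congr 1; ext x
    rw [add_mul, Finset.sum_mul]
    congr 1
    · ring
    · exact Finset.sum_congr rfl fun j _ => by ring
  rw [s3]
  have s4 : ∑ j, ∫ x, (f j x * ((b2 x : ℂ) * t2 x)) * dz j χ x
      = ∑ j, ∫ x, f j x * (((b2 x : ℂ) * t2 x) * dz j χ x) :=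
    Finset.sum_congr rfl fun j _ => by congr 1; ext x; ring
  rw [s4]
  linear_combination hw1

/-- weak curl equation after cutting off -/
lemma cut_curl (hΩ : IsOpen Ω) (h2 : IsFac Ω b2) (h3 : IsFac Ω b3) {f : Form1 Ω} {h : Form2 Ω}
    (hw : (f, h) ∈ SRel Ω b2 b3)
    {η : (Fin n → ℂ) → ℂ} (hη : IsTest Ω η) {χ : (Fin n → ℂ) → ℂ} (hχ : IsTest Set.univ χ)
    (i : Idx2 n) :
    (∫ x, (f i.1.2 x * ((b2 x : ℂ)⁻¹ * η x)) * dzb i.1.1 χ x)
      - ∫ x, (f i.1.1 x * ((b2 x : ℂ)⁻¹ * η x)) * dzb i.1.2 χ x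
      = - ∫ x, (h i x * ((b3 x : ℂ)⁻¹ * η x) + (f i.1.2 x * ((b2 x : ℂ)⁻¹ * dzb i.1.1 η x)
          - f i.1.1 x * ((b2 x : ℂ)⁻¹ * dzb i.1.2 η x))) * χ x := by
  have hm := hΩ.measurableSet
  rw [mem_SRel] at hw
  have hw1 := hw _ (hη.mul_right_smooth hχ.1) i
  have tχ := hη.mul_right_smooth hχ.1
  rw [pr_apply (h2.test_inv hΩ (tχ.dzb _)).memLpr, pr_apply (h2.test_inv hΩ (tχ.dzb _)).memLpr,
    pr_apply (h3.test_inv hΩ tχ).memLpr] at hw1
  have tA : ∀ j, IsTest Ω (fun x => ((b2 x : ℂ)⁻¹ * η x) * dzb j χ x) := fun j =>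
    (h2.test_inv hΩ hη).mul_right_smooth (contDiff_dzb hχ.1 j)
  have tB : ∀ j, IsTest Ω (fun x => ((b2 x : ℂ)⁻¹ * dzb j η x) * χ x) := fun j =>
    (h2.test_inv hΩ (hη.dzb j)).mul_right_smooth hχ.1
  have tC : IsTest Ω (fun x => ((b3 x : ℂ)⁻¹ * η x) * χ x) :=
    (h3.test_inv hΩ hη).mul_right_smooth hχ.1
  have s1 : ∀ (k j : Fin n), ∫ x in Ω, f k x * ((b2 x : ℂ)⁻¹ * dzb j (fun x => η x * χ x) x)
      = (∫ x, f k x * (((b2 x : ℂ)⁻¹ * η x) * dzb j χ x))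
        + ∫ x, f k x * (((b2 x : ℂ)⁻¹ * dzb j η x) * χ x) := by
    intro k j
    rw [← setIntegral_test (tA j), ← setIntegral_test (tB j),
      ← integral_add (integrable_L2_test _ (tA j)) (integrable_L2_test _ (tB j))]
    congr 1; ext x
    rw [dzb_mul (differentiable_of_smooth hη.1 x) (differentiable_of_smooth hχ.1 x)]
    ring
  have s2 : ∫ x in Ω, h i x * ((b3 x : ℂ)⁻¹ * (η x * χ x))
      = ∫ x, h i x * (((b3 x : ℂ)⁻¹ * η x) * χ x) := by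
    rw [← setIntegral_test tC]
    congr 1; ext x; ring
  rw [s1, s1, s2] at hw1
  have s3 : ∫ x, (h i x * ((b3 x : ℂ)⁻¹ * η x) + (f i.1.2 x * ((b2 x : ℂ)⁻¹ * dzb i.1.1 η x)
          - f i.1.1 x * ((b2 x : ℂ)⁻¹ * dzb i.1.2 η x))) * χ x
      = (∫ x, h i x * (((b3 x : ℂ)⁻¹ * η x) * χ x))
        + ((∫ x, f i.1.2 x * (((b2 x : ℂ)⁻¹ * dzb i.1.1 η x) * χ x))
          - ∫ x, f i.1.1 x * (((b2 x : ℂ)⁻¹ * dzb i.1.2 η x) * χ x)) := by
    rw [← integral_sub (integrable_L2_test_univ _ (tB _) hm) (integrable_L2_test_univ _ (tB _) hm)]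
    rw [← integral_add (integrable_L2_test_univ _ tC hm)]
    · congr 1; ext x; ring
    · exact (integrable_L2_test_univ _ (tB _) hm).sub (integrable_L2_test_univ _ (tB _) hm)
  rw [s3]
  have s4 : ∀ (k j : Fin n), ∫ x, (f k x * ((b2 x : ℂ)⁻¹ * η x)) * dzb j χ x
      = ∫ x, f k x * (((b2 x : ℂ)⁻¹ * η x) * dzb j χ x) := fun k j => by congr 1; ext x; ring
  rw [s4, s4]
  linear_combination hw1

end density

end Pool.Agent.DBar74
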