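import Pool.Agent.DBar74.Density
import Pool.Agent.DBar74.Cutoff
import Pool.Agent.DBar74.Basic2

open MeasureTheory Filter Topology Complex
open scoped ENNReal ContDiff ComplexConjugate InnerProductSpace

namespace Pool.Agent.DBar74

variable {n : ℕ}

section density2

variable {Ω : Set (Fin n → ℂ)} {b1 b2 b3 : (Fin n → ℂ) → ℝ}

/-- the conjugated adjoint applied to a test form -/
noncomputable def uT (b1 b2 : (Fin n → ℂ) → ℝ) (F : Fin n → (Fin n → ℂ) → ℂ) (x : Fin n → ℂ) : ℂ :=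
  -((b1 x : ℂ)⁻¹) * ∑ j, dz j (fun y => (b2 y : ℂ) ^ 2 * F j y) x

/-- the conjugated `∂̄` applied to a test form -/
noncomputable def hT (b3 : (Fin n → ℂ) → ℝ) (F : Fin n → (Fin n → ℂ) → ℂ) (i : Idx2 n)
    (x : Fin n → ℂ) : ℂ := (b3 x : ℂ) * (dzb i.1.1 (F i.1.2) x - dzb i.1.2 (F i.1.1) x)

/-- the triple attached to a test form -/
noncomputable def tTrip (Ω : Set (Fin n → ℂ)) (b1 b2 b3 : (Fin n → ℂ) → ℝ)
    (F : Fin n → (Fin n → ℂ) → ℂ) : Form1 Ω × L2 Ω × Form2 Ω :=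
  (WithLp.toLp 2 (fun j => tl Ω (fun x => (b2 x : ℂ) * F j x)), tl Ω (uT b1 b2 F),
    WithLp.toLp 2 (fun i => tl Ω (hT b3 F i)))

/-- all test triples -/
def tTrips (Ω : Set (Fin n → ℂ)) (b1 b2 b3 : (Fin n → ℂ) → ℝ) : Set (Form1 Ω × L2 Ω × Form2 Ω) :=
  {p | ∃ F : Fin n → (Fin n → ℂ) → ℂ, (∀ j, IsTest Ω (F j)) ∧ p = tTrip Ω b1 b2 b3 F}

lemma tendsto_tl {g : ℕ → (Fin n → ℂ) → ℂ} {g0 : (Fin n → ℂ) → ℂ}
    (hg : ∀ᶠ k in atTop, MemLp (g k) 2 (volume.restrict Ω)) (h0 : MemLp g0 2 (volume.restrict Ω))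
    (hlim : Tendsto (fun k => eLpNorm (fun x => g k x - g0 x) 2 (volume.restrict Ω)) atTop (𝓝 0)) :
    Tendsto (fun k => tl Ω (g k)) atTop (𝓝 (tl Ω g0)) := by
  rw [Lp.tendsto_Lp_iff_tendsto_eLpNorm']
  refine hlim.congr' ?_
  filter_upwards [hg] with k hk
  apply eLpNorm_congr_ae
  filter_upwards [tl_coe hk, tl_coe h0] with x h1 h2
  simp only [Pi.sub_apply, h1, h2]

lemma contDiffOn_dz {b : (Fin n → ℂ) → ℂ} (hΩ : IsOpen Ω) (hb : ContDiffOn ℝ ∞ b Ω) (j : Fin n) :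
    ContDiffOn ℝ ∞ (dz j b) Ω := by
  have h1 : ContDiffOn ℝ ∞ (fderiv ℝ b) Ω := hb.fderiv_of_isOpen hΩ (by simp)
  unfold dz
  exact contDiffOn_const.mul ((h1.clm_apply contDiffOn_const).sub
    (contDiffOn_const.mul (h1.clm_apply contDiffOn_const)))

lemma tl_congr {g g' : (Fin n → ℂ) → ℂ} (hΩ : MeasurableSet Ω) (h : ∀ x ∈ Ω, g x = g' x) :
    tl Ω g = tl Ω g' := by
  have hae : g =ᵐ[volume.restrict Ω] g' := (ae_restrict_iff' hΩ).2 (Eventually.of_forall h)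
  by_cases hg : MemLp g 2 (volume.restrict Ω)
  · have hg' : MemLp g' 2 (volume.restrict Ω) := (memLp_congr_ae hae).1 hg
    apply Lp.ext
    filter_upwards [tl_coe hg, tl_coe hg', hae] with x h1 h2 h3
    rw [h1, h2, h3]
  · have hg' : ¬ MemLp g' 2 (volume.restrict Ω) := fun h' => hg ((memLp_congr_ae hae).2 h')
    unfold tl; rw [dif_neg hg, dif_neg hg']

lemma tl_add {g g' : (Fin n → ℂ) → ℂ} (hg : MemLp g 2 (volume.restrict Ω))
    (hg' : MemLp g' 2 (volume.restrict Ω)) :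
    tl Ω (fun x => g x + g' x) = tl Ω g + tl Ω g' := by
  apply Lp.ext
  have h := hg.add hg'
  filter_upwards [tl_coe hg, tl_coe hg', tl_coe (g := fun x => g x + g' x) h,
    Lp.coeFn_add (tl Ω g) (tl Ω g')] with x h1 h2 h3 h4
  rw [h3, h4, Pi.add_apply, h1, h2]

lemma tl_sum {ι : Type*} (s : Finset ι) {g : ι → (Fin n → ℂ) → ℂ}
    (hg : ∀ i, MemLp (g i) 2 (volume.restrict Ω)) :
    tl Ω (fun x => ∑ i ∈ s, g i x) = ∑ i ∈ s, tl Ω (g i) := by
  classical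
  induction s using Finset.induction_on with
  | empty =>
    simp only [Finset.sum_empty]
    apply Lp.ext
    filter_upwards [tl_coe (Ω := Ω) (g := fun _ => (0:ℂ)) MemLp.zero,
      Lp.coeFn_zero ℂ 2 (volume.restrict Ω)] with x h1 h2
    rw [h1, h2]; rfl
  | insert a s ha ih =>
    simp only [Finset.sum_insert ha]
    rw [tl_add (hg a) (memLp_finsetSum s fun i _ => hg i), ih]

lemma tendsto_tl_mconv {K : Set (Fin n → ℂ)} (hΩ : IsOpen Ω) (hK : IsCompact K) (hKΩ : K ⊆ Ω)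
    {H : (Fin n → ℂ) → ℂ} (hH : ∀ x ∉ K, H x = 0) (hH2 : MemLp H 2 volume)
    {c : (Fin n → ℂ) → ℂ} (hc : ContDiffOn ℝ ∞ c Ω) :
    Tendsto (fun k => tl Ω (fun x => c x * mconv (rho k) H x)) atTop
      (𝓝 (tl Ω (fun x => c x * H x))) := by
  have hev := mconv_test_eventually (Ω := Ω) hΩ hK hKΩ hH (hH2.locallyIntegrable (by norm_num))
  have hmem : MemLp (fun x => c x * H x) 2 (volume.restrict Ω) := by
    obtain ⟨ζ, hζ1, hζ2, hζ3, hζ4⟩ := exists_cutoff hΩ hK hKΩ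
    have ht : IsTest Ω (fun x => c x * cx ζ x) := hζ1.smul_left hΩ hc
    have := (ht.mul_memLp hH2).restrict Ω
    refine (memLp_congr_ae (Eventually.of_forall fun x => ?_)).1 this
    by_cases hx : x ∈ K
    · have : ζ x = 1 := hζ3.self_of_nhdsSet x hx
      simp [cx, this, mul_comm]
    · simp [hH x hx]
  refine tendsto_tl ?_ hmem (mconv_mul_tendsto hΩ hK hKΩ hH hH2 hc)
  filter_upwards [hev] with k hk
  exact (hk.smul_left hΩ hc).memLpr

/-- cut-off of an element of the graph space -/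
noncomputable def cutTrip (b1 b2 b3 : (Fin n → ℂ) → ℝ) (η : (Fin n → ℂ) → ℂ)
    (f : Form1 Ω) (u : L2 Ω) (h : Form2 Ω) : Form1 Ω × L2 Ω × Form2 Ω :=
  (WithLp.toLp 2 (fun j => tl Ω (fun x => f j x * η x)),
    tl Ω (fun x => u x * η x - (b2 x : ℂ) / (b1 x : ℂ) * ∑ j, f j x * dz j η x),
    WithLp.toLp 2 (fun i : Idx2 n => tl Ω (fun x => h i x * η x + (b3 x : ℂ) / (b2 x : ℂ) *
      (f i.1.2 x * dzb i.1.1 η x - f i.1.1 x * dzb i.1.2 η x))))

theorem cut_mem_closure (hΩ : IsOpen Ω) (h1 : IsFac Ω b1) (h2 : IsFac Ω b2) (h3 : IsFac Ω b3)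
    {f : Form1 Ω} {u : L2 Ω} {h : Form2 Ω} (hfu : (f, u) ∈ AdjRel (TRel Ω b1 b2))
    (hfh : (f, h) ∈ SRel Ω b2 b3) {η : (Fin n → ℂ) → ℂ} (hη : IsTest Ω η) :
    cutTrip b1 b2 b3 η f u h ∈ closure (tTrips Ω b1 b2 b3) := by
  have hm := hΩ.measurableSet
  set K : Set (Fin n → ℂ) := tsupport η with hKdef
  have hK : IsCompact K := hη.2.1
  have hKΩ : K ⊆ Ω := hη.2.2
  have hη0 : ∀ x ∉ K, η x = 0 := fun x hx => (eq_zero_nhds hx).1
  have hη0' : ∀ x ∉ K, fderiv ℝ η x = 0 := fun x hx => (eq_zero_nhds hx).2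
  set t2 : (Fin n → ℂ) → ℂ := fun x => (b2 x : ℂ)⁻¹ * ((b2 x : ℂ)⁻¹ * η x) with ht2
  have ht2t : IsTest Ω t2 := h2.test_inv hΩ (h2.test_inv hΩ hη)
  have ht2K : tsupport t2 ⊆ K :=
    (tsupport_mul_subset_right (f := fun x => (b2 x : ℂ)⁻¹) (g := fun x => (b2 x : ℂ)⁻¹ * η x)).trans
      (tsupport_mul_subset_right (f := fun x => (b2 x : ℂ)⁻¹) (g := η))
  have ht20 : ∀ x ∉ K, t2 x = 0 := fun x hx => (eq_zero_nhds fun h => hx (ht2K h)).1
  have ht20' : ∀ x ∉ K, fderiv ℝ t2 x = 0 := fun x hx => (eq_zero_nhds fun h => hx (ht2K h)).2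
  -- the cut off data
  set G : Fin n → (Fin n → ℂ) → ℂ := fun j x => f j x * ((b2 x : ℂ) * t2 x) with hG
  set D : (Fin n → ℂ) → ℂ := fun x =>
    - (u x * ((b1 x : ℂ) * t2 x)) + ∑ j, f j x * ((b2 x : ℂ) * dz j t2 x) with hD
  set E : Idx2 n → (Fin n → ℂ) → ℂ := fun i x =>
    h i x * ((b3 x : ℂ)⁻¹ * η x) + (f i.1.2 x * ((b2 x : ℂ)⁻¹ * dzb i.1.1 η x)
          - f i.1.1 x * ((b2 x : ℂ)⁻¹ * dzb i.1.2 η x)) with hE
  have hG0 : ∀ j, ∀ x ∉ K, G j x = 0 := fun j x hx => by simp [hG, ht20 x hx]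
  have hD0 : ∀ x ∉ K, D x = 0 := fun x hx => by
    simp [hD, ht20 x hx, dz_zero_of (ht20' x hx)]
  have hE0 : ∀ i, ∀ x ∉ K, E i x = 0 := fun i x hx => by
    simp [hE, hη0 x hx, dzb_zero_of (hη0' x hx)]
  have hGm : ∀ j, MemLp (G j) 2 volume := fun j =>
    (h2.test hΩ ht2t).mul_memLp_univ hm (Lp.memLp (f j))
  have hDm : MemLp D 2 volume := by
    refine MemLp.add ?_ ?_
    · exact ((h1.test hΩ ht2t).mul_memLp_univ hm (Lp.memLp u)).neg
    · exact memLp_finsetSum _ fun j _ =>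
        (h2.test hΩ (ht2t.dz j)).mul_memLp_univ hm (Lp.memLp (f j))
  have hEm : ∀ i, MemLp (E i) 2 volume := by
    intro i
    refine MemLp.add ?_ (MemLp.sub ?_ ?_)
    · exact (h3.test_inv hΩ hη).mul_memLp_univ hm (Lp.memLp (h i))
    · exact (h2.test_inv hΩ (hη.dzb _)).mul_memLp_univ hm (Lp.memLp (f _))
    · exact (h2.test_inv hΩ (hη.dzb _)).mul_memLp_univ hm (Lp.memLp (f _))
  have hGl : ∀ j, LocallyIntegrable (G j) volume := fun j => (hGm j).locallyIntegrable (by norm_num)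
  -- the mollified forms
  set F : ℕ → Fin n → (Fin n → ℂ) → ℂ := fun k j => mconv (rho k) (G j) with hF
  have hFt : ∀ᶠ k in atTop, ∀ j, IsTest Ω (F k j) := by
    rw [eventually_all]
    exact fun j => mconv_test_eventually hΩ hK hKΩ (hG0 j) (hGl j)
  have hdiv : ∀ k x, ∑ j, dz j (F k j) x = mconv (rho k) D x := fun k x =>
    mconv_div (rho_contDiff k) (rho_compact k) hGl
      (fun χ hχ => cut_div hΩ h1 h2 (fun χ hχ => adj_weak hΩ h1 h2 hfu hχ) ht2t hχ) x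
  have hcurl : ∀ k (i : Idx2 n) x, dzb i.1.1 (F k i.1.2) x - dzb i.1.2 (F k i.1.1) x
      = mconv (rho k) (E i) x := by
    intro k i x
    refine mconv_curl (rho_contDiff k) (rho_compact k) (hGl _) (hGl _) (fun χ hχ => ?_) x
    have hc := cut_curl hΩ h2 h3 hfh hη hχ i
    rw [hE]
    rw [← hc]
    congr 1
    · congr 1; ext y
      by_cases hy : y ∈ Ω
      · have := h2.ne_zero hy
        simp only [hG, ht2]; field_simp
      · simp only [hG]
        rw [ht2t.zero_outside hy, hη.zero_outside hy]; simp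
    · congr 1; ext y
      by_cases hy : y ∈ Ω
      · have := h2.ne_zero hy
        simp only [hG, ht2]; field_simp
      · simp only [hG]
        rw [ht2t.zero_outside hy, hη.zero_outside hy]; simp
  have hcb2 : ContDiffOn ℝ ∞ (fun x => (b2 x : ℂ)) Ω := contDiffOn_cx h2.1
  have hcb3 : ContDiffOn ℝ ∞ (fun x => (b3 x : ℂ)) Ω := contDiffOn_cx h3.1
  have hcb1 : ContDiffOn ℝ ∞ (fun x => -((b1 x : ℂ)⁻¹)) Ω := (contDiffOn_inv_cx h1.1 h1.2).neg
  have hcb22 : ContDiffOn ℝ ∞ (fun x => (b2 x : ℂ) ^ 2) Ω := hcb2.pow 2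
  -- convergence of the three components
  have lim1 : ∀ j, Tendsto (fun k => tl Ω (fun x => (b2 x : ℂ) * F k j x)) atTop
      (𝓝 (tl Ω (fun x => f j x * η x))) := by
    intro j
    have := tendsto_tl_mconv hΩ hK hKΩ (hG0 j) (hGm j) hcb2
    rw [tl_congr hm (g' := fun x => f j x * η x)] at this
    · exact this
    · intro x hx
      have := h2.ne_zero hx
      simp only [hG, ht2]; field_simp
  have lim3 : ∀ i : Idx2 n, Tendsto (fun k => tl Ω (hT b3 (F k) i)) atTop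
      (𝓝 (tl Ω (fun x => h i x * η x + (b3 x : ℂ) / (b2 x : ℂ) *
      (f i.1.2 x * dzb i.1.1 η x - f i.1.1 x * dzb i.1.2 η x)))) := by
    intro i
    have := tendsto_tl_mconv hΩ hK hKΩ (hE0 i) (hEm i) hcb3
    rw [tl_congr hm (g' := fun x => h i x * η x + (b3 x : ℂ) / (b2 x : ℂ) *
      (f i.1.2 x * dzb i.1.1 η x - f i.1.1 x * dzb i.1.2 η x))] at this
    · refine this.congr fun k => ?_
      congr 1; ext x
      unfold hT
      rw [hcurl]
    · intro x hx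
      have e2 := h2.ne_zero hx
      have e3 := h3.ne_zero hx
      simp only [hE]; field_simp
  have lim2 : Tendsto (fun k => tl Ω (uT b1 b2 (F k))) atTop
      (𝓝 (tl Ω (fun x => u x * η x - (b2 x : ℂ) / (b1 x : ℂ) * ∑ j, f j x * dz j η x))) := by
    have hc0 : ContDiffOn ℝ ∞ (fun x => -((b1 x : ℂ)⁻¹) * (b2 x : ℂ) ^ 2) Ω := hcb1.mul hcb22
    have hcj : ∀ j, ContDiffOn ℝ ∞
        (fun x => -((b1 x : ℂ)⁻¹) * dz j (fun y => (b2 y : ℂ) ^ 2) x) Ω := fun j =>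
      hcb1.mul (contDiffOn_dz hΩ hcb22 j)
    have l0 := tendsto_tl_mconv hΩ hK hKΩ hD0 hDm hc0
    have lj : ∀ j, _ := fun j => tendsto_tl_mconv hΩ hK hKΩ (hG0 j) (hGm j) (hcj j)
    have lsum := l0.add (tendsto_finsetSum Finset.univ fun j _ => lj j)
    have hdiff2 : ∀ x ∈ Ω, DifferentiableAt ℝ (fun y => (b2 y : ℂ) ^ 2) x := fun x hx =>
      (hcb22.contDiffAt (hΩ.mem_nhds hx)).differentiableAt (by simp)
    -- limit identification
    have hlimeq : tl Ω (fun x => -((b1 x : ℂ)⁻¹) * (b2 x : ℂ) ^ 2 * D x)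
        + ∑ j, tl Ω (fun x => -((b1 x : ℂ)⁻¹) * dz j (fun y => (b2 y : ℂ) ^ 2) x * G j x)
        = tl Ω (fun x => u x * η x - (b2 x : ℂ) / (b1 x : ℂ) * ∑ j, f j x * dz j η x) := by
      obtain ⟨ζ, hζ1, hζ2, hζ3, hζ4⟩ := exists_cutoff hΩ hK hKΩ
      have hmul : ∀ (c H : (Fin n → ℂ) → ℂ), ContDiffOn ℝ ∞ c Ω → MemLp H 2 volume →
          (∀ x ∉ K, H x = 0) → MemLp (fun x => c x * H x) 2 (volume.restrict Ω) := by
        intro c H hc hH hH0
        have ht : IsTest Ω (fun x => c x * cx ζ x) := hζ1.smul_left hΩ hc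
        have := (ht.mul_memLp hH).restrict Ω
        refine (memLp_congr_ae (Eventually.of_forall fun x => ?_)).1 this
        by_cases hx : x ∈ K
        · have : ζ x = 1 := hζ3.self_of_nhdsSet x hx
          simp [cx, this, mul_comm]
        · simp [hH0 x hx]
      have m0 := hmul _ _ hc0 hDm hD0
      have mj := fun j => hmul _ _ (hcj j) (hGm j) (hG0 j)
      rw [← tl_sum Finset.univ mj, ← tl_add m0 (memLp_finsetSum _ fun j _ => mj j)]
      apply tl_congr hm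
      intro x hx
      have e1 := h1.ne_zero hx
      have e2 := h2.ne_zero hx
      have hder : ∀ j, dz j η x = dz j (fun y => (b2 y : ℂ) ^ 2) x * t2 x
          + (b2 x : ℂ) ^ 2 * dz j t2 x := by
        intro j
        rw [← dz_mul (hdiff2 x hx) (differentiable_of_smooth ht2t.1 x)]
        have hev : η =ᶠ[𝓝 x] fun y => (b2 y : ℂ) ^ 2 * t2 y := by
          filter_upwards [hΩ.mem_nhds hx] with y hy
          have := h2.ne_zero hy
          simp only [ht2]; field_simp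
        unfold dz
        rw [hev.fderiv_eq]
      have hηt : η x = (b2 x : ℂ) ^ 2 * t2 x := by
        simp only [ht2]; field_simp
      simp only [hder, hD, hG]
      rw [hηt]
      simp only [mul_add, Finset.sum_add_distrib, Finset.mul_sum, mul_sub]
      have k1 : ∀ j, -((b1 x : ℂ)⁻¹) * (b2 x : ℂ) ^ 2 * (f j x * ((b2 x : ℂ) * dz j t2 x))
          = - ((b2 x : ℂ) / (b1 x : ℂ) * (f j x * ((b2 x : ℂ) ^ 2 * dz j t2 x))) := by
        intro j; field_simp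
      have k2 : ∀ j, -((b1 x : ℂ)⁻¹) * dz j (fun y => (b2 y : ℂ) ^ 2) x * (f j x * ((b2 x : ℂ) * t2 x))
          = - ((b2 x : ℂ) / (b1 x : ℂ) * (f j x * (dz j (fun y => (b2 y : ℂ) ^ 2) x * t2 x))) := by
        intro j; field_simp
      have k3 : -((b1 x : ℂ)⁻¹) * (b2 x : ℂ) ^ 2 * -(u x * ((b1 x : ℂ) * t2 x))
          = u x * ((b2 x : ℂ) ^ 2 * t2 x) := by field_simp
      simp_rw [k1, k2, k3, Finset.sum_neg_distrib]
      ring
    rw [hlimeq] at lsum
    refine lsum.congr' ?_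
    filter_upwards [hFt, mconv_test_eventually hΩ hK hKΩ hD0 (hDm.locallyIntegrable (by norm_num))]
      with k hk hDk
    have m0 : MemLp (fun x => -((b1 x : ℂ)⁻¹) * (b2 x : ℂ) ^ 2 * mconv (rho k) D x) 2
        (volume.restrict Ω) := (hDk.smul_left hΩ hc0).memLpr
    have mj : ∀ j, MemLp (fun x => -((b1 x : ℂ)⁻¹) * dz j (fun y => (b2 y : ℂ) ^ 2) x
        * mconv (rho k) (G j) x) 2 (volume.restrict Ω) := fun j =>
      ((hk j).smul_left hΩ (hcj j)).memLpr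
    rw [← tl_sum Finset.univ mj, ← tl_add m0 (memLp_finsetSum _ fun j _ => mj j)]
    apply tl_congr hm
    intro x hx
    unfold uT
    have k1 : ∀ j, dz j (fun y => (b2 y : ℂ) ^ 2 * F k j y) x
        = dz j (fun y => (b2 y : ℂ) ^ 2) x * F k j x + (b2 x : ℂ) ^ 2 * dz j (F k j) x := fun j =>
      dz_mul (hdiff2 x hx) (differentiable_of_smooth (hk j).1 x)
    simp_rw [k1, Finset.sum_add_distrib, ← Finset.mul_sum, hdiv, mul_add]
    rw [Finset.mul_sum]
    simp only [hF]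
    rw [add_comm]
    congr 1
    · exact Finset.sum_congr rfl fun j _ => by ring
    · ring
  refine mem_closure_of_tendsto (f := fun k => tTrip Ω b1 b2 b3 (F k)) (b := atTop) ?_ ?_
  · refine Tendsto.prodMk_nhds ?_ (Tendsto.prodMk_nhds lim2 ?_)
    · exact (PiLp.continuous_toLp 2 _).continuousAt.tendsto.comp (tendsto_pi_nhds.2 lim1)
    · exact (PiLp.continuous_toLp 2 _).continuousAt.tendsto.comp (tendsto_pi_nhds.2 lim3)
  · filter_upwards [hFt] with k hk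
    exact ⟨F k, hk, rfl⟩

end density2

end Pool.Agent.DBar74
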