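import Pool.Agent.DBar74.Density2

open MeasureTheory Filter Topology Complex
open scoped ENNReal ContDiff ComplexConjugate InnerProductSpace

namespace Pool.Agent.DBar74

variable {n : ℕ}

section density3

variable {Ω : Set (Fin n → ℂ)} {b1 b2 b3 : (Fin n → ℂ) → ℝ}

/-- dominated convergence in the mean square sense -/
lemma tendsto_eLpNorm_zero {g : ℕ → (Fin n → ℂ) → ℂ} {B : (Fin n → ℂ) → ℝ} {μ : Measure (Fin n → ℂ)}
    (hg : ∀ k, AEStronglyMeasurable (g k) μ) (hB : MemLp B 2 μ)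
    (hle : ∀ k, ∀ᵐ x ∂μ, ‖g k x‖ ≤ B x) (hlim : ∀ᵐ x ∂μ, Tendsto (fun k => g k x) atTop (𝓝 0)) :
    Tendsto (fun k => eLpNorm (g k) 2 μ) atTop (𝓝 0) := by
  have h1 : Tendsto (fun k => ∫⁻ x, ‖g k x‖ₑ ^ 2 ∂μ) atTop (𝓝 (∫⁻ _x, (0 : ℝ≥0∞) ∂μ)) := by
    apply tendsto_lintegral_of_dominated_convergence' (fun x => ‖B x‖ₑ ^ 2)
    · exact fun k => (hg k).enorm.pow_const 2
    · intro k
      filter_upwards [hle k] with x hx
      gcongr
      rw [enorm_le_iff_norm_le]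
      exact hx.trans (le_abs_self _)
    · have h2 := hB.eLpNorm_lt_top
      have h3 : eLpNorm B 2 μ ^ 2 = ∫⁻ x, ‖B x‖ₑ ^ 2 ∂μ := by
        rw [eLpNorm_eq_lintegral_rpow_enorm_toReal (by simp) (by simp)]
        rw [← ENNReal.rpow_natCast, ← ENNReal.rpow_mul]
        simp
      rw [← h3]
      exact (ENNReal.pow_lt_top h2).ne
    · filter_upwards [hlim] with x hx
      have h4 : Tendsto (fun k => ‖g k x‖ₑ) atTop (𝓝 0) := by
        simpa using hx.enorm
      have h5 := ((ENNReal.continuous_pow 2).tendsto 0).comp h4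
      simpa [Function.comp_def] using h5
  simp only [lintegral_zero] at h1
  have h2 : ∀ k, eLpNorm (g k) 2 μ = (∫⁻ x, ‖g k x‖ₑ ^ 2 ∂μ) ^ (1 / 2 : ℝ) := by
    intro k
    rw [← eLpNorm_two_sq, ← ENNReal.rpow_natCast, ← ENNReal.rpow_mul]; norm_num
  simp_rw [h2]
  have h3 := ((ENNReal.continuous_rpow_const (y := (1/2 : ℝ))).tendsto 0).comp h1
  have h4 : (0 : ℝ≥0∞) ^ (1 / 2 : ℝ) = 0 := ENNReal.zero_rpow_of_pos (by norm_num)
  rw [h4] at h3
  exact h3

/-- a sequence of cut-off functions adapted to the weights -/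
def GoodCut (Ω : Set (Fin n → ℂ)) (b1 b2 b3 : (Fin n → ℂ) → ℝ) (C : ℝ)
    (η : ℕ → (Fin n → ℂ) → ℂ) : Prop :=
  (∀ k, IsTest Ω (η k)) ∧ (∀ k x, ‖1 - η k x‖ ≤ 1) ∧ (∀ x ∈ Ω, ∀ᶠ k in atTop, η k =ᶠ[𝓝 x] fun _ => 1) ∧
  ∀ k, ∀ x ∈ Ω, ∀ j, b2 x / b1 x * ‖dz j (η k) x‖ ≤ C ∧ b3 x / b2 x * ‖dzb j (η k) x‖ ≤ C

lemma tl_self (v : L2 Ω) : tl Ω (v : (Fin n → ℂ) → ℂ) = v := by
  apply Lp.ext
  exact tl_coe (Lp.memLp v)

lemma tendsto_tl_dom {g : ℕ → (Fin n → ℂ) → ℂ} {v : L2 Ω} {B : (Fin n → ℂ) → ℝ}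
    (hg : ∀ k, MemLp (g k) 2 (volume.restrict Ω)) (hB : MemLp B 2 (volume.restrict Ω))
    (hΩ : MeasurableSet Ω)
    (hle : ∀ k, ∀ x ∈ Ω, ‖g k x - v x‖ ≤ B x)
    (hlim : ∀ x ∈ Ω, Tendsto (fun k => g k x) atTop (𝓝 (v x))) :
    Tendsto (fun k => tl Ω (g k)) atTop (𝓝 v) := by
  conv => rhs; rw [← tl_self v]
  refine tendsto_tl (Eventually.of_forall hg) (Lp.memLp v) ?_
  refine tendsto_eLpNorm_zero (B := B) (fun k => ((hg k).sub (Lp.memLp v)).1) hB ?_ ?_
  · exact fun k => (ae_restrict_iff' hΩ).2 (Eventually.of_forall (hle k))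
  · refine (ae_restrict_iff' hΩ).2 (Eventually.of_forall fun x hx => ?_)
    have := (hlim x hx).sub_const (v x)
    simpa using this

lemma norm_memLp (v : L2 Ω) : MemLp (fun x => ‖v x‖) 2 (volume.restrict Ω) := (Lp.memLp v).norm

theorem mem_closure_tTrips (hΩ : IsOpen Ω) (h1 : IsFac Ω b1) (h2 : IsFac Ω b2) (h3 : IsFac Ω b3)
    {f : Form1 Ω} {u : L2 Ω} {h : Form2 Ω} (hfu : (f, u) ∈ AdjRel (TRel Ω b1 b2))
    (hfh : (f, h) ∈ SRel Ω b2 b3) {C : ℝ} {η : ℕ → (Fin n → ℂ) → ℂ}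
    (hη : GoodCut Ω b1 b2 b3 C η) :
    (f, u, h) ∈ closure (tTrips Ω b1 b2 b3) := by
  obtain ⟨hηt, hη1, hηlim, hηC⟩ := hη
  have hm := hΩ.measurableSet
  have hC : ∀ x ∈ Ω, ∀ (_ : Fin n), 0 ≤ C := fun x hx j => by
    refine le_trans ?_ (hηC 0 x hx j).1
    have := h1.2 x hx
    have := h2.2 x hx
    positivity
  refine isClosed_closure.mem_of_tendsto (f := fun k => cutTrip b1 b2 b3 (η k) f u h) (b := atTop) ?_
    (Eventually.of_forall fun k => cut_mem_closure hΩ h1 h2 h3 hfu hfh (hηt k))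
  have hηx : ∀ x ∈ Ω, Tendsto (fun k => η k x) atTop (𝓝 1) := fun x hx => by
    refine tendsto_const_nhds.congr' ?_
    filter_upwards [hηlim x hx] with k hk
    exact hk.self_of_nhds.symm
  have hdηx : ∀ x ∈ Ω, ∀ᶠ k in atTop, ∀ j, dz j (η k) x = 0 ∧ dzb j (η k) x = 0 := by
    intro x hx
    filter_upwards [hηlim x hx] with k hk j
    have hf : fderiv ℝ (η k) x = 0 := by rw [hk.fderiv_eq]; simp
    exact ⟨dz_zero_of hf, dzb_zero_of hf⟩
  -- first component
  have l1 : ∀ j, Tendsto (fun k => tl Ω (fun x => f j x * η k x)) atTop (𝓝 (f j)) := by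
    intro j
    refine tendsto_tl_dom (fun k => (hηt k).mul_memLp (Lp.memLp _)) (norm_memLp (f j)) hm ?_ ?_
    · intro k x _
      have : f j x * η k x - f j x = - (f j x * (1 - η k x)) := by ring
      rw [this, norm_neg, norm_mul]
      exact mul_le_of_le_one_right (norm_nonneg _) (hη1 k x)
    · intro x hx
      simpa using (hηx x hx).const_mul (f j x)
  -- middle component
  have hb21 : ContDiffOn ℝ ∞ (fun x => (b2 x : ℂ) / (b1 x : ℂ)) Ω := by
    simp_rw [div_eq_mul_inv]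
    exact (contDiffOn_cx h2.1).mul (contDiffOn_inv_cx h1.1 h1.2)
  have hb32 : ContDiffOn ℝ ∞ (fun x => (b3 x : ℂ) / (b2 x : ℂ)) Ω := by
    simp_rw [div_eq_mul_inv]
    exact (contDiffOn_cx h3.1).mul (contDiffOn_inv_cx h2.1 h2.2)
  have l2 : Tendsto (fun k => tl Ω (fun x => u x * η k x
      - (b2 x : ℂ) / (b1 x : ℂ) * ∑ j, f j x * dz j (η k) x)) atTop (𝓝 u) := by
    refine tendsto_tl_dom (B := fun x => ‖u x‖ + ∑ j, C * ‖f j x‖) ?_ ?_ hm ?_ ?_
    · intro k
      refine MemLp.sub ((hηt k).mul_memLp (Lp.memLp _)) ?_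
      have : (fun x => (b2 x : ℂ) / (b1 x : ℂ) * ∑ j, f j x * dz j (η k) x)
          = fun x => ∑ j, f j x * ((b2 x : ℂ) / (b1 x : ℂ) * dz j (η k) x) := by
        ext x; rw [Finset.mul_sum]; exact Finset.sum_congr rfl fun j _ => by ring
      rw [this]
      exact memLp_finsetSum _ fun j _ =>
        (((hηt k).dz j).smul_left hΩ hb21).mul_memLp (Lp.memLp _)
    · exact (norm_memLp u).add (memLp_finsetSum _ fun j _ => (norm_memLp (f j)).const_mul C)
    · intro k x hx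
      have e1 : u x * η k x - (b2 x : ℂ) / (b1 x : ℂ) * ∑ j, f j x * dz j (η k) x - u x
          = - (u x * (1 - η k x)) - ∑ j, f j x * ((b2 x : ℂ) / (b1 x : ℂ) * dz j (η k) x) := by
        rw [Finset.mul_sum]
        have : ∑ j, (b2 x : ℂ) / (b1 x : ℂ) * (f j x * dz j (η k) x)
          = ∑ j, f j x * ((b2 x : ℂ) / (b1 x : ℂ) * dz j (η k) x) :=
          Finset.sum_congr rfl fun j _ => by ring
        rw [this]; ring
      rw [e1]
      refine (norm_sub_le _ _).trans ?_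
      refine add_le_add ?_ ((norm_sum_le _ _).trans (Finset.sum_le_sum fun j _ => ?_))
      · rw [norm_neg, norm_mul]
        exact mul_le_of_le_one_right (norm_nonneg _) (hη1 k x)
      · rw [norm_mul, mul_comm C]
        refine mul_le_mul_of_nonneg_left ?_ (norm_nonneg _)
        rw [norm_mul, norm_div, Complex.norm_real, Complex.norm_real, Real.norm_eq_abs,
          Real.norm_eq_abs, abs_of_pos (h2.2 x hx), abs_of_pos (h1.2 x hx)]
        exact (hηC k x hx j).1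
    · intro x hx
      have h4 : Tendsto (fun k => u x * η k x) atTop (𝓝 (u x)) := by
        simpa using (hηx x hx).const_mul (u x)
      refine h4.congr' ?_
      filter_upwards [hdηx x hx] with k hk
      simp [hk]
  -- last component
  have l3 : ∀ i : Idx2 n, Tendsto (fun k => tl Ω (fun x => h i x * η k x + (b3 x : ℂ) / (b2 x : ℂ) *
      (f i.1.2 x * dzb i.1.1 (η k) x - f i.1.1 x * dzb i.1.2 (η k) x))) atTop (𝓝 (h i)) := by
    intro i
    refine tendsto_tl_dom (B := fun x => ‖h i x‖ + (C * ‖f i.1.2 x‖ + C * ‖f i.1.1 x‖)) ?_ ?_ hm ?_ ?_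
    · intro k
      refine MemLp.add ((hηt k).mul_memLp (Lp.memLp _)) ?_
      have : (fun x => (b3 x : ℂ) / (b2 x : ℂ) *
          (f i.1.2 x * dzb i.1.1 (η k) x - f i.1.1 x * dzb i.1.2 (η k) x))
          = fun x => f i.1.2 x * ((b3 x : ℂ) / (b2 x : ℂ) * dzb i.1.1 (η k) x)
            - f i.1.1 x * ((b3 x : ℂ) / (b2 x : ℂ) * dzb i.1.2 (η k) x) := by
        ext x; ring
      rw [this]
      exact ((((hηt k).dzb _).smul_left hΩ hb32).mul_memLp (Lp.memLp _)).sub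
        ((((hηt k).dzb _).smul_left hΩ hb32).mul_memLp (Lp.memLp _))
    · exact (norm_memLp (h i)).add (((norm_memLp (f _)).const_mul C).add ((norm_memLp (f _)).const_mul C))
    · intro k x hx
      have e1 : h i x * η k x + (b3 x : ℂ) / (b2 x : ℂ) *
          (f i.1.2 x * dzb i.1.1 (η k) x - f i.1.1 x * dzb i.1.2 (η k) x) - h i x
          = - (h i x * (1 - η k x)) + (f i.1.2 x * ((b3 x : ℂ) / (b2 x : ℂ) * dzb i.1.1 (η k) x)
            - f i.1.1 x * ((b3 x : ℂ) / (b2 x : ℂ) * dzb i.1.2 (η k) x)) := by ring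
      have e2 : ∀ (a : ℂ) (j : Fin n), ‖a * ((b3 x : ℂ) / (b2 x : ℂ) * dzb j (η k) x)‖ ≤ C * ‖a‖ := by
        intro a j
        rw [norm_mul, mul_comm C]
        refine mul_le_mul_of_nonneg_left ?_ (norm_nonneg _)
        rw [norm_mul, norm_div, Complex.norm_real, Complex.norm_real, Real.norm_eq_abs,
          Real.norm_eq_abs, abs_of_pos (h2.2 x hx), abs_of_pos (h3.2 x hx)]
        exact (hηC k x hx j).2
      rw [e1]
      refine (norm_add_le _ _).trans (add_le_add ?_ ((norm_sub_le _ _).trans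
        (add_le_add (e2 _ _) (e2 _ _))))
      rw [norm_neg, norm_mul]
      exact mul_le_of_le_one_right (norm_nonneg _) (hη1 k x)
    · intro x hx
      have h4 : Tendsto (fun k => h i x * η k x) atTop (𝓝 (h i x)) := by
        simpa using (hηx x hx).const_mul (h i x)
      refine h4.congr' ?_
      filter_upwards [hdηx x hx] with k hk
      simp [hk]
  refine Tendsto.prodMk_nhds ?_ (Tendsto.prodMk_nhds l2 ?_)
  · exact (PiLp.continuous_toLp 2 _).continuousAt.tendsto.comp (tendsto_pi_nhds.2 l1)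
  · exact (PiLp.continuous_toLp 2 _).continuousAt.tendsto.comp (tendsto_pi_nhds.2 l3)

end density3

end Pool.Agent.DBar74
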