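import Mathlib

open Filter Topology
open scoped ContDiff

namespace Pool.Agent.DBar74

section flat

open Classical in
/-- the basic family of flat functions -/
noncomputable def fam (i j : ℕ) (p : ℝ × ℝ) : ℝ :=
  if 0 < p.1 then
    p.1⁻¹ ^ i * Real.log p.1 ^ j * Real.exp (-(Real.exp (-p.2) * Real.log p.1 ^ 2)) else 0

lemma fam_pos {i j : ℕ} {p : ℝ × ℝ} (h : 0 < p.1) : fam i j p =
    p.1⁻¹ ^ i * Real.log p.1 ^ j * Real.exp (-(Real.exp (-p.2) * Real.log p.1 ^ 2)) := if_pos h

lemma fam_nonpos {i j : ℕ} {p : ℝ × ℝ} (h : p.1 ≤ 0) : fam i j p = 0 := if_neg (not_lt.2 h)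

/-- flatness -/
lemma fam_bound (i j : ℕ) (a0 : ℝ) : ∃ C, 0 ≤ C ∧ ∀ p : ℝ × ℝ, |p.2 - a0| < 1 → |p.1| < 1 →
    |fam i j p| ≤ C * p.1 ^ 2 := by
  set c1 := Real.exp (-(a0 + 1)) with hc1
  have hc1p : 0 < c1 := Real.exp_pos _
  refine ⟨(j.factorial : ℝ) * Real.exp (((i:ℝ) + 3) ^ 2 / (4 * c1)), by positivity, ?_⟩
  intro p hp2 hp1
  by_cases hy : 0 < p.1
  · have hy1 : p.1 < 1 := (abs_lt.1 hp1).2
    set t := -Real.log p.1 with ht
    have ht0 : 0 < t := by have := Real.log_neg hy hy1; linarith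
    have hinv : p.1⁻¹ = Real.exp t := by rw [ht, Real.exp_neg, Real.exp_log hy]
    have hpy : p.1 ^ 2 = Real.exp (-(2 * t)) := by
      have : p.1 = Real.exp (-t) := by rw [ht, neg_neg, Real.exp_log hy]
      rw [this, ← Real.exp_nat_mul]; congr 1; push_cast; ring
    have hlog : Real.log p.1 ^ 2 = t ^ 2 := by rw [ht]; ring
    have hlogj : |Real.log p.1 ^ j| = t ^ j := by
      rw [abs_pow]
      congr 1
      rw [abs_of_neg (Real.log_neg hy hy1)]
    rw [fam_pos hy, hlog, abs_mul, abs_mul, hlogj, abs_of_pos (Real.exp_pos _), hinv,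
      abs_of_pos (by positivity), ← Real.exp_nat_mul, hpy]
    have h1 : t ^ j ≤ j.factorial * Real.exp t := by
      have := Real.pow_div_factorial_le_exp t ht0.le j
      rw [div_le_iff₀ (by positivity)] at this
      linarith
    have h2 : -(Real.exp (-p.2) * t ^ 2) ≤ -(c1 * t ^ 2) := by
      have h3 : c1 ≤ Real.exp (-p.2) := by
        rw [hc1]
        apply Real.exp_le_exp.2
        have := (abs_lt.1 hp2).2
        linarith
      have := mul_le_mul_of_nonneg_right h3 (sq_nonneg t)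
      linarith
    have h4 : (i:ℝ) * t + t - c1 * t ^ 2 ≤ ((i:ℝ) + 3) ^ 2 / (4 * c1) - 2 * t := by
      have h5 : 0 ≤ c1 * (t - ((i:ℝ) + 3) / (2 * c1)) ^ 2 := by positivity
      have h6 : c1 * (t - ((i:ℝ) + 3) / (2 * c1)) ^ 2
          = c1 * t ^ 2 - ((i:ℝ) + 3) * t + ((i:ℝ) + 3) ^ 2 / (4 * c1) := by
        field_simp; ring
      linarith
    calc Real.exp (i * t) * t ^ j * Real.exp (-(Real.exp (-p.2) * t ^ 2))
        ≤ Real.exp (i * t) * (j.factorial * Real.exp t) * Real.exp (-(c1 * t ^ 2)) := by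
          gcongr
      _ = j.factorial * Real.exp (i * t + t - c1 * t ^ 2) := by
          rw [show (i:ℝ) * t + t - c1 * t ^ 2 = i * t + t + -(c1 * t ^ 2) by ring, Real.exp_add,
            Real.exp_add]; ring
      _ ≤ j.factorial * Real.exp (((i:ℝ) + 3) ^ 2 / (4 * c1) - 2 * t) := by
          gcongr
      _ = j.factorial * Real.exp (((i:ℝ) + 3) ^ 2 / (4 * c1)) * Real.exp (-(2 * t)) := by
          rw [sub_eq_add_neg, Real.exp_add]; ring
  · rw [fam_nonpos (not_lt.1 hy), abs_zero]; positivity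

/-- the two derivatives -/
noncomputable def dY (i j : ℕ) (p : ℝ × ℝ) : ℝ :=
  -(i:ℝ) * fam (i + 1) j p + (j:ℝ) * fam (i + 1) (j - 1) p
    - 2 * Real.exp (-p.2) * fam (i + 1) (j + 1) p
noncomputable def dA (i j : ℕ) (p : ℝ × ℝ) : ℝ := Real.exp (-p.2) * fam i (j + 2) p

noncomputable def fam' (i j : ℕ) (p : ℝ × ℝ) : ℝ × ℝ →L[ℝ] ℝ :=
  dY i j p • ContinuousLinearMap.fst ℝ ℝ ℝ + dA i j p • ContinuousLinearMap.snd ℝ ℝ ℝ

lemma fam_hasFDerivAt (i j : ℕ) (p : ℝ × ℝ) : HasFDerivAt (fam i j) (fam' i j p) p := by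
  rcases lt_trichotomy p.1 0 with h | h | h
  · have hev : fam i j =ᶠ[𝓝 p] fun _ => 0 := by
      filter_upwards [(isOpen_lt continuous_fst continuous_const).mem_nhds h] with q hq
      exact fam_nonpos (le_of_lt hq)
    have h0 : fam' i j p = 0 := by
      unfold fam' dY dA
      simp [fam_nonpos h.le]
    rw [h0]
    exact (hasFDerivAt_const (0:ℝ) p).congr_of_eventuallyEq hev
  · have h0 : fam' i j p = 0 := by
      unfold fam' dY dA
      simp [fam_nonpos h.le]
    rw [h0]
    obtain ⟨C, hC0, hC⟩ := fam_bound i j p.2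
    have hO : fam i j =O[𝓝 p] fun q => ‖q - p‖ ^ 2 := by
      refine Asymptotics.IsBigO.of_bound C ?_
      have hball : ∀ᶠ q in 𝓝 p, dist q p < 1 := Metric.ball_mem_nhds p one_pos
      filter_upwards [hball] with q hq
      rw [dist_eq_norm] at hq
      have h1 : |q.1| ≤ ‖q - p‖ := by
        have := norm_fst_le (q - p)
        simpa [h] using this
      have h2 : |q.2 - p.2| ≤ ‖q - p‖ := by
        have := norm_snd_le (q - p)
        simpa using this
      have h3 := hC q (lt_of_le_of_lt h2 hq) (lt_of_le_of_lt h1 hq)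
      rw [Real.norm_eq_abs, norm_pow, norm_norm]
      refine h3.trans ?_
      refine mul_le_mul_of_nonneg_left ?_ hC0
      rw [← sq_abs q.1]
      exact pow_le_pow_left₀ (abs_nonneg _) h1 2
    exact hO.hasFDerivAt (by norm_num)
  · have hev : fam i j =ᶠ[𝓝 p] fun p : ℝ × ℝ =>
        p.1⁻¹ ^ i * Real.log p.1 ^ j * Real.exp (-(Real.exp (-p.2) * Real.log p.1 ^ 2)) := by
      filter_upwards [(isOpen_lt continuous_const continuous_fst).mem_nhds h] with q hq
      exact fam_pos hq
    refine HasFDerivAt.congr_of_eventuallyEq ?_ hev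
    have hne : p.1 ≠ 0 := h.ne'
    have a1 : HasDerivAt (fun y : ℝ => y⁻¹ ^ i) (-(i:ℝ) * p.1⁻¹ ^ (i + 1)) p.1 := by
      have h1 := (hasDerivAt_inv hne).pow i
      refine h1.congr_deriv ?_
      rcases i with _ | i
      · simp
      · simp only [Nat.add_sub_cancel]
        rw [← inv_pow]
        push_cast
        ring
    have a2 : HasDerivAt (fun y : ℝ => Real.log y ^ j) ((j:ℝ) * Real.log p.1 ^ (j - 1) * p.1⁻¹) p.1 :=
      (Real.hasDerivAt_log hne).pow j
    have a3 := a1.mul a2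
    have b0 : HasFDerivAt (fun q : ℝ × ℝ => q.1) (ContinuousLinearMap.fst ℝ ℝ ℝ) p := hasFDerivAt_fst
    have b1 : HasFDerivAt (fun q : ℝ × ℝ => q.2) (ContinuousLinearMap.snd ℝ ℝ ℝ) p := hasFDerivAt_snd
    have b3 := a3.comp_hasFDerivAt p b0
    have b4 : HasFDerivAt (fun q : ℝ × ℝ => Real.exp (-q.2)) (-Real.exp (-p.2) •
        ContinuousLinearMap.snd ℝ ℝ ℝ) p := by
      have := b1.neg.exp
      refine this.congr_fderiv ?_
      ext <;> simp
    have b5 : HasFDerivAt (fun q : ℝ × ℝ => Real.log q.1 ^ 2) ((2 * Real.log p.1 * p.1⁻¹) •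
        ContinuousLinearMap.fst ℝ ℝ ℝ) p := by
      have := ((Real.hasDerivAt_log hne).pow 2).comp_hasFDerivAt p b0
      refine this.congr_fderiv ?_
      ext <;> simp
    have b6 := (b4.mul b5).neg.exp
    have b7 := b3.mul b6
    refine b7.congr_fderiv ?_
    unfold fam' dY dA
    rw [fam_pos h, fam_pos h, fam_pos h, fam_pos h]
    ext
    · simp only [ContinuousLinearMap.comp_apply, ContinuousLinearMap.inl_apply, add_apply, smul_apply,
        ContinuousLinearMap.coe_fst', ContinuousLinearMap.coe_snd', smul_eq_mul, neg_apply,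
        Function.comp_apply, Pi.mul_apply, Pi.neg_apply]
      ring
    · simp only [ContinuousLinearMap.comp_apply, ContinuousLinearMap.inr_apply, add_apply, smul_apply,
        ContinuousLinearMap.coe_fst', ContinuousLinearMap.coe_snd', smul_eq_mul, neg_apply,
        Function.comp_apply, Pi.mul_apply, Pi.neg_apply]
      ring

lemma fam_contDiff_nat (k : ℕ) : ∀ i j, ContDiff ℝ k (fam i j) := by
  induction k with
  | zero =>
    intro i j
    rw [Nat.cast_zero, contDiff_zero]
    exact continuous_iff_continuousAt.2 fun p => (fam_hasFDerivAt i j p).continuousAt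
  | succ k ih =>
    intro i j
    rw [Nat.cast_add, Nat.cast_one, contDiff_succ_iff_hasFDerivAt]
    refine ⟨fam' i j, ?_, fam_hasFDerivAt i j⟩
    have he : ContDiff ℝ k (fun p : ℝ × ℝ => Real.exp (-p.2)) :=
      Real.contDiff_exp.comp contDiff_snd.neg
    have h1 : ContDiff ℝ k (dY i j) :=
      ((contDiff_const.mul (ih _ _)).add (contDiff_const.mul (ih _ _))).sub
        ((contDiff_const.mul he).mul (ih _ _))
    have h2 : ContDiff ℝ k (dA i j) := he.mul (ih _ _)
    exact (h1.smul contDiff_const).add (h2.smul contDiff_const)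

lemma fam_contDiff (i j : ℕ) : ContDiff ℝ ∞ (fam i j) :=
  contDiff_infty.2 fun k => fam_contDiff_nat k i j

end flat

end Pool.Agent.DBar74
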