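import Pool.Agent.DBar74.Near

open MeasureTheory Filter Topology Complex
open scoped ENNReal ContDiff ComplexConjugate

namespace Pool.Agent.DBar74

variable {n : ℕ}

section near2

variable {r : (Fin n → ℂ) → ℝ} {e : Fin n} {C1 : ℝ} {k : ℕ} {F : Fin n → (Fin n → ℂ) → ℂ}
  {st : (Fin n → ℂ) → ℝ}

lemma fderiv_nsq_single (x : Fin n → ℂ) (c : ℂ) :
    fderiv ℝ nsq x (Pi.single e c) = 2 * (conj (x e) * c).re := by
  rw [fderiv_nsq, Finset.sum_eq_single e]
  · simp
  · intro b _ hb; rw [Pi.single_eq_of_ne hb]; simp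
  · simp

lemma GoodDef.fderiv_sF (h : GoodDef r e) {x : Fin n → ℂ} (hx : x ∈ Om r) (v : Fin n → ℂ) :
    fderiv ℝ (sF r) x v = (-(r x))⁻¹ * fderiv ℝ r x v + fderiv ℝ nsq x v := by
  have h0 : r x < 0 := hx
  have hrd : DifferentiableAt ℝ r x := (h.smooth.differentiable (by simp)) x
  have hlog : HasDerivAt (fun t : ℝ => -Real.log (-t)) ((-(r x))⁻¹) (r x) := by
    have ht' : -(r x) ≠ 0 := by linarith
    have := ((hasDerivAt_id (r x)).neg.log ht').neg
    refine this.congr_deriv ?_
    simp [div_eq_mul_inv]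
  have h1 := hlog.comp_hasFDerivAt x hrd.hasFDerivAt
  have h2 := ((contDiff_nsq (n := n)).differentiable (by simp) x).hasFDerivAt
  have h3 := h1.add h2
  have h4 : fderiv ℝ (sF r) x = (-(r x))⁻¹ • fderiv ℝ r x + fderiv ℝ nsq x := h3.fderiv
  rw [h4]; rfl

/-- rotational invariance -/
lemma GoodDef.fderiv_rot (h : GoodDef r e) (x : Fin n → ℂ) :
    fderiv ℝ r x (Pi.single e (I * x e)) = 0 := by
  have hrd : DifferentiableAt ℝ r x := (h.smooth.differentiable (by simp)) x
  have hc : HasDerivAt (fun t : ℝ => Complex.exp (t * I) * x e) (I * x e) 0 := by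
    have h1 : HasDerivAt (fun t : ℝ => (t : ℂ) * I) I 0 := by
      have := (Complex.ofRealCLM.hasDerivAt (x := (0:ℝ))).mul_const I
      simpa using this
    have h2 := h1.cexp.mul_const (x e)
    simpa using h2
  have hcurve : HasDerivAt (fun t : ℝ => Function.update x e (Complex.exp (t * I) * x e))
      (Pi.single e (I * x e)) 0 := by
    rw [hasDerivAt_pi]
    intro i
    by_cases hi : i = e
    · subst hi
      simpa using hc
    · simp only [Function.update_of_ne hi, Pi.single_eq_of_ne hi]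
      exact hasDerivAt_const _ _
  have h0 : Function.update x e (Complex.exp (((0:ℝ) : ℂ) * I) * x e) = x := by
    simp
  have h3 : HasFDerivAt r (fderiv ℝ r x) (Function.update x e (Complex.exp (((0:ℝ) : ℂ) * I) * x e)) := by
    rw [h0]; exact hrd.hasFDerivAt
  have h4 := h3.comp_hasDerivAt (0:ℝ) hcurve
  have h5 : (r ∘ fun t : ℝ => Function.update x e (Complex.exp (t * I) * x e)) = fun _ => r x := by
    ext t
    simp only [Function.comp_apply]
    apply h.rad
    rw [norm_mul, Complex.norm_exp_ofReal_mul_I, one_mul]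
  rw [h5] at h4
  exact h4.unique (hasDerivAt_const _ _)

/-- the cut-off weight -/
noncomputable def omF (st : (Fin n → ℂ) → ℝ) (e : Fin n) (C1 : ℝ) (k : ℕ) (η : ℝ) (x : Fin n → ℂ) : ℝ :=
  Real.exp (-phF st C1 k x) * kap η (‖x e‖ ^ 2)

lemma omF_smooth (hst : ContDiff ℝ ∞ st) (η : ℝ) : ContDiff ℝ ∞ (omF st e C1 k η) :=
  (Real.contDiff_exp.comp (phF_smooth hst).neg).mul ((kap_contDiff η).comp (contDiff_coordsq e))

lemma omF_fderiv (hst : ContDiff ℝ ∞ st) (η : ℝ) (x v : Fin n → ℂ) :
    fderiv ℝ (omF st e C1 k η) x v = Real.exp (-phF st C1 k x) *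
      (deriv (kap η) (‖x e‖ ^ 2) * (2 * (conj (x e) * v e).re)
        - Kk C1 k * th1 (st x - k) * kap η (‖x e‖ ^ 2) * fderiv ℝ st x v) := by
  have h1 : HasFDerivAt st (fderiv ℝ st x) x := ((hst.differentiable (by simp)) x).hasFDerivAt
  have h2 : HasDerivAt (fun t : ℝ => Real.exp (-(Kk C1 k * th (t - k))))
      (Real.exp (-(Kk C1 k * th (st x - k))) * -(Kk C1 k * th1 (st x - k))) (st x) :=
    (((hasDerivAt_th_shift k (st x)).const_mul (Kk C1 k)).neg).exp
  have h3 := h2.comp_hasFDerivAt x h1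
  have h4 : HasFDerivAt (fun z : Fin n → ℂ => ‖z e‖ ^ 2) (fderiv ℝ (fun z : Fin n → ℂ => ‖z e‖ ^ 2) x) x :=
    (((contDiff_coordsq e).differentiable (by simp)) x).hasFDerivAt
  have h5 : HasDerivAt (kap η) (deriv (kap η) (‖x e‖ ^ 2)) (‖x e‖ ^ 2) :=
    (((kap_contDiff η).differentiable (by simp)) _).hasDerivAt
  have h6 := h5.comp_hasFDerivAt x h4
  have h7 := h3.mul h6
  have h8 : fderiv ℝ (omF st e C1 k η) x = _ := HasFDerivAt.fderiv (by exact h7)
  rw [h8]
  simp only [add_apply, smul_apply, smul_eq_mul, Function.comp_apply, fderiv_coordsq]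
  unfold phF
  ring

theorem GoodDef.near_est (h : GoodDef r e) (hC : 0 < C1) (hF : ∀ j, IsTest (Om r) (F j))
    (hst : ContDiff ℝ ∞ st) (hst2 : ∀ x ∈ KF F, st =ᶠ[𝓝 x] sF r) {η M B : ℝ} (hη : 0 < η)
    (hM : 0 < M) (hB1 : 1 / (2 * M) ≤ B) (hB2 : η ^ 2 / 4 ≤ B)
    (hnear : ∀ z, r z < 0 → ‖z e‖ < η → ∀ w,
      M * fderiv ℝ r z (Pi.single e (z e)) * nsq w ≤ Lev r z w) :
    (1 / 2) * IW st C1 k (fun x => kap η (‖x e‖ ^ 2) * nsq (fun j => F j x)) ≤
      IW st C1 k (fun x => B * PF st C1 k F x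
        + (-(deriv (kap η) (‖x e‖ ^ 2) * ‖x e‖ ^ 2)) * nsq (fun j => F j x))
      + 3 * η ^ 2 * IW st C1 k (Grd F) := by
  have hF1 : ∀ j, ContDiff ℝ ∞ (F j) := fun j => (hF j).1
  have hom := omF_smooth (e := e) (C1 := C1) (k := k) hst η
  have homE : ∀ x ∈ KF F, omF st e C1 k η x = Ehat r C1 k x * kap η (‖x e‖ ^ 2) := by
    intro x hx
    unfold omF Ehat phF
    have h0 : r x < 0 := KF_subset hF hx
    rw [if_pos h0, (hst2 x hx).eq_of_nhds]
  have hstd : ∀ x ∈ KF F, fderiv ℝ st x = fderiv ℝ (sF r) x := fun x hx => (hst2 x hx).fderiv_eq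
  have hR : RadPrim e (KF F) (Rp r e C1 k η) (omF st e C1 k η) := by
    refine ⟨Rp_continuous h hC k η, fun x hx => ?_⟩
    have h1 := Rp_line h hC k η x 1
    have h2 := Rp_line h hC k η x I
    rw [← homE x hx] at h1 h2
    constructor
    · convert h1 using 1
      simp
    · convert h2 using 1
      simp
  have hts : ∀ j, tsupport (F j) ⊆ KF F := fun j => Set.subset_iUnion (fun j => tsupport (F j)) j
  have hrad : ∀ x ∈ KF F, fderiv ℝ (omF st e C1 k η) x (Pi.single e (I * x e)) = 0 := by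
    intro x hx
    have hre : (conj (x e) * (I * x e)).re = 0 := by
      have : conj (x e) * (I * x e) = I * ((‖x e‖ ^ 2 : ℝ) : ℂ) := by
        rw [← Complex.normSq_eq_norm_sq, ← Complex.mul_conj]; ring
      rw [this, Complex.re_mul_ofReal, Complex.I_re, zero_mul]
    rw [omF_fderiv hst, hstd x hx, h.fderiv_sF (KF_subset hF hx), h.fderiv_rot, fderiv_nsq_single,
      Pi.single_eq_same, hre]
    ring
  have hj : ∀ j, (1 / 2) * ∫ x, omF st e C1 k η x * ‖F j x‖ ^ 2 ≤
      (∫ x, (-(1 / 2) * fderiv ℝ (omF st e C1 k η) x (Pi.single e (x e))) * ‖F j x‖ ^ 2)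
        + 3 * η ^ 2 * ∫ x, omF st e C1 k η x * ‖dzb e (F j) x‖ ^ 2 := by
    intro j
    refine radial_estimate hR hom (hF1 j) (hF j).2.1 (hts j) (fun x hx => hrad x (hts j hx)) ?_ ?_ ?_ ?_
    · intro x hx
      exact mul_nonneg (Real.exp_pos _).le (kap_mem _ _).1
    · intro x hx
      exact (Rp_bound h hC k hη (KF_subset hF (hts j hx))).1
    · intro x hx
      rw [homE x (hts j hx)]
      exact (Rp_bound h hC k hη (KF_subset hF (hts j hx))).2
    · intro x hx
      have h0 : 0 ≤ omF st e C1 k η x := mul_nonneg (Real.exp_pos _).le (kap_mem _ _).1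
      by_cases hxe : ‖x e‖ ^ 2 ≤ η ^ 2
      · rw [mul_comm]; exact mul_le_mul_of_nonneg_right hxe h0
      · have : omF st e C1 k η x = 0 := by
          unfold omF; rw [kap_zero hη (not_le.1 hxe).le, mul_zero]
        rw [this]; simp
  -- integrability
  have hcs : ∀ (g : (Fin n → ℂ) → ℝ), Continuous g →
      (∀ x, (∀ j, F j x = 0) → (∀ j, fderiv ℝ (F j) x = 0) → g x = 0) → Integrable g := by
    intro g hg hg0
    exact hg.integrable_of_hasCompactSupport
      (hasCompactSupport_of_local (F := F) (fun j => (hF j).2.1) hg0)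
  have hfo : Continuous (fun x => fderiv ℝ (omF st e C1 k η) x (Pi.single e (x e))) := by
    have h1 : Continuous (fderiv ℝ (omF st e C1 k η)) := hom.continuous_fderiv (by simp)
    refine h1.clm_apply ?_
    exact (continuous_single (A := fun _ : Fin n => ℂ) e).comp (continuous_apply e)
  have i1 : ∀ j, Integrable (fun x => omF st e C1 k η x * ‖F j x‖ ^ 2) := fun j =>
    hcs _ (hom.continuous.mul ((hF1 j).continuous.norm.pow 2)) fun x h1 _ => by simp [h1]
  have i2 : ∀ j, Integrable (fun x => (-(1 / 2) * fderiv ℝ (omF st e C1 k η) x (Pi.single e (x e)))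
      * ‖F j x‖ ^ 2) := fun j =>
    hcs _ ((continuous_const.mul hfo).mul ((hF1 j).continuous.norm.pow 2)) fun x h1 _ => by simp [h1]
  have i3 : ∀ j, Integrable (fun x => omF st e C1 k η x * ‖dzb e (F j) x‖ ^ 2) := fun j =>
    hcs _ (hom.continuous.mul ((contDiff_dzb (hF1 j) e).continuous.norm.pow 2))
      fun x _ h2 => by simp [dzb_zero_of (h2 j)]
  have hsum := Finset.sum_le_sum (s := Finset.univ) fun j _ => hj j
  rw [← Finset.mul_sum, Finset.sum_add_distrib, ← Finset.mul_sum, ← integral_finsetSum _ fun j _ => i1 j,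
    ← integral_finsetSum _ fun j _ => i2 j, ← integral_finsetSum _ fun j _ => i3 j] at hsum
  -- compare the three terms
  have t1 : ∫ x, ∑ j, omF st e C1 k η x * ‖F j x‖ ^ 2
      = IW st C1 k (fun x => kap η (‖x e‖ ^ 2) * nsq (fun j => F j x)) := by
    unfold IW
    congr 1; ext x
    rw [← Finset.mul_sum]
    unfold omF nsq; ring
  have t3 : ∫ x, ∑ j, omF st e C1 k η x * ‖dzb e (F j) x‖ ^ 2 ≤ IW st C1 k (Grd F) := by
    refine integral_mono (hcs _ (continuous_finsetSum _ fun j _ =>
      hom.continuous.mul ((contDiff_dzb (hF1 j) e).continuous.norm.pow 2))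
      fun x _ h2 => by simp [dzb_zero_of (h2 _)])
      (integrable_IW hF hst (continuous_Grd hF1) fun x _ h2 => Grd_zero_of h2) fun x => ?_
    simp only
    rw [← Finset.mul_sum]
    have hk := kap_mem η (‖x e‖ ^ 2)
    have hE := Real.exp_pos (-phF st C1 k x)
    have hG : ∑ j, ‖dzb e (F j) x‖ ^ 2 ≤ Grd F x := by
      unfold Grd
      refine Finset.sum_le_sum fun j _ => ?_
      exact Finset.single_le_sum (f := fun k => ‖dzb k (F j) x‖ ^ 2) (fun _ _ => by positivity)
        (Finset.mem_univ e)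
    have hG0 : 0 ≤ ∑ j, ‖dzb e (F j) x‖ ^ 2 := by positivity
    have h1 : omF st e C1 k η x ≤ Real.exp (-phF st C1 k x) := by
      unfold omF
      nlinarith
    calc omF st e C1 k η x * ∑ j, ‖dzb e (F j) x‖ ^ 2
        ≤ Real.exp (-phF st C1 k x) * ∑ j, ‖dzb e (F j) x‖ ^ 2 := mul_le_mul_of_nonneg_right h1 hG0
      _ ≤ Real.exp (-phF st C1 k x) * Grd F x := mul_le_mul_of_nonneg_left hG hE.le
      _ = Grd F x * Real.exp (-phF st C1 k x) := mul_comm _ _
  have hkd : Continuous (fun x : Fin n → ℂ => deriv (kap η) (‖x e‖ ^ 2)) :=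
    ((kap_contDiff η).continuous_deriv (by simp)).comp (((continuous_apply e).norm).pow 2)
  have t2 : ∫ x, ∑ j, (-(1 / 2) * fderiv ℝ (omF st e C1 k η) x (Pi.single e (x e))) * ‖F j x‖ ^ 2
      ≤ IW st C1 k (fun x => B * PF st C1 k F x
        + (-(deriv (kap η) (‖x e‖ ^ 2) * ‖x e‖ ^ 2)) * nsq (fun j => F j x)) := by
    refine integral_mono (hcs _ (continuous_finsetSum _ fun j _ =>
      (continuous_const.mul hfo).mul ((hF1 j).continuous.norm.pow 2)) fun x h1 _ => by simp [h1])
      (integrable_IW hF hst ?_ ?_) fun x => ?_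
    · exact (continuous_const.mul (continuous_PF hF1 hst)).add
        ((hkd.mul (((continuous_apply e).norm).pow 2)).neg.mul (continuous_nsqF hF1))
    · intro x h1 _
      rw [PF_zero_of h1, nsq_zero_of h1]; simp
    · simp only
      rw [← Finset.mul_sum]
      have hns : ∑ j, ‖F j x‖ ^ 2 = nsq (fun j => F j x) := rfl
      rw [hns]
      by_cases hx : x ∈ KF F
      · have hxΩ := KF_subset hF hx
        have h0 : r x < 0 := hxΩ
        have hre : (conj (x e) * x e).re = ‖x e‖ ^ 2 := by
          rw [mul_comm, Complex.mul_conj, Complex.ofReal_re, Complex.normSq_eq_norm_sq]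
        rw [omF_fderiv hst, hstd x hx, h.fderiv_sF hxΩ, fderiv_nsq_single, Pi.single_eq_same, hre]
        have hP := h.PF_ge (k := k) hC hF hst2 hx
        have hE := Real.exp_pos (-phF st C1 k x)
        have hth := th1_nonneg (st x - k)
        have hKk := Kk_pos (k := k) hC
        have hkm := kap_mem η (‖x e‖ ^ 2)
        have hN := nsq_nonneg (fun j => F j x)
        have hL := h.psh x h0 (fun j => F j x)
        set N := nsq (fun j => F j x)
        set D := fderiv ℝ r x (Pi.single e (x e)) with hD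
        set L := Lev r x (fun j => F j x)
        set κ := kap η (‖x e‖ ^ 2)
        set κ' := deriv (kap η) (‖x e‖ ^ 2)
        set T := Kk C1 k * th1 (st x - k) with hT
        have hT0 : 0 ≤ T := by positivity
        have hrinv : 0 < (-(r x))⁻¹ := inv_pos.2 (by linarith)
        -- the core inequality
        have core : (1 / 2) * T * κ * ((-(r x))⁻¹ * D + 2 * ‖x e‖ ^ 2) * N ≤ B * PF st C1 k F x := by
          have hB0 : 0 ≤ B := le_trans (by positivity) hB2
          have c1 : (1 / 2) * κ * ((-(r x))⁻¹ * D + 2 * ‖x e‖ ^ 2) * N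
              ≤ B * (L / (-r x) + 4 * N) := by
            by_cases hxe : ‖x e‖ < η
            · have hn := hnear x h0 hxe (fun j => F j x)
              change M * D * N ≤ L at hn
              have hDN : D * N ≤ L / M := by rw [le_div_iff₀ hM]; linarith
              have c2 : κ * ((-(r x))⁻¹ * (D * N)) ≤ (-(r x))⁻¹ * (L / M) := by
                have h1 : (-(r x))⁻¹ * (D * N) ≤ (-(r x))⁻¹ * (L / M) :=
                  mul_le_mul_of_nonneg_left hDN hrinv.le
                have h2 : 0 ≤ (-(r x))⁻¹ * (L / M) := by positivity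
                calc κ * ((-(r x))⁻¹ * (D * N)) ≤ κ * ((-(r x))⁻¹ * (L / M)) :=
                      mul_le_mul_of_nonneg_left h1 hkm.1
                  _ ≤ 1 * ((-(r x))⁻¹ * (L / M)) := mul_le_mul_of_nonneg_right hkm.2 h2
                  _ = _ := one_mul _
              have c3 : κ * ‖x e‖ ^ 2 * N ≤ η ^ 2 * N := by
                have h3 : ‖x e‖ ^ 2 ≤ η ^ 2 := pow_le_pow_left₀ (norm_nonneg _) hxe.le 2
                have h4 : κ * ‖x e‖ ^ 2 ≤ 1 * η ^ 2 := mul_le_mul hkm.2 h3 (by positivity) one_pos.le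
                rw [one_mul] at h4
                exact mul_le_mul_of_nonneg_right h4 hN
              have c4 : 1 / 2 * ((-(r x))⁻¹ * (L / M)) ≤ B * (L / (-r x)) := by
                have h5 : 1 / 2 * ((-(r x))⁻¹ * (L / M)) = 1 / (2 * M) * (L / (-r x)) := by
                  field_simp
                rw [h5]
                exact mul_le_mul_of_nonneg_right hB1 (div_nonneg hL (by linarith))
              have c5 : η ^ 2 * N ≤ B * (4 * N) := by
                have : η ^ 2 ≤ 4 * B := by linarith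
                nlinarith
              have : (1 / 2) * κ * ((-(r x))⁻¹ * D + 2 * ‖x e‖ ^ 2) * N
                  = 1 / 2 * (κ * ((-(r x))⁻¹ * (D * N))) + κ * ‖x e‖ ^ 2 * N := by ring
              rw [this]
              linarith
            · have hk0 : κ = 0 := by
                apply kap_zero hη
                exact pow_le_pow_left₀ hη.le (not_lt.1 hxe) 2
              rw [hk0]
              have := div_nonneg hL (by linarith : 0 ≤ -r x)
              have : 0 ≤ B * (L / (-r x) + 4 * N) := by positivity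
              linarith
          have c6 := mul_le_mul_of_nonneg_left c1 hT0
          have c7 := mul_le_mul_of_nonneg_left hP hB0
          calc (1 / 2) * T * κ * ((-(r x))⁻¹ * D + 2 * ‖x e‖ ^ 2) * N
              = T * ((1 / 2) * κ * ((-(r x))⁻¹ * D + 2 * ‖x e‖ ^ 2) * N) := by ring
            _ ≤ T * (B * (L / (-r x) + 4 * N)) := c6
            _ = B * (T * (L / (-r x) + 4 * N)) := by ring
            _ ≤ _ := c7
        have := mul_le_mul_of_nonneg_right core hE.le
        nlinarith [this]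
      · rw [nsq_zero_of (zero_of_notMem_KF hx), PF_zero_of (zero_of_notMem_KF hx)]; simp
  rw [t1] at hsum
  have hη2 : 0 ≤ 3 * η ^ 2 := by positivity
  have := mul_le_mul_of_nonneg_left t3 hη2
  linarith

end near2

end Pool.Agent.DBar74
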