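import Pool.Agent.DBar74.DomData
import Pool.Agent.DBar74.Flat
import Pool.Agent.DBar74.Near2

open MeasureTheory Filter Topology Complex
open scoped ENNReal ContDiff ComplexConjugate

namespace Pool.Agent.DBar74

variable {n : ℕ}

section dom1

variable {i0 e : Fin n} {z w : Fin n → ℂ}

/-- logarithm of a squared coordinate -/
noncomputable def lgc (e : Fin n) (z : Fin n → ℂ) : ℝ := Real.log (‖z e‖ ^ 2)

lemma sq_ne_zero_of (hz : z e ≠ 0) : ‖z e‖ ^ 2 ≠ 0 := by positivity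

lemma lgc_contDiffAt (hz : z e ≠ 0) : ContDiffAt ℝ 2 (lgc e) z :=
  (contDiffAt_two (contDiff_coordsq e) z).log (sq_ne_zero_of hz)

lemma lgc_fderiv (hz : z e ≠ 0) (w : Fin n → ℂ) :
    fderiv ℝ (lgc e) z w = (‖z e‖ ^ 2)⁻¹ * (2 * (conj (z e) * w e).re) := by
  have h1 := fderiv_comp_real (k := fun z : Fin n → ℂ => ‖z e‖ ^ 2) (x := z)
    (((contDiff_coordsq e).differentiable (by simp)) z) (Real.hasDerivAt_log (sq_ne_zero_of hz))
  have h2 : fderiv ℝ (lgc e) z = (‖z e‖ ^ 2)⁻¹ • fderiv ℝ (fun z : Fin n → ℂ => ‖z e‖ ^ 2) z := h1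
  rw [h2, smul_apply, smul_eq_mul, fderiv_coordsq]

lemma Gam_coordsq (e : Fin n) (z w : Fin n → ℂ) :
    Gam (fun z : Fin n → ℂ => ‖z e‖ ^ 2) z w = 4 * (‖z e‖ ^ 2 * ‖w e‖ ^ 2) := by
  unfold Gam
  rw [fderiv_coordsq, fderiv_coordsq]
  have h1 : (I • w) e = I * w e := rfl
  rw [h1]
  have h2 : ‖z e‖ ^ 2 * ‖w e‖ ^ 2 = ‖conj (z e) * w e‖ ^ 2 := by
    rw [norm_mul, RCLike.norm_conj, mul_pow]
  rw [h2, norm_sq_eq_re_im]
  simp
  ring

lemma lgc_Gam (hz : z e ≠ 0) (w : Fin n → ℂ) :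
    Gam (lgc e) z w = 4 * ‖w e‖ ^ 2 / ‖z e‖ ^ 2 := by
  have h1 := Gam_comp (k := fun z : Fin n → ℂ => ‖z e‖ ^ 2) (x := z)
    (((contDiff_coordsq e).differentiable (by simp)) z) (Real.hasDerivAt_log (sq_ne_zero_of hz)) w
  have h2 : Gam (lgc e) z w = ((‖z e‖ ^ 2)⁻¹) ^ 2 * Gam (fun z : Fin n → ℂ => ‖z e‖ ^ 2) z w := h1
  rw [h2, Gam_coordsq]
  have := sq_ne_zero_of hz
  field_simp

lemma lgc_Lev (hz : z e ≠ 0) (w : Fin n → ℂ) : Lev (lgc e) z w = 0 := by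
  have hne := sq_ne_zero_of hz
  have hpos : 0 < ‖z e‖ ^ 2 := by positivity
  have h1 := Lev_comp (k := fun z : Fin n → ℂ => ‖z e‖ ^ 2) (x := z) (h := Real.log)
    (h1 := fun t => t⁻¹) (h2 := -((‖z e‖ ^ 2) ^ 2)⁻¹) (contDiffAt_two (contDiff_coordsq e) z)
    (by
      filter_upwards [isOpen_Ioi.mem_nhds hpos] with t ht
      exact Real.hasDerivAt_log (ne_of_gt ht)) (hasDerivAt_inv hne) w
  have h2 : Lev (lgc e) z w = -((‖z e‖ ^ 2) ^ 2)⁻¹ * Gam (fun z : Fin n → ℂ => ‖z e‖ ^ 2) z w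
      + (‖z e‖ ^ 2)⁻¹ * Lev (fun z : Fin n → ℂ => ‖z e‖ ^ 2) z w := h1
  rw [h2, Gam_coordsq, Lev_coordsq]
  field_simp
  ring

/-- the Levi form of the model function -/
lemma Lev_model {α T : (Fin n → ℂ) → ℝ} {τ : ℝ} (hα : ContDiffAt ℝ 2 α z) (hT : ContDiffAt ℝ 2 T z)
    (hT0 : Lev T z w = 0) :
    Lev (fun y => Real.exp (τ - Real.exp (-α y) * T y ^ 2)) z w
      = Real.exp (τ - Real.exp (-α z) * T z ^ 2) *
        ((Real.exp (-α z) ^ 2 * T z ^ 2 - Real.exp (-α z))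
            * ((2 * fderiv ℝ T z w - T z * fderiv ℝ α z w) ^ 2
              + (2 * fderiv ℝ T z (I • w) - T z * fderiv ℝ α z (I • w)) ^ 2)
          + 2 * Real.exp (-α z) * Gam T z w + Real.exp (-α z) * T z ^ 2 * Lev α z w) := by
  have hαd := diffAt_of hα
  have hTd := diffAt_of hT
  have d1 : ∀ t : ℝ, HasDerivAt (fun t : ℝ => Real.exp (-t)) (-Real.exp (-t)) t := by
    intro t
    have := (hasDerivAt_id t).neg.exp
    simpa using this
  have d2 : ∀ t : ℝ, HasDerivAt (fun t : ℝ => -Real.exp (-t)) (Real.exp (-t)) t := by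
    intro t
    have := (d1 t).neg
    rw [neg_neg] at this
    exact this
  have d3 : ∀ t : ℝ, HasDerivAt (fun t : ℝ => t ^ 2) (2 * t) t := by
    intro t
    have := hasDerivAt_pow 2 t
    simpa using this
  have d4 : ∀ t : ℝ, HasDerivAt (fun t : ℝ => 2 * t) 2 t := by
    intro t
    have := (hasDerivAt_id t).const_mul 2
    simpa using this
  have d5 : ∀ t : ℝ, HasDerivAt (fun t : ℝ => Real.exp (τ - t)) (-Real.exp (τ - t)) t := by
    intro t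
    have := ((hasDerivAt_id t).const_sub τ).exp
    simpa using this
  have d6 : ∀ t : ℝ, HasDerivAt (fun t : ℝ => -Real.exp (τ - t)) (Real.exp (τ - t)) t := by
    intro t
    have := (d5 t).neg
    rw [neg_neg] at this
    exact this
  have cE : ContDiffAt ℝ 2 (fun y => Real.exp (-α y)) z := (hα.neg).exp
  have cS : ContDiffAt ℝ 2 (fun y => T y ^ 2) z := hT.pow 2
  have cm : ContDiffAt ℝ 2 (fun y => Real.exp (-α y) * T y ^ 2) z := cE.mul cS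
  have lE : Lev (fun y => Real.exp (-α y)) z w
      = Real.exp (-α z) * Gam α z w + -Real.exp (-α z) * Lev α z w :=
    Lev_comp (k := α) (h := fun t => Real.exp (-t)) (h1 := fun t => -Real.exp (-t)) hα
      (Eventually.of_forall d1) (d2 _) w
  have lS : Lev (fun y => T y ^ 2) z w = 2 * Gam T z w := by
    have := Lev_comp (k := T) (h := fun t => t ^ 2) (h1 := fun t => 2 * t) hT
      (Eventually.of_forall d3) (d4 _) w
    rw [hT0, mul_zero, add_zero] at this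
    exact this
  have fE : fderiv ℝ (fun y => Real.exp (-α y)) z = (-Real.exp (-α z)) • fderiv ℝ α z :=
    fderiv_comp_real hαd (d1 _)
  have fS : fderiv ℝ (fun y => T y ^ 2) z = (2 * T z) • fderiv ℝ T z :=
    fderiv_comp_real hTd (d3 _)
  have fm : ∀ v, fderiv ℝ (fun y => Real.exp (-α y) * T y ^ 2) z v
      = Real.exp (-α z) * ((2 * T z) * fderiv ℝ T z v)
        + T z ^ 2 * (-Real.exp (-α z) * fderiv ℝ α z v) := by
    intro v
    have h1 : fderiv ℝ (fun y => Real.exp (-α y) * T y ^ 2) z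
        = Real.exp (-α z) • fderiv ℝ (fun y => T y ^ 2) z
          + (T z ^ 2) • fderiv ℝ (fun y => Real.exp (-α y)) z :=
      ((diffAt_of cE).hasFDerivAt.mul (diffAt_of cS).hasFDerivAt).fderiv
    rw [h1, fE, fS]
    simp only [add_apply, smul_apply, smul_eq_mul]
  have lm : Lev (fun y => Real.exp (-α y) * T y ^ 2) z w
      = Real.exp (-α z) * (2 * Gam T z w) + T z ^ 2 * (Real.exp (-α z) * Gam α z w
        + -Real.exp (-α z) * Lev α z w) + 2 * Gam2 (fun y => Real.exp (-α y)) (fun y => T y ^ 2) z w := by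
    rw [Lev_mul cE cS, lE, lS]
  have lf : Lev (fun y => Real.exp (τ - Real.exp (-α y) * T y ^ 2)) z w
      = Real.exp (τ - Real.exp (-α z) * T z ^ 2) * Gam (fun y => Real.exp (-α y) * T y ^ 2) z w
        + -Real.exp (τ - Real.exp (-α z) * T z ^ 2)
          * Lev (fun y => Real.exp (-α y) * T y ^ 2) z w :=
    Lev_comp (k := fun y => Real.exp (-α y) * T y ^ 2) (h := fun t => Real.exp (τ - t))
      (h1 := fun t => -Real.exp (τ - t)) cm (Eventually.of_forall d5) (d6 _) w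
  rw [lf, lm]
  unfold Gam Gam2
  rw [fm, fm, fE, fS]
  simp only [smul_apply, smul_eq_mul]
  ring

/-- the flat plurisubharmonic part of the defining function -/
noncomputable def P0 (i0 e : Fin n) (z : Fin n → ℂ) : ℝ :=
  Real.exp 8 * fam 0 0 (‖z e‖ ^ 2, ‖z i0‖ ^ 2)

lemma P0_contDiff (i0 e : Fin n) : ContDiff ℝ ∞ (P0 i0 e) := by
  unfold P0
  exact contDiff_const.mul ((fam_contDiff 0 0).comp ((contDiff_coordsq e).prodMk (contDiff_coordsq i0)))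

lemma P0_of_ne (hz : z e ≠ 0) :
    P0 i0 e z = Real.exp (8 - Real.exp (-‖z i0‖ ^ 2) * lgc e z ^ 2) := by
  unfold P0 lgc
  have hpos : 0 < ((‖z e‖ ^ 2, ‖z i0‖ ^ 2) : ℝ × ℝ).1 := by
    change 0 < ‖z e‖ ^ 2; positivity
  rw [fam_pos hpos]
  simp only [pow_zero, one_mul]
  rw [← Real.exp_add]
  congr 1

lemma P0_of_eq (hz : z e = 0) : P0 i0 e z = 0 := by
  unfold P0
  have h0 : ((‖z e‖ ^ 2, ‖z i0‖ ^ 2) : ℝ × ℝ).1 ≤ 0 := by
    change ‖z e‖ ^ 2 ≤ 0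
    rw [hz]; simp
  rw [fam_nonpos h0, mul_zero]

lemma P0_nonneg (z : Fin n → ℂ) : 0 ≤ P0 i0 e z := by
  by_cases hz : z e = 0
  · rw [P0_of_eq hz]
  · rw [P0_of_ne hz]; exact (Real.exp_pos _).le

lemma P0_eventually (hz : z e ≠ 0) : P0 i0 e =ᶠ[𝓝 z]
    fun y => Real.exp (8 - Real.exp (-‖y i0‖ ^ 2) * lgc e y ^ 2) := by
  have hopen : IsOpen {y : Fin n → ℂ | y e ≠ 0} :=
    isOpen_ne_fun (continuous_apply e) continuous_const
  filter_upwards [hopen.mem_nhds hz] with y hy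
  exact P0_of_ne hy

lemma P0_Lev (hz : z e ≠ 0) (hT : 1 ≤ Real.exp (-‖z i0‖ ^ 2) * lgc e z ^ 2) (w : Fin n → ℂ) :
    P0 i0 e z * (Real.exp (-‖z i0‖ ^ 2) * (8 * ‖w e‖ ^ 2 / ‖z e‖ ^ 2 + 4 * lgc e z ^ 2 * ‖w i0‖ ^ 2))
      ≤ Lev (P0 i0 e) z w := by
  rw [Lev_congr (P0_eventually hz), P0_of_ne hz]
  have h1 := Lev_model (α := fun y : Fin n → ℂ => ‖y i0‖ ^ 2) (T := lgc e) (τ := 8) (z := z) (w := w)
    (contDiffAt_two (contDiff_coordsq i0) z) (lgc_contDiffAt hz) (lgc_Lev hz w)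
  rw [h1]
  refine mul_le_mul_of_nonneg_left ?_ (Real.exp_pos _).le
  rw [lgc_Gam hz, Lev_coordsq]
  set c := Real.exp (-‖z i0‖ ^ 2) with hc
  have hc0 : 0 < c := Real.exp_pos _
  have h2 : 0 ≤ c ^ 2 * lgc e z ^ 2 - c := by
    have : c * 1 ≤ c * (c * lgc e z ^ 2) := mul_le_mul_of_nonneg_left hT hc0.le
    nlinarith
  have h3 : 0 ≤ (c ^ 2 * lgc e z ^ 2 - c)
      * ((2 * fderiv ℝ (lgc e) z w - lgc e z * fderiv ℝ (fun y : Fin n → ℂ => ‖y i0‖ ^ 2) z w) ^ 2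
        + (2 * fderiv ℝ (lgc e) z (I • w)
          - lgc e z * fderiv ℝ (fun y : Fin n → ℂ => ‖y i0‖ ^ 2) z (I • w)) ^ 2) := by
    positivity
  have h4 : c * (8 * ‖w e‖ ^ 2 / ‖z e‖ ^ 2 + 4 * lgc e z ^ 2 * ‖w i0‖ ^ 2)
      = 2 * c * (4 * ‖w e‖ ^ 2 / ‖z e‖ ^ 2) + c * lgc e z ^ 2 * (4 * ‖w i0‖ ^ 2) := by ring
  rw [h4]
  linarith

lemma P0_fderiv (hz : z e ≠ 0) (v : Fin n → ℂ) :
    fderiv ℝ (P0 i0 e) z v = P0 i0 e z * (Real.exp (-‖z i0‖ ^ 2) *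
      (lgc e z ^ 2 * (2 * (conj (z i0) * v i0).re)
        - 2 * lgc e z * ((‖z e‖ ^ 2)⁻¹ * (2 * (conj (z e) * v e).re)))) := by
  rw [(P0_eventually hz).fderiv_eq, P0_of_ne hz]
  have hα : HasFDerivAt (fun y : Fin n → ℂ => ‖y i0‖ ^ 2)
      (fderiv ℝ (fun y : Fin n → ℂ => ‖y i0‖ ^ 2) z) z :=
    (((contDiff_coordsq i0).differentiable (by simp)) z).hasFDerivAt
  have hT : HasFDerivAt (lgc e) (fderiv ℝ (lgc e) z) z :=
    (diffAt_of (lgc_contDiffAt hz)).hasFDerivAt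
  have h1 := ((hα.neg.exp).mul (hT.pow 2)).const_sub 8 |>.exp
  have h2 : fderiv ℝ (fun y => Real.exp (8 - Real.exp (-‖y i0‖ ^ 2) * lgc e y ^ 2)) z = _ :=
    HasFDerivAt.fderiv (by exact h1)
  rw [h2]
  simp only [add_apply, smul_apply, smul_eq_mul, neg_apply, fderiv_coordsq, lgc_fderiv hz,
    Pi.neg_apply, Pi.mul_apply, Nat.add_one_sub_one, pow_one]
  ring

lemma P0_fderiv_zero (hz : z e = 0) : fderiv ℝ (P0 i0 e) z = 0 := by
  have h0 : fam' 0 0 (‖z e‖ ^ 2, ‖z i0‖ ^ 2) = 0 := by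
    have h0 : ((‖z e‖ ^ 2, ‖z i0‖ ^ 2) : ℝ × ℝ).1 ≤ 0 := by
      change ‖z e‖ ^ 2 ≤ 0
      rw [hz]; simp
    unfold fam' dY dA
    simp [fam_nonpos h0]
  have h1 := fam_hasFDerivAt 0 0 (‖z e‖ ^ 2, ‖z i0‖ ^ 2)
  rw [h0] at h1
  have h2 : HasFDerivAt (fun y : Fin n → ℂ => ((‖y e‖ ^ 2, ‖y i0‖ ^ 2) : ℝ × ℝ)) _ z :=
    (((contDiff_coordsq e).differentiable (by simp)) z).hasFDerivAt.prodMk
      (((contDiff_coordsq i0).differentiable (by simp)) z).hasFDerivAt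
  have h3 := (h1.comp z h2).const_mul (Real.exp 8)
  have h4 : fderiv ℝ (P0 i0 e) z = _ := HasFDerivAt.fderiv (by exact h3)
  rw [h4]
  simp

end dom1

end Pool.Agent.DBar74
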