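import Pool.Agent.DBar74.Dom1

open MeasureTheory Filter Topology Complex
open scoped ENNReal ContDiff ComplexConjugate

namespace Pool.Agent.DBar74

variable {n : ℕ}

section dom2

variable {i0 e : Fin n} {z w : Fin n → ℂ}

/-- the defining function -/
noncomputable def rD (i0 e : Fin n) (z : Fin n → ℂ) : ℝ :=
  (nsq z - ‖z i0‖ ^ 2 - ‖z e‖ ^ 2) + P0 i0 e z + (2 / th 1) * th (‖z i0‖ ^ 2 - 1)
    + (2 / th (1 / 4)) * th (‖z e‖ ^ 2 - 1 / 4) - 1

lemma th_pos {x : ℝ} (hx : 0 < x) : 0 < th x :=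
  mul_pos (expNegInvGlue.pos_of_pos hx) (Real.exp_pos _)

lemma c1_pos : 0 < 2 / th 1 := div_pos two_pos (th_pos one_pos)
lemma c2_pos : 0 < 2 / th (1 / 4) := div_pos two_pos (th_pos (by norm_num))

lemma th1_of_nonpos {x : ℝ} (h : x ≤ 0) : th1 x = 0 := by
  unfold th1; rw [expNegInvGlue.zero_of_nonpos h]; ring

lemma rD_contDiff (i0 e : Fin n) : ContDiff ℝ ∞ (rD i0 e) := by
  unfold rD
  have h1 := contDiff_nsq (n := n)
  have h2 := contDiff_coordsq (n := n) i0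
  have h3 := contDiff_coordsq (n := n) e
  exact (((((h1.sub h2).sub h3).add (P0_contDiff i0 e)).add
    (contDiff_const.mul (th_contDiff.comp (h2.sub contDiff_const)))).add
    (contDiff_const.mul (th_contDiff.comp (h3.sub contDiff_const)))).sub contDiff_const

lemma two_le_nsq (hne : i0 ≠ e) (z : Fin n → ℂ) : ‖z i0‖ ^ 2 + ‖z e‖ ^ 2 ≤ nsq z := by
  unfold nsq
  rw [← Finset.sum_pair (f := fun j => ‖z j‖ ^ 2) hne]
  exact Finset.sum_le_sum_of_subset_of_nonneg (Finset.subset_univ _) fun _ _ _ => by positivity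

lemma th1nn (z : Fin n → ℂ) : 0 ≤ (2 / th 1) * th (‖z i0‖ ^ 2 - 1) :=
  mul_nonneg c1_pos.le (th_nonneg _)
lemma th2nn (z : Fin n → ℂ) : 0 ≤ (2 / th (1 / 4)) * th (‖z e‖ ^ 2 - 1 / 4) :=
  mul_nonneg c2_pos.le (th_nonneg _)

/-- location of the closed domain -/
lemma rD_region (hne : i0 ≠ e) (hz : rD i0 e z ≤ 0) :
    ‖z i0‖ ^ 2 < 2 ∧ ‖z e‖ ^ 2 < 1 / 4 ∧ nsq z - ‖z i0‖ ^ 2 - ‖z e‖ ^ 2 ≤ 1 ∧ P0 i0 e z ≤ 1 := by
  have h1 := two_le_nsq hne z
  have h2 := P0_nonneg (i0 := i0) (e := e) z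
  have h3 := th1nn (i0 := i0) z
  have h4 := th2nn (e := e) z
  unfold rD at hz
  have hP : P0 i0 e z ≤ 1 := by linarith
  have a1 : ‖z i0‖ ^ 2 < 2 := by
    by_contra hc
    push Not at hc
    have h5 : th 1 ≤ th (‖z i0‖ ^ 2 - 1) := th_mono (by linarith)
    have h6 : 2 ≤ (2 / th 1) * th (‖z i0‖ ^ 2 - 1) := by
      have := mul_le_mul_of_nonneg_left h5 c1_pos.le
      have h7 : (2 / th 1) * th 1 = 2 := by
        have := (th_pos one_pos).ne'
        field_simp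
      linarith
    linarith
  have a2 : ‖z e‖ ^ 2 < 1 / 2 := by
    by_contra hc
    push Not at hc
    have h5 : th (1 / 4) ≤ th (‖z e‖ ^ 2 - 1 / 4) := th_mono (by linarith)
    have h6 : 2 ≤ (2 / th (1 / 4)) * th (‖z e‖ ^ 2 - 1 / 4) := by
      have := mul_le_mul_of_nonneg_left h5 c2_pos.le
      have h7 : (2 / th (1 / 4)) * th (1 / 4) = 2 := by
        have := (th_pos (by norm_num : (0:ℝ) < 1 / 4)).ne'
        field_simp
      linarith
    linarith
  refine ⟨a1, ?_, by linarith, hP⟩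
  by_contra hc
  push Not at hc
  have hze : z e ≠ 0 := by
    intro h0
    rw [h0] at hc
    norm_num at hc
  rw [P0_of_ne hze, Real.exp_le_one_iff] at hP
  have hl1 : Real.log (1 / 4) ≤ lgc e z := Real.log_le_log (by norm_num) hc
  have hl2 : lgc e z ≤ 0 := Real.log_nonpos (by positivity) (by linarith)
  have hl3 : -2 ≤ Real.log (1 / 4) := by
    have h5 : Real.log (1 / 4) = -(2 * Real.log 2) := by
      rw [show (1 / 4 : ℝ) = (2 ^ 2)⁻¹ by norm_num, Real.log_inv, Real.log_pow]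
      norm_num
    have h6 := Real.log_two_lt_d9
    rw [h5]; linarith
  have hl4 : lgc e z ^ 2 ≤ 4 := by nlinarith
  have hE1 : Real.exp (-‖z i0‖ ^ 2) ≤ 1 := by
    rw [Real.exp_le_one_iff]
    have : 0 ≤ ‖z i0‖ ^ 2 := by positivity
    linarith
  have hE0 := Real.exp_pos (-‖z i0‖ ^ 2)
  have h0 : 0 ≤ lgc e z ^ 2 := by positivity
  nlinarith

lemma rD_log (hne : i0 ≠ e) (hz : rD i0 e z ≤ 0) (hze : z e ≠ 0) :
    8 ≤ Real.exp (-‖z i0‖ ^ 2) * lgc e z ^ 2 ∧ lgc e z < 0 := by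
  obtain ⟨_, h2, _, h4⟩ := rD_region hne hz
  rw [P0_of_ne hze, Real.exp_le_one_iff] at h4
  refine ⟨by linarith, Real.log_neg (by positivity) (by linarith)⟩

lemma Lev_th_shift {q : (Fin n → ℂ) → ℝ} (hq : ContDiff ℝ ∞ q) (c b : ℝ) (x w : Fin n → ℂ) :
    Lev (fun y => c * th (q y - b)) x w
      = c * (th2 (q x - b) * Gam q x w + th1 (q x - b) * Lev q x w) := by
  have d1 : ∀ t : ℝ, HasDerivAt (fun t : ℝ => th (t - b)) (th1 (t - b)) t := by
    intro t
    have h := (th_hasDerivAt (t - b)).comp t ((hasDerivAt_id t).sub_const b)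
    simpa [Function.comp_def] using h
  have d2 : ∀ t : ℝ, HasDerivAt (fun t : ℝ => th1 (t - b)) (th2 (t - b)) t := by
    intro t
    have h := (th1_hasDerivAt (t - b)).comp t ((hasDerivAt_id t).sub_const b)
    simpa [Function.comp_def] using h
  have hc : ContDiff ℝ ∞ (fun y => th (q y - b)) := th_contDiff.comp (hq.sub contDiff_const)
  rw [Lev_const_mul c (contDiffAt_two hc x)]
  congr 1
  exact Lev_comp (k := q) (h := fun t => th (t - b)) (h1 := fun t => th1 (t - b))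
    (contDiffAt_two hq x) (Eventually.of_forall d1) (d2 _) w

lemma fderiv_th_shift {q : (Fin n → ℂ) → ℝ} (hq : ContDiff ℝ ∞ q) (c b : ℝ) (x v : Fin n → ℂ) :
    fderiv ℝ (fun y => c * th (q y - b)) x v = c * (th1 (q x - b) * fderiv ℝ q x v) := by
  have d1 : HasDerivAt (fun t : ℝ => c * th (t - b)) (c * th1 (q x - b)) (q x) := by
    have h := (th_hasDerivAt (q x - b)).comp (q x) ((hasDerivAt_id (q x)).sub_const b)
    have h2 : HasDerivAt (fun t : ℝ => th (t - b)) (th1 (q x - b)) (q x) := by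
      simpa [Function.comp_def] using h
    exact h2.const_mul c
  have h := fderiv_comp_real (k := q) (h := fun t => c * th (t - b))
    ((hq.differentiable (by simp)) x) d1
  rw [h, smul_apply, smul_eq_mul]; ring

lemma Lev_neg (k : (Fin n → ℂ) → ℝ) (hk : ContDiff ℝ ∞ k) (x w : Fin n → ℂ) :
    Lev (fun y => -k y) x w = -Lev k x w := by
  have h := Lev_const_mul (-1) (contDiffAt_two hk x) w
  have e1 : (fun y => (-1) * k y) = fun y => -k y := by ext y; ring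
  rw [e1] at h
  rw [h]; ring

/-- Levi form of the defining function -/
lemma rD_Lev (i0 e : Fin n) (z w : Fin n → ℂ) : Lev (rD i0 e) z w
      = 4 * (nsq w - ‖w i0‖ ^ 2 - ‖w e‖ ^ 2) + Lev (P0 i0 e) z w
        + (2 / th 1) * (th2 (‖z i0‖ ^ 2 - 1) * (4 * (‖z i0‖ ^ 2 * ‖w i0‖ ^ 2))
          + th1 (‖z i0‖ ^ 2 - 1) * (4 * ‖w i0‖ ^ 2))
        + (2 / th (1 / 4)) * (th2 (‖z e‖ ^ 2 - 1 / 4) * (4 * (‖z e‖ ^ 2 * ‖w e‖ ^ 2))
          + th1 (‖z e‖ ^ 2 - 1 / 4) * (4 * ‖w e‖ ^ 2)) := by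
  have h1 := contDiff_nsq (n := n)
  have h2 := contDiff_coordsq (n := n) i0
  have h3 := contDiff_coordsq (n := n) e
  have h4 := P0_contDiff (n := n) i0 e
  have h5 : ContDiff ℝ ∞ (fun y : Fin n → ℂ => (2 / th 1) * th (‖y i0‖ ^ 2 - 1)) :=
    contDiff_const.mul (th_contDiff.comp (h2.sub contDiff_const))
  have h6 : ContDiff ℝ ∞ (fun y : Fin n → ℂ => (2 / th (1 / 4)) * th (‖y e‖ ^ 2 - 1 / 4)) :=
    contDiff_const.mul (th_contDiff.comp (h3.sub contDiff_const))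
  have e0 : rD i0 e = fun y : Fin n → ℂ => (((((nsq y + -(‖y i0‖ ^ 2)) + -(‖y e‖ ^ 2)) + P0 i0 e y)
      + (2 / th 1) * th (‖y i0‖ ^ 2 - 1)) + (2 / th (1 / 4)) * th (‖y e‖ ^ 2 - 1 / 4)) + (-1) := by
    ext y; unfold rD; ring
  rw [e0]
  have c1 : ContDiff ℝ ∞ (fun y : Fin n → ℂ => nsq y + -(‖y i0‖ ^ 2)) := h1.add h2.neg
  have c2 : ContDiff ℝ ∞ (fun y : Fin n → ℂ => (nsq y + -(‖y i0‖ ^ 2)) + -(‖y e‖ ^ 2)) := c1.add h3.neg
  have c3 : ContDiff ℝ ∞ (fun y : Fin n → ℂ => ((nsq y + -(‖y i0‖ ^ 2)) + -(‖y e‖ ^ 2)) + P0 i0 e y) :=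
    c2.add h4
  have c4 : ContDiff ℝ ∞ (fun y : Fin n → ℂ => (((nsq y + -(‖y i0‖ ^ 2)) + -(‖y e‖ ^ 2)) + P0 i0 e y)
      + (2 / th 1) * th (‖y i0‖ ^ 2 - 1)) := c3.add h5
  have c5 : ContDiff ℝ ∞ (fun y : Fin n → ℂ => ((((nsq y + -(‖y i0‖ ^ 2)) + -(‖y e‖ ^ 2)) + P0 i0 e y)
      + (2 / th 1) * th (‖y i0‖ ^ 2 - 1)) + (2 / th (1 / 4)) * th (‖y e‖ ^ 2 - 1 / 4)) := c4.add h6
  rw [Lev_add (contDiffAt_two c5 z) contDiffAt_const, Lev_const,
    Lev_add (contDiffAt_two c4 z) (contDiffAt_two h6 z),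
    Lev_add (contDiffAt_two c3 z) (contDiffAt_two h5 z),
    Lev_add (contDiffAt_two c2 z) (contDiffAt_two h4 z),
    Lev_add (contDiffAt_two c1 z) (contDiffAt_two h3.neg z),
    Lev_add (contDiffAt_two h1 z) (contDiffAt_two h2.neg z),
    Lev_neg _ h2, Lev_neg _ h3, Lev_nsq, Lev_coordsq, Lev_coordsq, Lev_th_shift h2, Lev_th_shift h3,
    Gam_coordsq, Gam_coordsq, Lev_coordsq, Lev_coordsq]
  ring

lemma rD_fderiv (i0 e : Fin n) (z v : Fin n → ℂ) : fderiv ℝ (rD i0 e) z v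
      = 2 * (∑ j, conj (z j) * v j).re - 2 * (conj (z i0) * v i0).re - 2 * (conj (z e) * v e).re
        + fderiv ℝ (P0 i0 e) z v
        + (2 / th 1) * (th1 (‖z i0‖ ^ 2 - 1) * (2 * (conj (z i0) * v i0).re))
        + (2 / th (1 / 4)) * (th1 (‖z e‖ ^ 2 - 1 / 4) * (2 * (conj (z e) * v e).re)) := by
  have h1 := contDiff_nsq (n := n)
  have h2 := contDiff_coordsq (n := n) i0
  have h3 := contDiff_coordsq (n := n) e
  have h4 := P0_contDiff (n := n) i0 e
  have h5 : ContDiff ℝ ∞ (fun y : Fin n → ℂ => (2 / th 1) * th (‖y i0‖ ^ 2 - 1)) :=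
    contDiff_const.mul (th_contDiff.comp (h2.sub contDiff_const))
  have h6 : ContDiff ℝ ∞ (fun y : Fin n → ℂ => (2 / th (1 / 4)) * th (‖y e‖ ^ 2 - 1 / 4)) :=
    contDiff_const.mul (th_contDiff.comp (h3.sub contDiff_const))
  have hd : ∀ {g : (Fin n → ℂ) → ℝ}, ContDiff ℝ ∞ g → HasFDerivAt g (fderiv ℝ g z) z := fun hg =>
    ((hg.differentiable (by simp)) z).hasFDerivAt
  have hall := ((((((hd h1).sub (hd h2)).sub (hd h3)).add (hd h4)).add (hd h5)).add (hd h6)).sub_const 1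
  have h7 : fderiv ℝ (rD i0 e) z = _ := HasFDerivAt.fderiv (by exact hall)
  rw [h7]
  simp only [add_apply, sub_apply]
  rw [fderiv_th_shift h2, fderiv_th_shift h3, fderiv_nsq, fderiv_coordsq, fderiv_coordsq]

/-- lower bound of the Levi form off the exceptional hyperplane -/
lemma rD_Lev_ge (hze : z e ≠ 0) (hT : 1 ≤ Real.exp (-‖z i0‖ ^ 2) * lgc e z ^ 2) (w : Fin n → ℂ) :
    4 * (nsq w - ‖w i0‖ ^ 2 - ‖w e‖ ^ 2)
      + P0 i0 e z * (Real.exp (-‖z i0‖ ^ 2) * (8 * ‖w e‖ ^ 2 / ‖z e‖ ^ 2 + 4 * lgc e z ^ 2 * ‖w i0‖ ^ 2))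
      ≤ Lev (rD i0 e) z w := by
  rw [rD_Lev]
  have h1 := P0_Lev hze hT w
  have h2 : 0 ≤ (2 / th 1) * (th2 (‖z i0‖ ^ 2 - 1) * (4 * (‖z i0‖ ^ 2 * ‖w i0‖ ^ 2))
          + th1 (‖z i0‖ ^ 2 - 1) * (4 * ‖w i0‖ ^ 2)) := by
    have := c1_pos
    have := th2_nonneg (‖z i0‖ ^ 2 - 1)
    have := th1_nonneg (‖z i0‖ ^ 2 - 1)
    positivity
  have h3 : 0 ≤ (2 / th (1 / 4)) * (th2 (‖z e‖ ^ 2 - 1 / 4) * (4 * (‖z e‖ ^ 2 * ‖w e‖ ^ 2))
          + th1 (‖z e‖ ^ 2 - 1 / 4) * (4 * ‖w e‖ ^ 2)) := by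
    have := c2_pos
    have := th2_nonneg (‖z e‖ ^ 2 - 1 / 4)
    have := th1_nonneg (‖z e‖ ^ 2 - 1 / 4)
    positivity
  linarith

lemma continuous_Lev_const {k : (Fin n → ℂ) → ℝ} (hk : ContDiff ℝ ∞ k) (w : Fin n → ℂ) :
    Continuous (fun z => Lev k z w) :=
  continuous_Lev (F := fun j _ => w j) hk fun _ => continuous_const

lemma rD_psh (hne : i0 ≠ e) (hz : rD i0 e z ≤ 0) (w : Fin n → ℂ) : 0 ≤ Lev (rD i0 e) z w := by
  by_cases hze : z e = 0
  · -- approximate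
    have hcur : Continuous (fun s : ℝ => Function.update z e ((s : ℝ) : ℂ)) :=
      continuous_const.update e Complex.continuous_ofReal
    have hz0 : Function.update z e (((0:ℝ) : ℝ) : ℂ) = z := by
      rw [Complex.ofReal_zero, ← hze, Function.update_eq_self]
    have hlim : Tendsto (fun s : ℝ => Lev (rD i0 e) (Function.update z e ((s : ℝ) : ℂ)) w)
        (𝓝[>] 0) (𝓝 (Lev (rD i0 e) z w)) := by
      have h1 : Tendsto (fun s : ℝ => Function.update z e ((s : ℝ) : ℂ)) (𝓝[>] 0) (𝓝 z) := by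
        have := (hcur.tendsto 0).mono_left (nhdsWithin_le_nhds (s := Set.Ioi 0))
        rwa [hz0] at this
      exact ((continuous_Lev_const (rD_contDiff i0 e) w).tendsto z).comp h1
    refine ge_of_tendsto hlim ?_
    set b : ℝ := Real.exp (‖z i0‖ ^ 2) + 1 with hb
    have hb1 : 1 ≤ b := by have := Real.exp_pos (‖z i0‖ ^ 2); linarith
    have hsmall1 : ∀ᶠ s : ℝ in 𝓝[>] 0, 0 < s := self_mem_nhdsWithin
    have hsmall2 : ∀ᶠ s : ℝ in 𝓝[>] 0, s < Real.exp (-b) :=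
      Filter.Eventually.filter_mono nhdsWithin_le_nhds (gt_mem_nhds (Real.exp_pos (-b)))
    filter_upwards [hsmall1.and hsmall2] with s hs
    have hs1 := hs.1
    have hs2 : Real.log s < -b := by
      rw [Real.log_lt_iff_lt_exp hs.1]; exact hs.2
    set z' := Function.update z e ((s : ℝ) : ℂ) with hz'
    have hz'e : z' e = (s : ℂ) := by rw [hz', Function.update_self]
    have hz'i : z' i0 = z i0 := by rw [hz', Function.update_of_ne hne]
    have hne' : z' e ≠ 0 := by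
      rw [hz'e]; exact_mod_cast hs.1.ne'
    have hlg : lgc e z' = 2 * Real.log s := by
      unfold lgc
      rw [hz'e, Complex.norm_real, Real.norm_eq_abs, sq_abs, Real.log_pow]
      norm_num
    have hT : 1 ≤ Real.exp (-‖z' i0‖ ^ 2) * lgc e z' ^ 2 := by
      rw [hlg, hz'i]
      have h5 : Real.exp (‖z i0‖ ^ 2) ≤ (2 * Real.log s) ^ 2 := by nlinarith
      have h6 : Real.exp (-‖z i0‖ ^ 2) * Real.exp (‖z i0‖ ^ 2) = 1 := by
        rw [← Real.exp_add]; simp
      rw [← h6]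
      exact mul_le_mul_of_nonneg_left h5 (Real.exp_pos _).le
    refine le_trans ?_ (rD_Lev_ge hne' hT w)
    have h7 := two_le_nsq hne w
    have h8 := P0_nonneg (i0 := i0) (e := e) z'
    have h9 := Real.exp_pos (-‖z' i0‖ ^ 2)
    have h10 : 0 ≤ P0 i0 e z' * (Real.exp (-‖z' i0‖ ^ 2)
      * (8 * ‖w e‖ ^ 2 / ‖z' e‖ ^ 2 + 4 * lgc e z' ^ 2 * ‖w i0‖ ^ 2)) := by positivity
    linarith
  · obtain ⟨h1, _⟩ := rD_log hne hz hze
    refine le_trans ?_ (rD_Lev_ge hze (by linarith) w)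
    have h7 := two_le_nsq hne w
    have h8 := P0_nonneg (i0 := i0) (e := e) z
    have h9 := Real.exp_pos (-‖z i0‖ ^ 2)
    have h10 : 0 ≤ P0 i0 e z * (Real.exp (-‖z i0‖ ^ 2)
      * (8 * ‖w e‖ ^ 2 / ‖z e‖ ^ 2 + 4 * lgc e z ^ 2 * ‖w i0‖ ^ 2)) := by positivity
    linarith

/-- the radial derivative in the exceptional direction -/
lemma rD_radial (hne : i0 ≠ e) (hz : rD i0 e z ≤ 0) (hze : z e ≠ 0) :
    fderiv ℝ (rD i0 e) z (Pi.single e (z e))
      = 4 * Real.exp (-‖z i0‖ ^ 2) * (-lgc e z) * P0 i0 e z := by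
  obtain ⟨_, h2, _, _⟩ := rD_region hne hz
  have hre : (conj (z e) * z e).re = ‖z e‖ ^ 2 := by
    rw [mul_comm, Complex.mul_conj, Complex.ofReal_re, Complex.normSq_eq_norm_sq]
  have hsum : (∑ j, conj (z j) * (Pi.single e (z e) : Fin n → ℂ) j).re = ‖z e‖ ^ 2 := by
    rw [Finset.sum_eq_single e]
    · rw [Pi.single_eq_same, hre]
    · intro b _ hb; rw [Pi.single_eq_of_ne hb]; simp
    · simp
  rw [rD_fderiv, P0_fderiv hze, hsum, Pi.single_eq_same, Pi.single_eq_of_ne hne, hre,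
    th1_of_nonpos (by linarith : ‖z e‖ ^ 2 - 1 / 4 ≤ 0)]
  have := sq_ne_zero_of hze
  simp only [mul_zero, Complex.zero_re]
  field_simp
  ring

lemma rD_ge (hne : i0 ≠ e) (z : Fin n → ℂ) : -1 ≤ rD i0 e z := by
  have h1 := two_le_nsq hne z
  have h2 := P0_nonneg (i0 := i0) (e := e) z
  have h3 := th1nn (i0 := i0) z
  have h4 := th2nn (e := e) z
  unfold rD
  linarith

lemma P0_mono {z z' : Fin n → ℂ} (he : ‖z e‖ ≤ ‖z' e‖) (hi : ‖z i0‖ ≤ ‖z' i0‖)
    (h4 : ‖z' e‖ ^ 2 < 1) : P0 i0 e z ≤ P0 i0 e z' := by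
  by_cases hze : z e = 0
  · rw [P0_of_eq hze]; exact P0_nonneg _
  · have hpos : 0 < ‖z e‖ := norm_pos_iff.2 hze
    have hze' : z' e ≠ 0 := by
      rw [← norm_pos_iff]; linarith
    rw [P0_of_ne hze, P0_of_ne hze', Real.exp_le_exp]
    have h1 : ‖z e‖ ^ 2 ≤ ‖z' e‖ ^ 2 := pow_le_pow_left₀ (norm_nonneg _) he 2
    have h2 : ‖z i0‖ ^ 2 ≤ ‖z' i0‖ ^ 2 := pow_le_pow_left₀ (norm_nonneg _) hi 2
    have h3 : lgc e z ≤ lgc e z' := Real.log_le_log (by positivity) h1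
    have h5 : lgc e z' < 0 := Real.log_neg (by positivity) h4
    have h6 : lgc e z' ^ 2 ≤ lgc e z ^ 2 := by nlinarith
    have h7 : Real.exp (-‖z' i0‖ ^ 2) ≤ Real.exp (-‖z i0‖ ^ 2) := Real.exp_le_exp.2 (by linarith)
    have h8 : Real.exp (-‖z' i0‖ ^ 2) * lgc e z' ^ 2 ≤ Real.exp (-‖z i0‖ ^ 2) * lgc e z ^ 2 :=
      mul_le_mul h7 h6 (sq_nonneg _) (Real.exp_pos _).le
    linarith

theorem rD_good (hne : i0 ≠ e) : GoodDef (rD i0 e : (Fin n → ℂ) → ℝ) e where
  smooth := rD_contDiff i0 e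
  ge_neg_one := rD_ge hne
  bdd := by
    intro z hz
    obtain ⟨h1, h2, h3, _⟩ := rD_region hne hz.le
    linarith
  psh := fun z hz w => rD_psh hne hz.le w
  rad := by
    intro z c hc
    unfold rD P0
    rw [nsq_update, Function.update_self, Function.update_of_ne hne, hc]
    ring
  mono := by
    intro z c hz hc
    by_contra hlt
    push Not at hlt
    obtain ⟨_, h2, _, _⟩ := rD_region hne (z := Function.update z e c) (by linarith)
    rw [Function.update_self] at h2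
    have hP : P0 i0 e z ≤ P0 i0 e (Function.update z e c) := by
      apply P0_mono
      · rwa [Function.update_self]
      · rw [Function.update_of_ne hne]
      · rw [Function.update_self]; linarith
    have hsq : ‖z e‖ ^ 2 ≤ ‖c‖ ^ 2 := pow_le_pow_left₀ (norm_nonneg _) hc 2
    have hth : th (‖z e‖ ^ 2 - 1 / 4) ≤ th (‖c‖ ^ 2 - 1 / 4) := th_mono (by linarith)
    have hth' := mul_le_mul_of_nonneg_left hth c2_pos.le
    unfold rD at hlt
    rw [nsq_update, Function.update_self, Function.update_of_ne hne] at hlt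
    linarith
  near := by
    intro M hM
    set Λ : ℝ := M * Real.exp 10 + M + 1 with hΛ
    have hE10 := Real.exp_pos (10:ℝ)
    have hΛpos : 0 < Λ := by positivity
    refine ⟨Real.exp (-Λ), Real.exp_pos _, ?_⟩
    intro z hz hze w
    by_cases h0 : z e = 0
    · rw [h0, Pi.single_zero, map_zero]
      have := rD_psh hne hz.le w
      simpa using this
    · obtain ⟨hl1, hl2⟩ := rD_log hne hz.le h0
      obtain ⟨a1, a2, _, a4⟩ := rD_region hne hz.le
      rw [rD_radial hne hz.le h0]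
      refine le_trans ?_ (rD_Lev_ge h0 (by linarith) w)
      set c := Real.exp (-‖z i0‖ ^ 2) with hc
      set P := P0 i0 e z with hPdef
      have hP0 : 0 ≤ P := P0_nonneg z
      have hc0 : 0 < c := Real.exp_pos _
      have hc1 : c ≤ 1 := by
        rw [hc, Real.exp_le_one_iff]
        have : 0 ≤ ‖z i0‖ ^ 2 := by positivity
        linarith
      have hc2 : Real.exp (-2) ≤ c := by
        rw [hc]; exact Real.exp_le_exp.2 (by linarith)
      set t := -lgc e z with ht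
      have ht0 : 0 < t := by linarith
      have hpos : 0 < ‖z e‖ := norm_pos_iff.2 h0
      have htΛ : 2 * Λ < t := by
        have h1 : Real.log ‖z e‖ < -Λ := by
          rw [Real.log_lt_iff_lt_exp hpos]; exact hze
        have h2 : lgc e z = 2 * Real.log ‖z e‖ := by
          unfold lgc; rw [Real.log_pow]; norm_num
        rw [ht, h2]; linarith
      have hy : ‖z e‖ ^ 2 = Real.exp (-t) := by
        rw [ht, neg_neg]; unfold lgc; rw [Real.exp_log (by positivity)]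
      have hlt : lgc e z ^ 2 = t ^ 2 := by rw [ht]; ring
      rw [hlt, hy]
      have htM : M ≤ t := by
        have : 0 ≤ M * Real.exp 10 := by positivity
        linarith
      have htM2 : M * Real.exp 10 ≤ t := by linarith
      -- exp t ≥ t^2 / 2
      have hexp : t ^ 2 / 2 ≤ Real.exp t := by
        have := Real.pow_div_factorial_le_exp t ht0.le 2
        simpa using this
      have hexpinv : Real.exp (-t) * Real.exp t = 1 := by rw [← Real.exp_add]; simp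
      have hEt := Real.exp_pos (-t)
      -- (1) the transversal directions
      have hPval : P = Real.exp (8 - c * t ^ 2) := by
        rw [hPdef, P0_of_ne h0, hlt]
      have key1 : M * (4 * c * t * P) ≤ 4 := by
        have h1 : P ≤ Real.exp 10 / t ^ 2 := by
          rw [hPval, Real.exp_sub]
          rw [div_le_div_iff₀ (Real.exp_pos _) (by positivity)]
          have h2 : Real.exp (-2) * t ^ 2 ≤ Real.exp (c * t ^ 2) := by
            have h3 : c * t ^ 2 + 1 ≤ Real.exp (c * t ^ 2) := Real.add_one_le_exp _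
            have h4 := mul_le_mul_of_nonneg_right hc2 (sq_nonneg t)
            linarith
          have h5 : Real.exp 8 = Real.exp 10 * Real.exp (-2) := by
            rw [← Real.exp_add]; norm_num
          rw [h5]
          calc Real.exp 10 * Real.exp (-2) * t ^ 2 = Real.exp 10 * (Real.exp (-2) * t ^ 2) := by ring
            _ ≤ Real.exp 10 * Real.exp (c * t ^ 2) := mul_le_mul_of_nonneg_left h2 hE10.le
        have h2 : M * (4 * c * t * P) ≤ M * (4 * 1 * t * (Real.exp 10 / t ^ 2)) := by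
          gcongr
        refine h2.trans ?_
        have h3 : M * (4 * 1 * t * (Real.exp 10 / t ^ 2)) = 4 * (M * Real.exp 10 / t) := by
          field_simp
        rw [h3]
        have h4 : M * Real.exp 10 / t ≤ 1 := by
          rw [div_le_one ht0]; exact htM2
        linarith
      have hS := two_le_nsq hne w
      set S := nsq w - ‖w i0‖ ^ 2 - ‖w e‖ ^ 2 with hSdef
      have hS0 : 0 ≤ S := by linarith
      have k1 : M * (4 * c * t * P) * S ≤ 4 * S := mul_le_mul_of_nonneg_right key1 hS0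
      have k2 : M * (4 * c * t * P) * ‖w i0‖ ^ 2 ≤ P * (c * (4 * t ^ 2 * ‖w i0‖ ^ 2)) := by
        have h1 : M * t ≤ t * t := mul_le_mul_of_nonneg_right htM ht0.le
        have h2 : 0 ≤ 4 * c * P * ‖w i0‖ ^ 2 := by positivity
        have h3 := mul_le_mul_of_nonneg_right h1 h2
        nlinarith [h3]
      have k3 : M * (4 * c * t * P) * ‖w e‖ ^ 2 ≤ P * (c * (8 * ‖w e‖ ^ 2 / Real.exp (-t))) := by
        have h1 : M * t ≤ 2 / Real.exp (-t) := by
          rw [le_div_iff₀ hEt]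
          have h2 : M * t ≤ t ^ 2 := by nlinarith
          have h3 : M * t * Real.exp (-t) ≤ t ^ 2 * Real.exp (-t) :=
            mul_le_mul_of_nonneg_right h2 hEt.le
          have h4 : t ^ 2 * Real.exp (-t) ≤ (2 * Real.exp t) * Real.exp (-t) :=
            mul_le_mul_of_nonneg_right (by linarith) hEt.le
          nlinarith
        have h2 : 0 ≤ 4 * c * P * ‖w e‖ ^ 2 := by positivity
        have h3 := mul_le_mul_of_nonneg_right h1 h2
        have h4 : 2 / Real.exp (-t) * (4 * c * P * ‖w e‖ ^ 2)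
            = P * (c * (8 * ‖w e‖ ^ 2 / Real.exp (-t))) := by field_simp; ring
        nlinarith [h3]
      have hw : nsq w = S + ‖w i0‖ ^ 2 + ‖w e‖ ^ 2 := by rw [hSdef]; ring
      rw [hw]
      calc M * (4 * c * t * P) * (S + ‖w i0‖ ^ 2 + ‖w e‖ ^ 2)
          = M * (4 * c * t * P) * S + M * (4 * c * t * P) * ‖w i0‖ ^ 2
            + M * (4 * c * t * P) * ‖w e‖ ^ 2 := by ring
        _ ≤ 4 * S + P * (c * (4 * t ^ 2 * ‖w i0‖ ^ 2))
            + P * (c * (8 * ‖w e‖ ^ 2 / Real.exp (-t))) := by linarith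
        _ = _ := by ring
  away := by
    intro η hη
    set m : ℝ := Real.exp (-(Real.log (η ^ 2)) ^ 2) with hm
    have hm0 : 0 < m := Real.exp_pos _
    have hm1 : m ≤ 1 := by
      rw [hm, Real.exp_le_one_iff]
      have := sq_nonneg (Real.log (η ^ 2))
      linarith
    refine ⟨4 * Real.exp (-2) * m, by positivity, ?_⟩
    intro z hz hze w
    have h0 : z e ≠ 0 := by
      rw [← norm_pos_iff]; linarith
    obtain ⟨hl1, hl2⟩ := rD_log hne hz.le h0
    obtain ⟨a1, a2, _, a4⟩ := rD_region hne hz.le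
    refine le_trans ?_ (rD_Lev_ge h0 (by linarith) w)
    set c := Real.exp (-‖z i0‖ ^ 2) with hc
    set P := P0 i0 e z with hPdef
    have hP0 : 0 ≤ P := P0_nonneg z
    have hc0 : 0 < c := Real.exp_pos _
    have hc1 : c ≤ 1 := by
      rw [hc, Real.exp_le_one_iff]
      have : 0 ≤ ‖z i0‖ ^ 2 := by positivity
      linarith
    have hc2 : Real.exp (-2) ≤ c := by
      rw [hc]; exact Real.exp_le_exp.2 (by linarith)
    have hpos : 0 < ‖z e‖ ^ 2 := by positivity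
    have hηsq : η ^ 2 ≤ ‖z e‖ ^ 2 := pow_le_pow_left₀ hη.le hze 2
    have hlog : Real.log (η ^ 2) ≤ lgc e z := Real.log_le_log (by positivity) hηsq
    have hT2 : lgc e z ^ 2 ≤ Real.log (η ^ 2) ^ 2 := by nlinarith
    have hPm : m ≤ P := by
      rw [hPdef, P0_of_ne h0, hm, Real.exp_le_exp]
      have h1 : c * lgc e z ^ 2 ≤ 1 * lgc e z ^ 2 :=
        mul_le_mul_of_nonneg_right hc1 (sq_nonneg _)
      linarith
    have hT1 : 1 ≤ lgc e z ^ 2 := by nlinarith [sq_nonneg (lgc e z)]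
    have hS := two_le_nsq hne w
    set S := nsq w - ‖w i0‖ ^ 2 - ‖w e‖ ^ 2 with hSdef
    have hS0 : 0 ≤ S := by linarith
    have hw : nsq w = S + ‖w i0‖ ^ 2 + ‖w e‖ ^ 2 := by rw [hSdef]; ring
    have hE2 : Real.exp (-2) ≤ 1 := Real.exp_le_one_iff.2 (by norm_num)
    have hE20 := Real.exp_pos (-2 : ℝ)
    have k1 : 4 * Real.exp (-2) * m * S ≤ 4 * S := by
      have : 4 * Real.exp (-2) * m ≤ 4 := by nlinarith
      exact mul_le_mul_of_nonneg_right this hS0
    have hmc : Real.exp (-2) * m ≤ P * c := by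
      have := mul_le_mul hPm hc2 hE20.le hP0
      linarith
    have k2 : 4 * Real.exp (-2) * m * ‖w i0‖ ^ 2 ≤ P * (c * (4 * lgc e z ^ 2 * ‖w i0‖ ^ 2)) := by
      have h1 : 4 * (Real.exp (-2) * m) ≤ 4 * (P * c) * lgc e z ^ 2 := by
        have : 0 ≤ P * c := by positivity
        nlinarith
      have := mul_le_mul_of_nonneg_right h1 (sq_nonneg ‖w i0‖)
      nlinarith
    have k3 : 4 * Real.exp (-2) * m * ‖w e‖ ^ 2 ≤ P * (c * (8 * ‖w e‖ ^ 2 / ‖z e‖ ^ 2)) := by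
      have h1 : ‖w e‖ ^ 2 ≤ 8 * ‖w e‖ ^ 2 / ‖z e‖ ^ 2 := by
        rw [le_div_iff₀ hpos]
        have : 0 ≤ ‖w e‖ ^ 2 := by positivity
        nlinarith
      have h1' : 4 * ‖w e‖ ^ 2 ≤ 8 * ‖w e‖ ^ 2 / ‖z e‖ ^ 2 := by
        rw [le_div_iff₀ hpos]
        have : 0 ≤ ‖w e‖ ^ 2 := by positivity
        nlinarith
      have h2 : Real.exp (-2) * m * (4 * ‖w e‖ ^ 2) ≤ P * c * (8 * ‖w e‖ ^ 2 / ‖z e‖ ^ 2) :=
        mul_le_mul hmc h1' (by positivity) (by positivity)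
      nlinarith
    rw [hw]
    calc 4 * Real.exp (-2) * m * (S + ‖w i0‖ ^ 2 + ‖w e‖ ^ 2)
        = 4 * Real.exp (-2) * m * S + 4 * Real.exp (-2) * m * ‖w i0‖ ^ 2
          + 4 * Real.exp (-2) * m * ‖w e‖ ^ 2 := by ring
      _ ≤ 4 * S + P * (c * (4 * lgc e z ^ 2 * ‖w i0‖ ^ 2))
          + P * (c * (8 * ‖w e‖ ^ 2 / ‖z e‖ ^ 2)) := by linarith
      _ = _ := by ring

end dom2

end Pool.Agent.DBar74
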