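import Pool.Agent.DBar74.Dom2

open MeasureTheory Filter Topology Complex
open scoped ENNReal ContDiff ComplexConjugate

namespace Pool.Agent.DBar74

variable {n : ℕ}

section dom3

variable {i0 e i2 : Fin n} {z w : Fin n → ℂ}

/-- the gradient does not vanish on the boundary -/
lemma rD_grad (hne : i0 ≠ e) (hz : rD i0 e z = 0) : fderiv ℝ (rD i0 e) z ≠ 0 := by
  obtain ⟨_, h2, _, _⟩ := rD_region hne hz.le
  have hS := two_le_nsq hne z
  suffices h : 0 < fderiv ℝ (rD i0 e) z z by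
    intro h0
    rw [h0] at h
    simp at h
  have hre : ∀ j, (conj (z j) * z j).re = ‖z j‖ ^ 2 := by
    intro j
    rw [mul_comm, Complex.mul_conj, Complex.ofReal_re, Complex.normSq_eq_norm_sq]
  have hsum : (∑ j, conj (z j) * z j).re = nsq z := by
    rw [Complex.re_sum]
    exact Finset.sum_congr rfl fun j _ => hre j
  rw [rD_fderiv, hsum, hre, hre, th1_of_nonpos (by linarith : ‖z e‖ ^ 2 - 1 / 4 ≤ 0)]
  have hX : 0 ≤ (2 / th 1) * (th1 (‖z i0‖ ^ 2 - 1) * (2 * ‖z i0‖ ^ 2)) := by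
    have := c1_pos
    have := th1_nonneg (‖z i0‖ ^ 2 - 1)
    positivity
  by_cases h0 : z e = 0
  · rw [P0_fderiv_zero h0]
    have hz' : (nsq z - ‖z i0‖ ^ 2 - ‖z e‖ ^ 2) + (2 / th 1) * th (‖z i0‖ ^ 2 - 1) = 1 := by
      have h3 : rD i0 e z = 0 := hz
      unfold rD at h3
      rw [P0_of_eq h0, th_of_nonpos (by linarith : ‖z e‖ ^ 2 - 1 / 4 ≤ 0)] at h3
      linarith
    simp only [zero_apply, zero_mul, mul_zero, add_zero]
    by_cases hS' : 0 < nsq z - ‖z i0‖ ^ 2 - ‖z e‖ ^ 2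
    · linarith
    · have h4 : 1 ≤ (2 / th 1) * th (‖z i0‖ ^ 2 - 1) := by linarith
      have h5 : 0 < th (‖z i0‖ ^ 2 - 1) := by
        by_contra hc
        have : th (‖z i0‖ ^ 2 - 1) = 0 := le_antisymm (not_lt.1 hc) (th_nonneg _)
        rw [this] at h4
        linarith
      have h6 : 0 < ‖z i0‖ ^ 2 - 1 := by
        by_contra hc
        rw [th_of_nonpos (not_lt.1 hc)] at h5
        exact lt_irrefl _ h5
      have h7 := th1_ge (‖z i0‖ ^ 2 - 1)
      have h8 : 0 < th1 (‖z i0‖ ^ 2 - 1) := by linarith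
      have h9 : 0 < (2 / th 1) * (th1 (‖z i0‖ ^ 2 - 1) * (2 * ‖z i0‖ ^ 2)) := by
        have := c1_pos
        have : 0 < 2 * ‖z i0‖ ^ 2 := by linarith
        positivity
      linarith
  · obtain ⟨hl1, hl2⟩ := rD_log hne hz.le h0
    have hP : 0 < P0 i0 e z := by rw [P0_of_ne h0]; exact Real.exp_pos _
    have hpos : 0 < ‖z e‖ ^ 2 := by positivity
    have hPd : 0 < fderiv ℝ (P0 i0 e) z z := by
      rw [P0_fderiv h0, hre, hre]
      have h3 : (‖z e‖ ^ 2)⁻¹ * (2 * ‖z e‖ ^ 2) = 2 := by field_simp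
      rw [h3]
      have h4 : 0 < Real.exp (-‖z i0‖ ^ 2) := Real.exp_pos _
      have h5 : 0 ≤ lgc e z ^ 2 * (2 * ‖z i0‖ ^ 2) := by positivity
      have h6 : 0 < lgc e z ^ 2 * (2 * ‖z i0‖ ^ 2) - 2 * lgc e z * 2 := by linarith
      positivity
    simp only [zero_mul, mul_zero, add_zero]
    linarith

lemma rD_zero : rD i0 e (0 : Fin n → ℂ) < 0 := by
  unfold rD
  have h1 : P0 i0 e (0 : Fin n → ℂ) = 0 := P0_of_eq rfl
  have h2 : nsq (0 : Fin n → ℂ) = 0 := by unfold nsq; simp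
  have h3 : th (‖(0 : Fin n → ℂ) i0‖ ^ 2 - 1) = 0 := th_of_nonpos (by simp)
  have h4 : th (‖(0 : Fin n → ℂ) e‖ ^ 2 - 1 / 4) = 0 := th_of_nonpos (by simp)
  rw [h1, h2, h3, h4]
  simp

lemma nsq_smul (s : ℝ) (z : Fin n → ℂ) : nsq (s • z) = s ^ 2 * nsq z := by
  unfold nsq
  rw [Finset.mul_sum]
  refine Finset.sum_congr rfl fun j _ => ?_
  rw [Pi.smul_apply, norm_smul, mul_pow, Real.norm_eq_abs, sq_abs]

lemma Om_starConvex (hne : i0 ≠ e) : StarConvex ℝ 0 (Om (rD i0 e : (Fin n → ℂ) → ℝ)) := by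
  rw [starConvex_zero_iff]
  intro z hz s hs0 hs1
  have hz' : rD i0 e z < 0 := hz
  change rD i0 e (s • z) < 0
  obtain ⟨_, h2, _, _⟩ := rD_region hne hz'.le
  refine lt_of_le_of_lt ?_ hz'
  have hs2 : s ^ 2 ≤ 1 := by nlinarith
  have hn : ∀ j, ‖(s • z) j‖ ≤ ‖z j‖ := by
    intro j
    rw [Pi.smul_apply, norm_smul, Real.norm_eq_abs, abs_of_nonneg hs0]
    have := norm_nonneg (z j)
    nlinarith
  have hsq : ∀ j, ‖(s • z) j‖ ^ 2 = s ^ 2 * ‖z j‖ ^ 2 := by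
    intro j
    rw [Pi.smul_apply, norm_smul, mul_pow, Real.norm_eq_abs, sq_abs]
  have hle : ∀ j, ‖(s • z) j‖ ^ 2 ≤ ‖z j‖ ^ 2 := fun j => pow_le_pow_left₀ (norm_nonneg _) (hn j) 2
  have hS := two_le_nsq hne z
  have hP : P0 i0 e (s • z) ≤ P0 i0 e z := P0_mono (hn e) (hn i0) (by linarith)
  have t1 : th (‖(s • z) i0‖ ^ 2 - 1) ≤ th (‖z i0‖ ^ 2 - 1) := th_mono (by linarith [hle i0])
  have t2 : th (‖(s • z) e‖ ^ 2 - 1 / 4) ≤ th (‖z e‖ ^ 2 - 1 / 4) := th_mono (by linarith [hle e])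
  have t1' := mul_le_mul_of_nonneg_left t1 c1_pos.le
  have t2' := mul_le_mul_of_nonneg_left t2 c2_pos.le
  have hS' : nsq (s • z) - ‖(s • z) i0‖ ^ 2 - ‖(s • z) e‖ ^ 2
      ≤ nsq z - ‖z i0‖ ^ 2 - ‖z e‖ ^ 2 := by
    rw [nsq_smul, hsq, hsq]
    nlinarith
  unfold rD
  linarith

lemma Om_isConnected (hne : i0 ≠ e) : IsConnected (Om (rD i0 e : (Fin n → ℂ) → ℝ)) :=
  ((Om_starConvex hne).isPathConnected (rD_zero (i0 := i0) (e := e))).isConnected

lemma Om_isBounded (hne : i0 ≠ e) : Bornology.IsBounded (Om (rD i0 e : (Fin n → ℂ) → ℝ)) := by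
  refine (Metric.isBounded_closedBall (x := (0 : Fin n → ℂ)) (r := 2)).subset fun z hz => ?_
  rw [mem_closedBall_zero_iff]
  exact norm_le_of_nsq ((rD_good hne).bdd z hz)

/-- the disc -/
noncomputable def disc (i0 i2 : Fin n) (s : ℝ) (ζ : ℂ) : Fin n → ℂ :=
  Pi.single i0 ζ + Pi.single i2 ((s : ℝ) : ℂ)

lemma disc_val (hne : i0 ≠ e) (h02 : i0 ≠ i2) (he2 : e ≠ i2) {ζ : ℂ} (hζ : ‖ζ‖ ≤ 1) (s : ℝ) :
    rD i0 e (disc i0 i2 s ζ) = s ^ 2 - 1 := by
  have d0 : disc i0 i2 s ζ i0 = ζ := by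
    unfold disc
    rw [Pi.add_apply, Pi.single_eq_same, Pi.single_eq_of_ne h02, add_zero]
  have de : disc i0 i2 s ζ e = 0 := by
    unfold disc
    rw [Pi.add_apply, Pi.single_eq_of_ne hne.symm, Pi.single_eq_of_ne he2, add_zero]
  have d2 : disc i0 i2 s ζ i2 = (s : ℂ) := by
    unfold disc
    rw [Pi.add_apply, Pi.single_eq_same, Pi.single_eq_of_ne h02.symm, zero_add]
  have hn : nsq (disc i0 i2 s ζ) = ‖ζ‖ ^ 2 + s ^ 2 := by
    unfold nsq
    rw [← Finset.sum_subset (Finset.subset_univ {i0, i2})]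
    · rw [Finset.sum_pair h02, d0, d2, Complex.norm_real, Real.norm_eq_abs, sq_abs]
    · intro j _ hj
      rw [Finset.mem_insert, Finset.mem_singleton, not_or] at hj
      unfold disc
      rw [Pi.add_apply, Pi.single_eq_of_ne hj.1, Pi.single_eq_of_ne hj.2]
      simp
  unfold rD
  have h3 : th (‖ζ‖ ^ 2 - 1) = 0 := th_of_nonpos (by nlinarith [norm_nonneg ζ])
  have h4 : th (‖(0:ℂ)‖ ^ 2 - 1 / 4) = 0 := th_of_nonpos (by simp)
  rw [P0_of_eq de, hn, d0, de, h3, h4]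
  simp

lemma disc_frontier (hne : i0 ≠ e) (h02 : i0 ≠ i2) (he2 : e ≠ i2) {ζ : ℂ} (hζ : ‖ζ‖ ≤ 1) :
    disc i0 i2 1 ζ ∈ frontier (Om (rD i0 e : (Fin n → ℂ) → ℝ)) := by
  have hopen := (rD_good (n := n) hne).isOpen
  rw [hopen.frontier_eq]
  constructor
  · have hc : Continuous (fun s : ℝ => disc i0 i2 s ζ) := by
      unfold disc
      exact continuous_const.add
        ((continuous_single (A := fun _ : Fin n => ℂ) i2).comp Complex.continuous_ofReal)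
    have hlim : Tendsto (fun s : ℝ => disc i0 i2 s ζ) (𝓝[<] 1) (𝓝 (disc i0 i2 1 ζ)) :=
      (hc.tendsto 1).mono_left nhdsWithin_le_nhds
    refine mem_closure_of_tendsto hlim ?_
    have h1 : ∀ᶠ s : ℝ in 𝓝[<] 1, s < 1 := self_mem_nhdsWithin
    have h2 : ∀ᶠ s : ℝ in 𝓝[<] 1, (0:ℝ) < s :=
      Filter.Eventually.filter_mono nhdsWithin_le_nhds (lt_mem_nhds one_pos)
    filter_upwards [h1, h2] with s hs1 hs2
    change rD i0 e (disc i0 i2 s ζ) < 0
    rw [disc_val hne h02 he2 hζ]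
    nlinarith
  · intro h
    have h' : rD i0 e (disc i0 i2 1 ζ) < 0 := h
    rw [disc_val hne h02 he2 hζ] at h'
    norm_num at h'

lemma disc_differentiable (i0 i2 : Fin n) : Differentiable ℂ (disc i0 i2 1) := by
  unfold disc
  refine Differentiable.add_const _ ?_
  exact (ContinuousLinearMap.single ℂ (fun _ : Fin n => ℂ) i0).differentiable

lemma frontier_zero (hz : z ∈ frontier (Om (rD i0 e : (Fin n → ℂ) → ℝ))) :
    rD i0 e z = 0 :=
  frontier_lt_subset_eq (rD_contDiff i0 e).continuous continuous_const hz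

end dom3

end Pool.Agent.DBar74
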