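import Mathlib

open Filter Topology Polynomial
open scoped ContDiff

namespace Pool.Agent.DBar74

section weights

/-- the basic convex function, vanishing on the negative axis -/
noncomputable def th (x : ℝ) : ℝ := expNegInvGlue x * Real.exp (2 * x)

/-- its derivative -/
noncomputable def th1 (x : ℝ) : ℝ := (2 + x⁻¹ ^ 2) * (expNegInvGlue x * Real.exp (2 * x))

/-- its second derivative -/
noncomputable def th2 (x : ℝ) : ℝ :=
  ((2 + x⁻¹ ^ 2) ^ 2 - 2 * x⁻¹ ^ 3) * (expNegInvGlue x * Real.exp (2 * x))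

lemma th_contDiff : ContDiff ℝ ∞ th := by
  unfold th
  exact expNegInvGlue.contDiff.mul (Real.contDiff_exp.comp (contDiff_const.mul contDiff_id))

lemma hasDerivAt_glue (x : ℝ) : HasDerivAt expNegInvGlue (x⁻¹ ^ 2 * expNegInvGlue x) x := by
  have h := expNegInvGlue.hasDerivAt_polynomial_eval_inv_mul (1 : ℝ[X]) x
  simpa using h

lemma hasDerivAt_glue2 (x : ℝ) : HasDerivAt (fun x => x⁻¹ ^ 2 * expNegInvGlue x)
    ((x⁻¹ ^ 4 - 2 * x⁻¹ ^ 3) * expNegInvGlue x) x := by
  have h := expNegInvGlue.hasDerivAt_polynomial_eval_inv_mul ((X : ℝ[X]) ^ 2) x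
  simp only [eval_pow, eval_X, eval_mul, eval_sub, derivative_X_pow, Nat.cast_ofNat, eval_C,
    Nat.add_one_sub_one, pow_one] at h
  convert h using 1
  ring

lemma hasDerivAt_exp2 (x : ℝ) : HasDerivAt (fun x => Real.exp (2 * x)) (2 * Real.exp (2 * x)) x := by
  have h := ((hasDerivAt_id x).const_mul 2).exp
  simp only [id, mul_one] at h
  convert h using 1
  ring

lemma th_hasDerivAt (x : ℝ) : HasDerivAt th (th1 x) x := by
  have h := (hasDerivAt_glue x).mul (hasDerivAt_exp2 x)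
  exact h.congr_deriv (by unfold th1; ring)

lemma th1_hasDerivAt (x : ℝ) : HasDerivAt th1 (th2 x) x := by
  have h1 := ((hasDerivAt_glue x).mul (hasDerivAt_exp2 x)).const_mul 2
  have h2 := (hasDerivAt_glue2 x).mul (hasDerivAt_exp2 x)
  have h := (h1.add h2).congr_deriv (g' := th2 x) (by unfold th2; ring)
  refine h.congr_of_eventuallyEq (Eventually.of_forall fun y => ?_)
  simp only [th1, Pi.add_apply, Pi.mul_apply]; ring

lemma th_nonneg (x : ℝ) : 0 ≤ th x := mul_nonneg (expNegInvGlue.nonneg x) (Real.exp_pos _).le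

lemma th_of_nonpos {x : ℝ} (h : x ≤ 0) : th x = 0 := by
  unfold th; rw [expNegInvGlue.zero_of_nonpos h, zero_mul]

lemma th1_ge (x : ℝ) : 2 * th x ≤ th1 x := by
  have h := th_nonneg x
  unfold th1
  have h2 : 0 ≤ x⁻¹ ^ 2 := by positivity
  unfold th at *
  nlinarith

lemma th1_nonneg (x : ℝ) : 0 ≤ th1 x := by
  have := th_nonneg x
  have := th1_ge x
  linarith

lemma th2_nonneg (x : ℝ) : 0 ≤ th2 x := by
  unfold th2
  refine mul_nonneg ?_ (th_nonneg x)
  set y := x⁻¹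
  nlinarith [mul_nonneg (sq_nonneg y) (sq_nonneg (y - 2)), sq_nonneg (2 + y ^ 2)]

lemma th1_sq_le (x : ℝ) : th1 x ^ 2 ≤ 2 * th x * th2 x := by
  have h := th_nonneg x
  have e1 : th1 x = (2 + x⁻¹ ^ 2) * th x := rfl
  have e2 : th2 x = ((2 + x⁻¹ ^ 2) ^ 2 - 2 * x⁻¹ ^ 3) * th x := rfl
  rw [e1, e2]
  set y := x⁻¹
  have h1 : (2 + y ^ 2) ^ 2 ≤ 2 * ((2 + y ^ 2) ^ 2 - 2 * y ^ 3) := by
    nlinarith [mul_nonneg (sq_nonneg y) (sq_nonneg (y - 2))]
  have h2 : 0 ≤ th x ^ 2 := by positivity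
  nlinarith

lemma th_mono : Monotone th := by
  apply monotone_of_deriv_nonneg
  · exact fun x => (th_hasDerivAt x).differentiableAt
  · intro x; rw [(th_hasDerivAt x).deriv]; exact th1_nonneg x

lemma th_ge {x : ℝ} (h : 1 ≤ x) : Real.exp (-1) * Real.exp (2 * x) ≤ th x := by
  unfold th
  refine mul_le_mul_of_nonneg_right ?_ (Real.exp_pos _).le
  have h0 : 0 < x := by linarith
  have : expNegInvGlue x = Real.exp (-x⁻¹) := by
    unfold expNegInvGlue; rw [if_neg (not_le.2 h0)]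
  rw [this, Real.exp_le_exp]
  have : x⁻¹ ≤ 1 := inv_le_one_of_one_le₀ h
  linarith

end weights

end Pool.Agent.DBar74
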