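import Pool.Agent.DBar74.Basic2
import Pool.Agent.DBar74.Weights
import Pool.Agent.DBar74.Cutoff

open MeasureTheory Filter Topology Complex
open scoped ENNReal ContDiff ComplexConjugate

namespace Pool.Agent.DBar74

variable {n : ℕ}

/-- the squared euclidean length -/
noncomputable def nsq (z : Fin n → ℂ) : ℝ := ∑ j, ‖z j‖ ^ 2

lemma nsq_nonneg (z : Fin n → ℂ) : 0 ≤ nsq z := Finset.sum_nonneg fun _ _ => by positivity

/-- real part of a coordinate -/
noncomputable def reL (j : Fin n) : (Fin n → ℂ) →L[ℝ] ℝ :=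
  Complex.reCLM ∘L (ContinuousLinearMap.proj (R := ℝ) (φ := fun _ : Fin n => ℂ) j)

/-- imaginary part of a coordinate -/
noncomputable def imL (j : Fin n) : (Fin n → ℂ) →L[ℝ] ℝ :=
  Complex.imCLM ∘L (ContinuousLinearMap.proj (R := ℝ) (φ := fun _ : Fin n => ℂ) j)

@[simp] lemma reL_apply (j : Fin n) (z : Fin n → ℂ) : reL j z = (z j).re := rfl
@[simp] lemma imL_apply (j : Fin n) (z : Fin n → ℂ) : imL j z = (z j).im := rfl

lemma norm_sq_eq_re_im (c : ℂ) : ‖c‖ ^ 2 = c.re * c.re + c.im * c.im := by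
  rw [← Complex.normSq_eq_norm_sq, Complex.normSq_apply]

lemma Lev_clm (T : (Fin n → ℂ) →L[ℝ] ℝ) (x w : Fin n → ℂ) : Lev (fun y => T y) x w = 0 := by
  unfold Lev
  have : fderiv ℝ (fun y => T y) = fun _ => T := by ext y : 1; exact T.fderiv
  rw [this]; simp

lemma contDiff_coordsq (j : Fin n) : ContDiff ℝ ∞ (fun z : Fin n → ℂ => ‖z j‖ ^ 2) := by
  have : (fun z : Fin n → ℂ => ‖z j‖ ^ 2) = fun z => reL j z * reL j z + imL j z * imL j z := by
    ext z; exact norm_sq_eq_re_im _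
  rw [this]
  exact ((reL j).contDiff.mul (reL j).contDiff).add ((imL j).contDiff.mul (imL j).contDiff)

lemma Lev_coordsq (j : Fin n) (x w : Fin n → ℂ) :
    Lev (fun z : Fin n → ℂ => ‖z j‖ ^ 2) x w = 4 * ‖w j‖ ^ 2 := by
  have : (fun z : Fin n → ℂ => ‖z j‖ ^ 2) = fun z => reL j z * reL j z + imL j z * imL j z := by
    ext z; exact norm_sq_eq_re_im _
  rw [this]
  have h1 : ContDiffAt ℝ 2 (fun z => reL j z) x := (reL j).contDiff.contDiffAt
  have h2 : ContDiffAt ℝ 2 (fun z => imL j z) x := (imL j).contDiff.contDiffAt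
  rw [Lev_add (h1.mul h1) (h2.mul h2), Lev_mul h1 h1, Lev_mul h2 h2, Lev_clm, Lev_clm]
  have e1 : fderiv ℝ (fun z => reL j z) x = reL j := (reL j).fderiv
  have e2 : fderiv ℝ (fun z => imL j z) x = imL j := (imL j).fderiv
  unfold Gam2
  rw [e1, e2, norm_sq_eq_re_im]
  simp
  ring

lemma Lev_sum {ι : Type*} (s : Finset ι) {k : ι → (Fin n → ℂ) → ℝ} {x : Fin n → ℂ}
    (hk : ∀ i, ContDiffAt ℝ 2 (k i) x) (w : Fin n → ℂ) :
    Lev (fun z => ∑ i ∈ s, k i z) x w = ∑ i ∈ s, Lev (k i) x w := by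
  classical
  induction s using Finset.induction_on with
  | empty => simp [Lev_const]
  | insert a s ha ih =>
    simp only [Finset.sum_insert ha]
    rw [Lev_add (hk a) (ContDiffAt.sum fun i _ => hk i), ih]

lemma contDiff_nsq : ContDiff ℝ ∞ (nsq (n := n)) := by
  unfold nsq
  exact ContDiff.sum fun j _ => contDiff_coordsq j

lemma Lev_nsq (x w : Fin n → ℂ) : Lev nsq x w = 4 * nsq w := by
  have : (nsq : (Fin n → ℂ) → ℝ) = fun z => ∑ j, ‖z j‖ ^ 2 := rfl
  rw [this, Lev_sum _ fun j => (contDiff_coordsq j).contDiffAt.of_le two_le_infty]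
  simp_rw [Lev_coordsq]
  rw [← Finset.mul_sum]

lemma fderiv_coordsq (j : Fin n) (x v : Fin n → ℂ) :
    fderiv ℝ (fun z : Fin n → ℂ => ‖z j‖ ^ 2) x v = 2 * (conj (x j) * v j).re := by
  have : (fun z : Fin n → ℂ => ‖z j‖ ^ 2) = fun z => reL j z * reL j z + imL j z * imL j z := by
    ext z; exact norm_sq_eq_re_im _
  rw [this]
  have h1 := ((reL j).hasFDerivAt (x := x)).mul ((reL j).hasFDerivAt (x := x))
  have h2 := ((imL j).hasFDerivAt (x := x)).mul ((imL j).hasFDerivAt (x := x))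
  rw [HasFDerivAt.fderiv (by exact h1.add h2)]
  simp
  ring

lemma fderiv_nsq (x v : Fin n → ℂ) : fderiv ℝ nsq x v = 2 * (∑ j, conj (x j) * v j).re := by
  have : (nsq : (Fin n → ℂ) → ℝ) = fun z => ∑ j, ‖z j‖ ^ 2 := rfl
  rw [this, fderiv_fun_sum fun j _ => ((contDiff_coordsq j).differentiable (by simp)) x]
  simp only [sum_apply, fderiv_coordsq, Complex.re_sum, Finset.mul_sum]

lemma Gam_nsq_le (x w : Fin n → ℂ) : Gam nsq x w ≤ 4 * nsq x * nsq w := by
  unfold Gam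
  rw [fderiv_nsq, fderiv_nsq]
  set S := ∑ j, conj (x j) * w j with hS
  have e1 : ∑ j, conj (x j) * (I • w) j = I * S := by
    rw [hS, Finset.mul_sum]; exact Finset.sum_congr rfl fun j _ => by simp; ring
  rw [e1]
  have e2 : (2 * S.re) ^ 2 + (2 * (I * S).re) ^ 2 = 4 * ‖S‖ ^ 2 := by
    rw [norm_sq_eq_re_im]; simp; ring
  rw [e2]
  have h1 : ‖S‖ ≤ ∑ j, ‖x j‖ * ‖w j‖ := by
    refine (norm_sum_le _ _).trans (Finset.sum_le_sum fun j _ => ?_)
    rw [norm_mul, RCLike.norm_conj]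
  have h2 : (∑ j, ‖x j‖ * ‖w j‖) ^ 2 ≤ nsq x * nsq w := Finset.sum_mul_sq_le_sq_mul_sq _ _ _
  have h3 : ‖S‖ ^ 2 ≤ (∑ j, ‖x j‖ * ‖w j‖) ^ 2 := pow_le_pow_left₀ (norm_nonneg _) h1 2
  nlinarith

/-- The properties of the defining function used in the analysis. -/
structure GoodDef (r : (Fin n → ℂ) → ℝ) (e : Fin n) : Prop where
  smooth : ContDiff ℝ ∞ r
  ge_neg_one : ∀ z, -1 ≤ r z
  bdd : ∀ z, r z < 0 → nsq z ≤ 4
  psh : ∀ z, r z < 0 → ∀ w, 0 ≤ Lev r z w
  rad : ∀ z c, ‖c‖ = ‖z e‖ → r (Function.update z e c) = r z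
  mono : ∀ z c, r z < 0 → ‖z e‖ ≤ ‖c‖ → r z ≤ r (Function.update z e c)
  near : ∀ M : ℝ, 0 < M → ∃ η > 0, ∀ z, r z < 0 → ‖z e‖ < η → ∀ w,
    M * fderiv ℝ r z (Pi.single e (z e)) * nsq w ≤ Lev r z w
  away : ∀ η > 0, ∃ c > 0, ∀ z, r z < 0 → η ≤ ‖z e‖ → ∀ w, c * nsq w ≤ Lev r z w

/-- the domain -/
def Om (r : (Fin n → ℂ) → ℝ) : Set (Fin n → ℂ) := {z | r z < 0}

/-- the exhaustion function -/
noncomputable def sF (r : (Fin n → ℂ) → ℝ) (z : Fin n → ℂ) : ℝ := -Real.log (-r z) + nsq z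

section dom

variable {r : (Fin n → ℂ) → ℝ} {e : Fin n}

lemma GoodDef.isOpen (h : GoodDef r e) : IsOpen (Om r) :=
  isOpen_lt h.smooth.continuous continuous_const

lemma GoodDef.sF_smooth (h : GoodDef r e) : ContDiffOn ℝ ∞ (sF r) (Om r) := by
  intro z hz
  have h0 : -r z ≠ 0 := by have : r z < 0 := hz; linarith
  have h1 : ContDiffAt ℝ ∞ (fun z => Real.log (-r z)) z := (h.smooth.neg.contDiffAt).log h0
  exact (h1.neg.add contDiff_nsq.contDiffAt).contDiffWithinAt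

lemma GoodDef.sF_nonneg (h : GoodDef r e) {z : Fin n → ℂ} (hz : z ∈ Om r) : 0 ≤ sF r z := by
  have h0 : r z < 0 := hz
  have h1 : Real.log (-r z) ≤ 0 := Real.log_nonpos (by linarith) (by linarith [h.ge_neg_one z])
  have := nsq_nonneg z
  unfold sF; linarith

lemma GoodDef.exp_sF (_h : GoodDef r e) {z : Fin n → ℂ} (hz : z ∈ Om r) :
    1 / (-r z) ≤ Real.exp (sF r z) := by
  have h0 : 0 < -r z := by have : r z < 0 := hz; linarith
  have h1 : Real.exp (-Real.log (-r z)) = 1 / (-r z) := by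
    rw [Real.exp_neg, Real.exp_log h0, one_div]
  rw [← h1, Real.exp_le_exp]
  unfold sF; linarith [nsq_nonneg z]

lemma norm_le_of_nsq {z : Fin n → ℂ} (hz : nsq z ≤ 4) : ‖z‖ ≤ 2 := by
  rw [pi_norm_le_iff_of_nonneg (by norm_num)]
  intro j
  have h1 : ‖z j‖ ^ 2 ≤ nsq z :=
    Finset.single_le_sum (f := fun j => ‖z j‖ ^ 2) (fun _ _ => by positivity) (Finset.mem_univ j)
  nlinarith [norm_nonneg (z j)]

lemma GoodDef.isCompact_sub (h : GoodDef r e) {ε : ℝ} (hε : 0 < ε) :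
    IsCompact {z | r z ≤ -ε} := by
  refine Metric.isCompact_of_isClosed_isBounded (isClosed_le h.smooth.continuous continuous_const) ?_
  refine (Metric.isBounded_closedBall (x := (0 : Fin n → ℂ)) (r := 2)).subset fun z hz => ?_
  rw [mem_closedBall_zero_iff]
  have hz' : r z ≤ -ε := hz
  exact norm_le_of_nsq (h.bdd z (by linarith))

lemma GoodDef.sublevel (_h : GoodDef r e) {c : ℝ} {z : Fin n → ℂ} (hz : z ∈ Om r)
    (hc : sF r z ≤ c) : r z ≤ -Real.exp (-c) := by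
  have h0 : 0 < -r z := by have : r z < 0 := hz; linarith
  have h1 : -c ≤ Real.log (-r z) := by
    have := nsq_nonneg z
    unfold sF at hc; linarith
  have h2 := Real.exp_le_exp.2 h1
  rw [Real.exp_log h0] at h2
  linarith

lemma GoodDef.Lev_sF (h : GoodDef r e) {z : Fin n → ℂ} (hz : z ∈ Om r) (w : Fin n → ℂ) :
    Lev (sF r) z w = Gam r z w / (r z) ^ 2 + Lev r z w / (-r z) + 4 * nsq w := by
  have h0 : r z < 0 := hz
  have hr2 : ContDiffAt ℝ 2 r z := h.smooth.contDiffAt.of_le two_le_infty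
  have hh : ∀ᶠ t in 𝓝 (r z), HasDerivAt (fun t : ℝ => -Real.log (-t)) ((-t)⁻¹) t := by
    filter_upwards [isOpen_Iio.mem_nhds h0] with t ht
    have ht' : -t ≠ 0 := by have : t < 0 := ht; linarith
    have := ((hasDerivAt_id t).neg.log ht').neg
    refine this.congr_deriv ?_
    simp [div_eq_mul_inv]
  have hh1 : HasDerivAt (fun t : ℝ => (-t)⁻¹) (((r z) ^ 2)⁻¹) (r z) := by
    have h2 : -(r z) ≠ 0 := by linarith
    have := (hasDerivAt_id (r z)).neg.inv h2
    refine this.congr_deriv ?_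
    simp [div_eq_mul_inv]
  have hcomp := Lev_comp hr2 hh hh1 w
  have hca : ContDiffAt ℝ 2 (fun y => -Real.log (-r y)) z := by
    have h2 : -(r z) ≠ 0 := by linarith
    exact ((hr2.neg).log h2).neg
  have hsum := Lev_add hca (contDiff_nsq.contDiffAt.of_le two_le_infty) (x := z) w
  have hs : sF r = fun y => -Real.log (-r y) + nsq y := rfl
  rw [hs, hsum, hcomp, Lev_nsq]
  rw [div_eq_mul_inv, div_eq_mul_inv]
  ring

lemma GoodDef.Lev_sF_ge (h : GoodDef r e) {z : Fin n → ℂ} (hz : z ∈ Om r) (w : Fin n → ℂ) :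
    Lev r z w / (-r z) + 4 * nsq w ≤ Lev (sF r) z w := by
  rw [h.Lev_sF hz]
  have := div_nonneg (Gam_nonneg r z w) (sq_nonneg (r z))
  linarith

lemma GoodDef.Lev_sF_nonneg (h : GoodDef r e) {z : Fin n → ℂ} (hz : z ∈ Om r) (w : Fin n → ℂ) :
    0 ≤ Lev (sF r) z w := by
  have h0 : r z < 0 := hz
  have h1 := h.Lev_sF_ge hz w
  have h2 := div_nonneg (h.psh z hz w) (by linarith : 0 ≤ -r z)
  have := nsq_nonneg w
  linarith

lemma GoodDef.grad_bound (h : GoodDef r e) : ∃ C > 0, ∀ z ∈ Om r, ∀ j,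
    ‖dz j (cx (sF r)) z‖ ^ 2 ≤ C * Real.exp (2 * sF r z) := by
  obtain ⟨D, hD⟩ : ∃ D, ∀ z ∈ Metric.closedBall (0 : Fin n → ℂ) 2, ∀ j, ‖dz j (cx r) z‖ ≤ D := by
    have hcont : Continuous (fun z => ∑ j, ‖dz j (cx r) z‖) :=
      continuous_finsetSum _ fun j _ => (contDiff_dz (contDiff_ofReal_comp h.smooth) j).continuous.norm
    obtain ⟨D, hD⟩ := (isCompact_closedBall (0 : Fin n → ℂ) 2).bddAbove_image hcont.continuousOn
    refine ⟨D, fun z hz j => ?_⟩
    have h1 := hD ⟨z, hz, rfl⟩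
    refine le_trans ?_ h1
    exact Finset.single_le_sum (f := fun j => ‖dz j (cx r) z‖) (fun _ _ => norm_nonneg _)
      (Finset.mem_univ j)
  refine ⟨2 * D ^ 2 + 8, by positivity, fun z hz j => ?_⟩
  have h0 : r z < 0 := hz
  have hzb : ‖z‖ ≤ 2 := norm_le_of_nsq (h.bdd z h0)
  have hDz := hD z (by rwa [mem_closedBall_zero_iff]) j
  have hrd : DifferentiableAt ℝ r z := (h.smooth.differentiable (by simp)) z
  have hlog : HasDerivAt (fun t : ℝ => -Real.log (-t)) ((-(r z))⁻¹) (r z) := by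
    have ht' : -(r z) ≠ 0 := by linarith
    have := ((hasDerivAt_id (r z)).neg.log ht').neg
    refine this.congr_deriv ?_
    simp [div_eq_mul_inv]
  have e1 : dz j (cx (sF r)) z = (((-(r z))⁻¹ : ℝ) : ℂ) * dz j (cx r) z + conj (z j) := by
    have hs : cx (sF r) = fun y => ((-Real.log (-r y) : ℝ) : ℂ) + cx nsq y := by
      ext y; simp [cx, sF]
    have hlogd : DifferentiableAt ℝ (fun y => ((-Real.log (-r y) : ℝ) : ℂ)) z := by
      have : DifferentiableAt ℝ (fun y => -Real.log (-r y)) z :=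
        (hlog.comp_hasFDerivAt z hrd.hasFDerivAt).differentiableAt
      exact Complex.ofRealCLM.differentiableAt.comp z this
    rw [hs, dz_add hlogd (differentiable_of_smooth (contDiff_ofReal_comp contDiff_nsq) z)]
    have h2 := dz_comp_real (j := j) hrd hlog
    rw [h2]
    congr 1
    unfold dz
    rw [fderiv_cx ((contDiff_nsq.differentiable (by simp)) z),
      fderiv_cx ((contDiff_nsq.differentiable (by simp)) z), fderiv_nsq, fderiv_nsq]
    rw [Finset.sum_eq_single j, Finset.sum_eq_single j]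
    · simp only [Pi.single_eq_same]
      apply Complex.ext <;> simp
    · intro b _ hb; rw [Pi.single_eq_of_ne hb]; simp
    · simp
    · intro b _ hb; rw [Pi.single_eq_of_ne hb]; simp
    · simp
  have hinv : 0 < (-(r z))⁻¹ := inv_pos.2 (by linarith)
  have hexp : (-(r z))⁻¹ ≤ Real.exp (sF r z) := by rw [← one_div]; exact h.exp_sF hz
  have hexp1 : 1 ≤ Real.exp (sF r z) := Real.one_le_exp (h.sF_nonneg hz)
  have hn : ‖dz j (cx (sF r)) z‖ ≤ (-(r z))⁻¹ * D + 2 := by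
    rw [e1]
    refine (norm_add_le _ _).trans (add_le_add ?_ ?_)
    · rw [norm_mul, Complex.norm_real, Real.norm_eq_abs, abs_of_pos hinv]
      exact mul_le_mul_of_nonneg_left hDz hinv.le
    · rw [RCLike.norm_conj]; exact (norm_le_pi_norm z j).trans hzb
  have hD0 : 0 ≤ D := (norm_nonneg _).trans hDz
  have hE : Real.exp (2 * sF r z) = Real.exp (sF r z) ^ 2 := by
    rw [← Real.exp_nat_mul]; norm_num
  rw [hE]
  set E := Real.exp (sF r z)
  have h3 : ‖dz j (cx (sF r)) z‖ ≤ E * (D + 2) := by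
    refine hn.trans ?_
    have := mul_le_mul_of_nonneg_right hexp hD0
    nlinarith
  have h4 : ‖dz j (cx (sF r)) z‖ ^ 2 ≤ (E * (D + 2)) ^ 2 := pow_le_pow_left₀ (norm_nonneg _) h3 2
  refine h4.trans ?_
  have h5 : (D + 2) ^ 2 ≤ 2 * D ^ 2 + 8 := by nlinarith [sq_nonneg (D - 2)]
  have h6 : 0 ≤ E ^ 2 := by positivity
  nlinarith

end dom

end Pool.Agent.DBar74
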