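import Pool.Agent.DBar74.Density3

open MeasureTheory Filter Topology Complex
open scoped ENNReal ContDiff ComplexConjugate InnerProductSpace

namespace Pool.Agent.DBar74

variable {n : ℕ}

section fa

variable {Ω : Set (Fin n → ℂ)}

lemma WLim.clm {H : Type*} [NormedAddCommGroup H] [InnerProductSpace ℂ H] [CompleteSpace H]
    {U : Ultrafilter ℕ} {x : ℕ → H} {y : H} (h : WLim U x y) (l : H →L[ℂ] ℂ) :
    Tendsto (fun n => l (x n)) U (𝓝 (l y)) := by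
  have hr : ∀ z, l z = conj ⟪z, (InnerProductSpace.toDual ℂ H).symm l⟫_ℂ := fun z => by
    rw [inner_conj_symm, InnerProductSpace.toDual_symm_apply]
  simp_rw [hr]
  exact (Complex.continuous_conj.tendsto _).comp (h _)

/-- the constant conjugating factor -/
def one (_ : Fin n → ℂ) : ℝ := 1

lemma isFac_one : IsFac Ω (one (n := n)) := ⟨contDiffOn_const, fun _ _ => one_pos⟩

lemma memLp_mul_fac {b : (Fin n → ℂ) → ℝ} (hΩ : IsOpen Ω) (hb : IsFac Ω b)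
    (hb1 : ∀ x ∈ Ω, b x ≤ 1) (v : L2 Ω) : MemLp (fun x => v x * (b x : ℂ)) 2 (volume.restrict Ω) := by
  have hc : ContinuousOn (fun x => (b x : ℂ)) Ω := (contDiffOn_cx hb.1).continuousOn
  refine MemLp.of_le (Lp.memLp v) ((Lp.memLp v).1.mul (hc.aestronglyMeasurable hΩ.measurableSet)) ?_
  refine (ae_restrict_iff' hΩ.measurableSet).2 (Eventually.of_forall fun x hx => ?_)
  rw [norm_mul, Complex.norm_real, Real.norm_eq_abs, abs_of_pos (hb.2 x hx)]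
  exact mul_le_of_le_one_right (norm_nonneg _) (hb1 x hx)

lemma tendsto_mul_fac {b : ℕ → (Fin n → ℂ) → ℝ} (hΩ : IsOpen Ω) (hb : ∀ k, IsFac Ω (b k))
    (hb1 : ∀ k, ∀ x ∈ Ω, b k x ≤ 1) (hlim : ∀ x ∈ Ω, ∀ᶠ k in atTop, b k x = 1) (v : L2 Ω) :
    Tendsto (fun k => tl Ω (fun x => v x * (b k x : ℂ))) atTop (𝓝 v) := by
  refine tendsto_tl_dom (fun k => memLp_mul_fac hΩ (hb k) (hb1 k) v) (norm_memLp v)
    hΩ.measurableSet ?_ ?_
  · intro k x hx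
    have : v x * (b k x : ℂ) - v x = - (v x * ((1 - b k x : ℝ) : ℂ)) := by push_cast; ring
    rw [this, norm_neg, norm_mul, Complex.norm_real, Real.norm_eq_abs,
      abs_of_nonneg (by linarith [hb1 k x hx])]
    exact mul_le_of_le_one_right (norm_nonneg _) (by linarith [(hb k).2 x hx])
  · intro x hx
    refine tendsto_const_nhds.congr' ?_
    filter_upwards [hlim x hx] with k hk
    rw [hk]; simp

/-- transfer of the true relation to the conjugated ones -/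
lemma TRel_transfer {b1 b2 : (Fin n → ℂ) → ℝ} (hΩ : IsOpen Ω) (h1 : IsFac Ω b1) (h2 : IsFac Ω b2)
    (h11 : ∀ x ∈ Ω, b1 x ≤ 1) (h21 : ∀ x ∈ Ω, b2 x ≤ 1) {p : L2 Ω × Form1 Ω}
    (hp : p ∈ TRel Ω one one) :
    (tl Ω (fun x => p.1 x * (b1 x : ℂ)),
      (WithLp.toLp 2 (fun j => tl Ω (fun x => p.2 j x * (b2 x : ℂ))) : Form1 Ω)) ∈ TRel Ω b1 b2 := by
  rw [mem_TRel] at hp ⊢
  intro χ hχ j
  have hj := hp χ hχ j
  rw [pr_apply (isFac_one.test_inv hΩ (hχ.dzb j)).memLpr,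
    pr_apply (isFac_one.test_inv hΩ hχ).memLpr] at hj
  simp only
  rw [pr_tl (memLp_mul_fac hΩ h1 h11 _) (h1.test_inv hΩ (hχ.dzb j)).memLpr,
    pr_tl (memLp_mul_fac hΩ h2 h21 _) (h2.test_inv hΩ hχ).memLpr]
  rw [← hj]
  congr 1
  · apply setIntegral_congr_fun hΩ.measurableSet
    intro x hx
    have := h1.ne_zero hx
    simp only [one]; field_simp; simp
  · apply setIntegral_congr_fun hΩ.measurableSet
    intro x hx
    have := h2.ne_zero hx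
    simp only [one]; field_simp; simp

lemma SRel_transfer {b2 b3 : (Fin n → ℂ) → ℝ} (hΩ : IsOpen Ω) (h2 : IsFac Ω b2) (h3 : IsFac Ω b3)
    (h21 : ∀ x ∈ Ω, b2 x ≤ 1) (h31 : ∀ x ∈ Ω, b3 x ≤ 1) {p : Form1 Ω × Form2 Ω}
    (hp : p ∈ SRel Ω one one) :
    ((WithLp.toLp 2 (fun j => tl Ω (fun x => p.1 j x * (b2 x : ℂ))) : Form1 Ω),
      (WithLp.toLp 2 (fun i => tl Ω (fun x => p.2 i x * (b3 x : ℂ))) : Form2 Ω)) ∈ SRel Ω b2 b3 := by
  rw [mem_SRel] at hp ⊢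
  intro χ hχ i
  have hj := hp χ hχ i
  rw [pr_apply (isFac_one.test_inv hΩ (hχ.dzb _)).memLpr,
    pr_apply (isFac_one.test_inv hΩ (hχ.dzb _)).memLpr,
    pr_apply (isFac_one.test_inv hΩ hχ).memLpr] at hj
  simp only
  rw [pr_tl (memLp_mul_fac hΩ h2 h21 _) (h2.test_inv hΩ (hχ.dzb _)).memLpr,
    pr_tl (memLp_mul_fac hΩ h2 h21 _) (h2.test_inv hΩ (hχ.dzb _)).memLpr,
    pr_tl (memLp_mul_fac hΩ h3 h31 _) (h3.test_inv hΩ hχ).memLpr]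
  rw [← hj]
  congr 1
  · congr 1
    · apply setIntegral_congr_fun hΩ.measurableSet
      intro x hx
      have := h2.ne_zero hx
      simp only [one]; field_simp; simp
    · apply setIntegral_congr_fun hΩ.measurableSet
      intro x hx
      have := h2.ne_zero hx
      simp only [one]; field_simp; simp
  · apply setIntegral_congr_fun hΩ.measurableSet
    intro x hx
    have := h3.ne_zero hx
    simp only [one]; field_simp; simp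

lemma fac_fun_eq {b : (Fin n → ℂ) → ℝ} {χ g : (Fin n → ℂ) → ℂ} (hb : ∀ x ∈ tsupport χ, b x = 1)
    (hg : ∀ x ∉ tsupport χ, g x = 0) :
    (fun x => (b x : ℂ)⁻¹ * g x) = fun x => ((one x : ℝ) : ℂ)⁻¹ * g x := by
  ext x
  by_cases hx : x ∈ tsupport χ
  · rw [hb x hx]; rfl
  · rw [hg x hx]; simp

lemma closure_ineq {A B D : Type*} [NormedAddCommGroup A] [NormedSpace ℂ A] [NormedAddCommGroup B]
    [NormedAddCommGroup D] {c : ℝ} {m : ℕ} (l : Fin m → (A →L[ℂ] ℂ)) {S : Set (A × B × D)}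
    (hS : ∀ p ∈ S, ‖p.1‖ ^ 2 ≤ c * (‖p.2.1‖ ^ 2 + ‖p.2.2‖ ^ 2) + ∑ i, ‖l i p.1‖ ^ 2)
    {f : A} {u : B} {h : D} (hm : (f, u, h) ∈ closure S) :
    ‖f‖ ^ 2 ≤ c * (‖u‖ ^ 2 + ‖h‖ ^ 2) + ∑ i, ‖l i f‖ ^ 2 := by
  have hcl : IsClosed {p : A × B × D |
      ‖p.1‖ ^ 2 ≤ c * (‖p.2.1‖ ^ 2 + ‖p.2.2‖ ^ 2) + ∑ i, ‖l i p.1‖ ^ 2} :=
    isClosed_le (by fun_prop) (by fun_prop)
  exact closure_minimal (fun p hp => hS p hp) hcl hm

theorem fa_main (hΩ : IsOpen Ω) (b1 b2 b3 : ℕ → (Fin n → ℂ) → ℝ)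
    (h1 : ∀ k, IsFac Ω (b1 k)) (h2 : ∀ k, IsFac Ω (b2 k)) (h3 : ∀ k, IsFac Ω (b3 k))
    (h11 : ∀ k, ∀ x ∈ Ω, b1 k x ≤ 1) (h21 : ∀ k, ∀ x ∈ Ω, b2 k x ≤ 1)
    (h31 : ∀ k, ∀ x ∈ Ω, b3 k x ≤ 1)
    (hloc : ∀ K, IsCompact K → K ⊆ Ω → ∀ᶠ k in atTop, ∀ x ∈ K, b1 k x = 1 ∧ b2 k x = 1 ∧ b3 k x = 1)
    (hcut : ∀ k, ∃ C η, GoodCut Ω (b1 k) (b2 k) (b3 k) C η)
    {C : ℝ} (hC : 0 ≤ C)
    (hB : ∀ k F, (∀ j, IsTest Ω (F j)) → ‖(tTrip Ω (b1 k) (b2 k) (b3 k) F).1‖ ^ 2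
      ≤ C * (‖(tTrip Ω (b1 k) (b2 k) (b3 k) F).2.1‖ ^ 2
        + ‖(tTrip Ω (b1 k) (b2 k) (b3 k) F).2.2‖ ^ 2))
    (hE : ∀ ε > 0, ∃ (m : ℕ) (l : Fin m → (Form1 Ω →L[ℂ] ℂ)), ∀ᶠ k in atTop,
      ∀ F, (∀ j, IsTest Ω (F j)) → ‖(tTrip Ω (b1 k) (b2 k) (b3 k) F).1‖ ^ 2
      ≤ ε * (‖(tTrip Ω (b1 k) (b2 k) (b3 k) F).2.1‖ ^ 2
        + ‖(tTrip Ω (b1 k) (b2 k) (b3 k) F).2.2‖ ^ 2)
        + ∑ i, ‖l i (tTrip Ω (b1 k) (b2 k) (b3 k) F).1‖ ^ 2) :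
    ∃ N : Form1 Ω →L[ℂ] Form1 Ω, (∀ f γ, N γ = f ↔ Box (TRel Ω one one) (SRel Ω one one) f γ) ∧
      IsCompactOperator N := by
  have hloc1 : ∀ x ∈ Ω, ∀ᶠ k in atTop, b1 k x = 1 ∧ b2 k x = 1 ∧ b3 k x = 1 := fun x hx => by
    filter_upwards [hloc {x} isCompact_singleton (Set.singleton_subset_iff.2 hx)] with k hk
    exact hk x rfl
  have hdens : ∀ k f u h, (f, u) ∈ AdjRel (TRel Ω (b1 k) (b2 k)) → (f, h) ∈ SRel Ω (b2 k) (b3 k) →
      (f, u, h) ∈ closure (tTrips Ω (b1 k) (b2 k) (b3 k)) := by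
    intro k f u h hfu hfh
    obtain ⟨C, η, hη⟩ := hcut k
    exact mem_closure_tTrips hΩ (h1 k) (h2 k) (h3 k) hfu hfh hη
  refine neumann_exists (TRel Ω one one) (SRel Ω one one) (fun k => TRel Ω (b1 k) (b2 k))
    (fun k => SRel Ω (b2 k) (b3 k)) hC (fun p hp => TRel_SRel hp) (fun _ => isClosed_TRel)
    (fun _ => isClosed_SRel) (fun _ p hp => TRel_SRel hp) ?_ ?_ ?_ ?_ ?_ ?_
  · intro k f u h hfu hfh
    have hsub : ∀ p ∈ tTrips Ω (b1 k) (b2 k) (b3 k),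
        ‖p.1‖ ^ 2 ≤ C * (‖p.2.1‖ ^ 2 + ‖p.2.2‖ ^ 2) + ∑ i : Fin 0, ‖(Fin.elim0 i : Form1 Ω →L[ℂ] ℂ) p.1‖ ^ 2 := by
      rintro _ ⟨F, hF, rfl⟩
      simpa using hB k F hF
    have := closure_ineq _ hsub (hdens k f u h hfu hfh)
    simpa using this
  · intro p hp
    refine ⟨fun k => (tl Ω (fun x => p.1 x * (b1 k x : ℂ)),
      (WithLp.toLp 2 (fun j => tl Ω (fun x => p.2 j x * (b2 k x : ℂ))) : Form1 Ω)),
      fun k => TRel_transfer hΩ (h1 k) (h2 k) (h11 k) (h21 k) hp, ?_, ?_⟩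
    · exact tendsto_mul_fac hΩ h1 h11 (fun x hx => (hloc1 x hx).mono fun k hk => hk.1) p.1
    · have : Tendsto (fun k => (fun j => tl Ω (fun x => p.2 j x * (b2 k x : ℂ)))) atTop
          (𝓝 (fun j => p.2 j)) := tendsto_pi_nhds.2 fun j =>
        tendsto_mul_fac hΩ h2 h21 (fun x hx => (hloc1 x hx).mono fun k hk => hk.2.1) (p.2 j)
      exact (PiLp.continuous_toLp 2 _).continuousAt.tendsto.comp this
  · intro p hp
    refine ⟨fun k => ((WithLp.toLp 2 (fun j => tl Ω (fun x => p.1 j x * (b2 k x : ℂ))) : Form1 Ω),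
      (WithLp.toLp 2 (fun i => tl Ω (fun x => p.2 i x * (b3 k x : ℂ))) : Form2 Ω)),
      fun k => SRel_transfer hΩ (h2 k) (h3 k) (h21 k) (h31 k) hp, ?_, ?_⟩
    · have : Tendsto (fun k => (fun j => tl Ω (fun x => p.1 j x * (b2 k x : ℂ)))) atTop
          (𝓝 (fun j => p.1 j)) := tendsto_pi_nhds.2 fun j =>
        tendsto_mul_fac hΩ h2 h21 (fun x hx => (hloc1 x hx).mono fun k hk => hk.2.1) (p.1 j)
      exact (PiLp.continuous_toLp 2 _).continuousAt.tendsto.comp this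
    · have : Tendsto (fun k => (fun i => tl Ω (fun x => p.2 i x * (b3 k x : ℂ)))) atTop
          (𝓝 (fun i => p.2 i)) := tendsto_pi_nhds.2 fun i =>
        tendsto_mul_fac hΩ h3 h31 (fun x hx => (hloc1 x hx).mono fun k hk => hk.2.2) (p.2 i)
      exact (PiLp.continuous_toLp 2 _).continuousAt.tendsto.comp this
  · intro U hU x y x0 y0 hxy hx hy
    rw [mem_TRel]
    intro χ hχ j
    have hev := hU (hloc _ hχ.2.1 hχ.2.2)
    have l1 := WLim.clm hx (pr Ω (fun x => ((one x : ℝ) : ℂ)⁻¹ * dzb j χ x))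
    have l2 := WLim.clm hy ((pr Ω (fun x => ((one x : ℝ) : ℂ)⁻¹ * χ x)) ∘L (c1 Ω j))
    refine tendsto_nhds_unique (l1.add l2) (tendsto_const_nhds.congr' ?_)
    filter_upwards [hev] with k hk
    have h := mem_TRel.1 (hxy k) χ hχ j
    rw [fac_fun_eq (χ := χ) (fun x hx => (hk x hx).1)
        (fun x hx => dzb_zero_of (eq_zero_nhds hx).2),
      fac_fun_eq (χ := χ) (fun x hx => (hk x hx).2.1) (fun x hx => (eq_zero_nhds hx).1)] at h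
    exact h.symm
  · intro U hU x y x0 y0 hxy hx hy
    rw [mem_SRel]
    intro χ hχ i
    have hev := hU (hloc _ hχ.2.1 hχ.2.2)
    have l1 := WLim.clm hx ((pr Ω (fun x => ((one x : ℝ) : ℂ)⁻¹ * dzb i.1.1 χ x)) ∘L (c1 Ω i.1.2))
    have l2 := WLim.clm hx ((pr Ω (fun x => ((one x : ℝ) : ℂ)⁻¹ * dzb i.1.2 χ x)) ∘L (c1 Ω i.1.1))
    have l3 := WLim.clm hy ((pr Ω (fun x => ((one x : ℝ) : ℂ)⁻¹ * χ x)) ∘L (c2 Ω i))
    refine tendsto_nhds_unique ((l1.sub l2).add l3) (tendsto_const_nhds.congr' ?_)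
    filter_upwards [hev] with k hk
    have h := mem_SRel.1 (hxy k) χ hχ i
    rw [fac_fun_eq (χ := χ) (fun x hx => (hk x hx).2.1)
        (fun x hx => dzb_zero_of (eq_zero_nhds hx).2),
      fac_fun_eq (χ := χ) (fun x hx => (hk x hx).2.1)
        (fun x hx => dzb_zero_of (eq_zero_nhds hx).2),
      fac_fun_eq (χ := χ) (fun x hx => (hk x hx).2.2) (fun x hx => (eq_zero_nhds hx).1)] at h
    exact h.symm
  · intro ε hε
    obtain ⟨m, l, hl⟩ := hE ε hε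
    refine ⟨m, l, ?_⟩
    filter_upwards [hl] with k hk f u h hfu hfh
    have hsub : ∀ p ∈ tTrips Ω (b1 k) (b2 k) (b3 k),
        ‖p.1‖ ^ 2 ≤ ε * (‖p.2.1‖ ^ 2 + ‖p.2.2‖ ^ 2) + ∑ i, ‖l i p.1‖ ^ 2 := by
      rintro _ ⟨F, hF, rfl⟩
      exact hk F hF
    exact closure_ineq l hsub (hdens k f u h hfu hfh)

end fa

end Pool.Agent.DBar74
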