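import Mathlib

open Filter Topology
open scoped InnerProductSpace

namespace Pool.Agent.DBar74

section abstract_hilbert

variable {H1 H2 H3 : Type*}
  [NormedAddCommGroup H1] [InnerProductSpace ℂ H1] [CompleteSpace H1]
  [NormedAddCommGroup H2] [InnerProductSpace ℂ H2] [CompleteSpace H2]
  [NormedAddCommGroup H3] [InnerProductSpace ℂ H3] [CompleteSpace H3]

/-- The adjoint of a linear relation. -/
def AdjRel (T : Submodule ℂ (H1 × H2)) : Submodule ℂ (H2 × H1) where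
  carrier := {p | ∀ q ∈ T, ⟪p.2, q.1⟫_ℂ = ⟪p.1, q.2⟫_ℂ}
  add_mem' := by
    intro a b ha hb q hq
    simp only [Prod.fst_add, Prod.snd_add, inner_add_left]
    rw [ha q hq, hb q hq]
  zero_mem' := by
    intro q _
    simp
  smul_mem' := by
    intro c a ha q hq
    simp only [Prod.smul_fst, Prod.smul_snd, inner_smul_left]
    rw [ha q hq]

lemma mem_AdjRel {T : Submodule ℂ (H1 × H2)} {p : H2 × H1} :
    p ∈ AdjRel T ↔ ∀ q ∈ T, ⟪p.2, q.1⟫_ℂ = ⟪p.1, q.2⟫_ℂ := Iff.rfl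

lemma isClosed_AdjRel (T : Submodule ℂ (H1 × H2)) : IsClosed (AdjRel T : Set (H2 × H1)) := by
  have : (AdjRel T : Set (H2 × H1)) = ⋂ q ∈ T, {p | ⟪p.2, q.1⟫_ℂ = ⟪p.1, q.2⟫_ℂ} := by
    ext p; simp [mem_AdjRel]
  rw [this]
  refine isClosed_biInter fun q _ => ?_
  exact isClosed_eq (continuous_snd.inner continuous_const) (continuous_fst.inner continuous_const)

/-- the double adjoint of a closed relation -/
lemma mem_of_mem_adj_adj {T : Submodule ℂ (H1 × H2)} (hT : IsClosed (T : Set (H1 × H2)))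
    {u : H1} {g : H2} (h : ∀ p ∈ AdjRel T, ⟪g, p.1⟫_ℂ = ⟪u, p.2⟫_ℂ) : (u, g) ∈ T := by
  let L : WithLp 2 (H1 × H2) ≃L[ℂ] (H1 × H2) := WithLp.prodContinuousLinearEquiv 2 ℂ H1 H2
  let K : Submodule ℂ (WithLp 2 (H1 × H2)) := T.comap (L : WithLp 2 (H1 × H2) →ₗ[ℂ] H1 × H2)
  have hK : IsClosed (K : Set (WithLp 2 (H1 × H2))) := hT.preimage L.continuous
  have : CompleteSpace K := hK.completeSpace_coe
  have hx : (WithLp.toLp 2 (u, g)) ∈ Kᗮᗮ := by
    rw [Submodule.mem_orthogonal]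
    intro y hy
    have hadj : (y.snd, -y.fst) ∈ AdjRel T := by
      intro q hq
      have hq' : (WithLp.toLp 2 q : WithLp 2 (H1 × H2)) ∈ K := hq
      have := (Submodule.mem_orthogonal' K y).1 hy _ hq'
      rw [WithLp.prod_inner_apply] at this
      simp only [inner_neg_left]
      have h3 : ⟪y.fst, q.1⟫_ℂ + ⟪y.snd, q.2⟫_ℂ = 0 := this
      linear_combination -h3
    have h1 := h _ hadj
    simp only [inner_neg_right] at h1
    rw [WithLp.prod_inner_apply]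
    have h2 := congrArg (starRingEnd ℂ) h1
    simp only [map_neg, inner_conj_symm] at h2
    change ⟪y.fst, u⟫_ℂ + ⟪y.snd, g⟫_ℂ = 0
    rw [h2]; ring
  rw [Submodule.orthogonal_orthogonal] at hx
  exact hx

/-- A Lax Milgram type statement. -/
lemma exists_of_bounded_below {V W : Type*} [NormedAddCommGroup V] [InnerProductSpace ℂ V]
    [CompleteSpace V] [NormedAddCommGroup W] [InnerProductSpace ℂ W] [CompleteSpace W]
    (A : V →L[ℂ] W) {c : ℝ} (hc : 0 < c) (hA : ∀ X, c * ‖X‖ ^ 2 ≤ ‖A X‖ ^ 2) (g : V) :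
    ∃ X0, ∀ X, ⟪A X, A X0⟫_ℂ = ⟪X, g⟫_ℂ := by
  let B : V →L[ℂ] V := (ContinuousLinearMap.adjoint A) ∘L A
  have hBA : ∀ X Y, ⟪X, B Y⟫_ℂ = ⟪A X, A Y⟫_ℂ := fun X Y => by
    simp only [B, ContinuousLinearMap.comp_apply]
    rw [ContinuousLinearMap.adjoint_inner_right]
  have hbb : ∀ X, c * ‖X‖ ≤ ‖B X‖ := by
    intro X
    by_cases h : 0 < ‖X‖
    · have h1 : ‖A X‖ ^ 2 ≤ ‖X‖ * ‖B X‖ := by
        have h2 : ((‖A X‖ ^ 2 : ℝ) : ℂ) = ⟪X, B X⟫_ℂ := by
          rw [hBA, inner_self_eq_norm_sq_to_K]; norm_cast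
        have h3 : ‖((‖A X‖ ^ 2 : ℝ) : ℂ)‖ ≤ ‖X‖ * ‖B X‖ := by
          rw [h2]; exact norm_inner_le_norm _ _
        rwa [Complex.norm_real, Real.norm_eq_abs, abs_of_nonneg (by positivity)] at h3
      have h4 := (hA X).trans h1
      have h5 : ‖X‖ * (c * ‖X‖) ≤ ‖X‖ * ‖B X‖ := by nlinarith
      exact le_of_mul_le_mul_left h5 h
    · have : ‖X‖ = 0 := le_antisymm (not_lt.1 h) (norm_nonneg _)
      rw [this]; simp
  have hanti : AntilipschitzWith (Real.toNNReal c⁻¹) B := by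
    refine ContinuousLinearMap.antilipschitz_of_bound B ?_
    intro X
    rw [Real.coe_toNNReal _ (inv_nonneg.2 hc.le)]
    have := hbb X
    rw [← div_eq_inv_mul, le_div_iff₀ hc]; linarith
  have hclosed : IsClosed (B.range : Set V) := hanti.isClosed_range B.uniformContinuous
  have htop : B.range = ⊤ := by
    have := hclosed.completeSpace_coe
    rw [← B.range.orthogonal_orthogonal, Submodule.eq_top_iff']
    intro v w hw
    have h0 : ⟪B w, w⟫_ℂ = 0 := hw _ ⟨w, rfl⟩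
    have h1 : ⟪w, B w⟫_ℂ = 0 := by rw [← inner_conj_symm, h0]; simp
    rw [hBA, inner_self_eq_zero] at h1
    have h2 := hA w
    rw [h1] at h2
    have : ‖w‖ ^ 2 ≤ 0 := by
      by_contra h3
      push Not at h3
      have := mul_pos hc h3
      simp at h2; linarith
    have h3 : w = 0 := by
      have : ‖w‖ = 0 := by nlinarith [norm_nonneg w]
      exact norm_eq_zero.1 this
    rw [h3]; exact inner_zero_left _
  obtain ⟨X0, hX0⟩ : g ∈ B.range := by rw [htop]; trivial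
  refine ⟨X0, fun X => ?_⟩
  rw [← hBA]
  have : B X0 = g := hX0
  rw [this]

/-- Lax Milgram on a closed subspace. -/
lemma exists_on_subspace {E W : Type*} [NormedAddCommGroup E] [InnerProductSpace ℂ E]
    [CompleteSpace E] [NormedAddCommGroup W] [InnerProductSpace ℂ W] [CompleteSpace W]
    (pf : E →L[ℂ] H2) (pq : E →L[ℂ] W) (hn : ∀ X, ‖X‖ ^ 2 = ‖pf X‖ ^ 2 + ‖pq X‖ ^ 2)
    (V : Submodule ℂ E) (hV : IsClosed (V : Set E)) {C : ℝ} (hC : 0 ≤ C)
    (hest : ∀ X ∈ V, ‖pf X‖ ^ 2 ≤ C * ‖pq X‖ ^ 2) (γ : H2) :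
    ∃ X0 ∈ V, ∀ X ∈ V, ⟪pq X, pq X0⟫_ℂ = ⟪pf X, γ⟫_ℂ := by
  have : CompleteSpace V := hV.completeSpace_coe
  let A : V →L[ℂ] W := pq ∘L V.subtypeL
  let J : V →L[ℂ] H2 := pf ∘L V.subtypeL
  have hbd : ∀ X : V, (C + 1)⁻¹ * ‖X‖ ^ 2 ≤ ‖A X‖ ^ 2 := by
    intro X
    have h1 := hest X.1 X.2
    have h2 : ‖X‖ ^ 2 = ‖pf X.1‖ ^ 2 + ‖pq X.1‖ ^ 2 := hn X.1
    have h4 : ‖A X‖ = ‖pq X.1‖ := rfl
    rw [h4, h2, inv_mul_le_iff₀ (by linarith)]
    linarith
  obtain ⟨X0, hX0⟩ := exists_of_bounded_below A (inv_pos.2 (by linarith : (0:ℝ) < C + 1)) hbd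
    (ContinuousLinearMap.adjoint J γ)
  refine ⟨X0.1, X0.2, fun X hX => ?_⟩
  have h3 := hX0 ⟨X, hX⟩
  rw [ContinuousLinearMap.adjoint_inner_right] at h3
  exact h3

/-- **Solving the complex Laplace equation in an abstract Hilbert complex.** -/
theorem abstract_box (T : Submodule ℂ (H1 × H2)) (S : Submodule ℂ (H2 × H3))
    (hT : IsClosed (T : Set (H1 × H2))) (hS : IsClosed (S : Set (H2 × H3)))
    (hST : ∀ p ∈ T, (p.2, (0 : H3)) ∈ S) {C : ℝ} (hC : 0 ≤ C)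
    (hest : ∀ f u h, (f, u) ∈ AdjRel T → (f, h) ∈ S → ‖f‖ ^ 2 ≤ C * (‖u‖ ^ 2 + ‖h‖ ^ 2))
    (γ : H2) :
    ∃ f u h γ1 γ2, (f, u) ∈ AdjRel T ∧ (f, h) ∈ S ∧ (u, γ1) ∈ T ∧ (h, γ2) ∈ AdjRel S ∧
      γ = γ1 + γ2 ∧ ‖u‖ ^ 2 + ‖h‖ ^ 2 = (⟪f, γ⟫_ℂ).re ∧ ‖γ1‖ ≤ ‖γ‖ ∧ ‖γ2‖ ≤ ‖γ‖ := by
  -- the graph space
  obtain ⟨f, u, h, hfu, hfh, hmain⟩ : ∃ f u h, (f, u) ∈ AdjRel T ∧ (f, h) ∈ S ∧
      ∀ f' u' h', (f', u') ∈ AdjRel T → (f', h') ∈ S →
        ⟪u', u⟫_ℂ + ⟪h', h⟫_ℂ = ⟪f', γ⟫_ℂ := by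
    let pf : WithLp 2 (H2 × WithLp 2 (H1 × H3)) →L[ℂ] H2 := WithLp.fstL 2 ℂ H2 (WithLp 2 (H1 × H3))
    let pq : WithLp 2 (H2 × WithLp 2 (H1 × H3)) →L[ℂ] WithLp 2 (H1 × H3) :=
      WithLp.sndL 2 ℂ H2 (WithLp 2 (H1 × H3))
    let pu : WithLp 2 (H2 × WithLp 2 (H1 × H3)) →L[ℂ] H1 := WithLp.fstL 2 ℂ H1 H3 ∘L pq
    let ph : WithLp 2 (H2 × WithLp 2 (H1 × H3)) →L[ℂ] H3 := WithLp.sndL 2 ℂ H1 H3 ∘L pq
    let V : Submodule ℂ (WithLp 2 (H2 × WithLp 2 (H1 × H3))) :=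
      (AdjRel T).comap (pf.prod pu).toLinearMap ⊓ S.comap (pf.prod ph).toLinearMap
    have hV : ∀ X, X ∈ V ↔ (pf X, pu X) ∈ AdjRel T ∧ (pf X, ph X) ∈ S := fun X => Iff.rfl
    have hVc : IsClosed (V : Set (WithLp 2 (H2 × WithLp 2 (H1 × H3)))) := by
      have h1 : IsClosed {X : WithLp 2 (H2 × WithLp 2 (H1 × H3)) | (pf X, pu X) ∈ AdjRel T} :=
        (isClosed_AdjRel T).preimage (pf.prod pu).continuous
      have h2 : IsClosed {X : WithLp 2 (H2 × WithLp 2 (H1 × H3)) | (pf X, ph X) ∈ S} :=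
        hS.preimage (pf.prod ph).continuous
      exact h1.inter h2
    have hnE : ∀ X, ‖X‖ ^ 2 = ‖pf X‖ ^ 2 + ‖pq X‖ ^ 2 := fun X => WithLp.prod_norm_sq_eq_of_L2 X
    have hnW : ∀ X, ‖pq X‖ ^ 2 = ‖pu X‖ ^ 2 + ‖ph X‖ ^ 2 := fun X =>
      WithLp.prod_norm_sq_eq_of_L2 (pq X)
    obtain ⟨X0, hX0V, hX0⟩ := exists_on_subspace pf pq hnE V hVc hC (fun X hX => by
      rw [hnW]; exact hest _ _ _ ((hV X).1 hX).1 ((hV X).1 hX).2) γ
    refine ⟨pf X0, pu X0, ph X0, ((hV X0).1 hX0V).1, ((hV X0).1 hX0V).2, ?_⟩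
    intro f' u' h' h1 h2
    have h3 := hX0 (WithLp.toLp 2 (f', WithLp.toLp 2 (u', h'))) ⟨h1, h2⟩
    exact h3
  -- the projection
  let K : Submodule ℂ H2 := S.comap (LinearMap.inl ℂ H2 H3)
  have hK : ∀ x, x ∈ K ↔ (x, (0 : H3)) ∈ S := fun x => Iff.rfl
  have hKc : IsClosed (K : Set H2) := by
    have hcont : Continuous (fun x : H2 => (x, (0 : H3))) := by fun_prop
    exact hS.preimage hcont
  have : CompleteSpace K := hKc.completeSpace_coe
  have hPmem : ∀ x, K.starProjection x ∈ K := fun x => Submodule.starProjection_apply_mem K x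
  have hPsymm : ∀ x y, ⟪K.starProjection x, y⟫_ℂ = ⟪x, K.starProjection y⟫_ℂ := fun x y =>
    Submodule.inner_starProjection_left_eq_right K x y
  have hPself : ∀ x, x ∈ K → K.starProjection x = x := fun x hx =>
    Submodule.starProjection_eq_self_iff.2 hx
  refine ⟨f, u, h, K.starProjection γ, γ - K.starProjection γ, hfu, hfh, ?_, ?_, by abel, ?_, ?_, ?_⟩
  · apply mem_of_mem_adj_adj hT
    rintro ⟨f', u'⟩ hp
    have h1 : (K.starProjection f', u') ∈ AdjRel T := by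
      intro q hq
      have h2 := hp q hq
      have h3 : q.2 ∈ K := hST q hq
      simp only at h2 ⊢
      rw [h2, hPsymm, hPself _ h3]
    have h4 := hmain _ _ _ h1 ((hK _).1 (hPmem f'))
    rw [inner_zero_left, add_zero, hPsymm] at h4
    have h5 := congrArg (starRingEnd ℂ) h4
    rw [inner_conj_symm, inner_conj_symm] at h5
    exact h5.symm
  · rintro ⟨g, k⟩ hq
    have h1 : (g - K.starProjection g, k) ∈ S := by
      have := S.sub_mem hq ((hK _).1 (hPmem g))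
      simpa using this
    have h2 : (g - K.starProjection g, (0 : H1)) ∈ AdjRel T := by
      intro q hq
      have h3 : q.2 ∈ K := hST q hq
      simp only [inner_zero_left, inner_sub_left]
      rw [hPsymm, hPself _ h3, sub_self]
    have h4 := hmain _ _ _ h2 h1
    rw [inner_zero_left, zero_add] at h4
    have h5 := congrArg (starRingEnd ℂ) h4
    rw [inner_conj_symm, inner_conj_symm] at h5
    simp only
    rw [inner_sub_left, h5, inner_sub_right, hPsymm]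
  · have h1 := hmain f u h hfu hfh
    rw [← h1, inner_self_eq_norm_sq_to_K, inner_self_eq_norm_sq_to_K]
    norm_cast
  · exact (Submodule.norm_starProjection_apply_le K γ)
  · have h1 : γ - K.starProjection γ = Kᗮ.starProjection γ := by
      rw [Submodule.starProjection_orthogonal]; simp
    rw [h1]
    exact (Submodule.norm_starProjection_apply_le Kᗮ γ)

end abstract_hilbert

end Pool.Agent.DBar74
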