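import Pool.Agent.DBar74.Hilbert

open Filter Topology
open scoped InnerProductSpace

namespace Pool.Agent.DBar74

section weaklim

variable {H : Type*} [NormedAddCommGroup H] [InnerProductSpace ℂ H] [CompleteSpace H]

lemma exists_weak_limit {x : ℕ → H} {C : ℝ} (hx : ∀ n, ‖x n‖ ≤ C) (U : Ultrafilter ℕ) :
    ∃ y : H, ∀ z, Tendsto (fun n => ⟪x n, z⟫_ℂ) U (𝓝 ⟪y, z⟫_ℂ) := by
  have hbd : ∀ z n, ⟪x n, z⟫_ℂ ∈ Metric.closedBall (0 : ℂ) (C * ‖z‖) := by
    intro z n
    rw [mem_closedBall_zero_iff]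
    exact (norm_inner_le_norm _ _).trans (mul_le_mul_of_nonneg_right (hx n) (norm_nonneg _))
  have hlim : ∀ z, ∃ l ∈ Metric.closedBall (0 : ℂ) (C * ‖z‖),
      Tendsto (fun n => ⟪x n, z⟫_ℂ) U (𝓝 l) := by
    intro z
    have hc : IsCompact (Metric.closedBall (0 : ℂ) (C * ‖z‖)) := isCompact_closedBall _ _
    have := hc.ultrafilter_le_nhds (U.map (fun n => ⟪x n, z⟫_ℂ)) (by
      rw [le_principal_iff, Ultrafilter.mem_coe, Ultrafilter.mem_map]
      exact Filter.univ_mem' (hbd z))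
    obtain ⟨l, hl, h⟩ := this
    exact ⟨l, hl, h⟩
  choose L hL1 hL2 using hlim
  let Ll : H →ₗ[ℂ] ℂ :=
    { toFun := L
      map_add' := by
        intro a b
        refine tendsto_nhds_unique (hL2 (a + b)) ?_
        have := (hL2 a).add (hL2 b)
        simpa only [inner_add_right] using this
      map_smul' := by
        intro c a
        refine tendsto_nhds_unique (hL2 (c • a)) ?_
        have := (hL2 a).const_mul c
        simpa only [inner_smul_right, RingHom.id_apply, smul_eq_mul] using this }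
  let Lc : H →L[ℂ] ℂ := Ll.mkContinuous C (fun z => mem_closedBall_zero_iff.1 (hL1 z))
  refine ⟨(InnerProductSpace.toDual ℂ H).symm Lc, fun z => ?_⟩
  rw [InnerProductSpace.toDual_symm_apply]
  exact hL2 z

/-- compactness from an estimate with finitely many functionals -/
lemma isCompactOperator_of_estimate (N : H →L[ℂ] H)
    (h : ∀ ε > 0, ∃ (m : ℕ) (l : Fin m → (H →L[ℂ] ℂ)),
      ∀ γ, ‖N γ‖ ^ 2 ≤ ε * ‖γ‖ ^ 2 + ∑ i, ‖l i (N γ)‖ ^ 2) : IsCompactOperator N := by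
  refine (isCompactOperator_iff_isCompact_closure_image_closedBall (N : H →ₗ[ℂ] H)
    zero_lt_one).2 ?_
  have htb : TotallyBounded (N '' Metric.closedBall 0 1) := by
    rw [Metric.totallyBounded_iff]
    intro ε hε
    obtain ⟨m, l, hl⟩ := h (ε ^ 2 / 16) (by positivity)
    let Λ : H →L[ℂ] (Fin m → ℂ) := ContinuousLinearMap.pi (fun i => (l i) ∘L N)
    have hΛb : Bornology.IsBounded (Λ '' Metric.closedBall 0 1) :=
      Λ.lipschitz.isBounded_image Metric.isBounded_closedBall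
    have hΛt : TotallyBounded (Λ '' Metric.closedBall 0 1) :=
      (hΛb.isCompact_closure.totallyBounded).subset subset_closure
    set δ : ℝ := ε / (2 * (m + 1)) with hδ
    have hδ0 : 0 < δ := by positivity
    obtain ⟨t, hts, htf, htc⟩ := Metric.finite_approx_of_totallyBounded hΛt δ hδ0
    choose! g hg1 hg2 using (fun y (hy : y ∈ Λ '' Metric.closedBall (0:H) 1) => hy)
    refine ⟨(fun y => N (g y)) '' t, htf.image _, ?_⟩
    rintro _ ⟨γ, hγ, rfl⟩
    have h1 := htc ⟨γ, hγ, rfl⟩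
    simp only [Set.mem_iUnion] at h1
    obtain ⟨y, hyt, hy⟩ := h1
    simp only [Set.mem_iUnion]
    refine ⟨N (g y), ⟨y, hyt, rfl⟩, ?_⟩
    have hgy : Λ (g y) = y := hg2 y (hts hyt)
    have hgy1 : ‖g y‖ ≤ 1 := mem_closedBall_zero_iff.1 (hg1 y (hts hyt))
    have hγ1 : ‖γ‖ ≤ 1 := mem_closedBall_zero_iff.1 hγ
    rw [Metric.mem_ball, dist_eq_norm] at hy ⊢
    rw [← hgy, ← map_sub] at hy
    rw [← map_sub]
    have h2 := hl (γ - g y)
    have h3 : ‖γ - g y‖ ≤ 2 := (norm_sub_le _ _).trans (by linarith)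
    have h4 : ∀ i, ‖l i (N (γ - g y))‖ ≤ δ := by
      intro i
      have := (norm_le_pi_norm (Λ (γ - g y)) i).trans hy.le
      exact this
    have h5 : ∑ i, ‖l i (N (γ - g y))‖ ^ 2 ≤ m * δ ^ 2 := by
      calc ∑ i, ‖l i (N (γ - g y))‖ ^ 2 ≤ ∑ _i : Fin m, δ ^ 2 :=
            Finset.sum_le_sum fun i _ => pow_le_pow_left₀ (norm_nonneg _) (h4 i) 2
        _ = m * δ ^ 2 := by simp
    have h6 : m * δ ^ 2 ≤ ε ^ 2 / 4 := by
      have hm : (0:ℝ) ≤ m := Nat.cast_nonneg m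
      have : δ * (2 * (m + 1)) = ε := by rw [hδ]; field_simp
      have h7 : (δ * (2 * (m + 1))) ^ 2 = ε ^ 2 := by rw [this]
      nlinarith [sq_nonneg δ, mul_nonneg hm (sq_nonneg δ), mul_nonneg (mul_nonneg hm hm) (sq_nonneg δ)]
    have h8 : ‖γ - g y‖ ^ 2 ≤ 4 := by nlinarith [norm_nonneg (γ - g y)]
    have h9 : ‖N (γ - g y)‖ ^ 2 < ε ^ 2 := by nlinarith [sq_nonneg ε]
    exact lt_of_pow_lt_pow_left₀ 2 hε.le h9
  exact htb.closure.isCompact_of_isClosed isClosed_closure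

end weaklim

end Pool.Agent.DBar74
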