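import Pool.Agent.DBar74.Basic

open MeasureTheory Complex
open scoped ContDiff ComplexConjugate

namespace Pool.Agent.DBar74

variable {n : ℕ}

lemma integral_line_eq_zero {g g' : (Fin n → ℂ) → ℂ} {v : Fin n → ℂ}
    (hg : ∀ x, HasLineDerivAt ℝ g (g' x) x v) (hi : Integrable g) (hi' : Integrable g') :
    ∫ x, g' x = 0 := by
  have h := integral_bilinear_hasLineDerivAt_right_eq_neg_left_of_integrable (μ := volume)
    (f := fun _ : Fin n → ℂ => (1 : ℂ)) (f' := fun _ => 0) (g := g) (g' := g') (v := v)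
    (B := ContinuousLinearMap.mul ℝ ℂ) (by simp) (by simpa using hi') (by simpa using hi)
    (fun x _ => by simpa using (hasFDerivAt_const (1:ℂ) x).hasLineDerivAt v) (fun x _ => hg x)
  simpa using h

lemma integral_fderiv_eq_zero {g : (Fin n → ℂ) → ℂ} (hg : ContDiff ℝ 1 g)
    (hc : HasCompactSupport g) (v : Fin n → ℂ) : ∫ x, fderiv ℝ g x v = 0 := by
  apply integral_line_eq_zero (g := g) (v := v)
  · intro x
    exact ((hg.differentiable (by simp)) x).hasFDerivAt.hasLineDerivAt v
  · exact hg.continuous.integrable_of_hasCompactSupport hc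
  · have h1 : Continuous (fun x => fderiv ℝ g x v) :=
      (hg.continuous_fderiv (by simp)).clm_apply continuous_const
    exact h1.integrable_of_hasCompactSupport (hc.fderiv_apply ℝ v)

lemma integrable_fderiv_apply {g : (Fin n → ℂ) → ℂ} (hg : ContDiff ℝ 1 g)
    (hc : HasCompactSupport g) (v : Fin n → ℂ) : Integrable (fun x => fderiv ℝ g x v) := by
  have h1 : Continuous (fun x => fderiv ℝ g x v) :=
    (hg.continuous_fderiv (by simp)).clm_apply continuous_const
  exact h1.integrable_of_hasCompactSupport (hc.fderiv_apply ℝ v)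

lemma integral_dz_eq_zero {g : (Fin n → ℂ) → ℂ} (hg : ContDiff ℝ 1 g)
    (hc : HasCompactSupport g) (j : Fin n) : ∫ x, dz j g x = 0 := by
  unfold dz
  rw [integral_const_mul, integral_sub (integrable_fderiv_apply hg hc _)
    ((integrable_fderiv_apply hg hc _).const_mul _), integral_const_mul,
    integral_fderiv_eq_zero hg hc, integral_fderiv_eq_zero hg hc]
  simp

lemma integral_dzb_eq_zero {g : (Fin n → ℂ) → ℂ} (hg : ContDiff ℝ 1 g)
    (hc : HasCompactSupport g) (j : Fin n) : ∫ x, dzb j g x = 0 := by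
  unfold dzb
  rw [integral_const_mul, integral_add (integrable_fderiv_apply hg hc _)
    ((integrable_fderiv_apply hg hc _).const_mul _), integral_const_mul,
    integral_fderiv_eq_zero hg hc, integral_fderiv_eq_zero hg hc]
  simp

/-! ### Second derivatives -/

section second

variable {f g : (Fin n → ℂ) → ℂ} {x : Fin n → ℂ} {j k : Fin n}

lemma differentiable_of_smooth (hf : ContDiff ℝ ∞ f) : Differentiable ℝ f :=
  hf.differentiable (by simp)

lemma fderiv_dzb_apply (hf : ContDiff ℝ ∞ f) (v : Fin n → ℂ) :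
    fderiv ℝ (dzb k f) x v = (1 / 2) * (fderiv ℝ (fderiv ℝ f) x v (Pi.single k 1)
      + I * fderiv ℝ (fderiv ℝ f) x v (Pi.single k I)) := by
  have h1 : ∀ w : Fin n → ℂ, DifferentiableAt ℝ (fun y => fderiv ℝ f y w) x := fun w =>
    ((contDiff_fderiv_apply hf w).differentiable (by simp)) x
  have h : HasFDerivAt (dzb k f) ((1 / 2 : ℂ) • (fderiv ℝ (fun y => fderiv ℝ f y (Pi.single k 1)) x
      + I • fderiv ℝ (fun y => fderiv ℝ f y (Pi.single k I)) x)) x := by
    unfold dzb
    exact (((h1 _).hasFDerivAt).add (((h1 _).hasFDerivAt).const_mul I)).const_mul (1/2 : ℂ)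
  rw [h.fderiv]
  simp only [smul_apply, add_apply, smul_eq_mul, fderiv_fderiv_apply hf]

lemma fderiv_dz_apply (hf : ContDiff ℝ ∞ f) (v : Fin n → ℂ) :
    fderiv ℝ (dz k f) x v = (1 / 2) * (fderiv ℝ (fderiv ℝ f) x v (Pi.single k 1)
      - I * fderiv ℝ (fderiv ℝ f) x v (Pi.single k I)) := by
  have h1 : ∀ w : Fin n → ℂ, DifferentiableAt ℝ (fun y => fderiv ℝ f y w) x := fun w =>
    ((contDiff_fderiv_apply hf w).differentiable (by simp)) x
  have h : HasFDerivAt (dz k f) ((1 / 2 : ℂ) • (fderiv ℝ (fun y => fderiv ℝ f y (Pi.single k 1)) x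
      - I • fderiv ℝ (fun y => fderiv ℝ f y (Pi.single k I)) x)) x := by
    unfold dz
    exact (((h1 _).hasFDerivAt).sub (((h1 _).hasFDerivAt).const_mul I)).const_mul (1/2 : ℂ)
  rw [h.fderiv]
  simp only [smul_apply, sub_apply, smul_eq_mul, fderiv_fderiv_apply hf]

lemma dz_dzb_comm (hf : ContDiff ℝ ∞ f) : dz j (dzb k f) x = dzb k (dz j f) x := by
  unfold dz
  rw [fderiv_dzb_apply hf, fderiv_dzb_apply hf]
  have : dzb k (fun x => 1 / 2 * (fderiv ℝ f x (Pi.single j 1) - I * fderiv ℝ f x (Pi.single j I))) x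
    = dzb k (dz j f) x := rfl
  rw [this]
  unfold dzb
  rw [fderiv_dz_apply hf, fderiv_dz_apply hf]
  rw [second_symm hf (Pi.single j 1) (Pi.single k 1), second_symm hf (Pi.single j I) (Pi.single k 1),
    second_symm hf (Pi.single j 1) (Pi.single k I), second_symm hf (Pi.single j I) (Pi.single k I)]
  ring

end second

/-! ### Weighted adjoint of the conjugate derivative -/

/-- The complexified weight `exp (-Φ)`. -/
noncomputable def wt (Φ : (Fin n → ℂ) → ℝ) (x : Fin n → ℂ) : ℂ := ((Real.exp (-Φ x) : ℝ) : ℂ)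

/-- complexification of a real function -/
noncomputable def cx (Φ : (Fin n → ℂ) → ℝ) (x : Fin n → ℂ) : ℂ := ((Φ x : ℝ) : ℂ)

/-- The formal adjoint of `dzb j` in the weighted space. -/
noncomputable def dl (Φ : (Fin n → ℂ) → ℝ) (j : Fin n) (f : (Fin n → ℂ) → ℂ)
    (x : Fin n → ℂ) : ℂ := - dz j f x + dz j (cx Φ) x * f x

section adj

variable {Φ : (Fin n → ℂ) → ℝ} {A B : (Fin n → ℂ) → ℂ} {x : Fin n → ℂ} {j k : Fin n}

lemma contDiff_ofReal_comp (hΦ : ContDiff ℝ ∞ Φ) : ContDiff ℝ ∞ (cx Φ) :=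
  Complex.ofRealCLM.contDiff.comp hΦ

lemma contDiff_wt (hΦ : ContDiff ℝ ∞ Φ) : ContDiff ℝ ∞ (wt Φ) := by
  have : ContDiff ℝ ∞ (fun x => Real.exp (-Φ x)) := Real.contDiff_exp.comp hΦ.neg
  exact Complex.ofRealCLM.contDiff.comp this

lemma contDiff_conj_comp (hA : ContDiff ℝ ∞ A) : ContDiff ℝ ∞ (fun x => conj (A x)) :=
  Complex.conjCLE.contDiff.comp hA

lemma dz_wt (hΦ : ContDiff ℝ ∞ Φ) : dz j (wt Φ) x = - dz j (cx Φ) x * wt Φ x := by
  have h := dz_comp_real (j := j) (k := Φ) (x := x) (h := fun t => Real.exp (-t))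
    (h' := -Real.exp (-Φ x)) ((hΦ.differentiable (by simp)) x) (by
      have := ((hasDerivAt_id (Φ x)).neg).exp
      simpa using this)
  unfold wt cx
  rw [h]; push_cast; ring

lemma dzb_wt (hΦ : ContDiff ℝ ∞ Φ) : dzb j (wt Φ) x = - conj (dz j (cx Φ) x) * wt Φ x := by
  have h1 : ContDiff ℝ ∞ (fun x => Real.exp (-Φ x)) := Real.contDiff_exp.comp hΦ.neg
  have h := dzb_ofReal (j := j) (k := fun x => Real.exp (-Φ x)) (x := x)
    ((h1.differentiable (by simp)) x)
  have h2 := dz_wt (j := j) (x := x) hΦ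
  unfold wt at *
  rw [h, h2, map_mul, conj_ofReal, map_neg]

lemma contDiff_dl (hΦ : ContDiff ℝ ∞ Φ) (hA : ContDiff ℝ ∞ A) (j : Fin n) :
    ContDiff ℝ ∞ (dl Φ j A) := by
  unfold dl
  exact (contDiff_dz hA j).neg.add ((contDiff_dz (contDiff_ofReal_comp hΦ) j).mul hA)

lemma hasCompactSupport_dl (hA : HasCompactSupport A) (j : Fin n) :
    HasCompactSupport (dl Φ j A) := by
  apply HasCompactSupport.of_support_subset_isCompact hA
  intro x hx
  by_contra h
  apply hx
  have h1 : dz j A x = 0 := by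
    by_contra h'
    exact h (support_dz_subset h')
  have h2 : A x = 0 := by
    by_contra h'
    exact h (subset_tsupport _ h')
  simp [dl, h1, h2]

/-- adjointness -/
lemma adjoint_dzb (hΦ : ContDiff ℝ ∞ Φ) (hA : ContDiff ℝ ∞ A) (hB : ContDiff ℝ ∞ B)
    (hcA : HasCompactSupport A) :
    ∫ x, dzb k A x * conj (B x) * wt Φ x = ∫ x, A x * conj (dl Φ k B x) * wt Φ x := by
  have hW := contDiff_wt hΦ
  have hB' := contDiff_conj_comp hB
  have key : ∀ x, dzb k (fun x => A x * (conj (B x) * wt Φ x)) x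
      = dzb k A x * conj (B x) * wt Φ x - A x * conj (dl Φ k B x) * wt Φ x := by
    intro x
    rw [dzb_mul (differentiable_of_smooth hA x) (differentiable_of_smooth (hB'.mul hW) x),
      dzb_mul (differentiable_of_smooth hB' x) (differentiable_of_smooth hW x),
      dzb_conj (differentiable_of_smooth hB x), dzb_wt hΦ]
    unfold dl
    simp only [map_add, map_neg, map_mul]
    ring
  have hz : ∫ x, dzb k (fun x => A x * (conj (B x) * wt Φ x)) x = 0 := by
    apply integral_dzb_eq_zero
    · exact (hA.mul (hB'.mul hW)).of_le (by simp)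
    · exact hcA.mul_right
  simp_rw [key] at hz
  rw [integral_sub] at hz
  · linear_combination hz
  · apply Continuous.integrable_of_hasCompactSupport
    · exact (((contDiff_dzb hA k).mul hB').mul hW).continuous
    · exact ((HasCompactSupport.dzb hcA k).mul_right).mul_right
  · apply Continuous.integrable_of_hasCompactSupport
    · exact ((hA.mul (contDiff_conj_comp (contDiff_dl hΦ hB k))).mul hW).continuous
    · exact (hcA.mul_right).mul_right

lemma dzb_dl (hΦ : ContDiff ℝ ∞ Φ) (hB : ContDiff ℝ ∞ B) :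
    dzb j (dl Φ k B) x = dl Φ k (dzb j B) x + dz k (dzb j (cx Φ)) x * B x := by
  have h1 : dl Φ k B = fun x => (-1) * dz k B x + dz k (cx Φ) x * B x := by
    ext x; unfold dl; ring
  have hd1 : Differentiable ℝ (dz k B) := differentiable_of_smooth (contDiff_dz hB k)
  have hd2 : Differentiable ℝ (dz k (cx Φ)) :=
    differentiable_of_smooth (contDiff_dz (contDiff_ofReal_comp hΦ) k)
  have hd3 := differentiable_of_smooth hB
  rw [h1, dzb_add (f := fun x => -1 * dz k B x) (g := fun x => dz k (cx Φ) x * B x)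
    ((hd1 x).const_mul _) ((hd2 x).mul (hd3 x)), dzb_const_mul _ (hd1 x),
    dzb_mul (hd2 x) (hd3 x), ← dz_dzb_comm hB, ← dz_dzb_comm (contDiff_ofReal_comp hΦ)]
  unfold dl
  ring

/-- pairwise identity -/
lemma pair_identity (hΦ : ContDiff ℝ ∞ Φ) (hA : ContDiff ℝ ∞ A) (hB : ContDiff ℝ ∞ B)
    (hcA : HasCompactSupport A) (hcB : HasCompactSupport B) :
    ∫ x, dl Φ j A x * conj (dl Φ k B x) * wt Φ x =
      ∫ x, (dzb k A x * conj (dzb j B x) * wt Φ x
        + A x * conj (dz k (dzb j (cx Φ)) x * B x) * wt Φ x) := by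
  have hwr : ∀ x, conj (wt Φ x) = wt Φ x := fun x => conj_ofReal _
  have e1 : ∫ x, dl Φ j A x * conj (dl Φ k B x) * wt Φ x
      = ∫ x, A x * conj (dzb j (dl Φ k B) x) * wt Φ x := by
    have h := adjoint_dzb (k := j) hΦ (contDiff_dl hΦ hB k) hA (hasCompactSupport_dl hcB k)
    have h' := congrArg conj h
    rw [← integral_conj, ← integral_conj] at h'
    simp only [map_mul, hwr, Complex.conj_conj] at h'
    rw [show (∫ x, dl Φ j A x * conj (dl Φ k B x) * wt Φ x)
      = ∫ x, conj (dl Φ k B x) * dl Φ j A x * wt Φ x from by congr 1; ext x; ring, ← h']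
    congr 1; ext x; ring
  rw [e1]
  have e2 : ∀ x, A x * conj (dzb j (dl Φ k B) x) * wt Φ x
      = A x * conj (dl Φ k (dzb j B) x) * wt Φ x
        + A x * conj (dz k (dzb j (cx Φ)) x * B x) * wt Φ x := by
    intro x; rw [dzb_dl hΦ hB]; simp only [map_add]; ring
  simp_rw [e2]
  have hW := contDiff_wt hΦ
  have i1 : Integrable (fun x => A x * conj (dl Φ k (dzb j B) x) * wt Φ x) := by
    apply Continuous.integrable_of_hasCompactSupport
    · exact ((hA.mul (contDiff_conj_comp (contDiff_dl hΦ (contDiff_dzb hB j) k))).mul hW).continuous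
    · exact (hcA.mul_right).mul_right
  have i2 : Integrable (fun x => A x * conj (dz k (dzb j (cx Φ)) x * B x) * wt Φ x) := by
    apply Continuous.integrable_of_hasCompactSupport
    · exact ((hA.mul (contDiff_conj_comp ((contDiff_dz (contDiff_dzb (contDiff_ofReal_comp hΦ) j) k).mul hB))).mul hW).continuous
    · exact (hcA.mul_right).mul_right
  have i3 : Integrable (fun x => dzb k A x * conj (dzb j B x) * wt Φ x) := by
    apply Continuous.integrable_of_hasCompactSupport
    · exact (((contDiff_dzb hA k).mul (contDiff_conj_comp (contDiff_dzb hB j))).mul hW).continuous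
    · exact ((HasCompactSupport.dzb hcA k).mul_right).mul_right
  rw [integral_add i1 i2, integral_add i3 i2, adjoint_dzb hΦ hA (contDiff_dzb hB j) hcA]

end adj

end Pool.Agent.DBar74
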