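import Pool.Agent.DBar74.KMH

open MeasureTheory Complex
open scoped ContDiff ComplexConjugate

namespace Pool.Agent.DBar74

variable {n : ℕ}

/-- Real form of (four times) the Levi form. -/
noncomputable def Lev (k : (Fin n → ℂ) → ℝ) (x w : Fin n → ℂ) : ℝ :=
  fderiv ℝ (fderiv ℝ k) x w w + fderiv ℝ (fderiv ℝ k) x (I • w) (I • w)

/-- Four times the squared modulus of the holomorphic part of the differential. -/
noncomputable def Gam (k : (Fin n → ℂ) → ℝ) (x w : Fin n → ℂ) : ℝ :=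
  (fderiv ℝ k x w) ^ 2 + (fderiv ℝ k x (I • w)) ^ 2

lemma pi_decomp (w : Fin n → ℂ) :
    w = ∑ j, ((w j).re • (Pi.single j (1:ℂ) : Fin n → ℂ) + (w j).im • (Pi.single j I : Fin n → ℂ)) := by
  ext i
  simp only [Finset.sum_apply, Pi.add_apply, Pi.smul_apply]
  rw [Finset.sum_eq_single i]
  · simp only [Pi.single_eq_same, real_smul]; rw [mul_one]; exact (Complex.re_add_im (w i)).symm
  · intro b _ hb
    simp [Pi.single_eq_of_ne (Ne.symm hb)]
  · simp

lemma clm_apply_eq {V : Type*} [NormedAddCommGroup V] [NormedSpace ℝ V]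
    (T : (Fin n → ℂ) →L[ℝ] V) (w : Fin n → ℂ) :
    T w = ∑ j, ((w j).re • T (Pi.single j 1) + (w j).im • T (Pi.single j I)) := by
  conv_lhs => rw [pi_decomp w]
  simp only [map_sum, map_add, map_smul]

lemma sum_mul_dz (g : (Fin n → ℂ) → ℂ) (x w : Fin n → ℂ) :
    ∑ k, w k * dz k g x = (1 / 2) * (fderiv ℝ g x w - I * fderiv ℝ g x (I • w)) := by
  rw [clm_apply_eq (fderiv ℝ g x) w, clm_apply_eq (fderiv ℝ g x) (I • w), Finset.mul_sum,
    ← Finset.sum_sub_distrib, Finset.mul_sum]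
  refine Finset.sum_congr rfl fun k _ => ?_
  unfold dz
  simp only [Pi.smul_apply, smul_eq_mul, mul_re, mul_im, I_re, I_im, real_smul]
  conv_lhs => rw [← Complex.re_add_im (w k)]
  push_cast
  linear_combination (-(1/2 : ℂ) * (w k).im * fderiv ℝ g x (Pi.single k I)) * I_sq
   
lemma sum_conj_mul_dzb (g : (Fin n → ℂ) → ℂ) (x w : Fin n → ℂ) :
    ∑ k, conj (w k) * dzb k g x = (1 / 2) * (fderiv ℝ g x w + I * fderiv ℝ g x (I • w)) := by
  rw [clm_apply_eq (fderiv ℝ g x) w, clm_apply_eq (fderiv ℝ g x) (I • w), Finset.mul_sum,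
    ← Finset.sum_add_distrib, Finset.mul_sum]
  refine Finset.sum_congr rfl fun k _ => ?_
  unfold dzb
  simp only [Pi.smul_apply, smul_eq_mul, mul_re, mul_im, I_re, I_im, real_smul]
  have : conj (w k) = ((w k).re : ℂ) - (w k).im * I := by
    apply Complex.ext <;> simp
  rw [this]
  push_cast
  linear_combination (-(1/2 : ℂ) * (w k).im * fderiv ℝ g x (Pi.single k I)) * I_sq


lemma fderiv_cx {k : (Fin n → ℂ) → ℝ} {x : Fin n → ℂ} (hk : DifferentiableAt ℝ k x) (v : Fin n → ℂ) :
    fderiv ℝ (cx k) x v = ((fderiv ℝ k x v : ℝ) : ℂ) := fderiv_ofReal_comp hk v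

lemma fderiv2_cx {k : (Fin n → ℂ) → ℝ} {x : Fin n → ℂ} (hk : ContDiff ℝ ∞ k) (v w : Fin n → ℂ) :
    fderiv ℝ (fderiv ℝ (cx k)) x v w = ((fderiv ℝ (fderiv ℝ k) x v w : ℝ) : ℂ) := by
  rw [← fderiv_fderiv_apply (contDiff_ofReal_comp hk)]
  have : (fun y => fderiv ℝ (cx k) y w) = cx (fun y => fderiv ℝ k y w) := by
    ext y; exact fderiv_cx ((hk.differentiable (by simp)) y) w
  rw [this]
  have h2 : ContDiff ℝ ∞ (fun y => fderiv ℝ k y w) :=
    (hk.fderiv_right (m := ∞) (by simp)).clm_apply contDiff_const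
  rw [fderiv_cx ((h2.differentiable (by simp)) x)]
  have h : DifferentiableAt ℝ (fderiv ℝ k) x :=
    ((hk.fderiv_right (m := ∞) (by simp)).differentiable (by simp)) x
  have h3 := h.hasFDerivAt.clm_apply (hasFDerivAt_const w x)
  rw [h3.fderiv]; simp

/-- The contraction of the holomorphic differential with a vector. -/
lemma sum_dz_cx {k : (Fin n → ℂ) → ℝ} {x : Fin n → ℂ} (hk : DifferentiableAt ℝ k x)
    (w : Fin n → ℂ) :
    ∑ j, dz j (cx k) x * w j
      = (1 / 2) * (((fderiv ℝ k x w : ℝ) : ℂ) - I * ((fderiv ℝ k x (I • w) : ℝ) : ℂ)) := by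
  rw [← fderiv_cx hk, ← fderiv_cx hk, ← sum_mul_dz]
  exact Finset.sum_congr rfl fun j _ => mul_comm _ _

lemma normSq_sum_dz_cx {k : (Fin n → ℂ) → ℝ} {x : Fin n → ℂ} (hk : DifferentiableAt ℝ k x)
    (w : Fin n → ℂ) :
    ‖∑ j, dz j (cx k) x * w j‖ ^ 2 = (1 / 4) * Gam k x w := by
  rw [sum_dz_cx hk, ← Complex.normSq_eq_norm_sq]
  unfold Gam
  simp only [normSq_apply]
  simp
  ring

lemma sum_sum_levi {k : (Fin n → ℂ) → ℝ} {x : Fin n → ℂ} (hk : ContDiff ℝ ∞ k)
    (w : Fin n → ℂ) :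
    ∑ j, ∑ l, w j * conj (dz l (dzb j (cx k)) x * w l) = (((1 / 4) * Lev k x w : ℝ) : ℂ) := by
  have hc := contDiff_ofReal_comp hk
  have e1 : ∑ j, ∑ l, w j * conj (dz l (dzb j (cx k)) x * w l)
     = conj (∑ l, w l * dz l (fun y => ∑ j, conj (w j) * dzb j (cx k) y) x) := by
    have hs : ∀ l, dz l (fun y => ∑ j, conj (w j) * dzb j (cx k) y) x
        = ∑ j, conj (w j) * dz l (dzb j (cx k)) x := by
      intro l
      rw [dz_sum (F := fun j y => conj (w j) * dzb j (cx k) y)]
      · refine Finset.sum_congr rfl fun j _ => ?_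
        exact dz_const_mul _ (differentiable_of_smooth (contDiff_dzb hc j) x)
      · intro j _
        exact (differentiable_of_smooth (contDiff_dzb hc j) x).const_mul _
    simp_rw [hs, Finset.mul_sum]
    rw [Finset.sum_comm, map_sum]
    refine Finset.sum_congr rfl fun l _ => ?_
    rw [map_sum]
    refine Finset.sum_congr rfl fun j _ => ?_
    simp only [map_mul, Complex.conj_conj]
    ring
  rw [e1, sum_mul_dz]
  have e2 : (fun y => ∑ j, conj (w j) * dzb j (cx k) y)
      = fun y => (1 / 2) * (fderiv ℝ (cx k) y w + I * fderiv ℝ (cx k) y (I • w)) := by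
    ext y; exact sum_conj_mul_dzb _ _ _
  rw [e2]
  have h1 : ∀ w : Fin n → ℂ, DifferentiableAt ℝ (fun y => fderiv ℝ (cx k) y w) x := fun w =>
    ((contDiff_fderiv_apply hc w).differentiable (by simp)) x
  have h : ∀ v, fderiv ℝ (fun y => (1 / 2) * (fderiv ℝ (cx k) y w + I * fderiv ℝ (cx k) y (I • w))) x v
      = (1/2) * (((fderiv ℝ (fderiv ℝ k) x v w : ℝ) : ℂ)
          + I * ((fderiv ℝ (fderiv ℝ k) x v (I • w) : ℝ) : ℂ)) := by
    intro v
    have := (((h1 w).hasFDerivAt).add (((h1 (I • w)).hasFDerivAt).const_mul I)).const_mul (1/2 : ℂ)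
    rw [HasFDerivAt.fderiv (by exact this)]
    simp only [smul_apply, add_apply, smul_eq_mul, fderiv_fderiv_apply hc, fderiv2_cx hk]
  rw [h, h]
  have hsym : fderiv ℝ (fderiv ℝ k) x w (I • w) = fderiv ℝ (fderiv ℝ k) x (I • w) w := by
    have h : IsSymmSndFDerivAt ℝ k x := by
      apply (hk.contDiffAt (x := x)).isSymmSndFDerivAt
      simp only [minSmoothness_of_isRCLikeNormedField]
      exact WithTop.coe_le_coe.2 le_top
    exact h _ _
  rw [hsym]
  unfold Lev
  simp only [map_mul, map_sub, map_add, conj_I, conj_ofReal, map_div₀, map_one, map_ofNat]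
  push_cast
  linear_combination (-(1/4 : ℂ) * (fderiv ℝ (fderiv ℝ k) x (I • w) (I • w) : ℝ)) * I_sq


lemma sum_swap_identity (a : Fin n → Fin n → ℂ) :
    ∑ j, ∑ k, a j k * conj (a k j)
      = ((∑ j, ∑ k, ‖a j k‖ ^ 2 - (1 / 2) * ∑ j, ∑ k, ‖a k j - a j k‖ ^ 2 : ℝ) : ℂ) := by
  have hn : ∀ z : ℂ, ((‖z‖ ^ 2 : ℝ) : ℂ) = z * conj z := by
    intro z; rw [Complex.mul_conj, Complex.normSq_eq_norm_sq]
  have e1 : ((∑ j, ∑ k, ‖a k j - a j k‖ ^ 2 : ℝ) : ℂ)
      = 2 * ∑ j, ∑ k, a j k * conj (a j k) - 2 * ∑ j, ∑ k, a j k * conj (a k j) := by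
    push_cast
    have : ∀ j k, ((‖a k j - a j k‖ : ℝ) : ℂ) ^ 2
        = a k j * conj (a k j) + a j k * conj (a j k) - a k j * conj (a j k)
          - a j k * conj (a k j) := by
      intro j k
      rw [← Complex.ofReal_pow, hn, map_sub]; ring
    simp_rw [this, Finset.sum_sub_distrib, Finset.sum_add_distrib]
    rw [Finset.sum_comm (f := fun j k => a k j * conj (a k j)),
      Finset.sum_comm (f := fun j k => a k j * conj (a j k))]
    ring
  have e2 : ((∑ j, ∑ k, ‖a j k‖ ^ 2 : ℝ) : ℂ) = ∑ j, ∑ k, a j k * conj (a j k) := by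
    push_cast
    refine Finset.sum_congr rfl fun j _ => Finset.sum_congr rfl fun k _ => ?_
    rw [← Complex.ofReal_pow, hn]
  rw [Complex.ofReal_sub, Complex.ofReal_mul, e1, e2]
  push_cast
  ring

section kmh

variable {Φ : (Fin n → ℂ) → ℝ} {F : Fin n → (Fin n → ℂ) → ℂ}

theorem kmh (hΦ : ContDiff ℝ ∞ Φ) (hF : ∀ j, ContDiff ℝ ∞ (F j))
    (hc : ∀ j, HasCompactSupport (F j)) :
    ∫ x, ((∑ j, ∑ k, ‖dzb k (F j) x‖ ^ 2) + (1 / 4) * Lev Φ x (fun j => F j x)) * Real.exp (-Φ x)
     = ∫ x, (‖∑ j, dl Φ j (F j) x‖ ^ 2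
        + (1 / 2) * ∑ j, ∑ k, ‖dzb j (F k) x - dzb k (F j) x‖ ^ 2) * Real.exp (-Φ x) := by
  have hW := contDiff_wt hΦ
  have hd : ∀ j k, ContDiff ℝ ∞ (dzb k (F j)) := fun j k => contDiff_dzb (hF j) k
  have hdc : ∀ j k, HasCompactSupport (dzb k (F j)) := fun j k => HasCompactSupport.dzb (hc j) k
  have hl : ∀ j, ContDiff ℝ ∞ (dl Φ j (F j)) := fun j => contDiff_dl hΦ (hF j) j
  have hlc : ∀ j, HasCompactSupport (dl Φ j (F j)) := fun j => hasCompactSupport_dl (hc j) j
  have hexp : ContDiff ℝ ∞ (fun x => Real.exp (-Φ x)) := Real.contDiff_exp.comp hΦ.neg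
  -- the complex identity
  have h1 : ∫ x, (∑ j, ∑ k, dl Φ j (F j) x * conj (dl Φ k (F k) x)) * wt Φ x
      = ∫ x, (∑ j, ∑ k, (dzb k (F j) x * conj (dzb j (F k) x)
        + F j x * conj (dz k (dzb j (cx Φ)) x * F k x))) * wt Φ x := by
    simp_rw [Finset.sum_mul]
    rw [integral_finsetSum, integral_finsetSum]
    · refine Finset.sum_congr rfl fun j _ => ?_
      rw [integral_finsetSum, integral_finsetSum]
      · refine Finset.sum_congr rfl fun k _ => ?_
        rw [pair_identity hΦ (hF j) (hF k) (hc j) (hc k)]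
        congr 1; ext x; ring
      · intro k _
        apply Continuous.integrable_of_hasCompactSupport
        · exact ((((hd j k).mul (contDiff_conj_comp (hd k j))).add ((hF j).mul (contDiff_conj_comp
            ((contDiff_dz (contDiff_dzb (contDiff_ofReal_comp hΦ) j) k).mul (hF k))))).mul hW).continuous
        · exact (((hdc j k).mul_right).add ((hc j).mul_right)).mul_right
      · intro k _
        apply Continuous.integrable_of_hasCompactSupport
        · exact (((hl j).mul (contDiff_conj_comp (hl k))).mul hW).continuous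
        · exact ((hlc j).mul_right).mul_right
    · intro j _
      apply integrable_finsetSum
      intro k _
      apply Continuous.integrable_of_hasCompactSupport
      · exact ((((hd j k).mul (contDiff_conj_comp (hd k j))).add ((hF j).mul (contDiff_conj_comp
          ((contDiff_dz (contDiff_dzb (contDiff_ofReal_comp hΦ) j) k).mul (hF k))))).mul hW).continuous
      · exact (((hdc j k).mul_right).add ((hc j).mul_right)).mul_right
    · intro j _
      apply integrable_finsetSum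
      intro k _
      apply Continuous.integrable_of_hasCompactSupport
      · exact (((hl j).mul (contDiff_conj_comp (hl k))).mul hW).continuous
      · exact ((hlc j).mul_right).mul_right
  -- pointwise forms
  have p1 : ∀ x, (∑ j, ∑ k, dl Φ j (F j) x * conj (dl Φ k (F k) x)) * wt Φ x
      = ((‖∑ j, dl Φ j (F j) x‖ ^ 2 * Real.exp (-Φ x) : ℝ) : ℂ) := by
    intro x
    rw [Complex.ofReal_mul, ← Complex.normSq_eq_norm_sq, ← Complex.mul_conj, map_sum,
      Finset.sum_mul_sum]
    rfl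
  have p2 : ∀ x, (∑ j, ∑ k, (dzb k (F j) x * conj (dzb j (F k) x)
        + F j x * conj (dz k (dzb j (cx Φ)) x * F k x))) * wt Φ x
      = ((((∑ j, ∑ k, ‖dzb k (F j) x‖ ^ 2 - (1 / 2) * ∑ j, ∑ k, ‖dzb j (F k) x - dzb k (F j) x‖ ^ 2)
        + (1 / 4) * Lev Φ x (fun j => F j x)) * Real.exp (-Φ x) : ℝ) : ℂ) := by
    intro x
    have q1 := sum_swap_identity (fun j k => dzb k (F j) x)
    have q2 := sum_sum_levi (x := x) hΦ (fun j => F j x)
    simp_rw [Finset.sum_add_distrib]
    rw [q1, q2, ← Complex.ofReal_add]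
    unfold wt
    rw [← Complex.ofReal_mul]
  simp_rw [p1, p2] at h1
  rw [integral_complex_ofReal, integral_complex_ofReal] at h1
  have h2 := Complex.ofReal_injective h1
  have hcn : ∀ (g : (Fin n → ℂ) → ℂ), ContDiff ℝ ∞ g → Continuous (fun x => ‖g x‖ ^ 2) :=
    fun g hg => (hg.continuous.norm).pow 2
  have hS : Integrable (fun x => (1 / 2) * (∑ j, ∑ k, ‖dzb j (F k) x - dzb k (F j) x‖ ^ 2)
      * Real.exp (-Φ x)) := by
    have : (fun x => (1 / 2) * (∑ j, ∑ k, ‖dzb j (F k) x - dzb k (F j) x‖ ^ 2) * Real.exp (-Φ x))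
      = fun x => ∑ j, ∑ k, (1 / 2) * (‖dzb j (F k) x - dzb k (F j) x‖ ^ 2 * Real.exp (-Φ x)) := by
      ext x; simp_rw [← Finset.mul_sum, ← Finset.sum_mul]; ring
    rw [this]
    apply integrable_finsetSum; intro j _
    apply integrable_finsetSum; intro k _
    apply Integrable.const_mul
    apply Continuous.integrable_of_hasCompactSupport
    · exact (hcn _ ((hd k j).sub (hd j k))).mul hexp.continuous
    · apply HasCompactSupport.mul_right
      have := ((hdc k j).sub (hdc j k)).norm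
      exact this.comp_left (g := fun t : ℝ => t ^ 2) (by simp)
  have hL : Integrable (fun x => ((∑ j, ∑ k, ‖dzb k (F j) x‖ ^ 2
      - (1 / 2) * ∑ j, ∑ k, ‖dzb j (F k) x - dzb k (F j) x‖ ^ 2)
        + (1 / 4) * Lev Φ x (fun j => F j x)) * Real.exp (-Φ x)) := by
    have hi : Integrable (fun x => (∑ j, ∑ k, (dzb k (F j) x * conj (dzb j (F k) x)
        + F j x * conj (dz k (dzb j (cx Φ)) x * F k x))) * wt Φ x) := by
      simp_rw [Finset.sum_mul]
      apply integrable_finsetSum; intro j _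
      apply integrable_finsetSum; intro k _
      apply Continuous.integrable_of_hasCompactSupport
      · exact ((((hd j k).mul (contDiff_conj_comp (hd k j))).add ((hF j).mul (contDiff_conj_comp
            ((contDiff_dz (contDiff_dzb (contDiff_ofReal_comp hΦ) j) k).mul (hF k))))).mul hW).continuous
      · exact (((hdc j k).mul_right).add ((hc j).mul_right)).mul_right
    simp_rw [p2] at hi
    have hr := hi.re
    simpa only [RCLike.re_to_complex, Complex.ofReal_re] using hr
  have hD : Integrable (fun x => ‖∑ j, dl Φ j (F j) x‖ ^ 2 * Real.exp (-Φ x)) := by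
    have hi : Integrable (fun x => (∑ j, ∑ k, dl Φ j (F j) x * conj (dl Φ k (F k) x)) * wt Φ x) := by
      simp_rw [Finset.sum_mul]
      apply integrable_finsetSum; intro j _
      apply integrable_finsetSum; intro k _
      apply Continuous.integrable_of_hasCompactSupport
      · exact (((hl j).mul (contDiff_conj_comp (hl k))).mul hW).continuous
      · exact ((hlc j).mul_right).mul_right
    simp_rw [p1] at hi
    have hr := hi.re
    simpa only [RCLike.re_to_complex, Complex.ofReal_re] using hr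
  calc ∫ x, ((∑ j, ∑ k, ‖dzb k (F j) x‖ ^ 2) + (1 / 4) * Lev Φ x (fun j => F j x)) * Real.exp (-Φ x)
      = ∫ x, ((((∑ j, ∑ k, ‖dzb k (F j) x‖ ^ 2
          - (1 / 2) * ∑ j, ∑ k, ‖dzb j (F k) x - dzb k (F j) x‖ ^ 2)
        + (1 / 4) * Lev Φ x (fun j => F j x)) * Real.exp (-Φ x))
        + (1 / 2) * (∑ j, ∑ k, ‖dzb j (F k) x - dzb k (F j) x‖ ^ 2) * Real.exp (-Φ x)) := by
        congr 1; ext x; ring
    _ = _ := by rw [integral_add hL hS, ← h2, ← integral_add hD hS]; congr 1; ext x; ring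

end kmh

end Pool.Agent.DBar74
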