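import Pool.Agent.DBar74.Hilbert2

open Filter Topology
open scoped InnerProductSpace

namespace Pool.Agent.DBar74

section limit

variable {H1 H2 H3 : Type*}
  [NormedAddCommGroup H1] [InnerProductSpace ℂ H1] [CompleteSpace H1]
  [NormedAddCommGroup H2] [InnerProductSpace ℂ H2] [CompleteSpace H2]
  [NormedAddCommGroup H3] [InnerProductSpace ℂ H3] [CompleteSpace H3]

/-- The abstract complex Laplace relation. -/
def Box (T : Submodule ℂ (H1 × H2)) (S : Submodule ℂ (H2 × H3)) (f γ : H2) : Prop :=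
  ∃ u h γ1 γ2, (f, u) ∈ AdjRel T ∧ (f, h) ∈ S ∧ (u, γ1) ∈ T ∧ (h, γ2) ∈ AdjRel S ∧ γ = γ1 + γ2

/-- weak convergence along an ultrafilter -/
def WLim {H : Type*} [NormedAddCommGroup H] [InnerProductSpace ℂ H] (U : Ultrafilter ℕ)
    (x : ℕ → H) (y : H) : Prop := ∀ z, Tendsto (fun n => ⟪x n, z⟫_ℂ) U (𝓝 ⟪y, z⟫_ℂ)

omit [CompleteSpace H1] in
lemma WLim.inner_tendsto {U : Ultrafilter ℕ} {x : ℕ → H1} {y : H1} (h : WLim U x y) {C : ℝ}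
    (hx : ∀ n, ‖x n‖ ≤ C) {v : ℕ → H1} {v0 : H1} (hv : Tendsto v atTop (𝓝 v0))
    (hU : (U : Filter ℕ) ≤ atTop) :
    Tendsto (fun n => ⟪x n, v n⟫_ℂ) U (𝓝 ⟪y, v0⟫_ℂ) := by
  have h1 : Tendsto (fun n => ⟪x n, v n - v0⟫_ℂ) U (𝓝 0) := by
    have hv' : Tendsto (fun n => ‖v n - v0‖) U (𝓝 0) :=
      (tendsto_iff_norm_sub_tendsto_zero.1 hv).mono_left hU
    have h2 : Tendsto (fun n => C * ‖v n - v0‖) U (𝓝 0) := by
      simpa using hv'.const_mul C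
    refine squeeze_zero_norm (fun n => ?_) h2
    exact (norm_inner_le_norm _ _).trans (mul_le_mul_of_nonneg_right (hx n) (norm_nonneg _))
  have h3 := h1.add (h v0)
  rw [zero_add] at h3
  refine h3.congr fun n => ?_
  rw [← inner_add_right]; congr 1; abel

omit [CompleteSpace H1] in
lemma WLim.norm_sq_le {U : Ultrafilter ℕ} {x : ℕ → H1} {y : H1} (h : WLim U x y)
    {a : ℕ → ℝ} {a0 : ℝ} (ha : Tendsto a U (𝓝 a0)) (hle : ∀ᶠ n in (U : Filter ℕ), ‖x n‖ ^ 2 ≤ a n) :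
    ‖y‖ ^ 2 ≤ a0 := by
  have h1 : Tendsto (fun n => 2 * (⟪x n, y⟫_ℂ).re - ‖y‖ ^ 2) U
      (𝓝 (2 * (⟪y, y⟫_ℂ).re - ‖y‖ ^ 2)) :=
    ((((Complex.continuous_re.tendsto _).comp (h y)).const_mul 2).sub_const _)
  have h2 : (⟪y, y⟫_ℂ).re = ‖y‖ ^ 2 := by
    rw [inner_self_eq_norm_sq_to_K]; norm_cast
  have h3 : 2 * (⟪y, y⟫_ℂ).re - ‖y‖ ^ 2 = ‖y‖ ^ 2 := by rw [h2]; ring
  rw [h3] at h1
  refine le_of_tendsto_of_tendsto h1 ha ?_
  filter_upwards [hle] with n hn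
  have h4 : (⟪x n, y⟫_ℂ).re ≤ ‖x n‖ * ‖y‖ := (Complex.re_le_norm _).trans (norm_inner_le_norm _ _)
  nlinarith [sq_nonneg (‖x n‖ - ‖y‖)]

variable (T : Submodule ℂ (H1 × H2)) (S : Submodule ℂ (H2 × H3))
  (Tn : ℕ → Submodule ℂ (H1 × H2)) (Sn : ℕ → Submodule ℂ (H2 × H3))

/-- existence of solutions with estimates -/
theorem box_exists {C : ℝ} (hC : 0 ≤ C)
    (hTn : ∀ n, IsClosed (Tn n : Set (H1 × H2))) (hSn : ∀ n, IsClosed (Sn n : Set (H2 × H3)))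
    (hSTn : ∀ n, ∀ p ∈ Tn n, (p.2, (0 : H3)) ∈ Sn n)
    (hest : ∀ n f u h, (f, u) ∈ AdjRel (Tn n) → (f, h) ∈ Sn n → ‖f‖ ^ 2 ≤ C * (‖u‖ ^ 2 + ‖h‖ ^ 2))
    (hTap : ∀ p ∈ T, ∃ q : ℕ → H1 × H2, (∀ n, q n ∈ Tn n) ∧ Tendsto (fun n => (q n).1) atTop (𝓝 p.1)
      ∧ Tendsto (fun n => (q n).2) atTop (𝓝 p.2))
    (hSap : ∀ p ∈ S, ∃ q : ℕ → H2 × H3, (∀ n, q n ∈ Sn n) ∧ Tendsto (fun n => (q n).1) atTop (𝓝 p.1)
      ∧ Tendsto (fun n => (q n).2) atTop (𝓝 p.2))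
    (hTl : ∀ (U : Ultrafilter ℕ), (U : Filter ℕ) ≤ atTop → ∀ (x : ℕ → H1) (y : ℕ → H2) x0 y0,
      (∀ n, (x n, y n) ∈ Tn n) → WLim U x x0 → WLim U y y0 → (x0, y0) ∈ T)
    (hSl : ∀ (U : Ultrafilter ℕ), (U : Filter ℕ) ≤ atTop → ∀ (x : ℕ → H2) (y : ℕ → H3) x0 y0,
      (∀ n, (x n, y n) ∈ Sn n) → WLim U x x0 → WLim U y y0 → (x0, y0) ∈ S) (γ : H2) :
    ∃ f, Box T S f γ ∧ ‖f‖ ≤ C * ‖γ‖ ∧
      ∀ (ε : ℝ) (m : ℕ) (l : Fin m → (H2 →L[ℂ] ℂ)),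
        (∀ᶠ n in atTop, ∀ f u h, (f, u) ∈ AdjRel (Tn n) → (f, h) ∈ Sn n →
          ‖f‖ ^ 2 ≤ ε * (‖u‖ ^ 2 + ‖h‖ ^ 2) + ∑ i, ‖l i f‖ ^ 2) →
        ‖f‖ ^ 2 ≤ ε * (⟪f, γ⟫_ℂ).re + ∑ i, ‖l i f‖ ^ 2 := by
  choose f u h γ1 γ2 hfu hfh hu hh hγ hen hγ1 hγ2 using fun n =>
    abstract_box (Tn n) (Sn n) (hTn n) (hSn n) (hSTn n) hC (hest n) γ
  have hf : ∀ n, ‖f n‖ ≤ C * ‖γ‖ := by
    intro n
    have h1 := hest n _ _ _ (hfu n) (hfh n)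
    rw [hen n] at h1
    have h2 : (⟪f n, γ⟫_ℂ).re ≤ ‖f n‖ * ‖γ‖ := (Complex.re_le_norm _).trans (norm_inner_le_norm _ _)
    have h3 : ‖f n‖ ^ 2 ≤ C * (‖f n‖ * ‖γ‖) := h1.trans (mul_le_mul_of_nonneg_left h2 hC)
    by_cases h0 : 0 < ‖f n‖
    · nlinarith
    · have : ‖f n‖ = 0 := le_antisymm (not_lt.1 h0) (norm_nonneg _)
      rw [this]; positivity
  have huh : ∀ n, ‖u n‖ ^ 2 + ‖h n‖ ^ 2 ≤ C * ‖γ‖ ^ 2 := by
    intro n
    rw [hen n]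
    have h2 : (⟪f n, γ⟫_ℂ).re ≤ ‖f n‖ * ‖γ‖ := (Complex.re_le_norm _).trans (norm_inner_le_norm _ _)
    have := mul_le_mul_of_nonneg_right (hf n) (norm_nonneg γ)
    nlinarith
  have hD : (0:ℝ) ≤ C * ‖γ‖ ^ 2 := by positivity
  have hu' : ∀ n, ‖u n‖ ≤ Real.sqrt (C * ‖γ‖ ^ 2) := by
    intro n
    apply Real.le_sqrt_of_sq_le
    have := huh n
    nlinarith [sq_nonneg ‖h n‖]
  have hh' : ∀ n, ‖h n‖ ≤ Real.sqrt (C * ‖γ‖ ^ 2) := by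
    intro n
    apply Real.le_sqrt_of_sq_le
    have := huh n
    nlinarith [sq_nonneg ‖u n‖]
  let U : Ultrafilter ℕ := Ultrafilter.of atTop
  have hU : (U : Filter ℕ) ≤ atTop := Ultrafilter.of_le atTop
  obtain ⟨f0, hf0⟩ := exists_weak_limit hf U
  obtain ⟨u0, hu0⟩ := exists_weak_limit hu' U
  obtain ⟨h0, hh0⟩ := exists_weak_limit hh' U
  obtain ⟨g1, hg1⟩ := exists_weak_limit hγ1 U
  obtain ⟨g2, hg2⟩ := exists_weak_limit hγ2 U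
  refine ⟨f0, ⟨u0, h0, g1, g2, ?_, ?_, ?_, ?_, ?_⟩, ?_, ?_⟩
  · intro p hp
    obtain ⟨q, hq, hq1, hq2⟩ := hTap p hp
    have a1 := WLim.inner_tendsto (U := U) hu0 hu' hq1 hU
    have a2 := WLim.inner_tendsto (U := U) hf0 hf hq2 hU
    refine tendsto_nhds_unique a1 (a2.congr fun n => ?_)
    exact (hfu n _ (hq n)).symm
  · exact hSl U hU f h f0 h0 hfh hf0 hh0
  · exact hTl U hU u γ1 u0 g1 hu hu0 hg1
  · intro p hp
    obtain ⟨q, hq, hq1, hq2⟩ := hSap p hp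
    have a1 := WLim.inner_tendsto (U := U) hg2 hγ2 hq1 hU
    have a2 := WLim.inner_tendsto (U := U) hh0 hh' hq2 hU
    refine tendsto_nhds_unique a1 (a2.congr fun n => ?_)
    exact (hh n _ (hq n)).symm
  · refine ext_inner_right ℂ fun z => ?_
    have a1 := (hg1 z).add (hg2 z)
    rw [inner_add_left]
    refine tendsto_nhds_unique (f := fun _ : ℕ => ⟪γ, z⟫_ℂ) (l := (U : Filter ℕ))
      tendsto_const_nhds (a1.congr fun n => ?_)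
    rw [← inner_add_left, ← hγ n]
  · have h1 : ‖f0‖ ^ 2 ≤ (C * ‖γ‖) ^ 2 := by
      refine WLim.norm_sq_le (U := U) hf0 (a := fun _ => (C * ‖γ‖) ^ 2) tendsto_const_nhds
        (Eventually.of_forall fun n => ?_)
      exact pow_le_pow_left₀ (norm_nonneg _) (hf n) 2
    exact le_of_sq_le_sq h1 (by positivity)
  · intro ε m l hl
    have hl' := hU hl
    refine WLim.norm_sq_le (U := U) hf0 (a := fun n => ε * (⟪f n, γ⟫_ℂ).re + ∑ i, ‖l i (f n)‖ ^ 2)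
      ?_ ?_
    · refine Tendsto.add ?_ ?_
      · exact ((Complex.continuous_re.tendsto _).comp (hf0 γ)).const_mul ε
      · refine tendsto_finsetSum _ fun i _ => ?_
        have hr : ∀ x, l i x = ⟪(InnerProductSpace.toDual ℂ H2).symm (l i), x⟫_ℂ := fun x =>
          (InnerProductSpace.toDual_symm_apply).symm
        have hnorm : ∀ x, ‖l i x‖ = ‖⟪x, (InnerProductSpace.toDual ℂ H2).symm (l i)⟫_ℂ‖ := fun x => by
          rw [hr, norm_inner_symm]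
        simp_rw [hnorm]
        exact ((hf0 _).norm).pow 2
    · filter_upwards [hl'] with n hn
      have := hn (f n) (u n) (h n) (hfu n) (hfh n)
      rwa [hen n] at this

/-- uniqueness -/
lemma box_unique (hST : ∀ p ∈ T, (p.2, (0 : H3)) ∈ S)
    (hex : ∀ γ : H2, ∃ f, Box T S f γ) {f : H2} (hf : Box T S f 0) : f = 0 := by
  obtain ⟨u, h, γ1, γ2, hfu, hfh, hu, hh, hγ⟩ := hf
  -- γ1 and γ2 are orthogonal
  have h1 : ⟪γ2, γ1⟫_ℂ = 0 := by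
    have := hh _ (hST _ hu)
    simpa using this
  have h2 : γ1 = -γ2 := by
    have := hγ.symm
    exact eq_neg_of_add_eq_zero_left this
  have h3 : γ2 = 0 := by
    rw [h2, inner_neg_right, neg_eq_zero, inner_self_eq_zero] at h1
    exact h1
  have h4 : γ1 = 0 := by rw [h2, h3, neg_zero]
  subst h3 h4
  have hu0 : u = 0 := by
    have := hfu _ hu
    simp only [inner_zero_right] at this
    exact inner_self_eq_zero.1 this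
  have hh0 : h = 0 := by
    have := hh _ hfh
    simp only [inner_zero_left] at this
    exact inner_self_eq_zero.1 this.symm
  subst hu0 hh0
  obtain ⟨g, u', h', γ1, γ2, hgu, hgh, hu', hh', hγ'⟩ := hex f
  have a1 : ⟪f, γ1⟫_ℂ = 0 := by
    have := hfu _ hu'
    simp only [inner_zero_left] at this
    exact this.symm
  have a2 : ⟪γ2, f⟫_ℂ = 0 := by
    have := hh' _ hfh
    simpa using this
  have a3 : ⟪f, γ2⟫_ℂ = 0 := by rw [← inner_conj_symm, a2]; simp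
  have : ⟪f, f⟫_ℂ = 0 := by
    conv_lhs => rw [hγ']
    rw [← hγ']
    nth_rewrite 2 [hγ']
    rw [inner_add_right, a1, a3, add_zero]
  exact inner_self_eq_zero.1 this

lemma Box.sub {f γ f' γ' : H2} (h1 : Box T S f γ) (h2 : Box T S f' γ') :
    Box T S (f - f') (γ - γ') := by
  obtain ⟨u, h, γ1, γ2, a, b, c, d, e⟩ := h1
  obtain ⟨u', h', γ1', γ2', a', b', c', d', e'⟩ := h2
  refine ⟨u - u', h - h', γ1 - γ1', γ2 - γ2', (AdjRel T).sub_mem a a', S.sub_mem b b',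
    T.sub_mem c c', (AdjRel S).sub_mem d d', ?_⟩
  rw [e, e']; abel

lemma Box.add {f γ f' γ' : H2} (h1 : Box T S f γ) (h2 : Box T S f' γ') :
    Box T S (f + f') (γ + γ') := by
  obtain ⟨u, h, γ1, γ2, a, b, c, d, e⟩ := h1
  obtain ⟨u', h', γ1', γ2', a', b', c', d', e'⟩ := h2
  refine ⟨u + u', h + h', γ1 + γ1', γ2 + γ2', (AdjRel T).add_mem a a', S.add_mem b b',
    T.add_mem c c', (AdjRel S).add_mem d d', ?_⟩
  rw [e, e']; abel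

lemma Box.smul {f γ : H2} (c : ℂ) (h1 : Box T S f γ) : Box T S (c • f) (c • γ) := by
  obtain ⟨u, h, γ1, γ2, a, b, d, e, g⟩ := h1
  refine ⟨c • u, c • h, c • γ1, c • γ2, (AdjRel T).smul_mem c a, S.smul_mem c b,
    T.smul_mem c d, (AdjRel S).smul_mem c e, ?_⟩
  rw [g, smul_add]

theorem neumann_exists {C : ℝ} (hC : 0 ≤ C) (hST : ∀ p ∈ T, (p.2, (0 : H3)) ∈ S)
    (hTn : ∀ n, IsClosed (Tn n : Set (H1 × H2))) (hSn : ∀ n, IsClosed (Sn n : Set (H2 × H3)))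
    (hSTn : ∀ n, ∀ p ∈ Tn n, (p.2, (0 : H3)) ∈ Sn n)
    (hest : ∀ n f u h, (f, u) ∈ AdjRel (Tn n) → (f, h) ∈ Sn n → ‖f‖ ^ 2 ≤ C * (‖u‖ ^ 2 + ‖h‖ ^ 2))
    (hTap : ∀ p ∈ T, ∃ q : ℕ → H1 × H2, (∀ n, q n ∈ Tn n) ∧ Tendsto (fun n => (q n).1) atTop (𝓝 p.1)
      ∧ Tendsto (fun n => (q n).2) atTop (𝓝 p.2))
    (hSap : ∀ p ∈ S, ∃ q : ℕ → H2 × H3, (∀ n, q n ∈ Sn n) ∧ Tendsto (fun n => (q n).1) atTop (𝓝 p.1)
      ∧ Tendsto (fun n => (q n).2) atTop (𝓝 p.2))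
    (hTl : ∀ (U : Ultrafilter ℕ), (U : Filter ℕ) ≤ atTop → ∀ (x : ℕ → H1) (y : ℕ → H2) x0 y0,
      (∀ n, (x n, y n) ∈ Tn n) → WLim U x x0 → WLim U y y0 → (x0, y0) ∈ T)
    (hSl : ∀ (U : Ultrafilter ℕ), (U : Filter ℕ) ≤ atTop → ∀ (x : ℕ → H2) (y : ℕ → H3) x0 y0,
      (∀ n, (x n, y n) ∈ Sn n) → WLim U x x0 → WLim U y y0 → (x0, y0) ∈ S)
    (hcomp : ∀ ε > 0, ∃ (m : ℕ) (l : Fin m → (H2 →L[ℂ] ℂ)),
        ∀ᶠ n in atTop, ∀ f u h, (f, u) ∈ AdjRel (Tn n) → (f, h) ∈ Sn n →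
          ‖f‖ ^ 2 ≤ ε * (‖u‖ ^ 2 + ‖h‖ ^ 2) + ∑ i, ‖l i f‖ ^ 2) :
    ∃ N : H2 →L[ℂ] H2, (∀ f γ, N γ = f ↔ Box T S f γ) ∧ IsCompactOperator N := by
  have hex := box_exists T S Tn Sn hC hTn hSn hSTn hest hTap hSap hTl hSl
  choose G hG1 hG2 hG3 using hex
  have huniq : ∀ {f γ}, Box T S f γ → G γ = f := by
    intro f γ h
    have h1 := Box.sub T S (hG1 γ) h
    rw [sub_self] at h1
    exact sub_eq_zero.1 (box_unique T S hST (fun γ => ⟨G γ, hG1 γ⟩) h1)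
  let L : H2 →ₗ[ℂ] H2 :=
    { toFun := G
      map_add' := fun a b => huniq (Box.add T S (hG1 a) (hG1 b))
      map_smul' := fun c a => huniq (Box.smul T S c (hG1 a)) }
  let N : H2 →L[ℂ] H2 := L.mkContinuous C hG2
  have hN : ∀ γ, N γ = G γ := fun γ => rfl
  refine ⟨N, ?_, ?_⟩
  · intro f γ
    rw [hN]
    constructor
    · rintro rfl; exact hG1 γ
    · exact huniq
  · apply isCompactOperator_of_estimate
    intro ε hε
    obtain ⟨m, l, hl⟩ := hcomp (ε / (C + 1)) (by positivity)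
    refine ⟨m, l, fun γ => ?_⟩
    rw [hN]
    have h1 := hG3 γ _ m l hl
    have h2 : (⟪G γ, γ⟫_ℂ).re ≤ C * ‖γ‖ ^ 2 := by
      refine (Complex.re_le_norm _).trans ((norm_inner_le_norm _ _).trans ?_)
      have := mul_le_mul_of_nonneg_right (hG2 γ) (norm_nonneg γ)
      nlinarith
    have h3 : ε / (C + 1) * (⟪G γ, γ⟫_ℂ).re ≤ ε * ‖γ‖ ^ 2 := by
      have h4 : ε / (C + 1) * (⟪G γ, γ⟫_ℂ).re ≤ ε / (C + 1) * (C * ‖γ‖ ^ 2) :=
        mul_le_mul_of_nonneg_left h2 (by positivity)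
      refine h4.trans ?_
      rw [div_mul_eq_mul_div, div_le_iff₀ (by linarith)]
      have : 0 ≤ ε * ‖γ‖ ^ 2 := by positivity
      nlinarith
    linarith

end limit

end Pool.Agent.DBar74
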