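import Pool.Agent.DBar74.Compact

open MeasureTheory Filter Topology Complex
open scoped ENNReal ContDiff ComplexConjugate

namespace Pool.Agent.DBar74

variable {n : ℕ}

section main

variable {r : (Fin n → ℂ) → ℝ} {e : Fin n} {C1 : ℝ} {k : ℕ} {F : Fin n → (Fin n → ℂ) → ℂ}
  {st : (Fin n → ℂ) → ℝ}

/-- the compactness estimate with finitely many functionals -/
theorem GoodDef.est_E (h : GoodDef r e) (hC : 0 < C1) {ε : ℝ} (hε : 0 < ε) :
    ∃ (m : ℕ) (l : Fin m → (Form1 (Om r) →L[ℂ] ℂ)), ∀ᶠ k : ℕ in atTop,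
      ∀ F : Fin n → (Fin n → ℂ) → ℂ, (∀ j, IsTest (Om r) (F j)) →
      ‖(tTrip (Om r) (wB1 r C1 k) (wB2 r C1 k) (wB3 r C1 k) F).1‖ ^ 2
      ≤ ε * (‖(tTrip (Om r) (wB1 r C1 k) (wB2 r C1 k) (wB3 r C1 k) F).2.1‖ ^ 2
        + ‖(tTrip (Om r) (wB1 r C1 k) (wB2 r C1 k) (wB3 r C1 k) F).2.2‖ ^ 2)
        + ∑ i, ‖l i (tTrip (Om r) (wB1 r C1 k) (wB2 r C1 k) (wB3 r C1 k) F).1‖ ^ 2 := by
  obtain ⟨ζ, D, hD, hζt, hζs, hζ01, hsmall⟩ := h.small_est hC (ε := ε / 4) (by positivity)
  set K1 : Set (Fin n → ℂ) := tsupport (cx ζ) with hK1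
  have hK1c : IsCompact K1 := hζt.2.1
  have hK1Ω : K1 ⊆ Om r := hζt.2.2
  -- bound of the derivative of the cut off
  obtain ⟨Z, hZ0, hZ⟩ : ∃ Z, 0 ≤ Z ∧ ∀ x, ∀ i, ‖dzb i (cx ζ) x‖ ^ 2 ≤ Z := by
    have hcont : Continuous (fun x => ∑ i, ‖dzb i (cx ζ) x‖ ^ 2) :=
      continuous_finsetSum _ fun i _ => ((contDiff_dzb hζt.1 i).continuous.norm).pow 2
    obtain ⟨Z, hZ⟩ := hK1c.bddAbove_image hcont.continuousOn
    refine ⟨max Z 0, le_max_right _ _, fun x i => ?_⟩
    by_cases hx : x ∈ K1
    · refine le_trans ?_ ((hZ ⟨x, hx, rfl⟩).trans (le_max_left _ _))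
      exact Finset.single_le_sum (f := fun i => ‖dzb i (cx ζ) x‖ ^ 2) (fun _ _ => by positivity)
        (Finset.mem_univ i)
    · rw [dzb_zero_of (eq_zero_nhds hx).2]; simp
  set δ : ℝ := ε / (4 * (D + 1) * (12 + 576 * n * Z + 1)) with hδdef
  have hδ : 0 < δ := by positivity
  obtain ⟨k', s, A, hA, hrel⟩ := rellich (n := n) hK1c hδ
  -- the functionals
  set gp : (Fin n → ℂ) → (Fin n → ℂ) → ℂ := fun p y => ((rho k' (p - y) : ℝ) : ℂ) * cx ζ y with hgp
  have hgpt : ∀ p, IsTest (Om r) (gp p) := by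
    intro p
    have h1 : ContDiff ℝ ∞ (fun y : Fin n → ℂ => ((rho k' (p - y) : ℝ) : ℂ)) :=
      contDiff_ofReal_comp ((rho_contDiff k').comp (contDiff_const.sub contDiff_id))
    have h2 := hζt.mul_left_smooth h1
    exact h2
  set cA : ℂ := ((Real.sqrt (D * A) : ℝ) : ℂ) with hcA
  have hcA2 : ‖cA‖ ^ 2 = D * A := by
    rw [hcA, Complex.norm_real, Real.norm_eq_abs, sq_abs, Real.sq_sqrt (by positivity)]
  set eq := Fintype.equivFin (Fin n × {p // p ∈ s}) with heq
  refine ⟨Fintype.card (Fin n × {p // p ∈ s}),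
    fun i => cA • ((pr (Om r) (gp (eq.symm i).2.1)) ∘L (c1 (Om r) (eq.symm i).1)), ?_⟩
  have hev1 := h.loc C1 K1 hK1c hK1Ω
  obtain ⟨N0, hN0⟩ := exists_nat_ge (8 / ε)
  filter_upwards [hev1, eventually_ge_atTop N0] with k hk hkN F hF
  have hF1 : ∀ j, ContDiff ℝ ∞ (F j) := fun j => (hF j).1
  obtain ⟨st, hst, hst2⟩ := h.exists_st hF
  rw [trip_QF h hC hF hst hst2, h.trip_N1_split hC hF hst hst2]
  obtain ⟨q1, q2, q3, _⟩ := h.apriori_cor (k := k) hC hF hst hst2
  have hQ := QF_nonneg (st := st) (C1 := C1) (k := k) (F := F)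
  have hs := hsmall k F st hF hst hst2
  have hkε : 2 / ((k:ℝ) + 1) * QF st C1 k F ≤ ε / 4 * QF st C1 k F := by
    refine mul_le_mul_of_nonneg_right ?_ hQ
    have h1 : (8 / ε) ≤ k := hN0.trans (by exact_mod_cast hkN)
    have h2 : 8 / ε * ε = 8 := by field_simp
    rw [div_le_iff₀ (by positivity)]
    have : 8 ≤ k * ε := by
      calc (8:ℝ) = 8 / ε * ε := h2.symm
        _ ≤ k * ε := mul_le_mul_of_nonneg_right h1 hε.le
    nlinarith
  -- weights are trivial on K1
  have hw : ∀ x ∈ K1, x ∈ KF F → Real.exp (-phF st C1 k x) = 1 := by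
    intro x hx hxF
    rw [← wB3_sq (hst2 x hxF).eq_of_nhds, (hk x hx).2.2]; norm_num
  -- the cut off forms
  set G : Fin n → (Fin n → ℂ) → ℂ := fun j x => cx ζ x * F j x with hG
  have hG1 : ∀ j, ContDiff ℝ ∞ (G j) := fun j => hζt.1.mul (hF1 j)
  have hGK : ∀ j, tsupport (G j) ⊆ K1 := fun j => tsupport_mul_subset_left
  have hGc : ∀ j, HasCompactSupport (G j) := fun j =>
    HasCompactSupport.of_support_subset_isCompact hK1c ((subset_tsupport _).trans (hGK j))
  have e1 : IW st C1 k (fun x => ζ x ^ 2 * nsq (fun j => F j x)) = ∑ j, ∫ x, ‖G j x‖ ^ 2 := by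
    rw [← integral_finsetSum]
    · unfold IW
      congr 1; ext x
      have h2 : ∑ j, ‖G j x‖ ^ 2 = ζ x ^ 2 * nsq (fun j => F j x) := by
        unfold nsq
        rw [Finset.mul_sum]
        refine Finset.sum_congr rfl fun j _ => ?_
        simp only [hG, cx]
        rw [norm_mul, mul_pow, Complex.norm_real, Real.norm_eq_abs, sq_abs]
      rw [h2]
      beta_reduce
      by_cases hx : x ∈ K1
      · by_cases hxF : x ∈ KF F
        · rw [hw x hx hxF, mul_one]
        · rw [nsq_zero_of (zero_of_notMem_KF hxF)]; simp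
      · have : cx ζ x = 0 := (eq_zero_nhds hx).1
        have h3 : ζ x = 0 := by simpa [cx] using this
        rw [h3]; simp
    · intro j _
      exact integrable_sq_of (hG1 j).continuous (hGc j)
  have e2 : ∑ j, En (G j) ≤ (12 + 576 * n * Z) * QF st C1 k F := by
    have h1 : ∑ j, En (G j) = ∫ x, ∑ j, ∑ i, ‖dzb i (G j) x‖ ^ 2 := by
      rw [integral_finsetSum]
      · refine Finset.sum_congr rfl fun j _ => ?_
        unfold En
        rw [integral_finsetSum]
        intro i _
        exact integrable_sq_of (contDiff_dzb (hG1 j) i).continuous (HasCompactSupport.dzb (hGc j) i)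
      · intro j _
        exact integrable_finsetSum _ fun i _ =>
          integrable_sq_of (contDiff_dzb (hG1 j) i).continuous (HasCompactSupport.dzb (hGc j) i)
    have h2 : ∫ x, ∑ j, ∑ i, ‖dzb i (G j) x‖ ^ 2
        ≤ IW st C1 k (fun x => 2 * Grd F x + (2 * n * Z) * nsq (fun j => F j x)) := by
      refine integral_mono ?_ (integrable_IW hF hst ?_ ?_) fun x => ?_
      · exact integrable_finsetSum _ fun j _ => integrable_finsetSum _ fun i _ =>
          integrable_sq_of (contDiff_dzb (hG1 j) i).continuous (HasCompactSupport.dzb (hGc j) i)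
      · exact (continuous_const.mul (continuous_Grd hF1)).add
          (continuous_const.mul (continuous_nsqF hF1))
      · intro x h1 h2
        rw [Grd_zero_of h2, nsq_zero_of h1]; simp
      · simp only
        have hGrd := Grd_nonneg F x
        have hN := nsq_nonneg (fun j => F j x)
        by_cases hx : x ∈ K1
        · by_cases hxF : x ∈ KF F
          · rw [hw x hx hxF, mul_one]
            have h3 : ∀ j i, ‖dzb i (G j) x‖ ^ 2 ≤ 2 * ‖dzb i (F j) x‖ ^ 2 + 2 * Z * ‖F j x‖ ^ 2 := by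
              intro j i
              have h4 : dzb i (G j) x = dzb i (cx ζ) x * F j x + cx ζ x * dzb i (F j) x :=
                dzb_mul (differentiable_of_smooth hζt.1 x) (differentiable_of_smooth (hF1 j) x)
              rw [h4]
              have h5 : ‖dzb i (cx ζ) x * F j x + cx ζ x * dzb i (F j) x‖
                  ≤ ‖dzb i (cx ζ) x‖ * ‖F j x‖ + ‖dzb i (F j) x‖ := by
                refine (norm_add_le _ _).trans ?_
                rw [norm_mul, norm_mul]
                have : ‖cx ζ x‖ ≤ 1 := by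
                  unfold cx
                  rw [Complex.norm_real, Real.norm_eq_abs, abs_of_nonneg (hζ01 x).1]
                  exact (hζ01 x).2
                have := mul_le_mul_of_nonneg_right this (norm_nonneg (dzb i (F j) x))
                linarith
              have h6 := pow_le_pow_left₀ (norm_nonneg _) h5 2
              have h7 := hZ x i
              have h8 := mul_le_mul_of_nonneg_right h7 (sq_nonneg ‖F j x‖)
              nlinarith [sq_nonneg (‖dzb i (cx ζ) x‖ * ‖F j x‖ - ‖dzb i (F j) x‖)]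
            calc ∑ j, ∑ i, ‖dzb i (G j) x‖ ^ 2
                ≤ ∑ j, ∑ i, (2 * ‖dzb i (F j) x‖ ^ 2 + 2 * Z * ‖F j x‖ ^ 2) :=
                  Finset.sum_le_sum fun j _ => Finset.sum_le_sum fun i _ => h3 j i
              _ = 2 * Grd F x + (2 * n * Z) * nsq (fun j => F j x) := by
                  unfold Grd nsq
                  simp only [Finset.sum_add_distrib, Finset.sum_const, Finset.card_univ,
                    Fintype.card_fin, nsmul_eq_mul, Finset.mul_sum]
                  congr 1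
                  refine Finset.sum_congr rfl fun j _ => ?_
                  ring
          · have h3 : ∀ j i, dzb i (G j) x = 0 := by
              intro j i
              by_contra hne
              exact notMem_KF hxF j (tsupport_mul_subset_right (f := cx ζ) (g := F j)
                (support_dzb_subset hne))
            simp only [h3]
            have := (Real.exp_pos (-phF st C1 k x)).le
            have : 0 ≤ (2 * Grd F x + (2 * n * Z) * nsq (fun j => F j x))
              * Real.exp (-phF st C1 k x) := by positivity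
            simpa using this
        · have h3 : ∀ j i, dzb i (G j) x = 0 := by
            intro j i
            by_contra hne
            exact hx (hGK j (support_dzb_subset hne))
          simp only [h3]
          have := (Real.exp_pos (-phF st C1 k x)).le
          have : 0 ≤ (2 * Grd F x + (2 * n * Z) * nsq (fun j => F j x))
            * Real.exp (-phF st C1 k x) := by positivity
          simpa using this
    have h3 : IW st C1 k (fun x => 2 * Grd F x + (2 * n * Z) * nsq (fun j => F j x))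
        = 2 * IW st C1 k (Grd F) + (2 * n * Z) * IW st C1 k (fun x => nsq (fun j => F j x)) := by
      rw [← IW_const_mul, ← IW_const_mul]
      refine IW_add hF hst (continuous_const.mul (continuous_Grd hF1)) ?_
        (continuous_const.mul (continuous_nsqF hF1)) ?_
      · intro x _ h2; rw [Grd_zero_of h2]; simp
      · intro x h1 _; rw [nsq_zero_of h1]; simp
    rw [h1]
    refine h2.trans ?_
    rw [h3]
    have h4 : 0 ≤ 2 * (n:ℝ) * Z := by positivity
    have h5 := mul_le_mul_of_nonneg_left q3 h4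
    nlinarith
  -- the functionals evaluated
  have e3 : ∀ j p, mconv (rho k') (G j) p
      = pr (Om r) (gp p) ((tTrip (Om r) (wB1 r C1 k) (wB2 r C1 k) (wB3 r C1 k) F).1 j) := by
    intro j p
    have ht := (h.fac2 hC k).test h.isOpen (hF j)
    have h1 : (tTrip (Om r) (wB1 r C1 k) (wB2 r C1 k) (wB3 r C1 k) F).1 j
        = tl (Om r) (fun x => (wB2 r C1 k x : ℂ) * F j x) := rfl
    rw [h1, pr_tl ht.memLpr (hgpt p).memLpr, setIntegral_test (hgpt p), mconv_apply']
    congr 1; ext y
    by_cases hy : y ∈ K1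
    · rw [(hk y hy).2.1]
      simp only [hG, hgp]; push_cast; ring
    · have : cx ζ y = 0 := (eq_zero_nhds hy).1
      simp only [hG, hgp, this]; ring
  have e4 : ∑ j, ∫ x, ‖G j x‖ ^ 2 ≤ δ * ∑ j, En (G j)
      + A * ∑ j, ∑ p ∈ s, ‖mconv (rho k') (G j) p‖ ^ 2 := by
    rw [Finset.mul_sum, Finset.mul_sum, ← Finset.sum_add_distrib]
    exact Finset.sum_le_sum fun j _ => hrel (G j) (hG1 j) (hGK j)
  have e5 : ∑ i, ‖(cA • ((pr (Om r) (gp (eq.symm i).2.1)) ∘L (c1 (Om r) (eq.symm i).1)))
        (tTrip (Om r) (wB1 r C1 k) (wB2 r C1 k) (wB3 r C1 k) F).1‖ ^ 2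
      = D * (A * ∑ j, ∑ p ∈ s, ‖mconv (rho k') (G j) p‖ ^ 2) := by
    rw [Equiv.sum_comp eq.symm (fun q : Fin n × {p // p ∈ s} =>
      ‖(cA • ((pr (Om r) (gp q.2.1)) ∘L (c1 (Om r) q.1)))
        (tTrip (Om r) (wB1 r C1 k) (wB2 r C1 k) (wB3 r C1 k) F).1‖ ^ 2)]
    rw [Fintype.sum_prod_type, Finset.mul_sum, Finset.mul_sum]
    refine Finset.sum_congr rfl fun j _ => ?_
    rw [← Finset.sum_coe_sort s, Finset.mul_sum, Finset.mul_sum]
    refine Finset.sum_congr rfl fun p _ => ?_
    rw [e3 j p]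
    simp only [smul_apply, ContinuousLinearMap.comp_apply, c1_apply, smul_eq_mul]
    rw [norm_mul, mul_pow, hcA2]; ring
  rw [e5]
  rw [e1] at hs
  have hδQ : D * (δ * ((12 + 576 * n * Z) * QF st C1 k F)) ≤ ε / 4 * QF st C1 k F := by
    have h1 : D * δ * (12 + 576 * n * Z) ≤ ε / 4 := by
      rw [hδdef]
      have h2 : D * (ε / (4 * (D + 1) * (12 + 576 * n * Z + 1))) * (12 + 576 * n * Z)
          = ε * (D * (12 + 576 * n * Z)) / (4 * (D + 1) * (12 + 576 * n * Z + 1)) := by
        field_simp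
      rw [h2, div_le_div_iff₀ (by positivity) (by norm_num)]
      have h3 : D * (12 + 576 * n * Z) ≤ (D + 1) * (12 + 576 * n * Z + 1) := by
        have : 0 ≤ (n:ℝ) * Z := by positivity
        nlinarith
      have := mul_le_mul_of_nonneg_left h3 hε.le
      nlinarith
    calc D * (δ * ((12 + 576 * n * Z) * QF st C1 k F))
        = D * δ * (12 + 576 * n * Z) * QF st C1 k F := by ring
      _ ≤ ε / 4 * QF st C1 k F := mul_le_mul_of_nonneg_right h1 hQ
  have e6 : D * ∑ j, ∫ x, ‖G j x‖ ^ 2 ≤ ε / 4 * QF st C1 k F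
      + D * (A * ∑ j, ∑ p ∈ s, ‖mconv (rho k') (G j) p‖ ^ 2) := by
    have h1 := mul_le_mul_of_nonneg_left e4 hD
    have h2 : D * (δ * ∑ j, En (G j)) ≤ D * (δ * ((12 + 576 * n * Z) * QF st C1 k F)) :=
      mul_le_mul_of_nonneg_left (mul_le_mul_of_nonneg_left e2 hδ.le) hD
    rw [mul_add] at h1
    linarith
  have h9 : 0 ≤ ε / 4 * QF st C1 k F := by positivity
  linarith

/-- **Existence and compactness of the Neumann operator.** -/
theorem GoodDef.main (h : GoodDef r e) :
    ∃ N : Form1 (Om r) →L[ℂ] Form1 (Om r),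
      (∀ f γ, N γ = f ↔ Box (TRel (Om r) one one) (SRel (Om r) one one) f γ) ∧
      IsCompactOperator N := by
  obtain ⟨C1, hC, hgrad⟩ := h.grad_bound
  exact fa_main h.isOpen (fun k => wB1 r C1 k) (fun k => wB2 r C1 k) (fun k => wB3 r C1 k)
    (fun k => h.fac1 hC k) (fun k => h.fac2 hC k) (fun k => h.fac3 C1 k)
    (fun k x _ => wB1_le_one hC x) (fun k x _ => wB2_le_one hC x) (fun k x _ => wB3_le_one hC x)
    (h.loc C1) (h.goodCut hC hgrad) (C := 290) (by norm_num)
    (fun k F hF => h.est_B hC hF) (fun ε hε => h.est_E hC hε)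

end main

end Pool.Agent.DBar74
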