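import Mathlib

open MeasureTheory Filter Topology
open scoped ENNReal ContDiff Convolution

namespace Pool.Agent.DBar74

variable {n : ℕ}

section moll

/-- translation as a continuous map -/
def transMap (n : ℕ) : C((Fin n → ℂ) × (Fin n → ℂ), Fin n → ℂ) := ⟨fun p => p.2 - p.1, by fun_prop⟩

lemma mp_trans (y : Fin n → ℂ) : MeasurePreserving (fun x : Fin n → ℂ => x - y) volume volume :=
  measurePreserving_sub_right volume y

/-- continuity of translations in the mean square sense -/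
theorem translation_L2 {G : (Fin n → ℂ) → ℂ} (hG : MemLp G 2 volume) :
    Tendsto (fun y => eLpNorm (fun x => G (x - y) - G x) 2 volume) (𝓝 0) (𝓝 0) := by
  have h1 : Continuous (fun y : Fin n → ℂ => Lp.compMeasurePreserving ((transMap n).curry y)
      (mp_trans y) (hG.toLp G)) := by
    refine Continuous.compMeasurePreservingLp (f := fun _ => hG.toLp G) (g := (transMap n).curry)
      continuous_const (transMap n).curry.continuous (fun y => mp_trans y) (by simp)
  have h2 := h1.tendsto 0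
  rw [Lp.tendsto_Lp_iff_tendsto_eLpNorm'] at h2
  refine h2.congr fun y => ?_
  apply eLpNorm_congr_ae
  have e1 : (Lp.compMeasurePreserving ((transMap n).curry y) (mp_trans y) (hG.toLp G))
      =ᵐ[volume] fun x => G (x - y) :=
    (Lp.coeFn_compMeasurePreserving (hG.toLp G) (mp_trans y)).trans
      ((mp_trans y).quasiMeasurePreserving.ae_eq_comp hG.coeFn_toLp)
  have e2 : (Lp.compMeasurePreserving ((transMap n).curry 0) (mp_trans 0) (hG.toLp G))
      =ᵐ[volume] fun x => G x := by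
    have := (Lp.coeFn_compMeasurePreserving (hG.toLp G) (mp_trans (0 : Fin n → ℂ))).trans
      ((mp_trans (0 : Fin n → ℂ)).quasiMeasurePreserving.ae_eq_comp hG.coeFn_toLp)
    refine this.trans (Eventually.of_forall fun x => ?_)
    simp
  filter_upwards [e1, e2] with x h1 h2
  simp only [Pi.sub_apply]
  rw [h1, h2]

lemma eLpNorm_two_sq {α : Type*} [MeasurableSpace α] {μ : Measure α} (g : α → ℂ) :
    eLpNorm g 2 μ ^ 2 = ∫⁻ x, ‖g x‖ₑ ^ 2 ∂μ := by
  rw [eLpNorm_eq_lintegral_rpow_enorm_toReal (by simp) (by simp)]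
  rw [← ENNReal.rpow_natCast, ← ENNReal.rpow_mul]
  simp

/-- Cauchy Schwarz for a probability density -/
lemma cs_lintegral {α : Type*} [MeasurableSpace α] {μ : Measure α} {a H : α → ℝ≥0∞}
    (ha : AEMeasurable a μ) (hH : AEMeasurable H μ) (h1 : ∫⁻ y, a y ∂μ = 1) :
    (∫⁻ y, a y * H y ∂μ) ^ 2 ≤ ∫⁻ y, a y * H y ^ 2 ∂μ := by
  have h := ENNReal.lintegral_mul_le_Lp_mul_Lq μ (p := 2) (q := 2)
    (by constructor <;> norm_num) (f := fun y => a y ^ (1/2 : ℝ)) (g := fun y => a y ^ (1/2 : ℝ) * H y)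
    (ha.pow_const _) ((ha.pow_const _).mul hH)
  have e1 : ∀ y, a y ^ (1/2 : ℝ) * (a y ^ (1/2 : ℝ) * H y) = a y * H y := by
    intro y
    rw [← mul_assoc, ← ENNReal.rpow_add_of_nonneg _ _ (by norm_num) (by norm_num)]
    norm_num
  have e2 : ∀ y, (a y ^ (1/2 : ℝ)) ^ (2:ℝ) = a y := by
    intro y
    rw [← ENNReal.rpow_mul]; norm_num
  have e3 : ∀ y, (a y ^ (1/2 : ℝ) * H y) ^ (2:ℝ) = a y * H y ^ 2 := by
    intro y
    rw [ENNReal.mul_rpow_of_nonneg _ _ (by norm_num), e2]
    norm_num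
  simp only [Pi.mul_apply, e1, e2, e3, h1, ENNReal.one_rpow, one_mul] at h
  calc (∫⁻ y, a y * H y ∂μ) ^ 2 ≤ ((∫⁻ y, a y * H y ^ 2 ∂μ) ^ (1 / 2 : ℝ)) ^ 2 := by gcongr
    _ = _ := by
      rw [← ENNReal.rpow_natCast, ← ENNReal.rpow_mul]; norm_num

/-- convolution of a real kernel with a complex function -/
noncomputable def mconv (ρ : (Fin n → ℂ) → ℝ) (G : (Fin n → ℂ) → ℂ) : (Fin n → ℂ) → ℂ :=
  ρ ⋆[ContinuousLinearMap.lsmul ℝ ℝ, volume] G

lemma mconv_apply (ρ : (Fin n → ℂ) → ℝ) (G : (Fin n → ℂ) → ℂ) (x : Fin n → ℂ) :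
    mconv ρ G x = ∫ y, ρ y • G (x - y) := rfl

theorem mconv_sub_le {ρ : (Fin n → ℂ) → ℝ} (hρc : Continuous ρ) (hρs : HasCompactSupport ρ)
    (hρ0 : ∀ y, 0 ≤ ρ y) (hρ1 : ∫ y, ρ y = 1) {G : (Fin n → ℂ) → ℂ} (hG : MemLp G 2 volume)
    {ε : ℝ≥0∞} (hε : ∀ y, ρ y ≠ 0 → eLpNorm (fun x => G (x - y) - G x) 2 volume ≤ ε) :
    eLpNorm (fun x => mconv ρ G x - G x) 2 volume ≤ ε := by
  have hρi : Integrable ρ := hρc.integrable_of_hasCompactSupport hρs
  have hGl : LocallyIntegrable G volume := hG.locallyIntegrable (by norm_num)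
  have hGm : AEStronglyMeasurable G volume := hG.1
  have hl1 : ∫⁻ y, ENNReal.ofReal (ρ y) = 1 := by
    rw [← ofReal_integral_eq_lintegral_ofReal hρi (Eventually.of_forall hρ0), hρ1]; simp
  have hpt : ∀ x, ‖mconv ρ G x - G x‖ₑ ^ 2
      ≤ ∫⁻ y, ENNReal.ofReal (ρ y) * ‖G (x - y) - G x‖ₑ ^ 2 := by
    intro x
    have hce := hρs.convolutionExists_left (ContinuousLinearMap.lsmul ℝ ℝ : ℝ →L[ℝ] ℂ →L[ℝ] ℂ)
      hρc hGl x
    have i1 : Integrable (fun y => ρ y • G (x - y)) := hce.integrable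
    have i2 : Integrable (fun y => ρ y • G x) := hρi.smul_const _
    have e1 : mconv ρ G x - G x = ∫ y, ρ y • (G (x - y) - G x) := by
      simp_rw [smul_sub]
      rw [integral_sub i1 i2, integral_smul_const, hρ1, one_smul, mconv_apply]
    have hm : AEMeasurable (fun y => ‖G (x - y) - G x‖ₑ) volume := by
      have h1 : AEStronglyMeasurable (fun y => G (x - y)) volume := by
        exact hGm.comp_quasiMeasurePreserving
          (quasiMeasurePreserving_sub_left_of_right_invariant volume x)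
      exact (h1.sub aestronglyMeasurable_const).enorm
    calc ‖mconv ρ G x - G x‖ₑ ^ 2 = ‖∫ y, ρ y • (G (x - y) - G x)‖ₑ ^ 2 := by rw [e1]
      _ ≤ (∫⁻ y, ‖ρ y • (G (x - y) - G x)‖ₑ) ^ 2 := by
          gcongr; exact enorm_integral_le_lintegral_enorm _
      _ = (∫⁻ y, ENNReal.ofReal (ρ y) * ‖G (x - y) - G x‖ₑ) ^ 2 := by
          congr 2; ext y
          rw [enorm_smul, Real.enorm_eq_ofReal (hρ0 y)]
      _ ≤ _ := cs_lintegral (hρc.measurable.ennreal_ofReal.aemeasurable) hm hl1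
  have hsq : eLpNorm (fun x => mconv ρ G x - G x) 2 volume ^ 2 ≤ ε ^ 2 := by
    rw [eLpNorm_two_sq]
    calc ∫⁻ x, ‖mconv ρ G x - G x‖ₑ ^ 2
        ≤ ∫⁻ x, ∫⁻ y, ENNReal.ofReal (ρ y) * ‖G (x - y) - G x‖ₑ ^ 2 := lintegral_mono hpt
      _ = ∫⁻ y, ∫⁻ x, ENNReal.ofReal (ρ y) * ‖G (x - y) - G x‖ₑ ^ 2 := by
          apply lintegral_lintegral_swap
          have h1 : AEStronglyMeasurable (fun p : (Fin n → ℂ) × (Fin n → ℂ) => G (p.1 - p.2))
              (volume.prod volume) :=
            hGm.comp_quasiMeasurePreserving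
              (quasiMeasurePreserving_sub_of_right_invariant volume volume)
          have h2 : AEStronglyMeasurable (fun p : (Fin n → ℂ) × (Fin n → ℂ) => G p.1)
              (volume.prod volume) := hGm.comp_fst
          have h3 : AEMeasurable (fun p : (Fin n → ℂ) × (Fin n → ℂ) => ENNReal.ofReal (ρ p.2))
              (volume.prod volume) :=
            ((hρc.measurable.comp measurable_snd).ennreal_ofReal).aemeasurable
          exact h3.mul ((h1.sub h2).enorm.pow_const 2)
      _ = ∫⁻ y, ENNReal.ofReal (ρ y) * eLpNorm (fun x => G (x - y) - G x) 2 volume ^ 2 := by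
          congr 1; ext y
          rw [lintegral_const_mul', eLpNorm_two_sq]
          simp
      _ ≤ ∫⁻ y, ENNReal.ofReal (ρ y) * ε ^ 2 := by
          apply lintegral_mono
          intro y
          by_cases hy : ρ y = 0
          · simp [hy]
          · simp only
            gcongr
            exact hε y hy
      _ = ε ^ 2 := by
          rw [lintegral_mul_const'' _ hρc.measurable.ennreal_ofReal.aemeasurable, hl1, one_mul]
  exact (ENNReal.pow_le_pow_left_iff (by norm_num)).1 hsq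

end moll

end Pool.Agent.DBar74
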