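import Pool.Agent.DBar74.Mollify
import Pool.Agent.DBar74.KMH2

open MeasureTheory Filter Topology Complex
open scoped ENNReal ContDiff Convolution ComplexConjugate

namespace Pool.Agent.DBar74

variable {n : ℕ}

section moll2

/-- the sequence of bump functions -/
noncomputable def bumpSeq (n k : ℕ) : ContDiffBump (0 : Fin n → ℂ) where
  rIn := 1 / (2 * (k + 1))
  rOut := 1 / (k + 1)
  rIn_pos := by positivity
  rIn_lt_rOut := by
    have : (0:ℝ) < k + 1 := by positivity
    rw [div_lt_div_iff₀ (by positivity) this]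
    linarith

/-- the mollifiers -/
noncomputable def rho (k : ℕ) : (Fin n → ℂ) → ℝ := (bumpSeq n k).normed volume

lemma rho_contDiff (k : ℕ) : ContDiff ℝ ∞ (rho (n := n) k) := (bumpSeq n k).contDiff_normed

lemma rho_compact (k : ℕ) : HasCompactSupport (rho (n := n) k) :=
  (bumpSeq n k).hasCompactSupport_normed

lemma rho_nonneg (k : ℕ) (y : Fin n → ℂ) : 0 ≤ rho k y := (bumpSeq n k).nonneg_normed y

lemma rho_integral (k : ℕ) : ∫ y, rho (n := n) k y = 1 := (bumpSeq n k).integral_normed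

lemma rho_support (k : ℕ) {y : Fin n → ℂ} (h : rho k y ≠ 0) : ‖y‖ < 1 / (k + 1) := by
  have : y ∈ Function.support (rho k) := h
  rw [rho, (bumpSeq n k).support_normed_eq] at this
  simpa [bumpSeq] using this

theorem mconv_tendsto {G : (Fin n → ℂ) → ℂ} (hG : MemLp G 2 volume) :
    Tendsto (fun k => eLpNorm (fun x => mconv (rho k) G x - G x) 2 volume) atTop (𝓝 0) := by
  rw [ENNReal.tendsto_nhds_zero]
  intro ε hε
  have h1 := translation_L2 hG
  rw [ENNReal.tendsto_nhds_zero] at h1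
  have h2 := h1 ε hε
  rw [Metric.eventually_nhds_iff] at h2
  obtain ⟨δ, hδ, h3⟩ := h2
  obtain ⟨N, hN⟩ := exists_nat_one_div_lt hδ
  filter_upwards [eventually_ge_atTop N] with k hk
  refine mconv_sub_le (rho_contDiff k).continuous (rho_compact k) (rho_nonneg k) (rho_integral k) hG
    (fun y hy => h3 ?_)
  rw [dist_zero_right]
  refine (rho_support k hy).trans (lt_of_le_of_lt ?_ hN)
  apply one_div_le_one_div_of_le (by positivity)
  have : (N:ℝ) ≤ k := by exact_mod_cast hk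
  linarith

lemma mconv_apply' (ρ : (Fin n → ℂ) → ℝ) (G : (Fin n → ℂ) → ℂ) (x : Fin n → ℂ) :
    mconv ρ G x = ∫ y, (ρ (x - y) : ℂ) * G y := by
  unfold mconv
  rw [convolution_eq_swap]
  rfl

variable {ρ : (Fin n → ℂ) → ℝ} {G : (Fin n → ℂ) → ℂ}

lemma mconv_contDiff (hρ : ContDiff ℝ ∞ ρ) (hρs : HasCompactSupport ρ)
    (hG : LocallyIntegrable G volume) : ContDiff ℝ ∞ (mconv ρ G) :=
  hρs.contDiff_convolution_left _ (n := ⊤) hρ hG

lemma mconv_fderiv (hρ : ContDiff ℝ ∞ ρ) (hρs : HasCompactSupport ρ)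
    (hG : LocallyIntegrable G volume) (x v : Fin n → ℂ) :
    fderiv ℝ (mconv ρ G) x v = ∫ y, ((fderiv ℝ ρ (x - y) v : ℝ) : ℂ) * G y := by
  have h := hρs.hasFDerivAt_convolution_left (ContinuousLinearMap.lsmul ℝ ℝ : ℝ →L[ℝ] ℂ →L[ℝ] ℂ)
    (hρ.of_le (by simp)) hG x
  have h1 : fderiv ℝ (mconv ρ G) x = _ := h.fderiv
  rw [h1, convolution_eq_swap]
  have hi : Integrable (fun t => ((ContinuousLinearMap.lsmul ℝ ℝ : ℝ →L[ℝ] ℂ →L[ℝ] ℂ).precompL
      (Fin n → ℂ)) (fderiv ℝ ρ (x - t)) (G t)) := by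
    have hce := (hρs.fderiv ℝ).convolutionExists_left
      ((ContinuousLinearMap.lsmul ℝ ℝ : ℝ →L[ℝ] ℂ →L[ℝ] ℂ).precompL (Fin n → ℂ))
      (hρ.continuous_fderiv (by simp)) hG x
    have := hce.integrable_swap
    exact this
  rw [ContinuousLinearMap.integral_apply hi]
  rfl

lemma integrable_kernel {g : (Fin n → ℂ) → ℂ} (hg : Continuous g) (hgs : HasCompactSupport g)
    (hG : LocallyIntegrable G volume) : Integrable (fun y => g y * G y) := by
  have := hG.integrable_smul_left_of_hasCompactSupport hg hgs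
  exact this

lemma fderiv_reflect (hρ : ContDiff ℝ ∞ ρ) (x y v : Fin n → ℂ) :
    fderiv ℝ (fun y => cx ρ (x - y)) y v = - ((fderiv ℝ ρ (x - y) v : ℝ) : ℂ) := by
  have hd : DifferentiableAt ℝ ρ (x - y) := (hρ.differentiable (by simp)) _
  have h1 : HasFDerivAt (cx ρ) (fderiv ℝ (cx ρ) (x - y)) (x - y) :=
    (differentiable_of_smooth (contDiff_ofReal_comp hρ) _).hasFDerivAt
  have h2 : HasFDerivAt (fun y : Fin n → ℂ => x - y) (-(ContinuousLinearMap.id ℝ (Fin n → ℂ))) y := by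
    exact (hasFDerivAt_id (𝕜 := ℝ) y).const_sub x
  have h3 := h1.comp y h2
  have h4 : fderiv ℝ (fun y => cx ρ (x - y)) y = _ := h3.fderiv
  rw [h4]
  simp [fderiv_cx hd]

lemma hasCompactSupport_reflect {V : Type*} [Zero V] {g : (Fin n → ℂ) → V}
    (hg : HasCompactSupport g) (x : Fin n → ℂ) : HasCompactSupport (fun y => g (x - y)) := by
  exact hg.comp_homeomorph (Homeomorph.subLeft x)

lemma mconv_dz (hρ : ContDiff ℝ ∞ ρ) (hρs : HasCompactSupport ρ)
    (hG : LocallyIntegrable G volume) (x : Fin n → ℂ) (j : Fin n) :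
    dz j (mconv ρ G) x = - ∫ y, dz j (fun y => cx ρ (x - y)) y * G y := by
  have hint : ∀ v : Fin n → ℂ, Integrable (fun y => ((fderiv ℝ ρ (x - y) v : ℝ) : ℂ) * G y) := by
    intro v
    have hc : Continuous (fun y => fderiv ℝ ρ y v) :=
      (hρ.continuous_fderiv (by simp)).clm_apply continuous_const
    have hs : HasCompactSupport (fun y => fderiv ℝ ρ y v) := hρs.fderiv_apply ℝ v
    refine integrable_kernel ?_ ?_ hG
    · exact Complex.continuous_ofReal.comp (hc.comp (continuous_const.sub continuous_id))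
    · have h1 : HasCompactSupport (fun y => ((fderiv ℝ ρ y v : ℝ) : ℂ)) :=
        hs.comp_left (g := fun t : ℝ => (t : ℂ)) (by simp)
      exact hasCompactSupport_reflect h1 x
  unfold dz
  rw [mconv_fderiv hρ hρs hG, mconv_fderiv hρ hρs hG, ← integral_const_mul, ← integral_sub (hint _)
    ((hint _).const_mul _), ← integral_const_mul, ← integral_neg]
  congr 1; ext y
  rw [fderiv_reflect hρ, fderiv_reflect hρ]
  ring

lemma mconv_dzb (hρ : ContDiff ℝ ∞ ρ) (hρs : HasCompactSupport ρ)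
    (hG : LocallyIntegrable G volume) (x : Fin n → ℂ) (j : Fin n) :
    dzb j (mconv ρ G) x = - ∫ y, dzb j (fun y => cx ρ (x - y)) y * G y := by
  have hint : ∀ v : Fin n → ℂ, Integrable (fun y => ((fderiv ℝ ρ (x - y) v : ℝ) : ℂ) * G y) := by
    intro v
    have hc : Continuous (fun y => fderiv ℝ ρ y v) :=
      (hρ.continuous_fderiv (by simp)).clm_apply continuous_const
    have hs : HasCompactSupport (fun y => fderiv ℝ ρ y v) := hρs.fderiv_apply ℝ v
    refine integrable_kernel ?_ ?_ hG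
    · exact Complex.continuous_ofReal.comp (hc.comp (continuous_const.sub continuous_id))
    · have h1 : HasCompactSupport (fun y => ((fderiv ℝ ρ y v : ℝ) : ℂ)) :=
        hs.comp_left (g := fun t : ℝ => (t : ℂ)) (by simp)
      exact hasCompactSupport_reflect h1 x
  unfold dzb
  rw [mconv_fderiv hρ hρs hG, mconv_fderiv hρ hρs hG, ← integral_const_mul, ← integral_add (hint _)
    ((hint _).const_mul _), ← integral_const_mul, ← integral_neg]
  congr 1; ext y
  rw [fderiv_reflect hρ, fderiv_reflect hρ]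
  ring

lemma isTest_reflect (hρ : ContDiff ℝ ∞ ρ) (hρs : HasCompactSupport ρ) (x : Fin n → ℂ) :
    IsTest Set.univ (fun y => cx ρ (x - y)) := by
  refine ⟨(contDiff_ofReal_comp hρ).comp (contDiff_const.sub contDiff_id), ?_, Set.subset_univ _⟩
  have h1 : HasCompactSupport (cx ρ) := hρs.comp_left (g := fun t : ℝ => (t : ℂ)) (by simp)
  exact hasCompactSupport_reflect h1 x

/-- mollification commutes with a weak divergence equation -/
lemma mconv_div (hρ : ContDiff ℝ ∞ ρ) (hρs : HasCompactSupport ρ)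
    {Gv : Fin n → (Fin n → ℂ) → ℂ} {D : (Fin n → ℂ) → ℂ}
    (hG : ∀ j, LocallyIntegrable (Gv j) volume)
    (hw : ∀ χ, IsTest Set.univ χ → ∑ j, ∫ y, Gv j y * dz j χ y = - ∫ y, D y * χ y)
    (x : Fin n → ℂ) : ∑ j, dz j (mconv ρ (Gv j)) x = mconv ρ D x := by
  simp_rw [fun j => mconv_dz hρ hρs (hG j) x j]
  have h := hw _ (isTest_reflect hρ hρs x)
  rw [Finset.sum_neg_distrib, mconv_apply']
  simp_rw [mul_comm (dz _ _ _) (Gv _ _)]
  rw [h, neg_neg]
  congr 1; ext y; rw [mul_comm]; rfl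

lemma mconv_curl (hρ : ContDiff ℝ ∞ ρ) (hρs : HasCompactSupport ρ)
    {G1 G2 E : (Fin n → ℂ) → ℂ} {j k : Fin n}
    (hG1 : LocallyIntegrable G1 volume) (hG2 : LocallyIntegrable G2 volume)
    (hw : ∀ χ, IsTest Set.univ χ →
      (∫ y, G2 y * dzb j χ y) - ∫ y, G1 y * dzb k χ y = - ∫ y, E y * χ y)
    (x : Fin n → ℂ) : dzb j (mconv ρ G2) x - dzb k (mconv ρ G1) x = mconv ρ E x := by
  rw [mconv_dzb hρ hρs hG1, mconv_dzb hρ hρs hG2, mconv_apply']
  have h := hw _ (isTest_reflect hρ hρs x)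
  simp_rw [mul_comm (dzb _ _ _) (G1 _), mul_comm (dzb _ _ _) (G2 _)]
  have h2 : (∫ y, (ρ (x - y) : ℂ) * E y) = ∫ y, E y * cx ρ (x - y) := by
    congr 1; ext y; rw [mul_comm]; rfl
  rw [h2]
  linear_combination -h

end moll2

end Pool.Agent.DBar74
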