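import Pool.Agent.DBar74.Trips

open MeasureTheory Filter Topology Complex
open scoped ENNReal ContDiff ComplexConjugate

namespace Pool.Agent.DBar74

variable {n : ℕ}

section near

variable {r : (Fin n → ℂ) → ℝ} {e : Fin n} {C1 : ℝ} {k : ℕ} {F : Fin n → (Fin n → ℂ) → ℂ}
  {st : (Fin n → ℂ) → ℝ}

/-- radial cut-off as function of the squared modulus -/
noncomputable def kap (η t : ℝ) : ℝ := cutf ((4 * t / η ^ 2 - 1) / 3)

lemma kap_contDiff (η : ℝ) : ContDiff ℝ ∞ (kap η) := by
  unfold kap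
  exact cutf_contDiff.comp ((((contDiff_const.mul contDiff_id).div_const _).sub contDiff_const).div_const _)

lemma kap_mem (η t : ℝ) : 0 ≤ kap η t ∧ kap η t ≤ 1 := cutf_mem _

lemma kap_one {η t : ℝ} (hη : 0 < η) (h : t ≤ η ^ 2 / 4) : kap η t = 1 := by
  apply cutf_one
  have : 4 * t / η ^ 2 ≤ 1 := by rw [div_le_one (by positivity)]; linarith
  linarith

lemma kap_zero {η t : ℝ} (hη : 0 < η) (h : η ^ 2 ≤ t) : kap η t = 0 := by
  apply cutf_zero
  have : 4 ≤ 4 * t / η ^ 2 := by rw [le_div_iff₀ (by positivity)]; linarith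
  linarith

lemma kap_anti {η : ℝ} : Antitone (kap η) := by
  intro a b hab
  unfold kap cutf
  have h1 : (4 * a / η ^ 2 - 1) / 3 ≤ (4 * b / η ^ 2 - 1) / 3 := by
    have : 4 * a / η ^ 2 ≤ 4 * b / η ^ 2 := by gcongr
    linarith
  have h2 := Real.smoothTransition.monotone h1
  linarith

/-- the constant controlling the derivative of the cut-off -/
lemma kap_deriv : ∃ C, 0 ≤ C ∧ ∀ η > 0, ∀ t, 0 ≤ t →
    (t < η ^ 2 / 4 → deriv (kap η) t = 0) ∧ |deriv (kap η) t * t| ≤ C := by
  obtain ⟨C, hC⟩ := cutf_deriv_bound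
  have hC0 : 0 ≤ C := (abs_nonneg _).trans (hC 0)
  refine ⟨2 * C, by positivity, fun η hη t ht => ⟨fun h => ?_, ?_⟩⟩
  · have hev : kap η =ᶠ[𝓝 t] fun _ => 1 := by
      filter_upwards [isOpen_Iio.mem_nhds h] with y hy
      exact kap_one hη (le_of_lt hy)
    rw [hev.deriv_eq]; simp
  · by_cases h : t ≤ η ^ 2
    · have hd : deriv (kap η) t = deriv cutf ((4 * t / η ^ 2 - 1) / 3) * (4 / η ^ 2 / 3) := by
        have h1 : HasDerivAt (fun t : ℝ => (4 * t / η ^ 2 - 1) / 3) (4 / η ^ 2 / 3) t := by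
          have := ((((hasDerivAt_id t).const_mul 4).div_const (η ^ 2)).sub_const 1).div_const 3
          simpa using this
        have h2 : HasDerivAt cutf (deriv cutf ((4 * t / η ^ 2 - 1) / 3)) ((4 * t / η ^ 2 - 1) / 3) :=
          ((cutf_contDiff.differentiable (by simp)) _).hasDerivAt
        exact (h2.comp t h1).deriv
      rw [hd, abs_mul, abs_mul, abs_of_nonneg ht, abs_of_pos (by positivity : 0 < 4 / η ^ 2 / 3)]
      have h3 := hC ((4 * t / η ^ 2 - 1) / 3)
      have h4 : 4 / η ^ 2 / 3 * t ≤ 2 := by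
        have : 4 / η ^ 2 / 3 * t = (4 * t) / (η ^ 2 * 3) := by field_simp
        rw [this, div_le_iff₀ (by positivity)]
        nlinarith [sq_nonneg η]
      have h5 : 0 ≤ 4 / η ^ 2 / 3 * t := by positivity
      calc |deriv cutf ((4 * t / η ^ 2 - 1) / 3)| * (4 / η ^ 2 / 3) * t
          = |deriv cutf ((4 * t / η ^ 2 - 1) / 3)| * (4 / η ^ 2 / 3 * t) := by ring
        _ ≤ C * 2 := mul_le_mul h3 h4 h5 hC0
        _ = 2 * C := by ring
    · push Not at h
      have hev : kap η =ᶠ[𝓝 t] fun _ => 0 := by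
        filter_upwards [isOpen_Ioi.mem_nhds h] with y hy
        exact kap_zero hη (le_of_lt hy)
      rw [hev.deriv_eq]; simp [hC0]

open Classical in
/-- the weight extended by zero -/
noncomputable def Ehat (r : (Fin n → ℂ) → ℝ) (C1 : ℝ) (k : ℕ) (z : Fin n → ℂ) : ℝ :=
  if r z < 0 then Real.exp (-(Kk C1 k * th (sF r z - k))) else 0

lemma Ehat_nonneg (z : Fin n → ℂ) : 0 ≤ Ehat r C1 k z := by
  unfold Ehat; split_ifs
  · exact (Real.exp_pos _).le
  · exact le_rfl

/-- growth: the weight decays faster than the distance to the boundary -/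
lemma exists_Ehat_bound (_h : GoodDef r e) (hC : 0 < C1) (k : ℕ) :
    ∃ C, 0 ≤ C ∧ ∀ z, Ehat r C1 k z ≤ C * |r z| := by
  have hK := Kk_pos (k := k) hC
  set K := Kk C1 k with hKdef
  -- K th(x) ≥ x - B for all x
  obtain ⟨B, hB⟩ : ∃ B, ∀ x, x - B ≤ K * th x := by
    refine ⟨1 + Real.exp 1 / K, fun x => ?_⟩
    by_cases hx : x ≤ 1
    · have : 0 ≤ K * th x := by have := th_nonneg x; positivity
      have : 0 < Real.exp 1 / K := by positivity
      linarith
    · push Not at hx
      have h1 := th_ge hx.le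
      have h2 : K * (Real.exp (-1) * Real.exp (2 * x)) ≤ K * th x :=
        mul_le_mul_of_nonneg_left h1 hK.le
      have h3 : x ^ 2 ≤ Real.exp (2 * x) := by
        have h4 : x ≤ Real.exp x := by have := Real.add_one_le_exp x; linarith
        have h5 : Real.exp (2 * x) = Real.exp x ^ 2 := by rw [← Real.exp_nat_mul]; norm_num
        rw [h5]
        exact pow_le_pow_left₀ (by linarith) h4 2
      have h6 : K * (Real.exp (-1) * x ^ 2) ≤ K * (Real.exp (-1) * Real.exp (2 * x)) := by
        gcongr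
      refine le_trans ?_ (h6.trans h2)
      -- a x² ≥ x - 1/a
      have ha : 0 < K * Real.exp (-1) := by positivity
      have h7 : Real.exp 1 / K = 1 / (K * Real.exp (-1)) := by
        rw [Real.exp_neg]; field_simp
      rw [h7]
      set a := K * Real.exp (-1)
      have h8 : x ≤ a * x ^ 2 + 1 / a := by
        have : 0 ≤ a * (x - 1 / (2 * a)) ^ 2 := by positivity
        have h9 : a * (x - 1 / (2 * a)) ^ 2 = a * x ^ 2 - x + 1 / (4 * a) := by
          field_simp; ring
        have h10 : 1 / (4 * a) ≤ 1 / a := by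
          apply one_div_le_one_div_of_le ha; linarith
        linarith
      nlinarith
  refine ⟨Real.exp (B + k), (Real.exp_pos _).le, fun z => ?_⟩
  unfold Ehat
  split_ifs with hz
  · have h0 : 0 < -r z := by linarith
    have h1 := hB (sF r z - k)
    have h2 : -(K * th (sF r z - k)) ≤ (B + k) + Real.log (-r z) := by
      have : sF r z = -Real.log (-r z) + nsq z := rfl
      have := nsq_nonneg z
      linarith
    calc Real.exp (-(K * th (sF r z - k))) ≤ Real.exp ((B + k) + Real.log (-r z)) :=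
          Real.exp_le_exp.2 h2
      _ = Real.exp (B + k) * |r z| := by
          rw [Real.exp_add, Real.exp_log h0, abs_of_neg hz]
  · positivity

lemma Ehat_continuous (h : GoodDef r e) (hC : 0 < C1) (k : ℕ) : Continuous (Ehat r C1 k) := by
  rw [continuous_iff_continuousAt]
  intro z
  by_cases hz : r z < 0
  · have hev : Ehat r C1 k =ᶠ[𝓝 z] fun z => Real.exp (-(Kk C1 k * th (sF r z - k))) := by
      filter_upwards [h.isOpen.mem_nhds hz] with y hy
      exact if_pos hy
    refine ContinuousAt.congr ?_ hev.symm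
    have h1 : ContinuousAt (sF r) z := (h.sF_smooth.contDiffAt (h.isOpen.mem_nhds hz)).continuousAt
    exact Real.continuous_exp.continuousAt.comp
      ((continuousAt_const.mul ((th_contDiff.continuous.continuousAt).comp
        (h1.sub continuousAt_const))).neg)
  · obtain ⟨C, hC0, hCb⟩ := exists_Ehat_bound h hC k
    have hcont := h.smooth.continuous
    have hval : Ehat r C1 k z = 0 := if_neg hz
    unfold ContinuousAt
    rw [hval]
    by_cases hz0 : r z = 0
    · have h1 : Tendsto (fun y => C * |r y|) (𝓝 z) (𝓝 0) := by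
        have : Tendsto (fun y => C * |r y|) (𝓝 z) (𝓝 (C * |r z|)) :=
          ((continuous_const.mul hcont.abs).tendsto z)
        rwa [hz0, abs_zero, mul_zero] at this
      exact squeeze_zero (fun y => Ehat_nonneg y) hCb h1
    · have hz1 : 0 < r z := lt_of_le_of_ne (not_lt.1 hz) (Ne.symm hz0)
      have hev : Ehat r C1 k =ᶠ[𝓝 z] fun _ => 0 := by
        filter_upwards [(isOpen_lt continuous_const hcont).mem_nhds hz1] with y hy
        exact if_neg (not_lt.2 (le_of_lt hy))
      exact tendsto_const_nhds.congr' hev.symm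

lemma nsq_update (z : Fin n → ℂ) (c : ℂ) :
    nsq (Function.update z e c) = nsq z + (‖c‖ ^ 2 - ‖z e‖ ^ 2) := by
  unfold nsq
  rw [← Finset.add_sum_erase _ _ (Finset.mem_univ e), ← Finset.add_sum_erase (a := e) _ _ (Finset.mem_univ e)]
  rw [Function.update_self]
  have : ∑ x ∈ Finset.univ.erase e, ‖Function.update z e c x‖ ^ 2
      = ∑ x ∈ Finset.univ.erase e, ‖z x‖ ^ 2 := by
    refine Finset.sum_congr rfl fun x hx => ?_
    rw [Function.update_of_ne (Finset.ne_of_mem_erase hx)]
  rw [this]; ring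

lemma GoodDef.sF_update (h : GoodDef r e) (z : Fin n → ℂ) {c : ℂ} (hc : ‖c‖ = ‖z e‖) :
    sF r (Function.update z e c) = sF r z := by
  unfold sF
  rw [h.rad z c hc, nsq_update, hc]; ring

lemma GoodDef.Ehat_update (h : GoodDef r e) (z : Fin n → ℂ) {c : ℂ} (hc : ‖c‖ = ‖z e‖) :
    Ehat r C1 k (Function.update z e c) = Ehat r C1 k z := by
  unfold Ehat
  rw [h.rad z c hc, h.sF_update z hc]

lemma GoodDef.Ehat_le (h : GoodDef r e) (hC : 0 < C1) {z : Fin n → ℂ} (hz : r z < 0) {c : ℂ}
    (hc : ‖z e‖ ≤ ‖c‖) :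
    Ehat r C1 k (Function.update z e c) ≤ Ehat r C1 k z := by
  have h1 : r z ≤ r (Function.update z e c) := h.mono z c hz hc
  unfold Ehat
  rw [if_pos hz]
  split_ifs with h2
  · rw [Real.exp_le_exp, neg_le_neg_iff]
    refine mul_le_mul_of_nonneg_left (th_mono ?_) (Kk_pos hC).le
    have h3 : Real.log (-r (Function.update z e c)) ≤ Real.log (-r z) :=
      Real.log_le_log (by linarith) (by linarith)
    have h4 : nsq z ≤ nsq (Function.update z e c) := by
      rw [nsq_update]
      have : ‖z e‖ ^ 2 ≤ ‖c‖ ^ 2 := pow_le_pow_left₀ (norm_nonneg _) hc 2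
      linarith
    unfold sF
    linarith
  · exact (Real.exp_pos _).le

/-- the radial primitive -/
noncomputable def Rp (r : (Fin n → ℂ) → ℝ) (e : Fin n) (C1 : ℝ) (k : ℕ) (η : ℝ) (z : Fin n → ℂ) : ℝ :=
  -∫ t in (η ^ 2)..(‖z e‖ ^ 2), Ehat r C1 k (Function.update z e ((Real.sqrt t : ℝ) : ℂ)) * kap η t

lemma Rp_integrand_continuous (h : GoodDef r e) (hC : 0 < C1) (k : ℕ) (η : ℝ) :
    Continuous (Function.uncurry fun (z : Fin n → ℂ) (t : ℝ) =>
      Ehat r C1 k (Function.update z e ((Real.sqrt t : ℝ) : ℂ)) * kap η t) := by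
  have h1 : Continuous fun p : (Fin n → ℂ) × ℝ => Function.update p.1 e ((Real.sqrt p.2 : ℝ) : ℂ) :=
    continuous_fst.update e (Complex.continuous_ofReal.comp (Real.continuous_sqrt.comp continuous_snd))
  exact ((Ehat_continuous h hC k).comp h1).mul ((kap_contDiff η).continuous.comp continuous_snd)

lemma Rp_continuous (h : GoodDef r e) (hC : 0 < C1) (k : ℕ) (η : ℝ) : Continuous (Rp r e C1 k η) := by
  unfold Rp
  refine Continuous.neg ?_
  exact intervalIntegral.continuous_parametric_intervalIntegral_of_continuous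
    (Rp_integrand_continuous h hC k η) (((continuous_apply e).norm).pow 2)

lemma Rp_line (h : GoodDef r e) (hC : 0 < C1) (k : ℕ) (η : ℝ) (z : Fin n → ℂ) (d : ℂ) :
    HasLineDerivAt ℝ (Rp r e C1 k η)
      (-(2 * (conj (z e) * d).re * (Ehat r C1 k z * kap η (‖z e‖ ^ 2)))) z (Pi.single e d) := by
  unfold HasLineDerivAt
  set w : ℝ → ℝ := fun t => Ehat r C1 k (Function.update z e ((Real.sqrt t : ℝ) : ℂ)) * kap η t with hw
  have hwc : Continuous w := by
    have := (Rp_integrand_continuous h hC k η).comp (Continuous.prodMk continuous_const continuous_id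
      : Continuous fun t : ℝ => (z, t))
    exact this
  have hupd : ∀ t : ℝ, ∀ c : ℂ, Function.update (z + t • (Pi.single e d : Fin n → ℂ)) e c
      = Function.update z e c := by
    intro t c
    ext i
    by_cases hi : i = e
    · subst hi; simp
    · rw [Function.update_of_ne hi, Function.update_of_ne hi]
      simp [Pi.single_eq_of_ne hi]
  have hfun : (fun t : ℝ => Rp r e C1 k η (z + t • (Pi.single e d : Fin n → ℂ)))
      = fun t : ℝ => -∫ s in (η ^ 2)..(‖z e + t * d‖ ^ 2), w s := by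
    ext t
    unfold Rp
    simp_rw [hupd]
    simp [hw]
  rw [hfun]
  have h1 : HasDerivAt (fun u : ℝ => ∫ s in (η ^ 2)..u, w s) (w (‖z e‖ ^ 2)) (‖z e‖ ^ 2) :=
    intervalIntegral.integral_hasDerivAt_right (hwc.intervalIntegrable _ _)
      (hwc.stronglyMeasurableAtFilter _ _) hwc.continuousAt
  have h2 : HasDerivAt (fun t : ℝ => ‖z e + t * d‖ ^ 2) (2 * (conj (z e) * d).re) 0 := by
    have e1 : (fun t : ℝ => ‖z e + t * d‖ ^ 2) = fun t : ℝ => ‖z e‖ ^ 2
        + 2 * (conj (z e) * d).re * t + ‖d‖ ^ 2 * t ^ 2 := by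
      ext t
      rw [norm_sq_eq_re_im, norm_sq_eq_re_im, norm_sq_eq_re_im]
      simp; ring
    rw [e1]
    have h3 := (((hasDerivAt_id (0:ℝ)).const_mul (2 * (conj (z e) * d).re)).const_add (‖z e‖ ^ 2)).add
      (((hasDerivAt_id (0:ℝ)).pow 2).const_mul (‖d‖ ^ 2))
    simp only [id, mul_one] at h3
    refine h3.congr_deriv ?_
    simp
  have h4 : HasDerivAt (fun u : ℝ => ∫ s in (η ^ 2)..u, w s) (w (‖z e‖ ^ 2))
      (‖z e + ((0:ℝ) : ℂ) * d‖ ^ 2) := by simpa using h1
  have h5 := (h4.comp (0:ℝ) h2).neg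
  have hwv : w (‖z e‖ ^ 2) = Ehat r C1 k z * kap η (‖z e‖ ^ 2) := by
    simp only [hw]
    rw [Real.sqrt_sq (norm_nonneg _), h.Ehat_update z (by simp)]
  rw [hwv] at h5
  refine h5.congr_deriv ?_
  ring

lemma Rp_bound (h : GoodDef r e) (hC : 0 < C1) (k : ℕ) {η : ℝ} (hη : 0 < η) {z : Fin n → ℂ}
    (hz : r z < 0) :
    0 ≤ Rp r e C1 k η z ∧ Rp r e C1 k η z ≤ η ^ 2 * (Ehat r C1 k z * kap η (‖z e‖ ^ 2)) := by
  set w : ℝ → ℝ := fun t => Ehat r C1 k (Function.update z e ((Real.sqrt t : ℝ) : ℂ)) * kap η t with hw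
  have hwc : Continuous w := by
    have := (Rp_integrand_continuous h hC k η).comp (Continuous.prodMk continuous_const continuous_id
      : Continuous fun t : ℝ => (z, t))
    exact this
  have hw0 : ∀ t, 0 ≤ w t := fun t => mul_nonneg (Ehat_nonneg _) (kap_mem _ _).1
  have hW0 : 0 ≤ Ehat r C1 k z * kap η (‖z e‖ ^ 2) := mul_nonneg (Ehat_nonneg _) (kap_mem _ _).1
  have hR : Rp r e C1 k η z = ∫ t in (‖z e‖ ^ 2)..(η ^ 2), w t := by
    unfold Rp
    rw [intervalIntegral.integral_symm]
    simp [hw]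
  rw [hR]
  by_cases hcase : ‖z e‖ ^ 2 ≤ η ^ 2
  · constructor
    · exact intervalIntegral.integral_nonneg hcase fun t _ => hw0 t
    · have h1 : ∫ t in (‖z e‖ ^ 2)..(η ^ 2), w t
          ≤ ∫ t in (‖z e‖ ^ 2)..(η ^ 2), Ehat r C1 k z * kap η (‖z e‖ ^ 2) := by
        refine intervalIntegral.integral_mono_on hcase (hwc.intervalIntegrable _ _)
          (continuous_const.intervalIntegrable _ _) fun t ht => ?_
        simp only [hw]
        refine mul_le_mul ?_ (kap_anti ht.1) (kap_mem _ _).1 (Ehat_nonneg _)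
        apply h.Ehat_le hC hz
        rw [Complex.norm_real, Real.norm_eq_abs, abs_of_nonneg (Real.sqrt_nonneg _)]
        exact Real.le_sqrt_of_sq_le ht.1
      refine h1.trans ?_
      rw [intervalIntegral.integral_const, smul_eq_mul]
      refine mul_le_mul_of_nonneg_right ?_ hW0
      have : 0 ≤ ‖z e‖ ^ 2 := by positivity
      linarith
  · push Not at hcase
    have h1 : ∫ t in (‖z e‖ ^ 2)..(η ^ 2), w t = 0 := by
      rw [intervalIntegral.integral_symm, neg_eq_zero]
      have h2 : ∀ t ∈ Set.uIcc (η ^ 2) (‖z e‖ ^ 2), w t = 0 := by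
        intro t ht
        rw [Set.uIcc_of_le hcase.le] at ht
        simp only [hw]
        rw [kap_zero hη ht.1, mul_zero]
      rw [intervalIntegral.integral_congr (g := fun _ => (0:ℝ)) h2]
      simp
    rw [h1]
    refine ⟨le_rfl, by positivity⟩

end near

end Pool.Agent.DBar74
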