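import Pool.Agent.DBar74.DomData
import Pool.Agent.DBar74.FA

open MeasureTheory Filter Topology Complex
open scoped ENNReal ContDiff ComplexConjugate

namespace Pool.Agent.DBar74

variable {n : ℕ}

section tripnorm

variable {Ω : Set (Fin n → ℂ)} {b1 b2 b3 : (Fin n → ℂ) → ℝ} {F : Fin n → (Fin n → ℂ) → ℂ}

lemma isTest_sum {ι : Type*} (s : Finset ι) {g : ι → (Fin n → ℂ) → ℂ} (hg : ∀ i, IsTest Ω (g i)) :
    IsTest Ω (fun x => ∑ i ∈ s, g i x) := by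
  classical
  induction s using Finset.induction_on with
  | empty =>
    simp only [Finset.sum_empty]
    refine ⟨contDiff_const, HasCompactSupport.zero, ?_⟩
    have : tsupport (fun _ : Fin n → ℂ => (0:ℂ)) = ∅ := by
      rw [tsupport_eq_empty_iff]; rfl
    rw [this]; exact Set.empty_subset _
  | insert a s ha ih =>
    simp only [Finset.sum_insert ha]
    exact (hg a).add ih

lemma isTest_uT (hΩ : IsOpen Ω) (h1 : IsFac Ω b1) (h2 : IsFac Ω b2) (hF : ∀ j, IsTest Ω (F j)) :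
    IsTest Ω (uT b1 b2 F) := by
  have hcb22 : ContDiffOn ℝ ∞ (fun x => (b2 x : ℂ) ^ 2) Ω := (contDiffOn_cx h2.1).pow 2
  have t1 : ∀ j, IsTest Ω (fun y => (b2 y : ℂ) ^ 2 * F j y) := fun j => (hF j).smul_left hΩ hcb22
  have t2 := isTest_sum Finset.univ (fun j => (t1 j).dz j)
  exact t2.smul_left hΩ (contDiffOn_inv_cx h1.1 h1.2).neg

lemma isTest_hT (hΩ : IsOpen Ω) (h3 : IsFac Ω b3) (hF : ∀ j, IsTest Ω (F j)) (i : Idx2 n) :
    IsTest Ω (hT b3 F i) := by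
  have t1 : IsTest Ω (fun x => dzb i.1.1 (F i.1.2) x + (-1) * dzb i.1.2 (F i.1.1) x) :=
    ((hF _).dzb _).add (((hF _).dzb _).mul_left_smooth contDiff_const)
  have t2 := h3.test hΩ t1
  have : hT b3 F i = fun x => (b3 x : ℂ) * (dzb i.1.1 (F i.1.2) x + (-1) * dzb i.1.2 (F i.1.1) x) := by
    ext x; unfold hT; ring
  rw [this]; exact t2

lemma trip_norm1 (hΩ : IsOpen Ω) (h2 : IsFac Ω b2) (hF : ∀ j, IsTest Ω (F j)) :
    ‖(tTrip Ω b1 b2 b3 F).1‖ ^ 2 = ∫ x in Ω, (b2 x) ^ 2 * nsq (fun j => F j x) := by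
  have h := fun j => (h2.test hΩ (hF j))
  rw [PiLp.norm_sq_eq_of_L2]
  have e1 : ∀ j, ‖(tTrip Ω b1 b2 b3 F).1 j‖ ^ 2 = ∫ x in Ω, ‖(b2 x : ℂ) * F j x‖ ^ 2 := fun j =>
    tl_norm_sq (h j).memLpr
  simp_rw [e1]
  rw [← integral_finsetSum]
  · congr 1; ext x
    unfold nsq
    rw [Finset.mul_sum]
    refine Finset.sum_congr rfl fun j _ => ?_
    rw [norm_mul, mul_pow, Complex.norm_real, Real.norm_eq_abs, sq_abs]
  · intro j _
    exact ((h j).memLpr.integrable_norm_pow (by norm_num))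

lemma trip_norm2 (hΩ : IsOpen Ω) (h1 : IsFac Ω b1) (h2 : IsFac Ω b2) (hF : ∀ j, IsTest Ω (F j)) :
    ‖(tTrip Ω b1 b2 b3 F).2.1‖ ^ 2 = ∫ x in Ω, ‖uT b1 b2 F x‖ ^ 2 :=
  tl_norm_sq (isTest_uT hΩ h1 h2 hF).memLpr

lemma sum_idx2 (a : Fin n → Fin n → ℂ) :
    ∑ i : Idx2 n, ‖a i.1.1 i.1.2 - a i.1.2 i.1.1‖ ^ 2
      = (1 / 2) * ∑ j, ∑ k, ‖a j k - a k j‖ ^ 2 := by
  set g : Fin n × Fin n → ℝ := fun p => ‖a p.1 p.2 - a p.2 p.1‖ ^ 2 with hg
  have e0 : ∑ j, ∑ k, ‖a j k - a k j‖ ^ 2 = ∑ p : Fin n × Fin n, g p := by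
    rw [Fintype.sum_prod_type]
  have e1 : ∑ i : Idx2 n, ‖a i.1.1 i.1.2 - a i.1.2 i.1.1‖ ^ 2
      = ∑ p : Fin n × Fin n, if p.1 < p.2 then g p else 0 := by
    rw [← Finset.sum_filter]
    rw [Finset.sum_subtype (p := fun p : Fin n × Fin n => p.1 < p.2)
      (Finset.univ.filter fun p : Fin n × Fin n => p.1 < p.2) (by intro x; simp)]
  have e2 : ∑ p : Fin n × Fin n, g p = (∑ p : Fin n × Fin n, if p.1 < p.2 then g p else 0)
      + ∑ p : Fin n × Fin n, if p.2 < p.1 then g p else 0 := by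
    rw [← Finset.sum_add_distrib]
    refine Finset.sum_congr rfl fun p _ => ?_
    rcases lt_trichotomy p.1 p.2 with h | h | h
    · rw [if_pos h, if_neg (not_lt.2 h.le), add_zero]
    · rw [if_neg (by rw [h]; exact lt_irrefl _), if_neg (by rw [h]; exact lt_irrefl _)]
      simp [hg, h]
    · rw [if_neg (not_lt.2 h.le), if_pos h, zero_add]
  have e3 : (∑ p : Fin n × Fin n, if p.2 < p.1 then g p else 0)
      = ∑ p : Fin n × Fin n, if p.1 < p.2 then g p else 0 := by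
    rw [← Equiv.sum_comp (Equiv.prodComm (Fin n) (Fin n))]
    refine Finset.sum_congr rfl fun p _ => ?_
    simp only [Equiv.prodComm_apply, Prod.fst_swap, Prod.snd_swap, hg]
    rw [norm_sub_rev]
  rw [e1, e0, e2, e3]; ring

lemma trip_norm3 (hΩ : IsOpen Ω) (h3 : IsFac Ω b3) (hF : ∀ j, IsTest Ω (F j)) :
    ‖(tTrip Ω b1 b2 b3 F).2.2‖ ^ 2 = ∫ x in Ω, (b3 x) ^ 2 * Sop F x := by
  have h := fun i => (isTest_hT hΩ h3 hF i)
  rw [PiLp.norm_sq_eq_of_L2]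
  have e1 : ∀ i, ‖(tTrip Ω b1 b2 b3 F).2.2 i‖ ^ 2 = ∫ x in Ω, ‖hT b3 F i x‖ ^ 2 := fun i =>
    tl_norm_sq (h i).memLpr
  simp_rw [e1]
  rw [← integral_finsetSum]
  · congr 1; ext x
    unfold Sop hT
    rw [← sum_idx2 (fun j k => dzb j (F k) x), Finset.mul_sum]
    refine Finset.sum_congr rfl fun i _ => ?_
    rw [norm_mul, mul_pow, Complex.norm_real, Real.norm_eq_abs, sq_abs]
  · intro i _
    exact ((h i).memLpr.integrable_norm_pow (by norm_num))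

end tripnorm

end Pool.Agent.DBar74
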