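import Pool.Agent.DBar74.Setup

open MeasureTheory Filter Topology Complex
open scoped ENNReal ContDiff ComplexConjugate

namespace Pool.Agent.DBar74

variable {n : ℕ}

section wts

/-- growth constants -/
noncomputable def Ak (C1 : ℝ) (k : ℕ) : ℝ := C1 * Real.exp (2 * k + 1)
noncomputable def Kk (C1 : ℝ) (k : ℕ) : ℝ := 2 * (k + 1) * Ak C1 k

/-- the conjugating factors -/
noncomputable def wB3 (r : (Fin n → ℂ) → ℝ) (C1 : ℝ) (k : ℕ) (z : Fin n → ℂ) : ℝ :=
  Real.exp (-(Kk C1 k * th (sF r z - k)) / 2)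
noncomputable def wB2 (r : (Fin n → ℂ) → ℝ) (C1 : ℝ) (k : ℕ) (z : Fin n → ℂ) : ℝ :=
  wB3 r C1 k z * Real.sqrt (1 + Ak C1 k * th (sF r z - k))
noncomputable def wB1 (r : (Fin n → ℂ) → ℝ) (C1 : ℝ) (k : ℕ) (z : Fin n → ℂ) : ℝ :=
  wB3 r C1 k z * (1 + Ak C1 k * th (sF r z - k))

variable {r : (Fin n → ℂ) → ℝ} {e : Fin n} {C1 : ℝ} {k : ℕ}

lemma Ak_pos (hC : 0 < C1) : 0 < Ak C1 k := by unfold Ak; positivity
lemma Kk_pos (hC : 0 < C1) : 0 < Kk C1 k := by have := Ak_pos (k := k) hC; unfold Kk; positivity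

lemma one_add_pos (hC : 0 < C1) (t : ℝ) : 0 < 1 + Ak C1 k * th t := by
  have := Ak_pos (k := k) hC
  have := th_nonneg t
  positivity

lemma GoodDef.th_smooth (h : GoodDef r e) (k : ℕ) :
    ContDiffOn ℝ ∞ (fun z => th (sF r z - k)) (Om r) :=
  th_contDiff.comp_contDiffOn (h.sF_smooth.sub contDiffOn_const)

lemma GoodDef.fac3 (h : GoodDef r e) (C1 : ℝ) (k : ℕ) : IsFac (Om r) (wB3 r C1 k) := by
  refine ⟨?_, fun z _ => Real.exp_pos _⟩
  exact Real.contDiff_exp.comp_contDiffOn (((contDiffOn_const.mul (h.th_smooth k)).neg).div_const 2)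

lemma GoodDef.one_add_smooth (h : GoodDef r e) (C1 : ℝ) (k : ℕ) :
    ContDiffOn ℝ ∞ (fun z => 1 + Ak C1 k * th (sF r z - k)) (Om r) :=
  contDiffOn_const.add (contDiffOn_const.mul (h.th_smooth k))

lemma GoodDef.fac2 (h : GoodDef r e) (hC : 0 < C1) (k : ℕ) : IsFac (Om r) (wB2 r C1 k) := by
  refine ⟨?_, fun z _ => mul_pos (Real.exp_pos _) (Real.sqrt_pos.2 (one_add_pos hC _))⟩
  exact (h.fac3 C1 k).1.mul ((h.one_add_smooth C1 k).sqrt fun z _ => (one_add_pos hC _).ne')

lemma GoodDef.fac1 (h : GoodDef r e) (hC : 0 < C1) (k : ℕ) : IsFac (Om r) (wB1 r C1 k) :=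
  ⟨(h.fac3 C1 k).1.mul (h.one_add_smooth C1 k), fun _ _ =>
    mul_pos (Real.exp_pos _) (one_add_pos hC _)⟩

lemma wB3_le_one (hC : 0 < C1) (z : Fin n → ℂ) : wB3 r C1 k z ≤ 1 := by
  unfold wB3
  rw [Real.exp_le_one_iff]
  have := Kk_pos (k := k) hC
  have := th_nonneg (sF r z - k)
  have : 0 ≤ Kk C1 k * th (sF r z - k) := by positivity
  linarith

lemma wB1_le_one (hC : 0 < C1) (z : Fin n → ℂ) : wB1 r C1 k z ≤ 1 := by
  unfold wB1 wB3
  have hA := Ak_pos (k := k) hC
  have ht := th_nonneg (sF r z - k)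
  set t := th (sF r z - k)
  have h1 : 1 + Ak C1 k * t ≤ Real.exp (Ak C1 k * t) := by
    have := Real.add_one_le_exp (Ak C1 k * t); linarith
  have h2 : Real.exp (-(Kk C1 k * t) / 2) * (1 + Ak C1 k * t)
      ≤ Real.exp (-(Kk C1 k * t) / 2) * Real.exp (Ak C1 k * t) :=
    mul_le_mul_of_nonneg_left h1 (Real.exp_pos _).le
  refine h2.trans ?_
  rw [← Real.exp_add, Real.exp_le_one_iff]
  unfold Kk
  have : 0 ≤ (k:ℝ) * (Ak C1 k * t) := by positivity
  nlinarith

lemma wB2_le_one (hC : 0 < C1) (z : Fin n → ℂ) : wB2 r C1 k z ≤ 1 := by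
  refine le_trans ?_ (wB1_le_one (r := r) (k := k) hC z)
  unfold wB2 wB1
  refine mul_le_mul_of_nonneg_left ?_ (Real.exp_pos _).le
  have hA := Ak_pos (k := k) hC
  have ht := th_nonneg (sF r z - k)
  have h1 : 1 ≤ 1 + Ak C1 k * th (sF r z - k) := by
    have : 0 ≤ Ak C1 k * th (sF r z - k) := by positivity
    linarith
  rw [Real.sqrt_le_left (by linarith)]
  nlinarith

lemma w_eq_one {z : Fin n → ℂ} (hz : sF r z ≤ k) :
    wB1 r C1 k z = 1 ∧ wB2 r C1 k z = 1 ∧ wB3 r C1 k z = 1 := by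
  have h : th (sF r z - k) = 0 := th_of_nonpos (by linarith)
  unfold wB1 wB2 wB3
  rw [h]; simp

lemma GoodDef.loc (h : GoodDef r e) (C1 : ℝ) (K : Set (Fin n → ℂ)) (hK : IsCompact K)
    (hKΩ : K ⊆ Om r) : ∀ᶠ k : ℕ in atTop, ∀ x ∈ K,
      wB1 r C1 k x = 1 ∧ wB2 r C1 k x = 1 ∧ wB3 r C1 k x = 1 := by
  obtain ⟨c, hc⟩ := hK.bddAbove_image (h.sF_smooth.continuousOn.mono hKΩ)
  obtain ⟨N, hN⟩ := exists_nat_ge c
  filter_upwards [eventually_ge_atTop N] with k hk x hx
  apply w_eq_one
  have h1 : sF r x ≤ c := hc ⟨x, hx, rfl⟩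
  have h2 : (N:ℝ) ≤ k := by exact_mod_cast hk
  linarith

/-- one variable cut-off -/
noncomputable def cutf (t : ℝ) : ℝ := 1 - Real.smoothTransition t

lemma cutf_contDiff : ContDiff ℝ ∞ cutf := contDiff_const.sub Real.smoothTransition.contDiff

lemma cutf_one {t : ℝ} (h : t ≤ 0) : cutf t = 1 := by
  unfold cutf; rw [Real.smoothTransition.zero_of_nonpos h]; ring

lemma cutf_zero {t : ℝ} (h : 1 ≤ t) : cutf t = 0 := by
  unfold cutf; rw [Real.smoothTransition.one_of_one_le h]; ring

lemma cutf_mem (t : ℝ) : 0 ≤ cutf t ∧ cutf t ≤ 1 := by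
  unfold cutf
  have h1 := Real.smoothTransition.nonneg t
  have h2 := Real.smoothTransition.le_one t
  constructor <;> linarith

lemma cutf_deriv_bound : ∃ C, ∀ t, |deriv cutf t| ≤ C := by
  have hcont : Continuous (deriv cutf) := cutf_contDiff.continuous_deriv (by simp)
  obtain ⟨C, hC⟩ := (isCompact_Icc (a := (0:ℝ)) (b := 1)).bddAbove_image (f := fun t => |deriv cutf t|)
    hcont.abs.continuousOn
  refine ⟨max C 0, fun t => ?_⟩
  by_cases ht : t ∈ Set.Icc (0:ℝ) 1
  · exact (hC ⟨t, ht, rfl⟩).trans (le_max_left _ _)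
  · rw [Set.mem_Icc, not_and_or, not_le, not_le] at ht
    have : deriv cutf t = 0 := by
      rcases ht with ht | ht
      · have hev : cutf =ᶠ[𝓝 t] fun _ => 1 := by
          filter_upwards [isOpen_Iio.mem_nhds ht] with y hy
          exact cutf_one (le_of_lt hy)
        rw [hev.deriv_eq]; simp
      · have hev : cutf =ᶠ[𝓝 t] fun _ => 0 := by
          filter_upwards [isOpen_Ioi.mem_nhds ht] with y hy
          exact cutf_zero (le_of_lt hy)
        rw [hev.deriv_eq]; simp
    rw [this]; simp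

open Classical in
/-- the cut-off functions -/
noncomputable def etaF (r : (Fin n → ℂ) → ℝ) (k m : ℕ) (z : Fin n → ℂ) : ℝ :=
  if r z < 0 then cutf (sF r z - (k + 1) - m) else 0

lemma etaF_of {z : Fin n → ℂ} (hz : z ∈ Om r) (m : ℕ) :
    etaF r k m z = cutf (sF r z - (k + 1) - m) := if_pos hz

lemma GoodDef.etaF_supp (h : GoodDef r e) (k m : ℕ) :
    Function.support (etaF r k m) ⊆ {z | r z ≤ -Real.exp (-((k:ℝ) + 1 + m + 1))} := by
  intro z hz
  by_cases hr : r z < 0
  · refine h.sublevel hr ?_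
    by_contra hc
    push Not at hc
    apply hz
    rw [etaF_of hr]
    exact cutf_zero (by linarith)
  · exact absurd (if_neg hr) hz

lemma GoodDef.etaF_test (h : GoodDef r e) (k m : ℕ) : IsTest (Om r) (cx (etaF r k m)) := by
  set L := {z | r z ≤ -Real.exp (-((k:ℝ) + 1 + m + 1))} with hL
  have hLc : IsCompact L := h.isCompact_sub (Real.exp_pos _)
  have hsub : L ⊆ Om r := fun z hz => by
    have h1 : r z ≤ -Real.exp (-((k:ℝ) + 1 + m + 1)) := hz
    have := Real.exp_pos (-((k:ℝ) + 1 + m + 1))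
    change r z < 0
    linarith
  have hs := h.etaF_supp k m
  have hsupp : Function.support (cx (etaF r k m)) ⊆ L := by
    intro z hz
    apply hs
    intro h0
    apply hz
    simp [cx, h0]
  have hsm : ContDiff ℝ ∞ (etaF r k m) := by
    rw [contDiff_iff_contDiffAt]
    intro z
    by_cases hz : z ∈ Om r
    · have hev : etaF r k m =ᶠ[𝓝 z] fun z => cutf (sF r z - (k + 1) - m) := by
        filter_upwards [h.isOpen.mem_nhds hz] with y hy
        exact etaF_of hy m
      refine ContDiffAt.congr_of_eventuallyEq ?_ hev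
      exact (cutf_contDiff.contDiffAt).comp z
        ((((h.sF_smooth.contDiffAt (h.isOpen.mem_nhds hz))).sub contDiffAt_const).sub contDiffAt_const)
    · have hzL : z ∈ Lᶜ := fun hzL => hz (hsub hzL)
      have hev : etaF r k m =ᶠ[𝓝 z] fun _ => 0 := by
        filter_upwards [hLc.isClosed.isOpen_compl.mem_nhds hzL] with y hy
        by_contra hne
        exact hy (hs hne)
      exact (contDiffAt_const (c := (0:ℝ))).congr_of_eventuallyEq hev
  exact ⟨contDiff_ofReal_comp hsm, HasCompactSupport.of_support_subset_isCompact hLc hsupp,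
    (closure_minimal hsupp hLc.isClosed).trans hsub⟩

lemma GoodDef.goodCut (h : GoodDef r e) (hC : 0 < C1)
    (hgrad : ∀ z ∈ Om r, ∀ j, ‖dz j (cx (sF r)) z‖ ^ 2 ≤ C1 * Real.exp (2 * sF r z)) (k : ℕ) :
    ∃ C η, GoodCut (Om r) (wB1 r C1 k) (wB2 r C1 k) (wB3 r C1 k) C η := by
  obtain ⟨C, hCb⟩ := cutf_deriv_bound
  have hC0 : 0 ≤ C := (abs_nonneg _).trans (hCb 0)
  refine ⟨C, fun m => cx (etaF r k m), fun m => h.etaF_test k m, ?_, ?_, ?_⟩
  · intro m x
    have hm : 0 ≤ etaF r k m x ∧ etaF r k m x ≤ 1 := by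
      by_cases hx : x ∈ Om r
      · rw [etaF_of hx]; exact cutf_mem _
      · have : etaF r k m x = 0 := if_neg hx
        rw [this]; constructor <;> norm_num
    have : (1 : ℂ) - cx (etaF r k m) x = ((1 - etaF r k m x : ℝ) : ℂ) := by simp [cx]
    rw [this, Complex.norm_real, Real.norm_eq_abs, abs_of_nonneg (by linarith [hm.2])]
    linarith [hm.1]
  · intro x hx
    have hcont : ContinuousAt (sF r) x := (h.sF_smooth.contDiffAt (h.isOpen.mem_nhds hx)).continuousAt
    obtain ⟨N, hN⟩ := exists_nat_gt (sF r x)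
    filter_upwards [eventually_ge_atTop N] with m hm
    filter_upwards [h.isOpen.mem_nhds hx, hcont.eventually (gt_mem_nhds hN)] with y hy hy2
    have hm' : (N:ℝ) ≤ m := by exact_mod_cast hm
    have : etaF r k m y = 1 := by
      rw [etaF_of hy]
      apply cutf_one
      have : (0:ℝ) ≤ k := Nat.cast_nonneg k
      linarith
    simp [cx, this]
  · intro m x hx j
    have hxΩ : r x < 0 := hx
    have hA := Ak_pos (k := k) hC
    have hT := th_nonneg (sF r x - k)
    set T := th (sF r x - k) with hTdef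
    have hsd : DifferentiableAt ℝ (sF r) x :=
      (h.sF_smooth.contDiffAt (h.isOpen.mem_nhds hx)).differentiableAt (by simp)
    have hb3 : 0 < wB3 r C1 k x := Real.exp_pos _
    have hsq : 0 < Real.sqrt (1 + Ak C1 k * T) := Real.sqrt_pos.2 (one_add_pos hC _)
    have hsq2 : Real.sqrt (1 + Ak C1 k * T) ^ 2 = 1 + Ak C1 k * T := Real.sq_sqrt (one_add_pos hC _).le
    have r21 : wB2 r C1 k x / wB1 r C1 k x = 1 / Real.sqrt (1 + Ak C1 k * T) := by
      unfold wB2 wB1
      rw [← hTdef]
      field_simp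
      exact hsq2
    have r32 : wB3 r C1 k x / wB2 r C1 k x = 1 / Real.sqrt (1 + Ak C1 k * T) := by
      unfold wB2
      rw [← hTdef]
      field_simp
    -- the derivative
    have hev : cx (etaF r k m) =ᶠ[𝓝 x] fun z => ((cutf (sF r z - (k + 1) - m) : ℝ) : ℂ) := by
      filter_upwards [h.isOpen.mem_nhds hx] with y hy
      simp [cx, etaF_of hy]
    have hdz : dz j (cx (etaF r k m)) x
        = ((deriv cutf (sF r x - (k + 1) - m) : ℝ) : ℂ) * dz j (cx (sF r)) x := by
      have e1 : dz j (cx (etaF r k m)) x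
          = dz j (fun z => ((cutf (sF r z - (k + 1) - m) : ℝ) : ℂ)) x := by
        unfold dz; rw [hev.fderiv_eq]
      rw [e1]
      have hd : HasDerivAt (fun t : ℝ => cutf (t - (k + 1) - m))
          (deriv cutf (sF r x - (k + 1) - m)) (sF r x) := by
        have h1 : HasDerivAt cutf (deriv cutf (sF r x - (k + 1) - m)) (sF r x - (k + 1) - m) :=
          ((cutf_contDiff.differentiable (by simp)) _).hasDerivAt
        have h2 : HasDerivAt (fun t : ℝ => t - (k + 1) - m) 1 (sF r x) :=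
          ((hasDerivAt_id (sF r x)).sub_const _).sub_const _
        have := h1.comp (sF r x) h2
        simpa [Function.comp_def] using this
      exact dz_comp_real (j := j) (k := sF r) hsd hd
    have hdzb : dzb j (cx (etaF r k m)) x = conj (dz j (cx (etaF r k m)) x) := by
      have hd : DifferentiableAt ℝ (etaF r k m) x := by
        have hev2 : etaF r k m =ᶠ[𝓝 x] fun z => cutf (sF r z - (k + 1) - m) := by
          filter_upwards [h.isOpen.mem_nhds hx] with y hy
          exact etaF_of hy m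
        refine DifferentiableAt.congr_of_eventuallyEq ?_ hev2
        exact ((cutf_contDiff.differentiable (by simp)) _).comp x
          ((hsd.sub_const _).sub_const _)
      exact dzb_ofReal hd
    have hmain : 1 / Real.sqrt (1 + Ak C1 k * T) * ‖dz j (cx (etaF r k m)) x‖ ≤ C := by
      rw [hdz, norm_mul, Complex.norm_real, Real.norm_eq_abs]
      by_cases hs : sF r x < k + 1
      · have h0 : deriv cutf (sF r x - (k + 1) - m) = 0 := by
          have hneg : sF r x - (k + 1) - m < 0 := by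
            have : (0:ℝ) ≤ m := Nat.cast_nonneg m
            linarith
          have hev : cutf =ᶠ[𝓝 (sF r x - (k + 1) - m)] fun _ => 1 := by
            filter_upwards [isOpen_Iio.mem_nhds hneg] with y hy
            exact cutf_one (le_of_lt hy)
          rw [hev.deriv_eq]; simp
        rw [h0]; simpa using hC0
      · push Not at hs
        have h1 := th_ge (x := sF r x - k) (by linarith)
        have h2 : C1 * Real.exp (2 * sF r x) ≤ Ak C1 k * T := by
          have h3 : Ak C1 k * (Real.exp (-1) * Real.exp (2 * (sF r x - k)))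
              = C1 * Real.exp (2 * sF r x) := by
            unfold Ak
            rw [mul_assoc, ← Real.exp_add, ← Real.exp_add]
            congr 2; ring
          rw [← h3]
          exact mul_le_mul_of_nonneg_left h1 hA.le
        have h4 : ‖dz j (cx (sF r)) x‖ ≤ Real.sqrt (1 + Ak C1 k * T) := by
          apply Real.le_sqrt_of_sq_le
          have := hgrad x hx j
          linarith
        rw [one_div, inv_mul_le_iff₀ hsq, mul_comm (Real.sqrt _) C]
        exact mul_le_mul (hCb _) h4 (norm_nonneg _) hC0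
    constructor
    · rw [r21]; exact hmain
    · rw [r32, hdzb, RCLike.norm_conj]; exact hmain

end wts

end Pool.Agent.DBar74
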