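import Pool.Agent.DBar74.Mollify2
import Pool.Agent.DBar74.Limit

open MeasureTheory Filter Topology Complex
open scoped ENNReal ContDiff ComplexConjugate InnerProductSpace

namespace Pool.Agent.DBar74

variable {n : ℕ}

/-- Square integrable functions on `Ω`. -/
noncomputable abbrev L2 (Ω : Set (Fin n → ℂ)) := Lp ℂ 2 ((volume : Measure (Fin n → ℂ)).restrict Ω)

/-- Square integrable `(0,1)`-forms on `Ω`. -/
noncomputable abbrev Form1 (Ω : Set (Fin n → ℂ)) := PiLp 2 (fun _ : Fin n => L2 Ω)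

/-- Strictly increasing multi-indices of length two. -/
abbrev Idx2 (n : ℕ) := {p : Fin n × Fin n // p.1 < p.2}

/-- Square integrable `(0,2)`-forms on `Ω`. -/
noncomputable abbrev Form2 (Ω : Set (Fin n → ℂ)) := PiLp 2 (fun _ : Idx2 n => L2 Ω)

section tests

variable {Ω : Set (Fin n → ℂ)} {χ g : (Fin n → ℂ) → ℂ}

lemma IsTest.zero_outside (h : IsTest Ω χ) {x : Fin n → ℂ} (hx : x ∉ Ω) : χ x = 0 := by
  by_contra h'
  exact hx (h.2.2 (subset_tsupport _ h'))

lemma IsTest.univ (h : IsTest Ω χ) : IsTest Set.univ χ := ⟨h.1, h.2.1, Set.subset_univ _⟩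

/-- multiply a test function by a function that is smooth near its support -/
lemma IsTest.smul_left (hΩ : IsOpen Ω) (h : IsTest Ω χ) {b : (Fin n → ℂ) → ℂ}
    (hb : ContDiffOn ℝ ∞ b Ω) : IsTest Ω (fun x => b x * χ x) := by
  have hts : tsupport (fun x => b x * χ x) ⊆ tsupport χ := tsupport_mul_subset_right
  refine ⟨?_, h.2.1.mul_left, hts.trans h.2.2⟩
  rw [contDiff_iff_contDiffAt]
  intro x
  by_cases hx : x ∈ tsupport (fun x => b x * χ x)
  · have hxΩ : x ∈ Ω := h.2.2 (hts hx)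
    exact (hb.contDiffAt (hΩ.mem_nhds hxΩ)).mul h.1.contDiffAt
  · rw [notMem_tsupport_iff_eventuallyEq] at hx
    exact (contDiffAt_const (c := (0:ℂ))).congr_of_eventuallyEq hx

lemma contDiffOn_cx {b : (Fin n → ℂ) → ℝ} (hb : ContDiffOn ℝ ∞ b Ω) :
    ContDiffOn ℝ ∞ (fun x => (b x : ℂ)) Ω :=
  Complex.ofRealCLM.contDiff.comp_contDiffOn hb

lemma contDiffOn_inv_cx {b : (Fin n → ℂ) → ℝ} (hb : ContDiffOn ℝ ∞ b Ω) (hb0 : ∀ x ∈ Ω, 0 < b x) :
    ContDiffOn ℝ ∞ (fun x => ((b x : ℂ))⁻¹) Ω := by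
  have h1 : ContDiffOn ℝ ∞ (fun x => (b x)⁻¹) Ω := hb.inv fun x hx => (hb0 x hx).ne'
  have h2 := contDiffOn_cx h1
  refine h2.congr fun x _ => ?_
  push_cast; rfl

lemma IsTest.mul_left_smooth (h : IsTest Ω χ) (hg : ContDiff ℝ ∞ g) :
    IsTest Ω (fun x => g x * χ x) :=
  ⟨hg.mul h.1, h.2.1.mul_left, tsupport_mul_subset_right.trans h.2.2⟩

lemma IsTest.mul_right_smooth (h : IsTest Ω χ) (hg : ContDiff ℝ ∞ g) :
    IsTest Ω (fun x => χ x * g x) :=
  ⟨h.1.mul hg, h.2.1.mul_right, tsupport_mul_subset_left.trans h.2.2⟩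

lemma IsTest.add (h : IsTest Ω χ) (h' : IsTest Ω g) : IsTest Ω (fun x => χ x + g x) :=
  ⟨h.1.add h'.1, h.2.1.add h'.2.1, (tsupport_add χ g).trans (Set.union_subset h.2.2 h'.2.2)⟩

lemma IsTest.conj (h : IsTest Ω χ) : IsTest Ω (fun x => conj (χ x)) := by
  refine ⟨contDiff_conj_comp h.1, h.2.1.comp_left (g := fun z : ℂ => conj z) (by simp), ?_⟩
  refine Set.Subset.trans ?_ h.2.2
  exact closure_mono (fun x hx => by
    simp only [Function.mem_support, ne_eq] at hx ⊢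
    intro h; apply hx; rw [h]; simp)

lemma IsTest.memLp (h : IsTest Ω χ) (μ : Measure (Fin n → ℂ)) [IsFiniteMeasureOnCompacts μ]
    (p : ℝ≥0∞) : MemLp χ p μ := h.1.continuous.memLp_of_hasCompactSupport h.2.1

lemma IsTest.memLp_top (h : IsTest Ω χ) (μ : Measure (Fin n → ℂ)) : MemLp χ ∞ μ :=
  h.1.continuous.memLp_top_of_hasCompactSupport h.2.1 μ

lemma IsTest.mul_memLp (h : IsTest Ω χ) {μ : Measure (Fin n → ℂ)} (hg : MemLp g 2 μ) :
    MemLp (fun x => g x * χ x) 2 μ := (h.memLp_top μ).mul' hg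

/-- product of a test function and an `L²(Ω)` function, on the whole space -/
lemma IsTest.mul_memLp_univ (h : IsTest Ω χ) (hΩ : MeasurableSet Ω)
    (hg : MemLp g 2 (volume.restrict Ω)) : MemLp (fun x => g x * χ x) 2 volume := by
  have h1 := h.mul_memLp hg
  rw [← memLp_indicator_iff_restrict hΩ] at h1
  have h2 : Ω.indicator (fun x => g x * χ x) = fun x => g x * χ x := by
    rw [Set.indicator_eq_self]
    intro x hx
    by_contra hxΩ
    apply hx
    simp only [h.zero_outside hxΩ, mul_zero]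
  rwa [h2] at h1

lemma dzb_dzb_comm {f : (Fin n → ℂ) → ℂ} {x : Fin n → ℂ} {j k : Fin n} (hf : ContDiff ℝ ∞ f) :
    dzb j (dzb k f) x = dzb k (dzb j f) x := by
  have e1 : dzb j (dzb k f) x = (1 / 2) * (fderiv ℝ (dzb k f) x (Pi.single j 1)
      + I * fderiv ℝ (dzb k f) x (Pi.single j I)) := rfl
  have e2 : dzb k (dzb j f) x = (1 / 2) * (fderiv ℝ (dzb j f) x (Pi.single k 1)
      + I * fderiv ℝ (dzb j f) x (Pi.single k I)) := rfl
  rw [e1, e2]
  rw [fderiv_dzb_apply hf, fderiv_dzb_apply hf, fderiv_dzb_apply hf, fderiv_dzb_apply hf]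
  rw [second_symm hf (Pi.single j 1) (Pi.single k 1), second_symm hf (Pi.single j I) (Pi.single k 1),
    second_symm hf (Pi.single j 1) (Pi.single k I), second_symm hf (Pi.single j I) (Pi.single k I)]
  ring

end tests

section pairing

variable (Ω : Set (Fin n → ℂ))

open Classical in
/-- The continuous functional `v ↦ ∫_Ω v g`. -/
noncomputable def pr (g : (Fin n → ℂ) → ℂ) : L2 Ω →L[ℂ] ℂ :=
  if h : MemLp (fun x => conj (g x)) 2 (volume.restrict Ω) then innerSL ℂ (h.toLp _) else 0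

variable {Ω}

lemma memLp_conj {g : (Fin n → ℂ) → ℂ} {μ : Measure (Fin n → ℂ)} (hg : MemLp g 2 μ) :
    MemLp (fun x => conj (g x)) 2 μ := by
  refine hg.congr_norm ?_ ?_
  · exact (Complex.continuous_conj.comp_aestronglyMeasurable hg.1)
  · exact Eventually.of_forall fun x => by simp

lemma pr_apply {g : (Fin n → ℂ) → ℂ} (hg : MemLp g 2 (volume.restrict Ω)) (v : L2 Ω) :
    pr Ω g v = ∫ x in Ω, v x * g x := by
  have h := memLp_conj hg
  unfold pr
  rw [dif_pos h, innerSL_apply_apply, L2.inner_def]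
  apply integral_congr_ae
  filter_upwards [h.coeFn_toLp] with x hx
  rw [hx]
  simp [RCLike.inner_apply]

lemma inner_eq_integral (u v : L2 Ω) : ⟪u, v⟫_ℂ = ∫ x in Ω, v x * conj (u x) := by
  rw [L2.inner_def]
  simp [RCLike.inner_apply]

end pairing

end Pool.Agent.DBar74
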