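import Pool.Agent.DBar74.Apriori

open MeasureTheory Filter Topology Complex
open scoped ENNReal ContDiff ComplexConjugate

namespace Pool.Agent.DBar74

variable {n : ℕ}

section trips

variable {r : (Fin n → ℂ) → ℝ} {e : Fin n} {C1 : ℝ} {k : ℕ} {F : Fin n → (Fin n → ℂ) → ℂ}
  {st : (Fin n → ℂ) → ℝ}

lemma wB3_sq {x : Fin n → ℂ} (hx : st x = sF r x) :
    (wB3 r C1 k x) ^ 2 = Real.exp (-phF st C1 k x) := by
  unfold wB3 phF
  rw [hx, ← Real.exp_nat_mul]
  congr 1; push_cast; ring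

lemma wB2_sq (hC : 0 < C1) {x : Fin n → ℂ} (hx : st x = sF r x) :
    (wB2 r C1 k x) ^ 2 = Real.exp (-phF st C1 k x) * (1 + Ak C1 k * th (st x - k)) := by
  unfold wB2
  rw [mul_pow, wB3_sq (k := k) (C1 := C1) hx, Real.sq_sqrt (one_add_pos hC _).le, hx]

lemma wB2_sq' (hC : 0 < C1) {x : Fin n → ℂ} (hx : st x = sF r x) :
    (wB2 r C1 k x) ^ 2 = Real.exp (-(phF st C1 k x - psF st C1 k x)) := by
  rw [wB2_sq hC hx, show -(phF st C1 k x - psF st C1 k x) = -phF st C1 k x + psF st C1 k x by ring,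
    Real.exp_add]
  congr 1
  unfold psF
  rw [Real.exp_log (one_add_pos hC _)]

/-- the weighted adjoint in the conjugated picture -/
lemma uT_eq (hC : 0 < C1) (hF : ∀ j, IsTest (Om r) (F j))
    (hst : ContDiff ℝ ∞ st) (hst2 : ∀ x ∈ KF F, st =ᶠ[𝓝 x] sF r) {x : Fin n → ℂ} (hx : x ∈ KF F) :
    uT (wB1 r C1 k) (wB2 r C1 k) F x
      = (wB3 r C1 k x : ℂ) * Dop (phF st C1 k) (psF st C1 k) F x := by
  have hF1 : ∀ j, ContDiff ℝ ∞ (F j) := fun j => (hF j).1
  set Φ : (Fin n → ℂ) → ℝ := fun y => phF st C1 k y - psF st C1 k y with hΦdef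
  have hφ := phF_smooth (C1 := C1) (k := k) hst
  have hψ := psF_smooth (k := k) hC hst
  have hΦ : ContDiff ℝ ∞ Φ := hφ.sub hψ
  have hev : ∀ j, (fun y => (wB2 r C1 k y : ℂ) ^ 2 * F j y) =ᶠ[𝓝 x] fun y => wt Φ y * F j y := by
    intro j
    filter_upwards [hst2 x hx] with y hy
    congr 1
    unfold wt
    rw [← wB2_sq' (k := k) hC hy]
    push_cast; rfl
  have h1 : ∀ j, dz j (fun y => (wB2 r C1 k y : ℂ) ^ 2 * F j y) x
      = - (wt Φ x * (dl (phF st C1 k) j (F j) x - dz j (cx (psF st C1 k)) x * F j x)) := by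
    intro j
    have e1 : dz j (fun y => (wB2 r C1 k y : ℂ) ^ 2 * F j y) x = dz j (fun y => wt Φ y * F j y) x := by
      unfold dz; rw [(hev j).fderiv_eq]
    have e2 : cx Φ = fun y => cx (phF st C1 k) y - cx (psF st C1 k) y := by
      ext y; simp [cx, hΦdef]
    rw [e1, dz_mul (differentiable_of_smooth (contDiff_wt hΦ) x)
      (differentiable_of_smooth (hF1 j) x), dz_wt hΦ, e2,
      dz_sub (differentiable_of_smooth (contDiff_ofReal_comp hφ) x)
        (differentiable_of_smooth (contDiff_ofReal_comp hψ) x)]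
    unfold dl
    ring
  unfold uT
  simp_rw [h1]
  rw [Finset.sum_neg_distrib, ← Finset.mul_sum, Finset.sum_sub_distrib]
  have e3 : ∑ i, dl (phF st C1 k) i (F i) x - ∑ i, dz i (cx (psF st C1 k)) x * F i x
      = Dop (phF st C1 k) (psF st C1 k) F x := rfl
  rw [e3]
  have hxs : st x = sF r x := (hst2 x hx).eq_of_nhds
  have e4 : wt Φ x = (wB2 r C1 k x : ℂ) ^ 2 := by
    unfold wt
    rw [← wB2_sq' (k := k) hC hxs]
    push_cast; rfl
  have h3 : 0 < wB3 r C1 k x := Real.exp_pos _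
  have h4 := one_add_pos (k := k) hC (sF r x - k)
  have e5 : (wB2 r C1 k x) ^ 2 = wB1 r C1 k x * wB3 r C1 k x := by
    unfold wB2 wB1
    rw [mul_pow, Real.sq_sqrt h4.le]; ring
  have h5 : (wB1 r C1 k x : ℂ) ≠ 0 := by
    have : 0 < wB1 r C1 k x := mul_pos h3 h4
    exact_mod_cast this.ne'
  rw [e4]
  have e6 : (wB2 r C1 k x : ℂ) ^ 2 = (wB1 r C1 k x : ℂ) * (wB3 r C1 k x : ℂ) := by
    exact_mod_cast congrArg (fun t : ℝ => (t : ℂ)) e5
  rw [e6]
  field_simp

lemma uT_zero_of {b1 b2 : (Fin n → ℂ) → ℝ} {x : Fin n → ℂ} (hx : x ∉ KF F) : uT b1 b2 F x = 0 := by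
  unfold uT
  have : ∀ j, dz j (fun y => (b2 y : ℂ) ^ 2 * F j y) x = 0 := by
    intro j
    by_contra hne
    exact notMem_KF hx j (tsupport_mul_subset_right (f := fun y => (b2 y : ℂ) ^ 2) (g := F j)
      (support_dz_subset hne))
  simp [this]

lemma continuous_expF (hst : ContDiff ℝ ∞ st) : Continuous (fun x => Real.exp (-phF st C1 k x)) :=
  Real.continuous_exp.comp (phF_smooth hst).continuous.neg

lemma trip_QF (h : GoodDef r e) (hC : 0 < C1) (hF : ∀ j, IsTest (Om r) (F j))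
    (hst : ContDiff ℝ ∞ st) (hst2 : ∀ x ∈ KF F, st =ᶠ[𝓝 x] sF r) :
    ‖(tTrip (Om r) (wB1 r C1 k) (wB2 r C1 k) (wB3 r C1 k) F).2.1‖ ^ 2
      + ‖(tTrip (Om r) (wB1 r C1 k) (wB2 r C1 k) (wB3 r C1 k) F).2.2‖ ^ 2 = QF st C1 k F := by
  have hF1 : ∀ j, ContDiff ℝ ∞ (F j) := fun j => (hF j).1
  have hφ := phF_smooth (C1 := C1) (k := k) hst
  have hψ := psF_smooth (k := k) hC hst
  rw [trip_norm2 h.isOpen (h.fac1 hC k) (h.fac2 hC k) hF, trip_norm3 h.isOpen (h.fac3 C1 k) hF]
  have e1 : ∫ x in Om r, ‖uT (wB1 r C1 k) (wB2 r C1 k) F x‖ ^ 2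
      = ∫ x, ‖Dop (phF st C1 k) (psF st C1 k) F x‖ ^ 2 * Real.exp (-phF st C1 k x) := by
    rw [setIntegral_eq_integral_of_forall_compl_eq_zero]
    · congr 1; ext x
      by_cases hx : x ∈ KF F
      · rw [uT_eq hC hF hst hst2 hx, norm_mul, Complex.norm_real, Real.norm_eq_abs, mul_pow, sq_abs,
          wB3_sq (hst2 x hx).eq_of_nhds]
        ring
      · rw [uT_zero_of hx, Dop_zero_of (zero_of_notMem_KF hx) (fderiv_zero_of_notMem_KF hx)]; simp
    · intro x hx
      rw [uT_zero_of fun h' => hx (KF_subset hF h')]; simp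
  have e2 : ∫ x in Om r, (wB3 r C1 k x) ^ 2 * Sop F x
      = ∫ x, Sop F x * Real.exp (-phF st C1 k x) := by
    rw [setIntegral_eq_integral_of_forall_compl_eq_zero]
    · congr 1; ext x
      by_cases hx : x ∈ KF F
      · rw [wB3_sq (hst2 x hx).eq_of_nhds]; ring
      · rw [Sop_zero_of (fderiv_zero_of_notMem_KF hx)]; simp
    · intro x hx
      rw [Sop_zero_of (fderiv_zero_of_notMem_KF fun h' => hx (KF_subset hF h'))]; simp
  rw [e1, e2, ← integral_add]
  · unfold QF
    congr 1; ext x; ring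
  · apply Continuous.integrable_of_hasCompactSupport
    · exact (((continuous_Dop hφ hψ hF1).norm).pow 2).mul (continuous_expF hst)
    · apply hasCompactSupport_of_local (F := F) fun j => (hF j).2.1
      intro x h1 h2
      rw [Dop_zero_of h1 h2]; simp
  · apply Continuous.integrable_of_hasCompactSupport
    · exact (continuous_Sop hF1).mul (continuous_expF hst)
    · apply hasCompactSupport_of_local (F := F) fun j => (hF j).2.1
      intro x h1 h2
      rw [Sop_zero_of h2]; simp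

lemma nsq_zero_of {x : Fin n → ℂ} (h : ∀ j, F j x = 0) : nsq (fun j => F j x) = 0 := by
  unfold nsq; simp [h]

lemma continuous_nsqF (hF : ∀ j, ContDiff ℝ ∞ (F j)) : Continuous (fun x => nsq (fun j => F j x)) := by
  unfold nsq
  exact continuous_finsetSum _ fun j _ => ((hF j).continuous.norm).pow 2

lemma trip_N1 (h : GoodDef r e) (hC : 0 < C1) (hF : ∀ j, IsTest (Om r) (F j))
    (hst2 : ∀ x ∈ KF F, st =ᶠ[𝓝 x] sF r) :
    ‖(tTrip (Om r) (wB1 r C1 k) (wB2 r C1 k) (wB3 r C1 k) F).1‖ ^ 2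
      = ∫ x, (1 + Ak C1 k * th (st x - k)) * nsq (fun j => F j x) * Real.exp (-phF st C1 k x) := by
  rw [trip_norm1 h.isOpen (h.fac2 hC k) hF]
  rw [setIntegral_eq_integral_of_forall_compl_eq_zero]
  · congr 1; ext x
    by_cases hx : x ∈ KF F
    · rw [wB2_sq hC (hst2 x hx).eq_of_nhds]; ring
    · rw [nsq_zero_of (zero_of_notMem_KF hx)]; simp
  · intro x hx
    rw [nsq_zero_of (zero_of_notMem_KF fun h' => hx (KF_subset hF h'))]; simp

/-- integrals against the weight -/
noncomputable def IW (st : (Fin n → ℂ) → ℝ) (C1 : ℝ) (k : ℕ) (g : (Fin n → ℂ) → ℝ) : ℝ :=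
  ∫ x, g x * Real.exp (-phF st C1 k x)

lemma integrable_IW (hF : ∀ j, IsTest (Om r) (F j)) (hst : ContDiff ℝ ∞ st)
    {g : (Fin n → ℂ) → ℝ} (hg : Continuous g)
    (hg0 : ∀ x, (∀ j, F j x = 0) → (∀ j, fderiv ℝ (F j) x = 0) → g x = 0) :
    Integrable (fun x => g x * Real.exp (-phF st C1 k x)) := by
  apply Continuous.integrable_of_hasCompactSupport
  · exact hg.mul (continuous_expF hst)
  · apply hasCompactSupport_of_local (F := F) fun j => (hF j).2.1
    intro x h1 h2
    rw [hg0 x h1 h2]; simp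

lemma IW_mono (hF : ∀ j, IsTest (Om r) (F j)) (hst : ContDiff ℝ ∞ st)
    {g g' : (Fin n → ℂ) → ℝ} (hg : Continuous g)
    (hg0 : ∀ x, (∀ j, F j x = 0) → (∀ j, fderiv ℝ (F j) x = 0) → g x = 0) (hg' : Continuous g')
    (hg0' : ∀ x, (∀ j, F j x = 0) → (∀ j, fderiv ℝ (F j) x = 0) → g' x = 0)
    (hle : ∀ x ∈ KF F, g x ≤ g' x) : IW st C1 k g ≤ IW st C1 k g' := by
  refine integral_mono (integrable_IW hF hst hg hg0) (integrable_IW hF hst hg' hg0') fun x => ?_
  by_cases hx : x ∈ KF F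
  · exact mul_le_mul_of_nonneg_right (hle x hx) (Real.exp_pos _).le
  · simp only
    rw [hg0 x (zero_of_notMem_KF hx) (fderiv_zero_of_notMem_KF hx),
      hg0' x (zero_of_notMem_KF hx) (fderiv_zero_of_notMem_KF hx)]

lemma continuous_PF (hF : ∀ j, ContDiff ℝ ∞ (F j)) (hst : ContDiff ℝ ∞ st) :
    Continuous (PF st C1 k F) := by
  unfold PF
  exact (continuous_const.mul (th1_continuous.comp (hst.continuous.sub continuous_const))).mul
      (continuous_Lev hst fun j => (hF j).continuous)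

lemma PF_zero_of {x : Fin n → ℂ} (h : ∀ j, F j x = 0) : PF st C1 k F x = 0 := by
  unfold PF; rw [Lev_zero_of h]; simp

lemma GoodDef.PF_ge (h : GoodDef r e) (hC : 0 < C1) (hF : ∀ j, IsTest (Om r) (F j))
    (hst2 : ∀ x ∈ KF F, st =ᶠ[𝓝 x] sF r) {x : Fin n → ℂ} (hx : x ∈ KF F) :
    Kk C1 k * th1 (st x - k) * (Lev r x (fun j => F j x) / (-r x) + 4 * nsq (fun j => F j x))
      ≤ PF st C1 k F x := by
  unfold PF
  have h1 : Lev st x (fun j => F j x) = Lev (sF r) x (fun j => F j x) := Lev_congr (hst2 x hx) _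
  rw [h1]
  have h2 := h.Lev_sF_ge (KF_subset hF hx) (fun j => F j x)
  have h3 := th1_nonneg (st x - k)
  have h4 := Kk_pos (k := k) hC
  exact mul_le_mul_of_nonneg_left h2 (by positivity)

lemma GoodDef.PF_ge' (h : GoodDef r e) (hC : 0 < C1) (hF : ∀ j, IsTest (Om r) (F j))
    (hst2 : ∀ x ∈ KF F, st =ᶠ[𝓝 x] sF r) {x : Fin n → ℂ} (hx : x ∈ KF F) :
    16 * (k + 1) * (Ak C1 k * th (st x - k) * nsq (fun j => F j x)) ≤ PF st C1 k F x := by
  refine le_trans ?_ (h.PF_ge hC hF hst2 hx)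
  have h0 : r x < 0 := KF_subset hF hx
  have h2 := div_nonneg (h.psh x h0 (fun j => F j x)) (by linarith : 0 ≤ -r x)
  have h3 := th1_ge (st x - k)
  have h3' := th_nonneg (st x - k)
  have h4 := Ak_pos (k := k) hC
  have h5 := nsq_nonneg (fun j => F j x)
  have h6 : (0:ℝ) ≤ k := Nat.cast_nonneg k
  have h7 : Kk C1 k * th1 (st x - k) * (4 * nsq (fun j => F j x))
      ≤ Kk C1 k * th1 (st x - k) * (Lev r x (fun j => F j x) / (-r x) + 4 * nsq (fun j => F j x)) := by
    refine mul_le_mul_of_nonneg_left (by linarith) ?_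
    have := Kk_pos (k := k) hC
    have := th1_nonneg (st x - k)
    positivity
  refine le_trans ?_ h7
  unfold Kk
  have h8 : 16 * (k + 1) * (Ak C1 k * th (st x - k) * nsq (fun j => F j x))
      = 2 * (k + 1) * Ak C1 k * (2 * th (st x - k)) * (4 * nsq (fun j => F j x)) := by ring
  rw [h8]
  gcongr

/-- **The uniform a priori estimate.** -/
theorem GoodDef.apriori_nsq (h : GoodDef r e) (hC : 0 < C1) (hF : ∀ j, IsTest (Om r) (F j))
    (hst : ContDiff ℝ ∞ st) (hst2 : ∀ x ∈ KF F, st =ᶠ[𝓝 x] sF r) :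
    IW st C1 k (fun x => Grd F x + (1 / 4) * PF st C1 k F x + (1 / 48) * nsq (fun j => F j x))
      ≤ 6 * QF st C1 k F := by
  have hF1 : ∀ j, ContDiff ℝ ∞ (F j) := fun j => (hF j).1
  have hlam : ContDiff ℝ ∞ (fun z : Fin n → ℂ => (1 / 24) * nsq z) := contDiff_const.mul contDiff_nsq
  have hm := h.main_est (k := k) hC hF hst hst2 hlam ?_ ?_
  · refine le_trans (le_of_eq ?_) hm
    unfold IW
    congr 1; ext x
    rw [Lev_const_mul (1 / 24) (contDiff_nsq.contDiffAt.of_le two_le_infty), Lev_nsq]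
    ring
  · intro x hx w
    rw [Lev_const_mul (1 / 24) (contDiff_nsq.contDiffAt.of_le two_le_infty), Lev_nsq,
      Gam_const_mul (1 / 24) ((contDiff_nsq.differentiable (by simp)) x)]
    have h1 := Gam_nsq_le x w
    have h2 := h.bdd x hx
    have h3 := nsq_nonneg w
    have h4 : nsq x * nsq w ≤ 4 * nsq w := mul_le_mul_of_nonneg_right h2 h3
    nlinarith
  · intro x hx
    have h1 := nsq_nonneg x
    have h2 := h.bdd x hx
    constructor <;> linarith

lemma IW_nonneg {g : (Fin n → ℂ) → ℝ} (hg : ∀ x, 0 ≤ g x) : 0 ≤ IW st C1 k g :=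
  integral_nonneg fun x => mul_nonneg (hg x) (Real.exp_pos _).le

lemma QF_nonneg : 0 ≤ QF st C1 k F :=
  integral_nonneg fun x => mul_nonneg (add_nonneg (by positivity) (Sop_nonneg F x)) (Real.exp_pos _).le

/-- consequences of the uniform estimate -/
theorem GoodDef.apriori_cor (h : GoodDef r e) (hC : 0 < C1) (hF : ∀ j, IsTest (Om r) (F j))
    (hst : ContDiff ℝ ∞ st) (hst2 : ∀ x ∈ KF F, st =ᶠ[𝓝 x] sF r) :
    IW st C1 k (Grd F) ≤ 6 * QF st C1 k F ∧
    IW st C1 k (fun x => Ak C1 k * th (st x - k) * nsq (fun j => F j x))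
      ≤ 2 / (k + 1) * QF st C1 k F ∧
    IW st C1 k (fun x => nsq (fun j => F j x)) ≤ 288 * QF st C1 k F ∧
    IW st C1 k (PF st C1 k F) ≤ 24 * QF st C1 k F := by
  have hF1 : ∀ j, ContDiff ℝ ∞ (F j) := fun j => (hF j).1
  have hm := h.apriori_nsq (k := k) hC hF hst hst2
  have cX : Continuous (fun x => Grd F x + (1 / 4) * PF st C1 k F x
      + (1 / 48) * nsq (fun j => F j x)) :=
    ((continuous_Grd hF1).add (continuous_const.mul (continuous_PF hF1 hst))).add
      (continuous_const.mul (continuous_nsqF hF1))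
  have zX : ∀ x, (∀ j, F j x = 0) → (∀ j, fderiv ℝ (F j) x = 0) →
      Grd F x + (1 / 4) * PF st C1 k F x + (1 / 48) * nsq (fun j => F j x) = 0 := by
    intro x h1 h2
    rw [Grd_zero_of h2, PF_zero_of h1, nsq_zero_of h1]; simp
  have hP : ∀ x ∈ KF F, 0 ≤ PF st C1 k F x := by
    intro x hx
    refine le_trans ?_ (h.PF_ge' hC hF hst2 hx)
    have h3' := th_nonneg (st x - k)
    have h4 := Ak_pos (k := k) hC
    have h5 := nsq_nonneg (fun j => F j x)
    positivity
  have hk : (0:ℝ) < (k:ℝ) + 1 := by positivity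
  refine ⟨?_, ?_, ?_, ?_⟩
  · refine le_trans (IW_mono hF hst (continuous_Grd hF1) (fun x _ h2 => Grd_zero_of h2) cX zX ?_) hm
    intro x hx
    have := hP x hx
    have := nsq_nonneg (fun j => F j x)
    linarith
  · have h1 : IW st C1 k (fun x => 4 * (k + 1) * (Ak C1 k * th (st x - k) * nsq (fun j => F j x)))
        ≤ 6 * QF st C1 k F := by
      refine le_trans (IW_mono hF hst ?_ ?_ cX zX ?_) hm
      · exact continuous_const.mul ((continuous_const.mul (th_contDiff.continuous.comp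
          (hst.continuous.sub continuous_const))).mul (continuous_nsqF hF1))
      · intro x h1 _
        rw [nsq_zero_of h1]; simp
      · intro x hx
        have h2 := h.PF_ge' (k := k) hC hF hst2 hx
        have := nsq_nonneg (fun j => F j x)
        have := Grd_nonneg F x
        linarith
    have h2 : IW st C1 k (fun x => 4 * (k + 1) * (Ak C1 k * th (st x - k) * nsq (fun j => F j x)))
        = 4 * (k + 1) * IW st C1 k (fun x => Ak C1 k * th (st x - k) * nsq (fun j => F j x)) := by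
      unfold IW
      rw [← integral_const_mul]
      congr 1; ext x; ring
    rw [h2] at h1
    have hQ := QF_nonneg (st := st) (C1 := C1) (k := k) (F := F)
    rw [div_mul_eq_mul_div, le_div_iff₀ hk]
    nlinarith
  · have h1 : IW st C1 k (fun x => (1 / 48) * nsq (fun j => F j x)) ≤ 6 * QF st C1 k F := by
      refine le_trans (IW_mono hF hst ?_ ?_ cX zX ?_) hm
      · exact continuous_const.mul (continuous_nsqF hF1)
      · intro x h1 _
        rw [nsq_zero_of h1]; simp
      · intro x hx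
        have := hP x hx
        have := Grd_nonneg F x
        linarith
    have h2 : IW st C1 k (fun x => (1 / 48) * nsq (fun j => F j x))
        = (1 / 48) * IW st C1 k (fun x => nsq (fun j => F j x)) := by
      unfold IW
      rw [← integral_const_mul]
      congr 1; ext x; ring
    rw [h2] at h1
    linarith
  · have h1 : IW st C1 k (fun x => (1 / 4) * PF st C1 k F x) ≤ 6 * QF st C1 k F := by
      refine le_trans (IW_mono hF hst ?_ ?_ cX zX ?_) hm
      · exact continuous_const.mul (continuous_PF hF1 hst)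
      · intro x h1 _
        rw [PF_zero_of h1]; simp
      · intro x hx
        have := nsq_nonneg (fun j => F j x)
        have := Grd_nonneg F x
        linarith
    have h2 : IW st C1 k (fun x => (1 / 4) * PF st C1 k F x)
        = (1 / 4) * IW st C1 k (PF st C1 k F) := by
      unfold IW
      rw [← integral_const_mul]
      congr 1; ext x; ring
    rw [h2] at h1
    linarith

/-- splitting of the first component -/
lemma GoodDef.trip_N1_split (h : GoodDef r e) (hC : 0 < C1) (hF : ∀ j, IsTest (Om r) (F j))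
    (hst : ContDiff ℝ ∞ st) (hst2 : ∀ x ∈ KF F, st =ᶠ[𝓝 x] sF r) :
    ‖(tTrip (Om r) (wB1 r C1 k) (wB2 r C1 k) (wB3 r C1 k) F).1‖ ^ 2
      = IW st C1 k (fun x => nsq (fun j => F j x))
        + IW st C1 k (fun x => Ak C1 k * th (st x - k) * nsq (fun j => F j x)) := by
  have hF1 : ∀ j, ContDiff ℝ ∞ (F j) := fun j => (hF j).1
  rw [trip_N1 h hC hF hst2]
  unfold IW
  rw [← integral_add]
  · congr 1; ext x; ring
  · exact integrable_IW hF hst (continuous_nsqF hF1) fun x h1 _ => nsq_zero_of h1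
  · refine integrable_IW hF hst ?_ fun x h1 _ => by rw [nsq_zero_of h1]; simp
    exact ((continuous_const.mul (th_contDiff.continuous.comp
          (hst.continuous.sub continuous_const))).mul (continuous_nsqF hF1))

/-- **(B)** the uniform estimate in the form needed for the functional analysis -/
theorem GoodDef.est_B (h : GoodDef r e) (hC : 0 < C1) (hF : ∀ j, IsTest (Om r) (F j)) :
    ‖(tTrip (Om r) (wB1 r C1 k) (wB2 r C1 k) (wB3 r C1 k) F).1‖ ^ 2
      ≤ 290 * (‖(tTrip (Om r) (wB1 r C1 k) (wB2 r C1 k) (wB3 r C1 k) F).2.1‖ ^ 2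
      + ‖(tTrip (Om r) (wB1 r C1 k) (wB2 r C1 k) (wB3 r C1 k) F).2.2‖ ^ 2) := by
  obtain ⟨st, hst, hst2⟩ := h.exists_st hF
  rw [trip_QF h hC hF hst hst2, h.trip_N1_split hC hF hst hst2]
  obtain ⟨_, h2, h3, _⟩ := h.apriori_cor (k := k) hC hF hst hst2
  have hQ := QF_nonneg (st := st) (C1 := C1) (k := k) (F := F)
  have h4 : 2 / ((k:ℝ) + 1) * QF st C1 k F ≤ 2 * QF st C1 k F := by
    refine mul_le_mul_of_nonneg_right ?_ hQ
    rw [div_le_iff₀ (by positivity)]
    have : (0:ℝ) ≤ k := Nat.cast_nonneg k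
    linarith
  linarith

end trips

end Pool.Agent.DBar74
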