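import Pool.Agent.DBar74.Spaces

open MeasureTheory Filter Topology Complex
open scoped ENNReal ContDiff ComplexConjugate InnerProductSpace

namespace Pool.Agent.DBar74

variable {n : ℕ}

section relations

variable (Ω : Set (Fin n → ℂ)) (b1 b2 b3 : (Fin n → ℂ) → ℝ)

/-- projection to a component of a `(0,1)`-form -/
noncomputable def c1 (j : Fin n) : Form1 Ω →L[ℂ] L2 Ω := PiLp.proj 2 (fun _ : Fin n => L2 Ω) j

/-- projection to a component of a `(0,2)`-form -/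
noncomputable def c2 (i : Idx2 n) : Form2 Ω →L[ℂ] L2 Ω := PiLp.proj 2 (fun _ : Idx2 n => L2 Ω) i

@[simp] lemma c1_apply (j : Fin n) (f : Form1 Ω) : c1 Ω j f = f j := rfl
@[simp] lemma c2_apply (i : Idx2 n) (f : Form2 Ω) : c2 Ω i f = f i := rfl

/-- The functionals defining the conjugated weak `∂̄` on functions. -/
noncomputable def TFun (χ : (Fin n → ℂ) → ℂ) (j : Fin n) : L2 Ω × Form1 Ω →L[ℂ] ℂ :=
  (pr Ω (fun x => (b1 x : ℂ)⁻¹ * dzb j χ x)) ∘L (ContinuousLinearMap.fst ℂ (L2 Ω) (Form1 Ω)) +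
    (pr Ω (fun x => (b2 x : ℂ)⁻¹ * χ x)) ∘L (c1 Ω j) ∘L (ContinuousLinearMap.snd ℂ (L2 Ω) (Form1 Ω))

/-- The functionals defining the conjugated weak `∂̄` on `(0,1)`-forms. -/
noncomputable def SFun (χ : (Fin n → ℂ) → ℂ) (i : Idx2 n) : Form1 Ω × Form2 Ω →L[ℂ] ℂ :=
  (pr Ω (fun x => (b2 x : ℂ)⁻¹ * dzb i.1.1 χ x)) ∘L (c1 Ω i.1.2) ∘L
      (ContinuousLinearMap.fst ℂ (Form1 Ω) (Form2 Ω)) -
    (pr Ω (fun x => (b2 x : ℂ)⁻¹ * dzb i.1.2 χ x)) ∘L (c1 Ω i.1.1) ∘L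
      (ContinuousLinearMap.fst ℂ (Form1 Ω) (Form2 Ω)) +
    (pr Ω (fun x => (b3 x : ℂ)⁻¹ * χ x)) ∘L (c2 Ω i) ∘L
      (ContinuousLinearMap.snd ℂ (Form1 Ω) (Form2 Ω))

/-- the conjugated weak `∂̄` on functions: `∂̄ (v / b1) = w / b2`. -/
noncomputable def TRel : Submodule ℂ (L2 Ω × Form1 Ω) :=
  ⨅ (χ : (Fin n → ℂ) → ℂ) (_ : IsTest Ω χ) (j : Fin n), (TFun Ω b1 b2 χ j).ker

/-- the conjugated weak `∂̄` on forms: `∂̄ (f / b2) = h / b3`. -/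
noncomputable def SRel : Submodule ℂ (Form1 Ω × Form2 Ω) :=
  ⨅ (χ : (Fin n → ℂ) → ℂ) (_ : IsTest Ω χ) (i : Idx2 n), (SFun Ω b2 b3 χ i).ker

variable {Ω b1 b2 b3}

lemma mem_TRel {p : L2 Ω × Form1 Ω} : p ∈ TRel Ω b1 b2 ↔ ∀ χ, IsTest Ω χ → ∀ j,
    pr Ω (fun x => (b1 x : ℂ)⁻¹ * dzb j χ x) p.1 + pr Ω (fun x => (b2 x : ℂ)⁻¹ * χ x) (p.2 j) = 0 := by
  simp only [TRel, Submodule.mem_iInf]
  rfl

lemma mem_SRel {p : Form1 Ω × Form2 Ω} : p ∈ SRel Ω b2 b3 ↔ ∀ χ, IsTest Ω χ → ∀ i : Idx2 n,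
    pr Ω (fun x => (b2 x : ℂ)⁻¹ * dzb i.1.1 χ x) (p.1 i.1.2)
      - pr Ω (fun x => (b2 x : ℂ)⁻¹ * dzb i.1.2 χ x) (p.1 i.1.1)
      + pr Ω (fun x => (b3 x : ℂ)⁻¹ * χ x) (p.2 i) = 0 := by
  simp only [SRel, Submodule.mem_iInf]
  rfl

lemma isClosed_TRel : IsClosed (TRel Ω b1 b2 : Set (L2 Ω × Form1 Ω)) := by
  unfold TRel
  simp only [Submodule.coe_iInf]
  refine isClosed_iInter fun χ => isClosed_iInter fun _ => isClosed_iInter fun j => ?_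
  exact (TFun Ω b1 b2 χ j).isClosed_ker

lemma isClosed_SRel : IsClosed (SRel Ω b2 b3 : Set (Form1 Ω × Form2 Ω)) := by
  unfold SRel
  simp only [Submodule.coe_iInf]
  refine isClosed_iInter fun χ => isClosed_iInter fun _ => isClosed_iInter fun j => ?_
  exact (SFun Ω b2 b3 χ j).isClosed_ker

/-- `∂̄ ∘ ∂̄ = 0` -/
lemma TRel_SRel {p : L2 Ω × Form1 Ω} (hp : p ∈ TRel Ω b1 b2) : (p.2, (0 : Form2 Ω)) ∈ SRel Ω b2 b3 := by
  rw [mem_TRel] at hp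
  rw [mem_SRel]
  intro χ hχ i
  have h1 := hp _ (hχ.dzb i.1.1) i.1.2
  have h2 := hp _ (hχ.dzb i.1.2) i.1.1
  have h3 : (fun x => (b1 x : ℂ)⁻¹ * dzb i.1.2 (dzb i.1.1 χ) x)
      = fun x => (b1 x : ℂ)⁻¹ * dzb i.1.1 (dzb i.1.2 χ) x := by
    ext x; rw [dzb_dzb_comm hχ.1]
  rw [h3] at h1
  simp only [PiLp.zero_apply, map_zero, add_zero]
  linear_combination h1 - h2

end relations

section elements

variable {Ω : Set (Fin n → ℂ)}

open Classical in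
/-- the class of a function -/
noncomputable def tl (Ω : Set (Fin n → ℂ)) (g : (Fin n → ℂ) → ℂ) : L2 Ω :=
  if h : MemLp g 2 (volume.restrict Ω) then h.toLp g else 0

lemma tl_coe {g : (Fin n → ℂ) → ℂ} (h : MemLp g 2 (volume.restrict Ω)) :
    (tl Ω g : (Fin n → ℂ) → ℂ) =ᵐ[volume.restrict Ω] g := by
  unfold tl; rw [dif_pos h]; exact h.coeFn_toLp

lemma tl_norm {g : (Fin n → ℂ) → ℂ} (h : MemLp g 2 (volume.restrict Ω)) :
    ‖tl Ω g‖ = (eLpNorm g 2 (volume.restrict Ω)).toReal := by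
  unfold tl; rw [dif_pos h]; exact Lp.norm_toLp g h

lemma tl_norm_sq {g : (Fin n → ℂ) → ℂ} (h : MemLp g 2 (volume.restrict Ω)) :
    ‖tl Ω g‖ ^ 2 = ∫ x in Ω, ‖g x‖ ^ 2 := by
  have h1 : ((‖tl Ω g‖ ^ 2 : ℝ) : ℂ) = ⟪tl Ω g, tl Ω g⟫_ℂ := by
    rw [inner_self_eq_norm_sq_to_K]; norm_cast
  rw [inner_eq_integral] at h1
  have h2 : ∫ x in Ω, (tl Ω g) x * conj ((tl Ω g) x) = ∫ x in Ω, ((‖g x‖ ^ 2 : ℝ) : ℂ) := by
    apply integral_congr_ae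
    filter_upwards [tl_coe h] with x hx
    rw [hx, Complex.mul_conj, Complex.normSq_eq_norm_sq]
  rw [h2, integral_complex_ofReal] at h1
  exact Complex.ofReal_injective h1

lemma pr_tl {g t : (Fin n → ℂ) → ℂ} (hg : MemLp g 2 (volume.restrict Ω))
    (ht : MemLp t 2 (volume.restrict Ω)) : pr Ω t (tl Ω g) = ∫ x in Ω, g x * t x := by
  rw [pr_apply ht]
  apply integral_congr_ae
  filter_upwards [tl_coe hg] with x hx
  rw [hx]

lemma integral_dzb_mul {χ χ' : (Fin n → ℂ) → ℂ} {j : Fin n} (h : ContDiff ℝ ∞ χ)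
    (h' : ContDiff ℝ ∞ χ') (hc : HasCompactSupport χ') :
    ∫ x, χ x * dzb j χ' x = - ∫ x, dzb j χ x * χ' x := by
  have h1 := integral_dzb_eq_zero (g := fun x => χ x * χ' x) ((h.mul h').of_le (by simp))
    (hc.mul_left) j
  have h2 : ∀ x, dzb j (fun x => χ x * χ' x) x = dzb j χ x * χ' x + χ x * dzb j χ' x := fun x =>
    dzb_mul (differentiable_of_smooth h x) (differentiable_of_smooth h' x)
  simp_rw [h2] at h1
  rw [integral_add] at h1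
  · linear_combination h1
  · exact (((contDiff_dzb h j).mul h').continuous).integrable_of_hasCompactSupport hc.mul_left
  · exact ((h.mul (contDiff_dzb h' j)).continuous).integrable_of_hasCompactSupport
      (HasCompactSupport.dzb hc j).mul_left

lemma setIntegral_test {χ g : (Fin n → ℂ) → ℂ} (h : IsTest Ω χ) :
    ∫ x in Ω, g x * χ x = ∫ x, g x * χ x := by
  apply setIntegral_eq_integral_of_forall_compl_eq_zero
  intro x hx
  rw [h.zero_outside hx, mul_zero]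

end elements

end Pool.Agent.DBar74
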